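import Pool.Agent.N916.MO.Lk
import Pool.Agent.N972.P17.Defs3

/-!
# MO: the criteria `Sx` and `Sr` of project P17 in terms of symbols
-/

set_option autoImplicit false
set_option linter.all false

open scoped Classical

namespace Pool.Agent.N916.MO

open Finset
open Pool.Agent.N916.GB (pt ps sx Po Vt sy)
open Pool.Agent.Y703.CQ (c2 nr)
open Pool.Agent.N973.ND (uu nr_rec nr_self)
open Pool.Agent.N958.GB (NR ud wd z2 mem_Vt Vt_sub sy_ne sy_two)
open Pool.Agent.N972.P17 (ls LL al nu Sx Sr)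

/-! ### Symbols -/

/-- the additive value of a sign -/
def j01 (x : ℤ) : ZMod 2 := if x = 1 then 0 else 1

theorem j01_mul {x y : ℤ} (hx : x = 1 ∨ x = -1) (hy : y = 1 ∨ y = -1) :
    j01 (x * y) = j01 x + j01 y := by
  rcases hx with rfl | rfl <;> rcases hy with rfl | rfl <;> decide

theorem jpm {a : ℤ} {p : ℕ} (hp : p.Prime) (h : ¬ (p : ℤ) ∣ a) :
    jacobiSym a p = 1 ∨ jacobiSym a p = -1 := by
  haveI : Fact p.Prime := ⟨hp⟩
  rw [← jacobiSym.legendreSym.to_jacobiSym]
  refine legendreSym.eq_one_or_neg_one p ?_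
  rw [Ne, ZMod.intCast_zmod_eq_zero_iff_dvd]
  exact h

theorem nr_j {p q : ℕ} (hq : q.Prime) (h : ¬ q ∣ p) : nr q p = j01 (jacobiSym p q) := by
  haveI : Fact q.Prime := ⟨hq⟩
  rw [← jacobiSym.legendreSym.to_jacobiSym]
  have h0 : ((p : ℤ) : ZMod q) ≠ 0 := by
    rw [Int.cast_natCast, Ne, ZMod.natCast_eq_zero_iff]
    exact h
  unfold nr j01
  have h1 := legendreSym.eq_one_iff q h0
  rw [Int.cast_natCast] at h1
  by_cases hs : IsSquare (p : ZMod q)
  · rw [if_pos hs, if_pos (h1.2 hs)]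
  · rw [if_neg hs, if_neg fun h' => hs (h1.1 h')]

theorem nd_pp {p q : ℕ} (hp : p.Prime) (hq : q.Prime) (h : p ≠ q) : ¬ (p : ℤ) ∣ (q : ℤ) := by
  rw [Int.natCast_dvd_natCast]
  exact fun h' => h ((Nat.prime_dvd_prime_iff_eq hp hq).1 h')

theorem nd_p1 {p : ℕ} (hp : p.Prime) : ¬ (p : ℤ) ∣ (-1 : ℤ) := by
  rw [Int.dvd_neg]
  intro h
  have : (p : ℤ) ∣ ((1 : ℕ) : ℤ) := by exact_mod_cast h
  rw [Int.natCast_dvd_natCast] at this
  exact hp.one_lt.ne' (Nat.dvd_one.1 this)

theorem uu_j {p : ℕ} (hp : Po p) : uu p = j01 (jacobiSym (-1) p) := by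
  have hodd : Odd p := hp.1.eq_two_or_odd'.resolve_left hp.2
  rw [jacobiSym.at_neg_one hodd, ZMod.χ₄_nat_eq_if_mod_four]
  have h2 : p % 2 = 1 := Nat.odd_iff.1 hodd
  unfold uu
  rw [if_neg (by omega : ¬ p % 2 = 0)]
  rcases (by omega : p % 4 = 1 ∨ p % 4 = 3) with h | h
  · rw [if_neg (by omega), if_pos h]
    rfl
  · rw [if_pos h, if_neg (by omega)]
    rfl

/-! ### The entries -/

/-- the parameters at `2` -/
def Par (n : ℕ) (t : Bool) (r s : ZMod 2) : Prop :=
  (t = false → n % 2 = 1) ∧ (t = true → (n % 16 = 4 ∧ r = 0 ∧ s = 1) ∨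
    (n % 32 = 8 ∧ r = 1 ∧ s = 1) ∨ (n % 32 = 24 ∧ r = 1 ∧ s = 0))

theorem star2 {n : ℕ} {r s : ZMod 2} (h : Par n true r s) :
    (Pool.Agent.N972.P17.star n 2 = -4 ∧ r = 0 ∧ s = 1) ∨ (Pool.Agent.N972.P17.star n 2 = -8 ∧ r = 1 ∧ s = 1) ∨
      (Pool.Agent.N972.P17.star n 2 = 8 ∧ r = 1 ∧ s = 0) := by
  unfold Pool.Agent.N972.P17.star
  rw [if_pos rfl]
  rcases h.2 rfl with ⟨h1, h2, h3⟩ | ⟨h1, h2, h3⟩ | ⟨h1, h2, h3⟩
  · rw [if_pos h1]
    exact Or.inl ⟨rfl, h2, h3⟩
  · rw [if_neg (by omega), if_pos h1]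
    exact Or.inr (Or.inl ⟨rfl, h2, h3⟩)
  · rw [if_neg (by omega), if_neg (by omega)]
    exact Or.inr (Or.inr ⟨rfl, h2, h3⟩)

theorem al_ud {n : ℕ} {t : Bool} {r s : ZMod 2} (h : Par n t r s) {q : ℕ} (hq : q.Prime)
    (h2 : q = 2 → t = true) : al n q = if q = 2 then s else uu q := by
  unfold al
  by_cases hq2 : q = 2
  · have ht := h2 hq2
    subst ht
    rw [if_pos hq2, hq2]
    rcases star2 h with ⟨h1, -, h3⟩ | ⟨h1, -, h3⟩ | ⟨h1, -, h3⟩ <;> rw [h1, h3] <;> norm_num
  · rw [if_neg hq2]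
    unfold Pool.Agent.N972.P17.star uu
    rw [if_neg hq2]
    have h0 : (0 : ℤ) < q := by exact_mod_cast hq.pos
    have hodd := hq.eq_two_or_odd.resolve_left hq2
    rcases (by omega : q % 4 = 1 ∨ q % 4 = 3) with h4 | h4
    · rw [if_pos h4, if_neg (by omega : ¬ (q : ℤ) < 0), if_neg (by omega : ¬ q % 4 = 3)]
    · rw [if_neg (by omega : ¬ q % 4 = 1), if_pos (by omega : -(q : ℤ) < 0), if_pos h4]

theorem ls_sy {n : ℕ} {t : Bool} {r s : ZMod 2} (h : Par n t r s) {p q : ℕ} (hp : p.Prime)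
    (hq : q.Prime) (hpq : p ≠ q) (h2 : p = 2 ∨ q = 2 → t = true) : ls n q p = sy r s p q := by
  unfold ls
  by_cases hp2 : p = 2
  · rw [if_pos hp2]
    have hq2 : q ≠ 2 := fun h' => hpq (hp2.trans h'.symm)
    have hodd := hq.eq_two_or_odd.resolve_left hq2
    rw [sy_ne r s hq2, hp2, Pool.Agent.N19.GB.nr_two hq hq2]
    unfold Pool.Agent.N972.P17.star
    rw [if_neg hq2]
    by_cases h4 : q % 4 = 1
    · rw [if_pos h4]
      by_cases h8 : q % 8 = 1 ∨ q % 8 = 7
      · rw [if_pos h8, if_pos (by omega)]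
      · rw [if_neg h8, if_neg (by omega)]
    · rw [if_neg h4]
      by_cases h8 : q % 8 = 1 ∨ q % 8 = 7
      · rw [if_pos h8, if_pos (by omega)]
      · rw [if_neg h8, if_neg (by omega)]
  · rw [if_neg hp2]
    have hpo : Po p := ⟨hp, hp2⟩
    show j01 (jacobiSym (Pool.Agent.N972.P17.star n q) p) = _
    have h2p : ¬ (p : ℤ) ∣ ((2 : ℕ) : ℤ) := nd_pp hp Nat.prime_two hp2
    have hnr2 : nr p 2 = j01 (jacobiSym 2 p) := by
      have := nr_j hp (p := 2) (fun h => h2p (Int.natCast_dvd_natCast.2 h))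
      rw [this]
      norm_cast
    have h22 : jacobiSym 2 p = 1 ∨ jacobiSym 2 p = -1 := by
      have := jpm hp h2p
      exact_mod_cast this
    have hn1 := jpm hp (nd_p1 hp)
    have sq : jacobiSym 2 p * jacobiSym 2 p = 1 := by
      rcases h22 with h | h <;> rw [h] <;> norm_num
    by_cases hq2 : q = 2
    · have ht := h2 (Or.inr hq2)
      subst ht
      rw [hq2, sy_two, hnr2, uu_j hpo]
      rcases star2 h with ⟨h1, h3, h4⟩ | ⟨h1, h3, h4⟩ | ⟨h1, h3, h4⟩ <;> rw [h1, h3, h4]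
      · rw [show (-4 : ℤ) = -1 * (2 * 2) by norm_num, jacobiSym.mul_left, jacobiSym.mul_left, sq,
          mul_one, zero_mul, one_mul, zero_add]
      · rw [show (-8 : ℤ) = -1 * (2 * (2 * 2)) by norm_num, jacobiSym.mul_left,
          jacobiSym.mul_left, jacobiSym.mul_left, sq, mul_one, one_mul, one_mul,
          j01_mul hn1 h22, add_comm]
      · rw [show (8 : ℤ) = 2 * (2 * 2) by norm_num, jacobiSym.mul_left, jacobiSym.mul_left, sq,
          mul_one, zero_mul, one_mul, add_zero]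
    · rw [sy_ne r s hq2]
      have hqp : jacobiSym q p = 1 ∨ jacobiSym q p = -1 := jpm hp (nd_pp hp hq hpq)
      have e1 : j01 (jacobiSym q p) = nr p q :=
        (nr_j hp fun h => nd_pp hp hq hpq (Int.natCast_dvd_natCast.2 h)).symm
      have e2 := nr_rec hp hp2 hq hq2 hpq
      have hodd := hq.eq_two_or_odd.resolve_left hq2
      unfold Pool.Agent.N972.P17.star
      rw [if_neg hq2]
      by_cases h4 : q % 4 = 1
      · rw [if_pos h4, e1, e2]
        have : uu q = 0 := by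
          unfold uu
          rw [if_neg (by omega)]
        rw [this, mul_zero, add_zero]
      · rw [if_neg h4, show (-(q : ℤ)) = -1 * q by ring, jacobiSym.mul_left, j01_mul hn1 hqp, e1, e2,
          ← uu_j hpo]
        have : uu q = 1 := by
          unfold uu
          rw [if_pos (by omega)]
        rw [this, mul_one, add_comm]

theorem nu_nr {p : ℕ} (hp : p.Prime) (h : p ≠ 17) : nu p = nr p 17 := by
  unfold nu
  by_cases h2 : p = 2
  · rw [if_pos h2, h2, nr2_17]
  · rw [if_neg h2]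
    have := nr_j hp (p := 17) (fun h' => h ((Nat.prime_dvd_prime_iff_eq hp p17).1 h'))
    rw [this]
    unfold j01
    norm_cast

/-! ### The criteria -/

section
variable {n M : ℕ} {t : Bool} {r s : ZMod 2}

/-- the sum over the other primes -/
theorem sum_er (S : Finset ℕ) (f : ℕ → ZMod 2) (p : S) :
    ∑ q ∈ S.erase p, f q = ∑ k : S, (if k = p then 0 else f k) := by
  have h1 : ∑ k : S, (if k = p then 0 else f k) = ∑ k : S, (if (k : ℕ) = p then 0 else f k) := by
    refine sum_congr rfl fun k _ => ?_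
    by_cases h : k = p
    · rw [if_pos h, if_pos (by rw [h])]
    · rw [if_neg h, if_neg (fun h' => h (Subtype.ext h'))]
  rw [h1, Finset.sum_coe_sort S (fun k => if k = (p : ℕ) then 0 else f k),
    ← Finset.add_sum_erase S _ p.2, if_pos rfl, zero_add]
  refine sum_congr rfl fun q hq => ?_
  rw [if_neg (ne_of_mem_erase hq)]

theorem LL_Lm (hpar : Par n t r s) (hS : n.primeFactors = Vt t M.primeFactors)
    (hM2 : ¬ 2 ∣ M) (p q : (Vt t M.primeFactors : Finset ℕ)) :
    LL n p q = Lm (NR r s fun i : (Vt t M.primeFactors : Finset ℕ) => (i : ℕ)) p q := by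
  have hpr : ∀ v ∈ Vt t M.primeFactors, v.Prime := by
    intro v hv
    rw [← hS] at hv
    exact Nat.prime_of_mem_primeFactors hv
  have h2 : ∀ v ∈ Vt t M.primeFactors, v = 2 → t = true := by
    intro v hv hv2
    rcases mem_Vt.1 hv with h | h
    · exact h.1
    · exact absurd (hv2 ▸ Nat.dvd_of_mem_primeFactors h) hM2
  unfold LL Lm
  by_cases h : p = q
  · rw [if_pos (by rw [h]), if_pos h, hS, sum_er]
    refine sum_congr rfl fun k _ => ?_
    by_cases hk : k = p
    · rw [if_pos hk, if_pos hk]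
    · rw [if_neg hk, if_neg hk]
      refine ls_sy hpar (hpr p p.2) (hpr k k.2) (fun h' => hk (Subtype.ext h'.symm)) ?_
      rintro (h' | h')
      · exact h2 p p.2 h'
      · exact h2 k k.2 h'
  · rw [if_neg (fun h' => h (Subtype.ext h')), if_neg h]
    refine ls_sy hpar (hpr p p.2) (hpr q q.2) (fun h' => h (Subtype.ext h')) ?_
    rintro (h' | h')
    · exact h2 p p.2 h'
    · exact h2 q q.2 h'

theorem al_ud' (hpar : Par n t r s) (hS : n.primeFactors = Vt t M.primeFactors)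
    (hM2 : ¬ 2 ∣ M) (q : (Vt t M.primeFactors : Finset ℕ)) :
    al n q = ud s (fun i : (Vt t M.primeFactors : Finset ℕ) => (i : ℕ)) q := by
  refine al_ud hpar ?_ ?_
  · have : (q : ℕ) ∈ n.primeFactors := by
      rw [hS]
      exact q.2
    exact Nat.prime_of_mem_primeFactors this
  · intro hv2
    rcases mem_Vt.1 q.2 with h | h
    · exact h.1
    · exact absurd (hv2 ▸ Nat.dvd_of_mem_primeFactors h) hM2

/-- extension by zero of a function on the primes -/
theorem ext0 (S : Finset ℕ) (x : S → ZMod 2) (v : S) :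
    (fun n : ℕ => if h : n ∈ S then x ⟨n, h⟩ else 0) v = x v := dif_pos v.2

theorem Sx_iff (hpar : Par n t r s) (hS : n.primeFactors = Vt t M.primeFactors)
    (hM2 : ¬ 2 ∣ M) (h17 : ¬ 17 ∣ n) : Sx n ↔ Gu t r s M.primeFactors := by
  have hnu : ∀ v : (Vt t M.primeFactors : Finset ℕ), nu v = nr v 17 := by
    intro v
    have hv : (v : ℕ) ∈ n.primeFactors := by
      rw [hS]
      exact v.2
    refine nu_nr (Nat.prime_of_mem_primeFactors hv) ?_
    intro h
    rw [h] at hv
    exact h17 (Nat.dvd_of_mem_primeFactors hv)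
  unfold Sx Gu Kx
  rw [hS]
  constructor
  · intro h x y h1 h2 i
    have h3 := h (fun n => if h : n ∈ Vt t M.primeFactors then x ⟨n, h⟩ else 0)
      (fun n => if h : n ∈ Vt t M.primeFactors then y ⟨n, h⟩ else 0)
      (fun p hp => by
        have e := h1 ⟨p, hp⟩
        show nu p * (dite _ _ _) + _ = _
        rw [dif_pos hp, hnu ⟨p, hp⟩, ← Finset.sum_coe_sort (Vt t M.primeFactors)]
        refine Eq.trans ?_ e
        congr 1
        refine sum_congr rfl fun q _ => ?_
        rw [dif_pos q.2, LL_Lm hpar hS hM2 ⟨p, hp⟩ q])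
      (fun q hq => by
        have e := h2 ⟨q, hq⟩
        show _ + al n q * (dite _ _ _) = _
        rw [dif_pos hq, al_ud' hpar hS hM2 ⟨q, hq⟩, ← Finset.sum_coe_sort (Vt t M.primeFactors)]
        refine Eq.trans ?_ e
        congr 1
        refine sum_congr rfl fun p _ => ?_
        rw [dif_pos p.2, LL_Lm hpar hS hM2 p ⟨q, hq⟩]) i i.2
    rw [dif_pos i.2, dif_pos i.2] at h3
    exact h3
  · intro h x y h1 h2 p hp
    refine h (fun i => x i) (fun i => y i) (fun i => ?_) (fun j => ?_) ⟨p, hp⟩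
    · have e := h1 i i.2
      rw [← Finset.sum_coe_sort (Vt t M.primeFactors), hnu i] at e
      refine Eq.trans ?_ e
      show nr i 17 * x i + _ = _
      congr 1
      refine sum_congr rfl fun q _ => ?_
      rw [LL_Lm hpar hS hM2 i q]
    · have e := h2 j j.2
      rw [← Finset.sum_coe_sort (Vt t M.primeFactors)] at e
      rw [al_ud' hpar hS hM2 j] at e
      refine Eq.trans ?_ e
      congr 1
      refine sum_congr rfl fun p _ => ?_
      rw [LL_Lm hpar hS hM2 p j]

theorem Sr_iff (hpar : Par n t r s) (hS : n.primeFactors = Vt t M.primeFactors)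
    (hM2 : ¬ 2 ∣ M) (h17 : 17 ∣ n) (hn : n ≠ 0) : Sr n ↔ Gw t r s M.primeFactors := by
  have hnu : ∀ v : (Vt t M.primeFactors : Finset ℕ), (v : ℕ) ≠ 17 → nu v = nr v 17 := by
    intro v hv17
    have hv : (v : ℕ) ∈ n.primeFactors := by
      rw [hS]
      exact v.2
    exact nu_nr (Nat.prime_of_mem_primeFactors hv) hv17
  have h17V : 17 ∈ Vt t M.primeFactors := by
    rw [← hS, Nat.mem_primeFactors]
    exact ⟨p17, h17, hn⟩
  unfold Sr Gw Kr
  rw [hS]
  constructor
  · intro h v0 hv0 x y h0 h1 h2 i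
    have h3 := h (fun n => if h : n ∈ Vt t M.primeFactors then x ⟨n, h⟩ else 0)
      (fun n => if h : n ∈ Vt t M.primeFactors then y ⟨n, h⟩ else 0)
      (by
        show dite _ _ _ = _
        rw [dif_pos h17V]
        have : (⟨17, h17V⟩ : (Vt t M.primeFactors : Finset ℕ)) = v0 := Subtype.ext hv0.symm
        rw [this]
        exact h0)
      (fun p hp' => by
        have hp := mem_of_mem_erase hp'
        have hp17 := ne_of_mem_erase hp'
        have e := h1 ⟨p, hp⟩ (fun h => hp17 (by rw [← hv0, ← h]))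
        show nu p * (dite _ _ _) + _ = _
        rw [dif_pos hp, hnu ⟨p, hp⟩ hp17, ← Finset.sum_coe_sort (Vt t M.primeFactors)]
        refine Eq.trans ?_ e
        congr 1
        refine sum_congr rfl fun q _ => ?_
        rw [dif_pos q.2, LL_Lm hpar hS hM2 ⟨p, hp⟩ q])
      (fun q hq => by
        have e := h2 ⟨q, hq⟩
        show _ + al n q * (dite _ _ _) = _
        rw [dif_pos hq, al_ud' hpar hS hM2 ⟨q, hq⟩, ← Finset.sum_coe_sort (Vt t M.primeFactors)]
        refine Eq.trans ?_ e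
        congr 1
        refine sum_congr rfl fun p _ => ?_
        rw [dif_pos p.2, LL_Lm hpar hS hM2 p ⟨q, hq⟩]) i i.2
    rw [dif_pos i.2, dif_pos i.2] at h3
    exact h3
  · intro h x y h0 h1 h2 p hp
    refine h ⟨17, h17V⟩ rfl (fun i => x i) (fun i => y i) h0 (fun i hi => ?_) (fun j => ?_) ⟨p, hp⟩
    · have hi17 : (i : ℕ) ≠ 17 := fun h => hi (Subtype.ext h)
      have e := h1 i (mem_erase.2 ⟨hi17, i.2⟩)
      rw [← Finset.sum_coe_sort (Vt t M.primeFactors), hnu i hi17] at e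
      refine Eq.trans ?_ e
      show nr i 17 * x i + _ = _
      congr 1
      refine sum_congr rfl fun q _ => ?_
      rw [LL_Lm hpar hS hM2 i q]
    · have e := h2 j j.2
      rw [← Finset.sum_coe_sort (Vt t M.primeFactors)] at e
      rw [al_ud' hpar hS hM2 j] at e
      refine Eq.trans ?_ e
      congr 1
      refine sum_congr rfl fun p _ => ?_
      rw [LL_Lm hpar hS hM2 p j]

end

end Pool.Agent.N916.MO
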