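import Pool.Agent.N916.MO.LkP
import Pool.Agent.N916.MO.Tx
import Pool.Agent.N969.P17G.Defs2

/-!
# MO: the criterion `SxP` of project P17G in terms of symbols
-/

set_option autoImplicit false
set_option linter.all false

open scoped Classical

namespace Pool.Agent.N916.MO

open Finset
open Pool.Agent.N916.GB (pt ps sx Po Vt sy)
open Pool.Agent.Y703.CQ (c2 nr)
open Pool.Agent.N973.ND (uu nr_rec nr_self)
open Pool.Agent.N958.GB (NR ud wd z2 mem_Vt Vt_sub sy_ne sy_two)
open Pool.Agent.N972.P17 (nu)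
open Pool.Agent.N969.P17G (lsP LLP alP SxP starP)

/-! ### The entries -/

/-- the parameters at `2` -/
def ParP (n : ℕ) (t : Bool) (r s : ZMod 2) : Prop :=
  (t = false → n % 2 = 1) ∧ (t = true → (n % 16 = 12 ∧ r = 0 ∧ s = 1) ∨
    (n % 32 = 8 ∧ r = 1 ∧ s = 0) ∨ (n % 32 = 24 ∧ r = 1 ∧ s = 1))

theorem starP2 {n : ℕ} {r s : ZMod 2} (h : ParP n true r s) :
    (starP n 2 = -4 ∧ r = 0 ∧ s = 1) ∨ (starP n 2 = -8 ∧ r = 1 ∧ s = 1) ∨
      (starP n 2 = 8 ∧ r = 1 ∧ s = 0) := by
  unfold starP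
  rw [if_pos rfl]
  rcases h.2 rfl with ⟨h1, h2, h3⟩ | ⟨h1, h2, h3⟩ | ⟨h1, h2, h3⟩
  · rw [if_pos h1]
    exact Or.inl ⟨rfl, h2, h3⟩
  · rw [if_neg (by omega), if_pos h1]
    exact Or.inr (Or.inr ⟨rfl, h2, h3⟩)
  · rw [if_neg (by omega), if_neg (by omega)]
    exact Or.inr (Or.inl ⟨rfl, h2, h3⟩)

theorem alP_ud {n : ℕ} {t : Bool} {r s : ZMod 2} (h : ParP n t r s) {q : ℕ} (hq : q.Prime)
    (h2 : q = 2 → t = true) : alP n q = if q = 2 then s else uu q := by
  unfold alP
  by_cases hq2 : q = 2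
  · have ht := h2 hq2
    subst ht
    rw [if_pos hq2, hq2]
    rcases starP2 h with ⟨h1, -, h3⟩ | ⟨h1, -, h3⟩ | ⟨h1, -, h3⟩ <;> rw [h1, h3] <;> norm_num
  · rw [if_neg hq2]
    unfold starP uu
    rw [if_neg hq2]
    have h0 : (0 : ℤ) < q := by exact_mod_cast hq.pos
    have hodd := hq.eq_two_or_odd.resolve_left hq2
    rcases (by omega : q % 4 = 1 ∨ q % 4 = 3) with h4 | h4
    · rw [if_pos h4, if_neg (by omega : ¬ (q : ℤ) < 0), if_neg (by omega : ¬ q % 4 = 3)]
    · rw [if_neg (by omega : ¬ q % 4 = 1), if_pos (by omega : -(q : ℤ) < 0), if_pos h4]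

theorem lsP_sy {n : ℕ} {t : Bool} {r s : ZMod 2} (h : ParP n t r s) {p q : ℕ} (hp : p.Prime)
    (hq : q.Prime) (hpq : p ≠ q) (h2 : p = 2 ∨ q = 2 → t = true) : lsP n q p = sy r s p q := by
  unfold lsP
  by_cases hp2 : p = 2
  · rw [if_pos hp2]
    have hq2 : q ≠ 2 := fun h' => hpq (hp2.trans h'.symm)
    have hodd := hq.eq_two_or_odd.resolve_left hq2
    rw [sy_ne r s hq2, hp2, Pool.Agent.N19.GB.nr_two hq hq2]
    unfold starP
    rw [if_neg hq2]
    by_cases h4 : q % 4 = 1
    · rw [if_pos h4]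
      by_cases h8 : q % 8 = 1 ∨ q % 8 = 7
      · rw [if_pos h8, if_pos (by omega)]
      · rw [if_neg h8, if_neg (by omega)]
    · rw [if_neg h4]
      by_cases h8 : q % 8 = 1 ∨ q % 8 = 7
      · rw [if_pos h8, if_pos (by omega)]
      · rw [if_neg h8, if_neg (by omega)]
  · rw [if_neg hp2]
    have hpo : Po p := ⟨hp, hp2⟩
    show j01 (jacobiSym (starP n q) p) = _
    have h2p : ¬ (p : ℤ) ∣ ((2 : ℕ) : ℤ) := nd_pp hp Nat.prime_two hp2
    have hnr2 : nr p 2 = j01 (jacobiSym 2 p) := by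
      have := nr_j hp (p := 2) (fun h => h2p (Int.natCast_dvd_natCast.2 h))
      rw [this]
      norm_cast
    have h22 : jacobiSym 2 p = 1 ∨ jacobiSym 2 p = -1 := by
      have := jpm hp h2p
      exact_mod_cast this
    have hn1 := jpm hp (nd_p1 hp)
    have sq : jacobiSym 2 p * jacobiSym 2 p = 1 := by
      rcases h22 with h | h <;> rw [h] <;> norm_num
    by_cases hq2 : q = 2
    · have ht := h2 (Or.inr hq2)
      subst ht
      rw [hq2, sy_two, hnr2, uu_j hpo]
      rcases starP2 h with ⟨h1, h3, h4⟩ | ⟨h1, h3, h4⟩ | ⟨h1, h3, h4⟩ <;> rw [h1, h3, h4]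
      · rw [show (-4 : ℤ) = -1 * (2 * 2) by norm_num, jacobiSym.mul_left, jacobiSym.mul_left, sq,
          mul_one, zero_mul, one_mul, zero_add]
      · rw [show (-8 : ℤ) = -1 * (2 * (2 * 2)) by norm_num, jacobiSym.mul_left,
          jacobiSym.mul_left, jacobiSym.mul_left, sq, mul_one, one_mul, one_mul,
          j01_mul hn1 h22, add_comm]
      · rw [show (8 : ℤ) = 2 * (2 * 2) by norm_num, jacobiSym.mul_left, jacobiSym.mul_left, sq,
          mul_one, zero_mul, one_mul, add_zero]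
    · rw [sy_ne r s hq2]
      have hqp : jacobiSym q p = 1 ∨ jacobiSym q p = -1 := jpm hp (nd_pp hp hq hpq)
      have e1 : j01 (jacobiSym q p) = nr p q :=
        (nr_j hp fun h => nd_pp hp hq hpq (Int.natCast_dvd_natCast.2 h)).symm
      have e2 := nr_rec hp hp2 hq hq2 hpq
      have hodd := hq.eq_two_or_odd.resolve_left hq2
      unfold starP
      rw [if_neg hq2]
      by_cases h4 : q % 4 = 1
      · rw [if_pos h4, e1, e2]
        have : uu q = 0 := by
          unfold uu
          rw [if_neg (by omega)]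
        rw [this, mul_zero, add_zero]
      · rw [if_neg h4, show (-(q : ℤ)) = -1 * q by ring, jacobiSym.mul_left, j01_mul hn1 hqp, e1, e2,
          ← uu_j hpo]
        have : uu q = 1 := by
          unfold uu
          rw [if_pos (by omega)]
        rw [this, mul_one, add_comm]

/-! ### The criteria -/

section
variable {n M : ℕ} {t : Bool} {r s : ZMod 2}

theorem LLP_Lm (hpar : ParP n t r s) (hS : n.primeFactors = Vt t M.primeFactors)
    (hM2 : ¬ 2 ∣ M) (p q : (Vt t M.primeFactors : Finset ℕ)) :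
    LLP n p q = Lm (NR r s fun i : (Vt t M.primeFactors : Finset ℕ) => (i : ℕ)) p q := by
  have hpr : ∀ v ∈ Vt t M.primeFactors, v.Prime := by
    intro v hv
    rw [← hS] at hv
    exact Nat.prime_of_mem_primeFactors hv
  have h2 : ∀ v ∈ Vt t M.primeFactors, v = 2 → t = true := by
    intro v hv hv2
    rcases mem_Vt.1 hv with h | h
    · exact h.1
    · exact absurd (hv2 ▸ Nat.dvd_of_mem_primeFactors h) hM2
  unfold LLP Lm
  by_cases h : p = q
  · rw [if_pos (by rw [h]), if_pos h, hS, sum_er]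
    refine sum_congr rfl fun k _ => ?_
    by_cases hk : k = p
    · rw [if_pos hk, if_pos hk]
    · rw [if_neg hk, if_neg hk]
      refine lsP_sy hpar (hpr p p.2) (hpr k k.2) (fun h' => hk (Subtype.ext h'.symm)) ?_
      rintro (h' | h')
      · exact h2 p p.2 h'
      · exact h2 k k.2 h'
  · rw [if_neg (fun h' => h (Subtype.ext h')), if_neg h]
    refine lsP_sy hpar (hpr p p.2) (hpr q q.2) (fun h' => h (Subtype.ext h')) ?_
    rintro (h' | h')
    · exact h2 p p.2 h'
    · exact h2 q q.2 h'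

theorem alP_ud' (hpar : ParP n t r s) (hS : n.primeFactors = Vt t M.primeFactors)
    (hM2 : ¬ 2 ∣ M) (q : (Vt t M.primeFactors : Finset ℕ)) :
    alP n q = ud s (fun i : (Vt t M.primeFactors : Finset ℕ) => (i : ℕ)) q := by
  refine alP_ud hpar ?_ ?_
  · have : (q : ℕ) ∈ n.primeFactors := by
      rw [hS]
      exact q.2
    exact Nat.prime_of_mem_primeFactors this
  · intro hv2
    rcases mem_Vt.1 q.2 with h | h
    · exact h.1
    · exact absurd (hv2 ▸ Nat.dvd_of_mem_primeFactors h) hM2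

theorem SxP_iff (hpar : ParP n t r s) (hS : n.primeFactors = Vt t M.primeFactors)
    (hM2 : ¬ 2 ∣ M) (h17 : ¬ 17 ∣ n) : SxP n ↔ Gu t r s M.primeFactors := by
  have hnu : ∀ v : (Vt t M.primeFactors : Finset ℕ), nu v = nr v 17 := by
    intro v
    have hv : (v : ℕ) ∈ n.primeFactors := by
      rw [hS]
      exact v.2
    refine nu_nr (Nat.prime_of_mem_primeFactors hv) ?_
    intro h
    rw [h] at hv
    exact h17 (Nat.dvd_of_mem_primeFactors hv)
  unfold SxP Gu Kx
  rw [hS]
  constructor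
  · intro h x y h1 h2 i
    have h3 := h (fun n => if h : n ∈ Vt t M.primeFactors then x ⟨n, h⟩ else 0)
      (fun n => if h : n ∈ Vt t M.primeFactors then y ⟨n, h⟩ else 0)
      (fun p hp => by
        have e := h1 ⟨p, hp⟩
        show nu p * (dite _ _ _) + _ = _
        rw [dif_pos hp, hnu ⟨p, hp⟩, ← Finset.sum_coe_sort (Vt t M.primeFactors)]
        refine Eq.trans ?_ e
        congr 1
        refine sum_congr rfl fun q _ => ?_
        rw [dif_pos q.2, LLP_Lm hpar hS hM2 ⟨p, hp⟩ q])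
      (fun q hq => by
        have e := h2 ⟨q, hq⟩
        show _ + alP n q * (dite _ _ _) = _
        rw [dif_pos hq, alP_ud' hpar hS hM2 ⟨q, hq⟩, ← Finset.sum_coe_sort (Vt t M.primeFactors)]
        refine Eq.trans ?_ e
        congr 1
        refine sum_congr rfl fun p _ => ?_
        rw [dif_pos p.2, LLP_Lm hpar hS hM2 p ⟨q, hq⟩]) i i.2
    rw [dif_pos i.2, dif_pos i.2] at h3
    exact h3
  · intro h x y h1 h2 p hp
    refine h (fun i => x i) (fun i => y i) (fun i => ?_) (fun j => ?_) ⟨p, hp⟩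
    · have e := h1 i i.2
      rw [← Finset.sum_coe_sort (Vt t M.primeFactors), hnu i] at e
      refine Eq.trans ?_ e
      show nr i 17 * x i + _ = _
      congr 1
      refine sum_congr rfl fun q _ => ?_
      rw [LLP_Lm hpar hS hM2 i q]
    · have e := h2 j j.2
      rw [← Finset.sum_coe_sort (Vt t M.primeFactors)] at e
      rw [alP_ud' hpar hS hM2 j] at e
      refine Eq.trans ?_ e
      congr 1
      refine sum_congr rfl fun p _ => ?_
      rw [LLP_Lm hpar hS hM2 p j]

end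

end Pool.Agent.N916.MO
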