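import Pool.Agent.N916.MO.Dn
import Pool.Agent.N916.MO.TxP
import Pool.Agent.N919.BS.Fin

/-!
# MO: natural density of the level 17 criterion among all squarefree integers and among all
# fundamental discriminants of both signs
-/

set_option autoImplicit false
set_option linter.all false

open scoped Classical

namespace Pool.Agent.N916.MO

open Finset Filter
open Pool.Agent.N916.GB (Po Vt)
open Pool.Agent.Y703.CQ (c2 nr)
open Pool.Agent.N916.AM (LAH dq)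
open Pool.Agent.N972.P17 (Sx Sr)
open Pool.Agent.N969.P17G (SxP)
open Pool.Agent.N919.BS (NN NS NF HG Rt17 root17 t_NS t_NF)

/-- the absolute value of the discriminant of `ℚ(√d)`, `d` squarefree -/
def Kn (d : ℤ) : ℕ := if d % 4 = 1 then d.natAbs else 4 * d.natAbs

/-- the criterion of level 17 for the squarefree integer `d` -/
def G17 (d : ℤ) : Prop := (d < 0 → C17 (Kn d)) ∧ (0 < d → SxP (Kn d))

/-! ### residues -/

/-- inert -/
noncomputable def Ku (r : ℕ) : Finset ℕ := (range 136).filter fun a => a % 4 = r ∧ nr 17 a = 1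
/-- ramified -/
noncomputable def Kw (r : ℕ) : Finset ℕ := (range 136).filter fun a => a % 4 = r ∧ 17 ∣ a
/-- split -/
noncomputable def Kp (r : ℕ) : Finset ℕ := (range 136).filter fun a => a % 4 = r ∧ nr 17 a = 0 ∧ ¬ 17 ∣ a

theorem m136_4 (n : ℕ) : n % 136 % 4 = n % 4 := Nat.mod_mod_of_dvd n (by norm_num)
theorem m136_17 (n : ℕ) : n % 136 % 17 = n % 17 := Nat.mod_mod_of_dvd n (by norm_num)

theorem nr136 (n : ℕ) : nr 17 (n % 136) = nr 17 n := by
  rw [nr17_mod, m136_17, ← nr17_mod]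

theorem dv136 (n : ℕ) : 17 ∣ n % 136 ↔ 17 ∣ n := Nat.dvd_mod_iff (by norm_num)

theorem mem_Ku {r n : ℕ} : n % 136 ∈ Ku r ↔ n % 4 = r ∧ nr 17 n = 1 := by
  unfold Ku
  rw [mem_filter, mem_range, m136_4, nr136]
  exact ⟨fun h => h.2, fun h => ⟨Nat.mod_lt _ (by norm_num), h⟩⟩

theorem mem_Kw {r n : ℕ} : n % 136 ∈ Kw r ↔ n % 4 = r ∧ 17 ∣ n := by
  unfold Kw
  rw [mem_filter, mem_range, m136_4, dv136]
  exact ⟨fun h => h.2, fun h => ⟨Nat.mod_lt _ (by norm_num), h⟩⟩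

theorem mem_Kp {r n : ℕ} : n % 136 ∈ Kp r ↔ n % 4 = r ∧ nr 17 n = 0 ∧ ¬ 17 ∣ n := by
  unfold Kp
  rw [mem_filter, mem_range, m136_4, nr136, dv136]
  exact ⟨fun h => h.2, fun h => ⟨Nat.mod_lt _ (by norm_num), h⟩⟩

theorem Kodd {r : ℕ} {K : Finset ℕ} (hr : r = 1 ∨ r = 3) (hK : ∀ a ∈ K, a % 4 = r) :
    ∀ a ∈ K, a % 2 = 1 := by
  intro a ha
  have := hK a ha
  omega

/-! ### the root number condition -/

theorem jac_neg17 (n : ℕ) : jacobiSym (-(n : ℤ)) 17 = jacobiSym n 17 :=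
  Pool.Agent.N919.BS.js17 (by rw [neg_add_cancel]; exact dvd_zero _)

theorem jac_k {k : ℕ} (hk : k = 1 ∨ k = 2) (M : ℕ) :
    jacobiSym ((k * M : ℕ) : ℤ) 17 = jacobiSym M 17 := by
  rcases hk with rfl | rfl
  · rw [one_mul]
  · have h2 : jacobiSym ((2 : ℕ) : ℤ) 17 = 1 := by
      rw [show (((2 : ℕ) : ℤ)) = 2 from rfl, jacobiSym.at_two (by decide : Odd 17)]
      decide
    rw [Nat.cast_mul, jacobiSym.mul_left, h2, one_mul]

theorem rt_neg {k M : ℕ} (hk : k = 1 ∨ k = 2) (hM : 0 < M) :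
    Rt17 (-1 * ((k * M : ℕ) : ℤ)) ↔ (nr 17 M = 1 ∨ 17 ∣ M) := by
  have hk0 : 0 < k * M := by rcases hk with rfl | rfl <;> omega
  have e1 : ¬ (0 : ℤ) < -1 * ((k * M : ℕ) : ℤ) := by omega
  have e2 : -1 * ((k * M : ℕ) : ℤ) < 0 := by omega
  unfold Rt17
  rw [neg_one_mul, jac_neg17, jac_k hk, ← jac17_nr]
  rw [neg_one_mul] at e1 e2
  simp only [e1, e2, false_and, false_or, true_and]

theorem rt_pos {k M : ℕ} (hk : k = 1 ∨ k = 2) (hM : 0 < M) :
    Rt17 (1 * ((k * M : ℕ) : ℤ)) ↔ (nr 17 M = 0 ∧ ¬ 17 ∣ M) := by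
  have hk0 : 0 < k * M := by rcases hk with rfl | rfl <;> omega
  have e1 : (0 : ℤ) < ((k * M : ℕ) : ℤ) := by omega
  have e2 : ¬ ((k * M : ℕ) : ℤ) < 0 := by omega
  unfold Rt17
  rw [one_mul, jac_k hk]
  simp only [e1, e2, false_and, or_false, true_and]
  have h := @jac17_nr M
  constructor
  · intro h1
    have h2 : ¬ (nr 17 M = 1 ∨ 17 ∣ M) := fun h3 => h.2 h3 h1
    push Not at h2
    exact ⟨(zz _).resolve_right h2.1, h2.2⟩
  · rintro ⟨h1, h2⟩
    by_contra h3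
    rcases h.1 h3 with h4 | h4
    · rw [h1] at h4
      exact absurd h4 (by decide)
    · exact h2 h4

/-! ### negative integers -/

theorem hg_neg {k r e : ℕ} {t : Bool} {r' s' : ZMod 2} (hk : k = 1 ∨ k = 2) (hr : r = 1 ∨ r = 3)
    (he : ¬ 17 ∣ e)
    (hG : ∀ M, Squarefree M → M % 4 = r → (G17 (-1 * ((k * M : ℕ) : ℤ)) ↔ C17 (e * M)))
    (hu : ∀ M, Squarefree M → M % 4 = r → ¬ 17 ∣ e * M → (Sx (e * M) ↔ Gu t r' s' M.primeFactors))
    (hw : ∀ M, Squarefree M → M % 4 = r → 17 ∣ e * M → (Sr (e * M) ↔ Gw t r' s' M.primeFactors))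
    (lu : LAH 136 (Ku r) (Gu t r' s') c2) (lw : LAH 136 (Kw r) (Gw t r' s') c2) :
    ∀ ε : ℝ, 0 < ε → ∃ Y₀ : ℕ, ∀ Y : ℕ, Y₀ ≤ Y →
      |(NN (fun d => Rt17 d ∧ G17 d) (-1) k r Y : ℝ) - c2 * NN Rt17 (-1) k r Y| ≤ ε * Y := by
  intro ε hε
  obtain ⟨X1, h1⟩ := dq (by norm_num) (by norm_num) c201.1 c201.2 lu (Kodd hr fun a ha => (mem_filter.1 ha).2.1) (ε / 2)
    (by positivity)
  obtain ⟨X2, h2⟩ := dq (by norm_num) (by norm_num) c201.1 c201.2 lw (Kodd hr fun a ha => (mem_filter.1 ha).2.1) (ε / 2)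
    (by positivity)
  refine ⟨X1 + X2, fun Y hY => ?_⟩
  have b1 := h1 Y (by omega)
  have b2 := h2 Y (by omega)
  have hdis : ∀ n : ℕ, n % 136 ∈ Ku r → n % 136 ∈ Kw r → False := by
    intro n h3 h4
    have h5 := (mem_Ku.1 h3).2
    rw [nr17_dvd (mem_Kw.1 h4).2] at h5
    exact absurd h5 (by decide)
  have hd : ∀ M, 17 ∣ e * M ↔ 17 ∣ M := by
    intro M
    rw [p17.dvd_mul]
    exact ⟨fun h => h.resolve_left he, Or.inr⟩
  have key : ∀ (Q : ℤ → Prop) (Qu Qw : ℕ → Prop),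
      (∀ M, 0 < M → Squarefree M → M % 4 = r → ¬ 17 ∣ M → (Q (-1 * ((k * M : ℕ) : ℤ)) ↔ Qu M)) →
      (∀ M, 0 < M → Squarefree M → M % 4 = r → 17 ∣ M → (Q (-1 * ((k * M : ℕ) : ℤ)) ↔ Qw M)) →
      NN (fun d => Rt17 d ∧ Q d) (-1) k r Y =
        ((Icc 1 Y).filter fun n => Squarefree n ∧ n % 136 ∈ Ku r ∧ Qu n).card +
        ((Icc 1 Y).filter fun n => Squarefree n ∧ n % 136 ∈ Kw r ∧ Qw n).card := by
    intro Q Qu Qw hQu hQw
    have hNN : NN (fun d => Rt17 d ∧ Q d) (-1) k r Y = ((Icc 1 Y).filter fun M =>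
        Squarefree M ∧ M % 4 = r ∧ Rt17 (-1 * ((k * M : ℕ) : ℤ)) ∧
          Q (-1 * ((k * M : ℕ) : ℤ))).card := by
      unfold Pool.Agent.N919.BS.NN
      congr
    rw [hNN, ← card_union_of_disjoint]
    · congr 1
      ext n
      rw [mem_union, mem_filter, mem_filter, mem_filter, mem_Icc, mem_Ku, mem_Kw]
      constructor
      · rintro ⟨i1, i2, i3, i4, i5⟩
        rcases (rt_neg hk (by omega)).1 i4 with h | h
        · have h17 : ¬ 17 ∣ n := by
            intro h'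
            rw [nr17_dvd h'] at h
            exact absurd h (by decide)
          exact Or.inl ⟨i1, i2, ⟨i3, h⟩, (hQu n (by omega) i2 i3 h17).1 i5⟩
        · exact Or.inr ⟨i1, i2, ⟨i3, h⟩, (hQw n (by omega) i2 i3 h).1 i5⟩
      · rintro (⟨i1, i2, ⟨i3, h⟩, i5⟩ | ⟨i1, i2, ⟨i3, h⟩, i5⟩)
        · have h17 : ¬ 17 ∣ n := by
            intro h'
            rw [nr17_dvd h'] at h
            exact absurd h (by decide)
          exact ⟨i1, i2, i3, (rt_neg hk (by omega)).2 (Or.inl h), (hQu n (by omega) i2 i3 h17).2 i5⟩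
        · exact ⟨i1, i2, i3, (rt_neg hk (by omega)).2 (Or.inr h), (hQw n (by omega) i2 i3 h).2 i5⟩
    · rw [Finset.disjoint_left]
      intro n hn hn'
      exact hdis n (mem_filter.1 hn).2.2.1 (mem_filter.1 hn').2.2.1
  have k1 := key G17 (fun n => Gu t r' s' n.primeFactors) (fun n => Gw t r' s' n.primeFactors)
    (fun M _ i1 i2 i3 => by
      have i3' : ¬ 17 ∣ e * M := fun h => i3 ((hd M).1 h)
      rw [hG M i1 i2, ← hu M i1 i2 i3']
      exact ⟨fun h => h.1 i3', fun h => ⟨fun _ => h, fun h' => absurd h' i3'⟩⟩)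
    (fun M _ i1 i2 i3 => by
      have i3' : 17 ∣ e * M := (hd M).2 i3
      rw [hG M i1 i2, ← hw M i1 i2 i3']
      exact ⟨fun h => h.2 i3', fun h => ⟨fun h' => absurd i3' h', fun _ => h⟩⟩)
  have k2 := key (fun _ => True) (fun _ => True) (fun _ => True) (fun _ _ _ _ _ => Iff.rfl)
    (fun _ _ _ _ _ => Iff.rfl)
  simp only [and_true] at k2
  have k1' := congrArg (Nat.cast : ℕ → ℝ) k1
  have k2' := congrArg (Nat.cast : ℕ → ℝ) k2
  push_cast at k1' k2'
  rw [abs_le] at b1 b2 ⊢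
  rw [k1', k2']
  constructor
  · linarith [b1.1, b2.1]
  · linarith [b1.2, b2.2]

/-! ### positive integers -/

theorem hg_pos {k r e : ℕ} {t : Bool} {r' s' : ZMod 2} (hk : k = 1 ∨ k = 2) (hr : r = 1 ∨ r = 3)
    (hG : ∀ M, 0 < M → Squarefree M → M % 4 = r → ¬ 17 ∣ M → (G17 (1 * ((k * M : ℕ) : ℤ)) ↔
      Gu t r' s' M.primeFactors))
    (lu : LAH 136 (Kp r) (Gu t r' s') c2) :
    ∀ ε : ℝ, 0 < ε → ∃ Y₀ : ℕ, ∀ Y : ℕ, Y₀ ≤ Y →
      |(NN (fun d => Rt17 d ∧ G17 d) 1 k r Y : ℝ) - c2 * NN Rt17 1 k r Y| ≤ ε * Y := by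
  intro ε hε
  obtain ⟨X1, h1⟩ := dq (by norm_num) (by norm_num) c201.1 c201.2 lu (Kodd hr fun a ha => (mem_filter.1 ha).2.1) ε hε
  refine ⟨X1, fun Y hY => ?_⟩
  have b1 := h1 Y hY
  have key : ∀ (Q : ℤ → Prop) (Qu : ℕ → Prop),
      (∀ M, 0 < M → Squarefree M → M % 4 = r → ¬ 17 ∣ M → (Q (1 * ((k * M : ℕ) : ℤ)) ↔ Qu M)) →
      NN (fun d => Rt17 d ∧ Q d) 1 k r Y =
        ((Icc 1 Y).filter fun n => Squarefree n ∧ n % 136 ∈ Kp r ∧ Qu n).card := by
    intro Q Qu hQu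
    have hNN : NN (fun d => Rt17 d ∧ Q d) 1 k r Y = ((Icc 1 Y).filter fun M =>
        Squarefree M ∧ M % 4 = r ∧ Rt17 (1 * ((k * M : ℕ) : ℤ)) ∧
          Q (1 * ((k * M : ℕ) : ℤ))).card := by
      unfold Pool.Agent.N919.BS.NN
      congr
    rw [hNN]
    congr 1
    ext n
    rw [mem_filter, mem_filter, mem_Icc, mem_Kp]
    constructor
    · rintro ⟨i1, i2, i3, i4, i5⟩
      have i6 := (rt_pos hk (by omega)).1 i4
      exact ⟨i1, i2, ⟨i3, i6⟩, (hQu n (by omega) i2 i3 i6.2).1 i5⟩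
    · rintro ⟨i1, i2, ⟨i3, i6⟩, i5⟩
      exact ⟨i1, i2, i3, (rt_pos hk (by omega)).2 i6, (hQu n (by omega) i2 i3 i6.2).2 i5⟩
  have k1 := key G17 (fun n => Gu t r' s' n.primeFactors) hG
  have k2 := key (fun _ => True) (fun _ => True) (fun _ _ _ _ _ => Iff.rfl)
  simp only [and_true] at k2
  rw [k1, k2]
  exact b1

/-! ### the parameters -/

theorem parP0 {n : ℕ} (h : n % 4 = 1) : ParP n false 0 0 :=
  ⟨fun _ => by omega, fun h => absurd h (by decide)⟩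

theorem parP1 {M : ℕ} (h : M % 4 = 3) : ParP (4 * M) true 0 1 :=
  ⟨fun h => absurd h (by decide), fun _ => Or.inl ⟨by omega, rfl, rfl⟩⟩

theorem parP2 {M : ℕ} (h : M % 4 = 1) : ParP (8 * M) true 1 0 :=
  ⟨fun h => absurd h (by decide), fun _ => Or.inr (Or.inl ⟨by omega, rfl, rfl⟩)⟩

theorem parP3 {M : ℕ} (h : M % 4 = 3) : ParP (8 * M) true 1 1 :=
  ⟨fun h => absurd h (by decide), fun _ => Or.inr (Or.inr ⟨by omega, rfl, rfl⟩)⟩

theorem Kn_odd {d : ℤ} (h : d % 4 = 1) : Kn d = d.natAbs := if_pos h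

theorem Kn_ev {d : ℤ} (h : d % 4 ≠ 1) : Kn d = 4 * d.natAbs := if_neg h

theorem G_neg {d : ℤ} (h : d < 0) {n : ℕ} (hn : Kn d = n) : G17 d ↔ C17 n := by
  unfold G17
  rw [hn]
  exact ⟨fun h' => h'.1 h, fun h' => ⟨fun _ => h', fun h'' => absurd h'' (by omega)⟩⟩

theorem G_pos {d : ℤ} (h : 0 < d) {n : ℕ} (hn : Kn d = n) : G17 d ↔ SxP n := by
  unfold G17
  rw [hn]
  exact ⟨fun h' => h'.2 h, fun h' => ⟨fun h'' => absurd h'' (by omega), fun _ => h'⟩⟩

theorem e17 {e M : ℕ} (he : ¬ 17 ∣ e) (h : ¬ 17 ∣ M) : ¬ 17 ∣ e * M := by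
  rw [p17.dvd_mul]
  tauto

/-- **the density in the eight classes** -/
theorem hg17 : HG Rt17 G17 c2 := by
  have g0 : ∀ {r : ℕ}, r = 3 → ∀ a ∈ Ku r, a % 4 = (if (0 : ZMod 2) = 0 then 3 else 1) ∧
      nr 17 a = 1 := by
    intro r hr a ha
    have := (mem_filter.1 ha).2
    rw [if_pos rfl]
    exact ⟨this.1.trans hr, this.2⟩
  have g1 : ∀ {r : ℕ}, r = 1 → ∀ a ∈ Ku r, a % 4 = (if (1 : ZMod 2) = 0 then 3 else 1) ∧
      nr 17 a = 1 := by
    intro r hr a ha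
    have := (mem_filter.1 ha).2
    rw [if_neg (by decide)]
    exact ⟨this.1.trans hr, this.2⟩
  have w0 : ∀ {r : ℕ}, r = 3 → ∀ a ∈ Kw r, a % 4 = (if (0 : ZMod 2) = 0 then 3 else 1) ∧
      17 ∣ a := by
    intro r hr a ha
    have := (mem_filter.1 ha).2
    rw [if_pos rfl]
    exact ⟨this.1.trans hr, this.2⟩
  have w1 : ∀ {r : ℕ}, r = 1 → ∀ a ∈ Kw r, a % 4 = (if (1 : ZMod 2) = 0 then 3 else 1) ∧
      17 ∣ a := by
    intro r hr a ha
    have := (mem_filter.1 ha).2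
    rw [if_neg (by decide)]
    exact ⟨this.1.trans hr, this.2⟩
  have p0 : ∀ {r : ℕ}, r = 1 → ∀ a ∈ Kp r, a % 4 = (if (0 : ZMod 2) = 0 then 1 else 3) ∧
      nr 17 a = 0 ∧ ¬ 17 ∣ a := by
    intro r hr a ha
    have := (mem_filter.1 ha).2
    rw [if_pos rfl]
    exact ⟨this.1.trans hr, this.2⟩
  have p1 : ∀ {r : ℕ}, r = 3 → ∀ a ∈ Kp r, a % 4 = (if (1 : ZMod 2) = 0 then 1 else 3) ∧
      nr 17 a = 0 ∧ ¬ 17 ∣ a := by
    intro r hr a ha
    have := (mem_filter.1 ha).2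
    rw [if_neg (by decide)]
    exact ⟨this.1.trans hr, this.2⟩
  have d136 : 136 ∣ 136 := dvd_refl _
  rintro s k r (rfl | rfl) (rfl | rfl) (rfl | rfl)
  · -- 1, 1, 1
    refine hg_pos (t := false) (r' := 0) (s' := 0) (Or.inl rfl) (Or.inl rfl) (e := 1) ?_
      (lah_p d136 (by norm_num) (fun _ => rfl) (fun h => absurd h (by decide)) (p0 rfl))
    intro M h0 h1 h2 h3
    rw [G_pos (n := M) (by omega) (by rw [Kn_odd (by omega)]; omega)]
    exact SxP_iff (parP0 h2) pf_odd (odd2 (Or.inl h2)) h3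
  · -- 1, 1, 3
    refine hg_pos (t := true) (r' := 0) (s' := 1) (Or.inl rfl) (Or.inr rfl) (e := 4) ?_
      (lah_p d136 (by norm_num) (fun h => absurd h (by decide)) (fun _ => Or.inr (by decide))
        (p1 rfl))
    intro M h0 h1 h2 h3
    rw [G_pos (n := 4 * M) (by omega) (by rw [Kn_ev (by omega)]; omega)]
    exact SxP_iff (parP1 h2) (pf_4 h1.ne_zero) (odd2 (Or.inr h2)) (e17 (by norm_num) h3)
  · -- 1, 2, 1
    refine hg_pos (t := true) (r' := 1) (s' := 0) (Or.inr rfl) (Or.inl rfl) (e := 8) ?_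
      (lah_p d136 (by norm_num) (fun h => absurd h (by decide)) (fun _ => Or.inl (by decide))
        (p0 rfl))
    intro M h0 h1 h2 h3
    rw [G_pos (n := 8 * M) (by omega) (by rw [Kn_ev (by omega)]; omega)]
    exact SxP_iff (parP2 h2) (pf_8 h1.ne_zero) (odd2 (Or.inl h2)) (e17 (by norm_num) h3)
  · -- 1, 2, 3
    refine hg_pos (t := true) (r' := 1) (s' := 1) (Or.inr rfl) (Or.inr rfl) (e := 8) ?_
      (lah_p d136 (by norm_num) (fun h => absurd h (by decide)) (fun _ => Or.inl (by decide))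
        (p1 rfl))
    intro M h0 h1 h2 h3
    rw [G_pos (n := 8 * M) (by omega) (by rw [Kn_ev (by omega)]; omega)]
    exact SxP_iff (parP3 h2) (pf_8 h1.ne_zero) (odd2 (Or.inr h2)) (e17 (by norm_num) h3)
  · -- -1, 1, 1
    refine hg_neg (t := true) (r' := 0) (s' := 1) (Or.inl rfl) (Or.inl rfl) (e := 4)
      (by norm_num) ?_ ?_ ?_
      (lah_u d136 (by norm_num) (fun h => absurd h (by decide)) (fun _ => Or.inr (by decide))
        (g1 rfl))
      (lah_w d136 (by norm_num) (fun h => absurd h (by decide)) (fun _ => Or.inr (by decide))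
        (w1 rfl))
    · intro M h1 h2
      exact G_neg (by have := h1.ne_zero; omega) (by rw [Kn_ev (by omega)]; omega)
    · intro M h1 h2 h3
      exact Sx_iff (par1 h2) (pf_4 h1.ne_zero) (odd2 (Or.inl h2)) h3
    · intro M h1 h2 h3
      exact Sr_iff (par1 h2) (pf_4 h1.ne_zero) (odd2 (Or.inl h2)) h3
        (mul_ne_zero (by norm_num) h1.ne_zero)
  · -- -1, 1, 3
    refine hg_neg (t := false) (r' := 0) (s' := 0) (Or.inl rfl) (Or.inr rfl) (e := 1)
      (by norm_num) ?_ ?_ ?_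
      (lah_u d136 (by norm_num) (fun _ => rfl) (fun h => absurd h (by decide)) (g0 rfl))
      (lah_w d136 (by norm_num) (fun _ => rfl) (fun h => absurd h (by decide)) (w0 rfl))
    · intro M h1 h2
      exact G_neg (by have := h1.ne_zero; omega) (by rw [Kn_odd (by omega)]; omega)
    · intro M h1 h2 h3
      rw [one_mul] at h3 ⊢
      exact Sx_iff (par0 h2) pf_odd (odd2 (Or.inr h2)) h3
    · intro M h1 h2 h3
      rw [one_mul] at h3 ⊢
      exact Sr_iff (par0 h2) pf_odd (odd2 (Or.inr h2)) h3 h1.ne_zero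
  · -- -1, 2, 1
    refine hg_neg (t := true) (r' := 1) (s' := 1) (Or.inr rfl) (Or.inl rfl) (e := 8)
      (by norm_num) ?_ ?_ ?_
      (lah_u d136 (by norm_num) (fun h => absurd h (by decide)) (fun _ => Or.inr (by decide))
        (g1 rfl))
      (lah_w d136 (by norm_num) (fun h => absurd h (by decide)) (fun _ => Or.inr (by decide))
        (w1 rfl))
    · intro M h1 h2
      exact G_neg (by have := h1.ne_zero; omega) (by rw [Kn_ev (by omega)]; omega)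
    · intro M h1 h2 h3
      exact Sx_iff (par2 h2) (pf_8 h1.ne_zero) (odd2 (Or.inl h2)) h3
    · intro M h1 h2 h3
      exact Sr_iff (par2 h2) (pf_8 h1.ne_zero) (odd2 (Or.inl h2)) h3
        (mul_ne_zero (by norm_num) h1.ne_zero)
  · -- -1, 2, 3
    refine hg_neg (t := true) (r' := 1) (s' := 0) (Or.inr rfl) (Or.inr rfl) (e := 8)
      (by norm_num) ?_ ?_ ?_
      (lah_u d136 (by norm_num) (fun h => absurd h (by decide)) (fun _ => Or.inl (by decide))
        (g0 rfl))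
      (lah_w d136 (by norm_num) (fun h => absurd h (by decide)) (fun _ => Or.inl (by decide))
        (w0 rfl))
    · intro M h1 h2
      exact G_neg (by have := h1.ne_zero; omega) (by rw [Kn_ev (by omega)]; omega)
    · intro M h1 h2 h3
      exact Sx_iff (par3 h2) (pf_8 h1.ne_zero) (odd2 (Or.inr h2)) h3
    · intro M h1 h2 h3
      exact Sr_iff (par3 h2) (pf_8 h1.ne_zero) (odd2 (Or.inr h2)) h3
        (mul_ne_zero (by norm_num) h1.ne_zero)

/-- **density among all squarefree integers** -/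
theorem dens17_sf : Tendsto (fun X : ℕ => (NS (fun d => Rt17 d ∧ G17 d) X : ℝ) /
    (NS (fun _ => True) X : ℝ)) atTop (nhds (c2 / 2)) := t_NS root17 hg17

/-- **density among all fundamental discriminants** -/
theorem dens17_fd : Tendsto (fun X : ℕ => (NF (fun d => Rt17 d ∧ G17 d) X : ℝ) /
    (NF (fun _ => True) X : ℝ)) atTop (nhds (c2 / 2)) := t_NF root17 c201.1 hg17

end Pool.Agent.N916.MO
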