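import Pool.Agent.N916.MO.Fi

/-!
# MO: natural density of the level 17 criterion among the negative fundamental discriminants
# in which `17` does not split
-/

set_option autoImplicit false
set_option linter.all false

open scoped Classical

namespace Pool.Agent.N916.MO

open Finset Filter
open Pool.Agent.Y703.CQ (c2 nr)
open Pool.Agent.N916.TE (FD)
open Pool.Agent.N972.P17 (Sx Sr Cm Cme Cr Cre)

theorem jac17_nr {n : ℕ} : jacobiSym n 17 ≠ 1 ↔ (nr 17 n = 1 ∨ 17 ∣ n) := by
  by_cases h : 17 ∣ n
  · have h2 : jacobiSym n 17 = 0 := by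
      rw [jacobiSym.eq_zero_iff_not_coprime, Int.gcd_natCast_natCast]
      exact fun h3 => (Nat.Prime.coprime_iff_not_dvd (by norm_num)).1 (Nat.Coprime.symm h3) h
    rw [h2]
    exact ⟨fun _ => Or.inr h, fun _ => by norm_num⟩
  · have h1 : nr 17 n = j01 (jacobiSym n 17) := nr_j p17 h
    rw [h1]
    unfold j01
    constructor
    · intro h2
      left
      rw [if_neg h2]
    · rintro (h2 | h2) h3
      · rw [if_pos h3] at h2
        exact absurd h2 (by decide)
      · exact h h2

/-- the residues modulo `17` of the discriminants in which `17` does not split -/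
def R17 : Finset ℕ := (range 17).filter fun a : ℕ => jacobiSym a 17 ≠ 1

theorem mem_R17 (n : ℕ) : n % 17 ∈ R17 ↔ jacobiSym n 17 ≠ 1 := by
  unfold R17
  rw [mem_filter, mem_range]
  have h : jacobiSym ((n % 17 : ℕ) : ℤ) 17 = jacobiSym (n : ℤ) 17 := by
    rw [Int.natCast_mod, jacobiSym.mod_left (n : ℤ) 17]
  rw [h]
  exact ⟨fun h => h.2, fun h => ⟨Nat.mod_lt _ (by norm_num), h⟩⟩

/-- **natural density** of the level 17 criterion among the negative fundamental discriminants
`- n` in which `17` does not split -/
theorem density17 : Tendsto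
  (fun X : ℕ => (((Icc 1 X).filter fun n : ℕ => (FD n ∧ jacobiSym n 17 ≠ 1) ∧ C17 n).card : ℝ) /
    (((Icc 1 X).filter fun n : ℕ => FD n ∧ jacobiSym n 17 ≠ 1).card : ℝ)) atTop (nhds c2) := by
  have h := density17_mod (m := 17) (by norm_num) (dvd_refl _) (R := R17)
    (fun a ha => jac17_nr.1 (mem_filter.1 ha).2) (n₀ := 3)
    (Nat.prime_three.squarefree) (by norm_num) (by
      rw [mem_R17, jac17_nr]
      exact Or.inl nr17_3)
  simp only [mem_R17] at h
  simp only [and_assoc]
  exact h

end Pool.Agent.N916.MO
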