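import Pool.Agent.N916.MO.La
import Pool.Agent.N916.AM.Fd

/-!
# MO: the hypothesis of the density machine for the level 17 criteria
-/

set_option autoImplicit false
set_option linter.all false

open scoped Classical

namespace Pool.Agent.N916.MO

open Finset
open Pool.Agent.N916.GB (pt ps sx Po Vt sy)
open Pool.Agent.Y703.CQ (c2 nr)
open Pool.Agent.N973.ND (uu nr_rec nr_self)
open Pool.Agent.N916.AM (LAH Nd Rich Bs sub_Bs uu_mod nr_Bs)
open Pool.Agent.N958.GB (lb rr rr_inj rr_im NR sgm two_tuples rec_NR ud wd z2 mem_Vt Vt_sub sy_ne)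

/-! ### Transport -/

section tr
variable {V V' : Type} [Fintype V] [DecidableEq V] [Fintype V'] [DecidableEq V']

theorem Lm_comp (e : V ≃ V') (N : V' → V' → ZMod 2) (i j : V) :
    Lm (fun i j => N (e i) (e j)) i j = Lm N (e i) (e j) := by
  unfold Lm
  by_cases h : i = j
  · rw [if_pos h, if_pos (by rw [h]), ← Equiv.sum_comp e]
    refine sum_congr rfl fun k _ => ?_
    by_cases hk : k = i
    · rw [if_pos hk, if_pos (by rw [hk])]
    · rw [if_neg hk, if_neg (fun h => hk (e.injective h))]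
  · rw [if_neg h, if_neg (fun h' => h (e.injective h'))]

theorem Kx_comp (e : V ≃ V') (ν α : V' → ZMod 2) (L : V' → V' → ZMod 2) :
    Kx (fun i => ν (e i)) (fun i => α (e i)) (fun i j => L (e i) (e j)) ↔ Kx ν α L := by
  constructor
  · intro h x y h1 h2 i
    have h3 := h (fun i => x (e i)) (fun i => y (e i))
      (fun i => by
        rw [Equiv.sum_comp e (fun j => L (e i) j * y j)]
        exact h1 (e i))
      (fun j => by
        rw [Equiv.sum_comp e (fun i => L i (e j) * x i)]
        exact h2 (e j)) (e.symm i)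
    simpa using h3
  · intro h x y h1 h2 i
    have h3 := h (fun i => x (e.symm i)) (fun i => y (e.symm i))
      (fun i => by
        have := h1 (e.symm i)
        simp only [e.apply_symm_apply] at this
        rw [← Equiv.sum_comp e (fun j => L i j * y (e.symm j))]
        simp only [e.symm_apply_apply]
        exact this)
      (fun j => by
        have := h2 (e.symm j)
        simp only [e.apply_symm_apply] at this
        rw [← Equiv.sum_comp e (fun i => L i j * x (e.symm i))]
        simp only [e.symm_apply_apply]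
        exact this) (e i)
    simpa using h3

theorem Kr_comp (e : V ≃ V') (v0 : V) (ν α : V' → ZMod 2) (L : V' → V' → ZMod 2) :
    Kr v0 (fun i => ν (e i)) (fun i => α (e i)) (fun i j => L (e i) (e j)) ↔ Kr (e v0) ν α L := by
  constructor
  · intro h x y h0 h1 h2 i
    have h3 := h (fun i => x (e i)) (fun i => y (e i)) h0
      (fun i hi => by
        rw [Equiv.sum_comp e (fun j => L (e i) j * y j)]
        exact h1 (e i) fun h => hi (e.injective h))
      (fun j => by
        rw [Equiv.sum_comp e (fun i => L i (e j) * x i)]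
        exact h2 (e j)) (e.symm i)
    simpa using h3
  · intro h x y h0 h1 h2 i
    have h3 := h (fun i => x (e.symm i)) (fun i => y (e.symm i))
      (by
        rw [e.symm_apply_apply]
        exact h0)
      (fun i hi => by
        have := h1 (e.symm i) (fun h => hi (by rw [← h, e.apply_symm_apply]))
        simp only [e.apply_symm_apply] at this
        rw [← Equiv.sum_comp e (fun j => L i j * y (e.symm j))]
        simp only [e.symm_apply_apply]
        exact this)
      (fun j => by
        have := h2 (e.symm j)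
        simp only [e.apply_symm_apply] at this
        rw [← Equiv.sum_comp e (fun i => L i j * x (e.symm i))]
        simp only [e.symm_apply_apply]
        exact this) (e i)
    simpa using h3

end tr

/-! ### The criteria for sets of primes -/

/-- the symbols `(17 / p)` -/
noncomputable def nv {V : Type} (ρ : V → ℕ) (i : V) : ZMod 2 := nr (ρ i) 17

/-- the criterion, `17` is not in the set -/
def Gu (t : Bool) (r s : ZMod 2) (S : Finset ℕ) : Prop :=
  Kx (V := (Vt t S : Finset ℕ)) (nv fun i => (i : ℕ)) (ud s fun i => (i : ℕ))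
    (Lm (NR r s fun i => (i : ℕ)))

/-- the criterion, `17` is in the set -/
def Gw (t : Bool) (r s : ZMod 2) (S : Finset ℕ) : Prop :=
  ∀ v0 : (Vt t S : Finset ℕ), (v0 : ℕ) = 17 →
    Kr v0 (nv fun i => (i : ℕ)) (ud s fun i => (i : ℕ)) (Lm (NR r s fun i => (i : ℕ)))

section
variable {V : Type} [Fintype V] [DecidableEq V] {t : Bool} {r s : ZMod 2} {ρ : V → ℕ} {S : Finset ℕ}

/-- the parametrization as an equivalence -/
noncomputable def eqv (hρ : Function.Injective ρ) (hS : univ.image ρ = Vt t S) :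
    V ≃ (Vt t S : Finset ℕ) :=
  Equiv.ofBijective (fun i => ⟨ρ i, by rw [← hS]; exact mem_image_of_mem _ (mem_univ _)⟩)
    ⟨fun i j h => hρ (congrArg Subtype.val h), fun v => by
      have h : (v : ℕ) ∈ univ.image ρ := by
        rw [hS]
        exact v.2
      rw [mem_image] at h
      obtain ⟨i, -, hi⟩ := h
      exact ⟨i, Subtype.ext hi⟩⟩

theorem eqv_apply (hρ : Function.Injective ρ) (hS : univ.image ρ = Vt t S) (i : V) :
    ((eqv hρ hS i : (Vt t S : Finset ℕ)) : ℕ) = ρ i := rfl

theorem Gu_iff (hρ : Function.Injective ρ) (hS : univ.image ρ = Vt t S) :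
    Gu t r s S ↔ Kx (nv ρ) (ud s ρ) (Lm (NR r s ρ)) := by
  unfold Gu
  rw [← Kx_comp (eqv hρ hS)]
  have h : (fun i j => Lm (NR r s fun i : (Vt t S : Finset ℕ) => (i : ℕ)) (eqv hρ hS i)
      (eqv hρ hS j)) = Lm (NR r s ρ) := by
    funext i j
    rw [← Lm_comp]
    rfl
  rw [h]
  rfl

theorem Gw_iff (hρ : Function.Injective ρ) (hS : univ.image ρ = Vt t S) {v0 : V}
    (hv0 : ρ v0 = 17) : Gw t r s S ↔ Kr v0 (nv ρ) (ud s ρ) (Lm (NR r s ρ)) := by
  have h : (fun i j => Lm (NR r s fun i : (Vt t S : Finset ℕ) => (i : ℕ)) (eqv hρ hS i)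
      (eqv hρ hS j)) = Lm (NR r s ρ) := by
    funext i j
    rw [← Lm_comp]
    rfl
  have h1 : Kr v0 (nv ρ) (ud s ρ) (Lm (NR r s ρ)) ↔
      Kr (eqv hρ hS v0) (nv fun i => (i : ℕ)) (ud s fun i => (i : ℕ))
        (Lm (NR r s fun i : (Vt t S : Finset ℕ) => (i : ℕ))) := by
    rw [← Kr_comp (eqv hρ hS), h]
    rfl
  rw [h1]
  constructor
  · intro h2
    exact h2 _ hv0
  · intro h2 v hv
    have : v = eqv hρ hS v0 := Subtype.ext (hv.trans hv0.symm)
    rw [this]
    exact h2

end

/-! ### The symbols at 17 -/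

theorem p17 : Nat.Prime 17 := by norm_num

theorem uu17 : uu 17 = 0 := by
  unfold uu
  norm_num

theorem nr17 {p : ℕ} (hp : Po p) (h : p ≠ 17) : nr p 17 = nr 17 p := by
  rw [nr_rec p17 (by norm_num) hp.1 hp.2 (Ne.symm h), uu17, zero_mul, add_zero]

theorem nr17_mod (p : ℕ) : nr 17 p = nr 17 (p % 17) := by
  unfold nr
  rw [ZMod.natCast_mod]

theorem nr17_3 : nr 17 3 = 1 := by
  unfold nr
  rw [if_neg]
  decide

theorem nr17_5 : nr 17 5 = 1 := by
  unfold nr
  rw [if_neg]
  decide

theorem nr2_17 : nr 2 17 = 0 := by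
  unfold nr
  rw [if_pos]
  decide

/-- the symbol is additive -/
theorem nr17_mul {a b : ℕ} (ha : ¬ 17 ∣ a) (hb : ¬ 17 ∣ b) :
    nr 17 (a * b) = nr 17 a + nr 17 b := by
  haveI : Fact (Nat.Prime 17) := ⟨p17⟩
  have key : ∀ n : ℕ, ¬ 17 ∣ n → (nr 17 n = 0 ↔ legendreSym 17 n = 1) := by
    intro n hn
    have hn0 : ((n : ℤ) : ZMod 17) ≠ 0 := by
      rw [Int.cast_natCast, Ne, ZMod.natCast_eq_zero_iff]
      exact hn
    rw [legendreSym.eq_one_iff 17 hn0, Int.cast_natCast]
    unfold nr
    split_ifs with h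
    · exact ⟨fun _ => h, fun _ => rfl⟩
    · exact ⟨fun h' => absurd h' (by decide), fun h' => absurd h' h⟩
  have pm : ∀ n : ℕ, ¬ 17 ∣ n → legendreSym 17 n = 1 ∨ legendreSym 17 n = -1 := by
    intro n hn
    refine legendreSym.eq_one_or_neg_one 17 ?_
    rw [Int.cast_natCast, Ne, ZMod.natCast_eq_zero_iff]
    exact hn
  have hab : ¬ 17 ∣ a * b := by
    rw [p17.dvd_mul]
    tauto
  have hmul : legendreSym 17 ((a * b : ℕ) : ℤ) = legendreSym 17 a * legendreSym 17 b := by
    rw [Nat.cast_mul, legendreSym.mul]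
  have k1 := key a ha
  have k2 := key b hb
  have k3 := key (a * b) hab
  rw [hmul] at k3
  have e1 : ∀ n, nr 17 n = 0 ∨ nr 17 n = 1 := fun n => zz _
  rcases pm a ha with h1 | h1 <;> rcases pm b hb with h2 | h2 <;> rw [h1] at k1 k3 <;>
    rw [h2] at k2 k3
  · rw [k1.2 rfl, k2.2 rfl, k3.2 (by norm_num), add_zero]
  · have a1 : nr 17 b = 1 := (e1 b).resolve_left fun h => by have := k2.1 h; norm_num at this
    have a2 : nr 17 (a * b) = 1 :=
      (e1 _).resolve_left fun h => by have := k3.1 h; norm_num at this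
    rw [k1.2 rfl, a1, a2, zero_add]
  · have a1 : nr 17 a = 1 := (e1 a).resolve_left fun h => by have := k1.1 h; norm_num at this
    have a2 : nr 17 (a * b) = 1 :=
      (e1 _).resolve_left fun h => by have := k3.1 h; norm_num at this
    rw [k2.2 rfl, a1, a2, add_zero]
  · have a1 : nr 17 a = 1 := (e1 a).resolve_left fun h => by have := k1.1 h; norm_num at this
    have a2 : nr 17 b = 1 := (e1 b).resolve_left fun h => by have := k2.1 h; norm_num at this
    rw [k3.2 (by norm_num), a1, a2, aa]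

theorem nr17_1 : nr 17 1 = 0 := by
  unfold nr
  rw [if_pos]
  decide

theorem nr17_prod (S : Finset ℕ) (hS : ∀ p ∈ S, Po p ∧ p ≠ 17) :
    ¬ 17 ∣ (∏ p ∈ S, p) ∧ ∑ p ∈ S, nr p 17 = nr 17 (∏ p ∈ S, p) := by
  induction S using Finset.induction_on with
  | empty =>
    rw [prod_empty, sum_empty, nr17_1]
    exact ⟨by norm_num, rfl⟩
  | insert a S ha ih =>
    obtain ⟨h1, h2⟩ := ih fun p hp => hS p (mem_insert_of_mem hp)
    obtain ⟨h3, h4⟩ := hS a (mem_insert_self a S)
    have h5 : ¬ 17 ∣ a := fun h => h4 ((Nat.prime_dvd_prime_iff_eq p17 h3.1).1 h).symm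
    rw [prod_insert ha, sum_insert ha, nr17_mul h5 h1, h2, nr17 h3 h4]
    refine ⟨?_, rfl⟩
    rw [p17.dvd_mul]
    tauto

/-- a class of large primes -/
theorem rich_cls {M V : ℕ} {S₀ : Finset ℕ} {ι : Type} [Fintype ι] {p : ι → ℕ}
    (hp : Function.Injective p) (hR : Rich M V S₀ (univ.image p)) (hM0 : 0 < M) (hM : 136 ∣ M)
    (a : ℕ) (ha : IsUnit (a : ZMod 136)) (P : ι → Prop) [DecidablePred P]
    (hP : ∀ i, p i % 136 = a % 136 → P i) :
    V * (S₀.card + 1) ≤ (univ.filter P).card := by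
  haveI : NeZero M := ⟨hM0.ne'⟩
  obtain ⟨q, hqM, hqp, hqa⟩ := Nat.forall_exists_prime_gt_and_eq_mod ha M
  have hq136 : q % 136 = a % 136 := by
    have := (ZMod.natCast_eq_natCast_iff q a 136).1 hqa
    exact this
  have hcop : (q % M).Coprime M := by
    have h1 : q.Coprime M := by
      rw [Nat.Prime.coprime_iff_not_dvd hqp]
      intro h
      have := Nat.le_of_dvd hM0 h
      omega
    rw [Nat.Coprime, ← Nat.gcd_rec, Nat.gcd_comm]
    exact h1
  refine (hR (q % M) (Nat.mod_lt _ hM0) hcop).trans ?_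
  rw [Finset.filter_image, Finset.card_image_of_injective _ hp]
  refine card_le_card fun i hi => ?_
  rw [mem_filter] at hi ⊢
  refine ⟨hi.1, hP i ?_⟩
  rw [← Nat.mod_mod_of_dvd (p i) hM, hi.2, Nat.mod_mod_of_dvd q hM, hq136]

end Pool.Agent.N916.MO
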