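import Pool.Agent.N916.MO.LaP
import Pool.Agent.N916.MO.Lh

/-!
# MO: positive discriminants: averaging over the symbols of one large prime
-/

set_option autoImplicit false
set_option linter.all false

open scoped Classical

namespace Pool.Agent.N916.MO

open Finset Module
open Pool.Agent.N916.GB (pt ps sx)
open Pool.Agent.Y703.CQ (c2)

section
variable {U J : Type} [Fintype U] [DecidableEq U] [Fintype J] [LinearOrder J] {k1 : J}

theorem sx_self (σ : ps J → ZMod 2) (k : J) : sx σ k k = 0 := by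
  unfold sx
  have h : (k, k) ∉ ps J := fun h => lt_irrefl _ (mem_filter.1 h).2
  rw [dif_neg h, dif_neg h]

/-- a symmetric function as `sx` -/
theorem sx_of (g : J → J → ZMod 2) (hg : ∀ k l, g k l = g l k) {k l : J} (h : k ≠ l) :
    sx (fun e : ps J => g e.1.1 e.1.2) k l = g k l := by
  unfold sx
  rcases lt_or_gt_of_ne h with h1 | h1
  · have h2 : (k, l) ∈ ps J := mem_filter.2 ⟨mem_univ _, h1⟩
    rw [dif_pos h2]
  · have h2 : (l, k) ∈ ps J := mem_filter.2 ⟨mem_univ _, h1⟩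
    have h3 : (k, l) ∉ ps J := fun h' => lt_asymm h1 (mem_filter.1 h').2
    rw [dif_neg h3, dif_pos h2]
    exact hg l k

/-- the symbols with `k1` -/
noncomputable def tau (k1 : J) (σ : ps J → ZMod 2) (l : Ix k1) : ZMod 2 := sx σ k1 l

/-- the other symbols -/
noncomputable def res (k1 : J) (σ : ps J → ZMod 2) : ps (Ix k1) → ZMod 2 :=
  fun e => sx σ (e.1.1 : J) (e.1.2 : J)

theorem sx_res (σ : ps J → ZMod 2) (k l : Ix k1) : sx (res k1 σ) k l = sx σ (k : J) (l : J) := by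
  by_cases h : k = l
  · rw [h, sx_self, sx_self]
  · exact sx_of (fun k l : Ix k1 => sx σ (k : J) (l : J)) (fun k l => sx_symm σ _ _) h

theorem tr_inj : Function.Injective fun σ : ps J → ZMod 2 => (tau k1 σ, res k1 σ) := by
  intro σ σ' h
  rw [Prod.ext_iff] at h
  obtain ⟨h1, h2⟩ := h
  funext e
  rw [← sx_mem (σ := σ) e, ← sx_mem (σ := σ') e]
  have hne : e.1.1 ≠ e.1.2 := ne_of_lt (mem_filter.1 e.2).2
  by_cases ha : e.1.1 = k1
  · rw [ha]
    exact congrFun h1 ⟨e.1.2, fun h => hne (ha.trans h.symm)⟩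
  · by_cases hb : e.1.2 = k1
    · rw [hb, sx_symm, sx_symm σ']
      exact congrFun h1 ⟨e.1.1, ha⟩
    · have h3 := sx_res σ (⟨e.1.1, ha⟩ : Ix k1) ⟨e.1.2, hb⟩
      have h4 := sx_res σ' (⟨e.1.1, ha⟩ : Ix k1) ⟨e.1.2, hb⟩
      have h2' : res k1 σ = res k1 σ' := h2
      rw [h2'] at h3
      exact h3.symm.trans h4

theorem tr_surj : Function.Surjective fun σ : ps J → ZMod 2 => (tau k1 σ, res k1 σ) := by
  rintro ⟨τ, σ'⟩
  let g : J → J → ZMod 2 := fun k l =>
    if hk : k = k1 then (if hl : l = k1 then 0 else τ ⟨l, hl⟩)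
    else if hl : l = k1 then τ ⟨k, hk⟩ else sx σ' ⟨k, hk⟩ ⟨l, hl⟩
  have g1 : ∀ l : Ix k1, g k1 l = τ l := by
    intro l
    show dite _ _ _ = _
    rw [dif_pos rfl, dif_neg l.2]
  have g2 : ∀ k l : Ix k1, g k l = sx σ' k l := by
    intro k l
    show dite _ _ _ = _
    rw [dif_neg k.2, dif_neg l.2]
  have g3 : ∀ k l, g k l = g l k := by
    intro k l
    show dite _ _ _ = dite _ _ _
    by_cases hk : k = k1
    · by_cases hl : l = k1
      · rw [dif_pos hk, dif_pos hl, dif_pos hl, dif_pos hk]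
      · rw [dif_pos hk, dif_neg hl, dif_neg hl, dif_pos hk]
    · by_cases hl : l = k1
      · rw [dif_neg hk, dif_pos hl, dif_pos hl, dif_neg hk]
      · rw [dif_neg hk, dif_neg hl, dif_neg hl, dif_neg hk]
        exact sx_symm σ' _ _
  refine ⟨fun e => g e.1.1 e.1.2, Prod.ext (funext fun l => ?_) (funext fun e => ?_)⟩
  · show sx (fun e : ps J => g e.1.1 e.1.2) k1 (l : J) = τ l
    rw [sx_of g g3 (Ne.symm l.2), g1]
  · show sx (fun e : ps J => g e.1.1 e.1.2) (e.1.1 : J) (e.1.2 : J) = σ' e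
    have hne : e.1.1 ≠ e.1.2 := ne_of_lt (mem_filter.1 e.2).2
    rw [sx_of g g3 (fun h => hne (Subtype.ext h)), g2, sx_mem]

/-- the count over the symbols -/
theorem card_tr (P : (Ix k1 → ZMod 2) → (ps (Ix k1) → ZMod 2) → Prop) :
    ((univ.filter fun σ : ps J → ZMod 2 => P (tau k1 σ) (res k1 σ)).card : ℝ) =
      ∑ τ : Ix k1 → ZMod 2, ((univ.filter fun σ' : ps (Ix k1) → ZMod 2 => P τ σ').card : ℝ) := by
  have h1 : (univ.filter fun σ : ps J → ZMod 2 => P (tau k1 σ) (res k1 σ)).card =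
      (univ.filter fun q : (Ix k1 → ZMod 2) × (ps (Ix k1) → ZMod 2) => P q.1 q.2).card := by
    refine card_bij (fun σ _ => (tau k1 σ, res k1 σ)) ?_ ?_ ?_
    · intro σ hσ
      rw [mem_filter] at hσ ⊢
      exact ⟨mem_univ _, hσ.2⟩
    · intro σ _ σ' _ h
      exact tr_inj h
    · intro q hq
      obtain ⟨σ, rfl⟩ := tr_surj q
      exact ⟨σ, mem_filter.2 ⟨mem_univ _, (mem_filter.1 hq).2⟩, rfl⟩
  rw [h1, card_filter, Fintype.sum_prod_type]
  push_cast
  refine sum_congr rfl fun τ _ => ?_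
  rw [card_filter]
  push_cast
  rfl

theorem card_ps : (2 : ℝ) ^ (ps J).card = 2 ^ Fintype.card (Ix k1) * 2 ^ (ps (Ix k1)).card := by
  have := Fintype.card_of_bijective (f := fun σ : ps J → ZMod 2 => (tau k1 σ, res k1 σ))
    ⟨tr_inj, tr_surj⟩
  rw [Fintype.card_prod, Fintype.card_fun, Fintype.card_fun, Fintype.card_fun, ZMod.card,
    Fintype.card_coe, Fintype.card_coe] at this
  exact_mod_cast this

/-- moving `k1` to the small indices -/
def mv (k1 : J) : Option U ⊕ Ix k1 → U ⊕ J :=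
  Sum.elim (fun o => o.elim (Sum.inr k1) Sum.inl) (fun k => Sum.inr k)

theorem mv_bij : Function.Bijective (mv k1 : Option U ⊕ Ix k1 → U ⊕ J) := by
  constructor
  · rintro ((_ | v) | k) ((_ | v') | k') h
    · rfl
    · exact absurd h (by show (Sum.inr k1 : U ⊕ J) ≠ Sum.inl v'; simp)
    · exact absurd (Sum.inr_injective h).symm k'.2
    · exact absurd h (by show (Sum.inl v : U ⊕ J) ≠ Sum.inr k1; simp)
    · exact congrArg (fun v => Sum.inl (some v)) (Sum.inl_injective h)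
    · exact absurd h (by show (Sum.inl v : U ⊕ J) ≠ Sum.inr (k' : J); simp)
    · exact absurd (Sum.inr_injective h) k.2
    · exact absurd h (by show (Sum.inr (k : J) : U ⊕ J) ≠ Sum.inl v'; simp)
    · exact congrArg Sum.inr (Subtype.ext (Sum.inr_injective h))
  · rintro (v | k)
    · exact ⟨Sum.inl (some v), rfl⟩
    · by_cases hk : k = k1
      · exact ⟨Sum.inl none, by rw [hk]; rfl⟩
      · exact ⟨Sum.inr ⟨k, hk⟩, rfl⟩

/-- the same as an equivalence -/
noncomputable def mve (k1 : J) : Option U ⊕ Ix k1 ≃ U ⊕ J := Equiv.ofBijective (mv k1) mv_bij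

theorem mve_none : (mve k1 : Option U ⊕ Ix k1 ≃ U ⊕ J) (Sum.inl none) = Sum.inr k1 := rfl
theorem mve_some (v : U) : (mve k1 : Option U ⊕ Ix k1 ≃ U ⊕ J) (Sum.inl (some v)) = Sum.inl v := rfl
theorem mve_inr (k : Ix k1) : (mve k1 : Option U ⊕ Ix k1 ≃ U ⊕ J) (Sum.inr k) = Sum.inr (k : J) :=
  rfl

/-- the symbols with `k1` as a matrix -/
def tq (τ : Ix k1 → ZMod 2) : Option U ⊕ Ix k1 → Option U ⊕ Ix k1 → ZMod 2
  | Sum.inl none, Sum.inr l => τ l
  | Sum.inr l, Sum.inl none => τ l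
  | _, _ => 0

/-- the matrix with the symbols of `k1` -/
noncomputable def Nt (N : U ⊕ J → U ⊕ J → ZMod 2) (τ : Ix k1 → ZMod 2)
    (i j : Option U ⊕ Ix k1) : ZMod 2 := N (mve k1 i) (mve k1 j) + tq τ i j

theorem pt_mv (N : U ⊕ J → U ⊕ J → ZMod 2) (σ : ps J → ZMod 2) (i j : Option U ⊕ Ix k1) :
    pt N (sx σ) (mve k1 i) (mve k1 j) = pt (Nt N (tau k1 σ)) (sx (res k1 σ)) i j := by
  rcases i with (_ | v) | k
  · rcases j with (_ | v') | l
    · show N (Sum.inr k1) (Sum.inr k1) + sx σ k1 k1 = N (Sum.inr k1) (Sum.inr k1) + 0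
      rw [sx_self]
    · show N (Sum.inr k1) (Sum.inl v') = N (Sum.inr k1) (Sum.inl v') + 0
      rw [add_zero]
    · rfl
  · rcases j with (_ | v') | l
    · show N (Sum.inl v) (Sum.inr k1) = N (Sum.inl v) (Sum.inr k1) + 0
      rw [add_zero]
    · show N (Sum.inl v) (Sum.inl v') = N (Sum.inl v) (Sum.inl v') + 0
      rw [add_zero]
    · show N (Sum.inl v) (Sum.inr (l : J)) = N (Sum.inl v) (Sum.inr (l : J)) + 0
      rw [add_zero]
  · rcases j with (_ | v') | l
    · show N (Sum.inr (k : J)) (Sum.inr k1) + sx σ (k : J) k1 =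
        N (Sum.inr (k : J)) (Sum.inr k1) + sx σ k1 (k : J)
      rw [sx_symm]
    · show N (Sum.inr (k : J)) (Sum.inl v') = N (Sum.inr (k : J)) (Sum.inl v') + 0
      rw [add_zero]
    · show N (Sum.inr (k : J)) (Sum.inr (l : J)) + sx σ (k : J) (l : J) =
        (N (Sum.inr (k : J)) (Sum.inr (l : J)) + 0) + sx (res k1 σ) k l
      rw [sx_res, add_zero]

theorem Kx_mv {ν u : U ⊕ J → ZMod 2} (N : U ⊕ J → U ⊕ J → ZMod 2) (σ : ps J → ZMod 2) :
    Kx ν u (Lm (pt N (sx σ))) ↔ Kx (fun i => ν (mve k1 i)) (fun i => u (mve k1 i))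
      (Lm (pt (Nt N (tau k1 σ)) (sx (res k1 σ)))) := by
  rw [← Kx_comp (mve k1 : Option U ⊕ Ix k1 ≃ U ⊕ J) ν u]
  have h : (fun i j => Lm (pt N (sx σ)) (mve k1 i) (mve k1 j)) =
      Lm (pt (Nt N (tau k1 σ)) (sx (res k1 σ))) := by
    funext i j
    rw [← Lm_comp]
    congr 1
    funext i j
    exact pt_mv N σ i j
  rw [h]

end

/-- the nondegeneracy -/
def NDg {U J : Type} [Fintype U] (N : U ⊕ J → U ⊕ J → ZMod 2) (u ν : U ⊕ J → ZMod 2) : Prop :=
  ∀ (b : U → ZMod 2) (s a : ZMod 2), ((∃ v, b v ≠ 0) ∨ s ≠ 0 ∨ a ≠ 0) →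
    ∃ k, ∑ v, b v * N (Sum.inl v) (Sum.inr k) + s * u (Sum.inr k) + a * ν (Sum.inr k) ≠ 0

section
variable {U J : Type} [Fintype U] [DecidableEq U] [Fintype J] [LinearOrder J]
  {u ν : U ⊕ J → ZMod 2} {N : U ⊕ J → U ⊕ J → ZMod 2}

/-- the functional of `k` -/
def ff (N : U ⊕ J → U ⊕ J → ZMod 2) (u ν : U ⊕ J → ZMod 2) (k : J) :
    ((U → ZMod 2) × ZMod 2 × ZMod 2) →ₗ[ZMod 2] ZMod 2 where
  toFun x := ∑ v, x.1 v * N (Sum.inl v) (Sum.inr k) + x.2.1 * u (Sum.inr k) + x.2.2 * ν (Sum.inr k)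
  map_add' a b := by
    have : ∑ v, (a + b).1 v * N (Sum.inl v) (Sum.inr k) =
        ∑ v, a.1 v * N (Sum.inl v) (Sum.inr k) + ∑ v, b.1 v * N (Sum.inl v) (Sum.inr k) := by
      rw [← sum_add_distrib]
      exact sum_congr rfl fun v _ => by rw [Prod.fst_add, Pi.add_apply]; ring
    rw [this]
    show _ + (a.2.1 + b.2.1) * _ + (a.2.2 + b.2.2) * _ = _
    ring
  map_smul' c a := by
    have : ∑ v, (c • a).1 v * N (Sum.inl v) (Sum.inr k) =
        c * ∑ v, a.1 v * N (Sum.inl v) (Sum.inr k) := by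
      rw [mul_sum]
      exact sum_congr rfl fun v _ => by rw [Prod.smul_fst, Pi.smul_apply, smul_eq_mul]; ring
    rw [this]
    show _ + (c * a.2.1) * _ + (c * a.2.2) * _ = c * (_ + _ + _)
    ring

/-- the choice of `k1` -/
theorem ch1 (hnd : NDg N u ν) (P : J → Prop)
    (hP : Fintype.card U + 3 ≤ (univ.filter P).card) :
    ∃ k1 : J, P k1 ∧ ∀ (b : U → ZMod 2) (s a : ZMod 2), ((∃ v, b v ≠ 0) ∨ s ≠ 0 ∨ a ≠ 0) →
      ∃ k : Ix k1, ∑ v, b v * N (Sum.inl v) (Sum.inr (k : J)) + s * u (Sum.inr (k : J)) +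
        a * ν (Sum.inr (k : J)) ≠ 0 := by
  obtain ⟨J₀, h1, h2⟩ := few (fun k : J => LinearMap.ker (ff N u ν k)) (by
    intro x hx
    by_contra hc
    have h3 : (∃ v, x.1 v ≠ 0) ∨ x.2.1 ≠ 0 ∨ x.2.2 ≠ 0 := by
      by_contra h4
      push Not at h4
      exact hc (Prod.ext (funext h4.1) (Prod.ext h4.2.1 h4.2.2))
    obtain ⟨k, hk⟩ := hnd _ _ _ h3
    exact hk (hx k))
  have hfr : finrank (ZMod 2) ((U → ZMod 2) × ZMod 2 × ZMod 2) = Fintype.card U + 2 := by
    rw [Module.finrank_prod, Module.finrank_prod, Module.finrank_fintype_fun_eq_card,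
      Module.finrank_self]
  rw [hfr] at h1
  obtain ⟨k1, hk1, hk2⟩ : ∃ k1 ∈ univ.filter P, k1 ∉ J₀ := by
    by_contra hc
    push Not at hc
    have := card_le_card (show univ.filter P ⊆ J₀ from fun k hk => hc k hk)
    omega
  refine ⟨k1, (mem_filter.1 hk1).2, fun b s a hbs => ?_⟩
  by_contra hc
  push Not at hc
  have h3 := h2 (b, s, a) (fun k hk => by
    have hkk : k ≠ k1 := fun h => hk2 (h ▸ hk)
    exact hc ⟨k, hkk⟩)
  have h4 : b = 0 ∧ s = 0 ∧ a = 0 := by
    rw [Prod.ext_iff, Prod.ext_iff] at h3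
    exact h3
  rcases hbs with ⟨v, hv⟩ | h | h
  · exact hv (congrFun h4.1 v)
  · exact h h4.2.1
  · exact h h4.2.2

/-- few choices of the symbols of `k1` are degenerate -/
theorem bad_tau {k1 : J} (h : ∀ (b : U → ZMod 2) (s a : ZMod 2), ((∃ v, b v ≠ 0) ∨ s ≠ 0 ∨ a ≠ 0) →
      ∃ k : Ix k1, ∑ v, b v * N (Sum.inl v) (Sum.inr (k : J)) + s * u (Sum.inr (k : J)) +
        a * ν (Sum.inr (k : J)) ≠ 0) :
    (univ.filter fun τ : Ix k1 → ZMod 2 => ¬ NDg (Nt N τ) (fun i => u (mve k1 i))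
      (fun i => ν (mve k1 i))).card ≤ 2 ^ (Fintype.card U + 2) := by
  have h1 : Fintype.card ((U → ZMod 2) × ZMod 2 × ZMod 2) = 2 ^ (Fintype.card U + 2) := by
    rw [Fintype.card_prod, Fintype.card_prod, Fintype.card_fun, ZMod.card, pow_add]
    norm_num
  rw [← h1, ← Finset.card_univ]
  let F : ((U → ZMod 2) × ZMod 2 × ZMod 2) → (Ix k1 → ZMod 2) := fun x k =>
    N (Sum.inr k1) (Sum.inr (k : J)) + (∑ v, x.1 v * N (Sum.inl v) (Sum.inr (k : J)) +
      x.2.1 * u (Sum.inr (k : J)) + x.2.2 * ν (Sum.inr (k : J)))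
  refine (card_le_card (t := univ.image F) fun τ hτ => ?_).trans card_image_le
  rw [mem_filter] at hτ
  have h2 := hτ.2
  unfold NDg at h2
  push Not at h2
  obtain ⟨b, s, a, hbs, hk⟩ := h2
  rw [mem_image]
  have h3 : ∀ k : Ix k1, b none * (N (Sum.inr k1) (Sum.inr (k : J)) + τ k) +
      (∑ v, b (some v) * N (Sum.inl v) (Sum.inr (k : J)) + s * u (Sum.inr (k : J)) +
        a * ν (Sum.inr (k : J))) = 0 := by
    intro k
    have h4 := hk k
    rw [Fintype.sum_option] at h4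
    have h5 : ∀ v, Nt N τ (Sum.inl (some v)) (Sum.inr k) = N (Sum.inl v) (Sum.inr (k : J)) :=
      fun v => add_zero _
    simp only [h5] at h4
    rw [← h4]
    show _ = b none * (N (Sum.inr k1) (Sum.inr (k : J)) + τ k) + _ + s * u (Sum.inr (k : J)) +
      a * ν (Sum.inr (k : J))
    ring
  rcases zz (b none) with h0 | h0
  · exfalso
    obtain ⟨k, hk'⟩ := h (fun v => b (some v)) s a (by
      rcases hbs with ⟨v, hv⟩ | h6 | h6
      · rcases v with _ | v
        · exact absurd h0 hv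
        · exact Or.inl ⟨v, hv⟩
      · exact Or.inr (Or.inl h6)
      · exact Or.inr (Or.inr h6))
    apply hk'
    have := h3 k
    rwa [h0, zero_mul, zero_add] at this
  · refine ⟨(fun v => b (some v), s, a), mem_univ _, funext fun k => ?_⟩
    have := h3 k
    rw [h0, one_mul] at this
    show N (Sum.inr k1) (Sum.inr (k : J)) + (∑ v, b (some v) * N (Sum.inl v) (Sum.inr (k : J)) +
      s * u (Sum.inr (k : J)) + a * ν (Sum.inr (k : J))) = τ k
    have e : ∀ x y z : ZMod 2, x + y + z = 0 → x + z = y := by decide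
    exact e _ _ _ this

end

/-- **positive discriminants** -/
theorem la_p (ε : ℝ) (hε : 0 < ε) : ∃ V₀ : ℕ, ∀ (U J : Type) [Fintype U] [DecidableEq U] [Fintype J]
    [LinearOrder J] (w u ν : U ⊕ J → ZMod 2) (N : U ⊕ J → U ⊕ J → ZMod 2),
    (∀ k, w (Sum.inr k) = 1) → ∑ i, u i = 0 → ∑ i, ν i = 0 →
    (∀ i j, i ≠ j → w i * N i j + w j * N j i = u i * u j) →
    (∀ v, w (Sum.inl v) = 0 → u (Sum.inl v) = 1 ∧ ∀ v', w (Sum.inl v') = 0 → v = v') →
    (∀ (b : U → ZMod 2) (s a : ZMod 2), ((∃ v, b v ≠ 0) ∨ s ≠ 0 ∨ a ≠ 0) →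
      ∃ k, ∑ v, b v * N (Sum.inl v) (Sum.inr k) + s * u (Sum.inr k) + a * ν (Sum.inr k) ≠ 0) →
    4 * Fintype.card U + V₀ ≤ (univ.filter fun k : J => ν (Sum.inr k) = 1).card →
    4 * Fintype.card U + V₀ ≤ (univ.filter fun k : J => u (Sum.inr k) = 1).card →
    4 * Fintype.card U + V₀ ≤ (univ.filter fun k : J => ν (Sum.inr k) ≠ u (Sum.inr k)).card →
    4 * Fintype.card U + V₀ ≤
      (univ.filter fun k : J => ν (Sum.inr k) = 1 ∧ u (Sum.inr k) = 1).card →
    |((univ.filter fun σ : ps J → ZMod 2 => Kx ν u (Lm (pt N (sx σ)))).card : ℝ) /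
      2 ^ (ps J).card - c2| ≤ ε := by
  obtain ⟨V₁, hV₁⟩ := la_p0 (ε / 2) (by positivity)
  obtain ⟨n, hn⟩ : ∃ n : ℕ, (1 : ℝ) / 2 ^ n ≤ ε / 2 := by
    obtain ⟨n, h⟩ := exists_pow_lt_of_lt_one (show (0 : ℝ) < ε / 2 by positivity)
      (show (1 / 2 : ℝ) < 1 by norm_num)
    refine ⟨n, ?_⟩
    rw [one_div_pow] at h
    exact h.le
  refine ⟨V₁ + n + 4, ?_⟩
  intro U J _ _ _ _ w u ν N hw hu hν hN hw0 hnd r1 r2 r3 r4
  obtain ⟨k1, hk1, hnd1⟩ := ch1 (u := u) (ν := ν) (N := N) hnd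
    (fun k => ν (Sum.inr k) = 1 ∧ u (Sum.inr k) = 1) (by
      have r4' : 4 * Fintype.card U + (V₁ + n + 4) ≤
          (univ.filter fun k : J => ν (Sum.inr k) = 1 ∧ u (Sum.inr k) = 1).card := r4
      have e : (univ.filter fun k : J => ν (Sum.inr k) = 1 ∧ u (Sum.inr k) = 1).card =
          (@Finset.filter J (fun k : J => ν (Sum.inr k) = 1 ∧ u (Sum.inr k) = 1)
            (fun a => Classical.propDecidable _) univ).card := by
        congr
      rw [← e]
      omega)
  have hbad := bad_tau hnd1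
  -- the cardinality of `J`
  have hJ : Fintype.card U + 3 + n ≤ Fintype.card (Ix k1) := by
    have h1 : (univ.filter fun k : J => ν (Sum.inr k) = 1).card ≤ Fintype.card J := by
      rw [← Finset.card_univ]
      exact card_le_card (filter_subset _ _)
    have h4 : Fintype.card (Ix k1) = Fintype.card J - 1 := by
      have := Fintype.card_subtype_compl (fun k : J => k = k1)
      rw [Fintype.card_subtype_eq] at this
      exact this
    omega
  have rich : ∀ P : J → Prop, 4 * Fintype.card U + (V₁ + n + 4) ≤ (univ.filter P).card →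
      4 * Fintype.card U + V₁ ≤ (univ.filter fun k : Ix k1 => P k).card := by
    intro P hP
    have h1 : (univ.filter P) ⊆ insert k1 ((univ.filter fun k : Ix k1 => P k).image
        (Subtype.val : Ix k1 → J)) := by
      intro k hk
      by_cases h : k = k1
      · rw [h]
        exact mem_insert_self _ _
      · exact mem_insert_of_mem (mem_image.2 ⟨⟨k, h⟩, mem_filter.2 ⟨mem_univ _,
          (mem_filter.1 hk).2⟩, rfl⟩)
    have h2 := (card_le_card h1).trans (card_insert_le _ _)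
    have h5 : ((univ.filter fun k : Ix k1 => P k).image (Subtype.val : Ix k1 → J)).card ≤
        (univ.filter fun k : Ix k1 => P k).card := card_image_le
    omega
  -- the good choices
  have hgood : ∀ τ : Ix k1 → ZMod 2, NDg (Nt N τ) (fun i => u (mve k1 i)) (fun i => ν (mve k1 i)) →
      |((univ.filter fun σ' : ps (Ix k1) → ZMod 2 => Kx (fun i => ν (mve k1 i))
        (fun i => u (mve k1 i)) (Lm (pt (Nt N τ) (sx σ')))).card : ℝ) /
        2 ^ (ps (Ix k1)).card - c2| ≤ ε / 2 := by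
    intro τ hτ
    refine hV₁ U (Ix k1) (fun i => w (mve k1 i)) (fun i => u (mve k1 i)) (fun i => ν (mve k1 i))
      (Nt N τ) (fun k => hw _) hk1.1 hk1.2 ?_ ?_ ?_ ?_ hτ ?_ ?_ ?_
    · rw [Equiv.sum_comp (mve k1) u]
      exact hu
    · rw [Equiv.sum_comp (mve k1) ν]
      exact hν
    · intro i j hij
      have h1 := hN (mve k1 i) (mve k1 j) (fun h => hij ((mve k1).injective h))
      have h2 : w (mve k1 i) * tq τ i j + w (mve k1 j) * tq τ j i = 0 := by
        rcases i with (_ | v) | k <;> rcases j with (_ | v') | l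
        · exact absurd rfl hij
        · show _ * 0 + _ * 0 = (0 : ZMod 2); ring
        · show w (Sum.inr k1) * τ l + w (Sum.inr (l : J)) * τ l = 0
          rw [hw, hw, one_mul, aa]
        · show _ * 0 + _ * 0 = (0 : ZMod 2); ring
        · show _ * 0 + _ * 0 = (0 : ZMod 2); ring
        · show _ * 0 + _ * 0 = (0 : ZMod 2); ring
        · show w (Sum.inr (k : J)) * τ k + w (Sum.inr k1) * τ k = 0
          rw [hw, hw, one_mul, aa]
        · show _ * 0 + _ * 0 = (0 : ZMod 2); ring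
        · show _ * 0 + _ * 0 = (0 : ZMod 2); ring
      show w (mve k1 i) * (N (mve k1 i) (mve k1 j) + tq τ i j) +
        w (mve k1 j) * (N (mve k1 j) (mve k1 i) + tq τ j i) = _
      rw [← h1]
      have e : ∀ a b x y p q : ZMod 2, a * x + b * y = 0 → a * (p + x) + b * (q + y) =
        a * p + b * q := by decide
      exact e _ _ _ _ _ _ h2
    · intro o ho
      rcases o with _ | v
      · have h1 : w (Sum.inr k1) = 0 := ho
        rw [hw] at h1
        exact absurd h1 (by decide)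
      · obtain ⟨h1, h2⟩ := hw0 v ho
        refine ⟨h1, fun v' hv' => ?_⟩
        rcases v' with _ | v'
        · have h1 : w (Sum.inr k1) = 0 := hv'
          rw [hw] at h1
          exact absurd h1 (by decide)
        · rw [h2 v' hv']
    · convert rich (fun k => ν (Sum.inr k) = 1) (by convert r1)
      rfl
    · convert rich (fun k => u (Sum.inr k) = 1) (by convert r2)
      rfl
    · convert rich (fun k => ν (Sum.inr k) ≠ u (Sum.inr k)) (by convert r3)
      all_goals rfl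
  -- the average
  set A : (Ix k1 → ZMod 2) → ℝ := fun τ =>
    ((univ.filter fun σ' : ps (Ix k1) → ZMod 2 => Kx (fun i => ν (mve k1 i))
        (fun i => u (mve k1 i)) (Lm (pt (Nt N τ) (sx σ')))).card : ℝ) with hA
  set D : ℝ := 2 ^ (ps (Ix k1)).card with hD
  set M : ℝ := 2 ^ Fintype.card (Ix k1) with hM
  have hD0 : 0 < D := by positivity
  have hM0 : 0 < M := by positivity
  have hc2 : 0 ≤ c2 ∧ c2 ≤ 1 := by
    obtain ⟨-, h1, h2, -, -⟩ := Pool.Agent.Y948.CQ.t_C2
    exact ⟨h1.le, h2.le⟩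
  have e1 : ((univ.filter fun σ : ps J → ZMod 2 => Kx ν u (Lm (pt N (sx σ)))).card : ℝ) =
      ∑ τ, A τ := by
    rw [hA, ← card_tr (k1 := k1) (fun τ σ' => Kx (fun i => ν (mve k1 i))
        (fun i => u (mve k1 i)) (Lm (pt (Nt N τ) (sx σ'))))]
    congr 2
    exact filter_congr fun σ _ => Kx_mv (k1 := k1) N σ
  have hAD : ∀ τ, 0 ≤ A τ / D ∧ A τ / D ≤ 1 := by
    intro τ
    refine ⟨by positivity, ?_⟩
    rw [div_le_one hD0, hA, hD]
    have h1 : ((univ.filter fun σ' : ps (Ix k1) → ZMod 2 => Kx (fun i => ν (mve k1 i))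
        (fun i => u (mve k1 i)) (Lm (pt (Nt N τ) (sx σ')))).card) ≤ 2 ^ (ps (Ix k1)).card := by
      refine (card_le_card (filter_subset _ _)).trans ?_
      rw [Finset.card_univ, Fintype.card_fun, ZMod.card, Fintype.card_coe]
    have h2 : (((univ.filter fun σ' : ps (Ix k1) → ZMod 2 => Kx (fun i => ν (mve k1 i))
        (fun i => u (mve k1 i)) (Lm (pt (Nt N τ) (sx σ')))).card : ℕ) : ℝ) ≤
        ((2 ^ (ps (Ix k1)).card : ℕ) : ℝ) := Nat.cast_le.2 h1
    rw [Nat.cast_pow, Nat.cast_ofNat] at h2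
    exact h2
  have e2 : ∀ τ, |A τ / D - c2| ≤ ε / 2 + if ¬ NDg (Nt N τ) (fun i => u (mve k1 i))
      (fun i => ν (mve k1 i)) then 1 else 0 := by
    intro τ
    by_cases h : NDg (Nt N τ) (fun i => u (mve k1 i)) (fun i => ν (mve k1 i))
    · rw [if_neg (not_not.2 h), add_zero]
      exact hgood τ h
    · rw [if_pos h, abs_le]
      have := hAD τ
      constructor <;> linarith [this.1, this.2, hc2.1, hc2.2]
  have e3 : |∑ τ, (A τ / D - c2)| ≤ M * (ε / 2) + 2 ^ (Fintype.card U + 2) := by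
    refine (abs_sum_le_sum_abs _ _).trans ((sum_le_sum fun τ _ => e2 τ).trans ?_)
    rw [sum_add_distrib, sum_const, Finset.card_univ, Fintype.card_fun, ZMod.card, nsmul_eq_mul]
    push_cast
    refine add_le_add le_rfl ?_
    rw [sum_boole]
    exact_mod_cast hbad
  have e4 : ((univ.filter fun σ : ps J → ZMod 2 => Kx ν u (Lm (pt N (sx σ)))).card : ℝ) /
      2 ^ (ps J).card - c2 = (∑ τ, (A τ / D - c2)) / M := by
    rw [e1, card_ps (k1 := k1), ← hD, ← hM, sum_sub_distrib, sum_const, Finset.card_univ,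
      Fintype.card_fun, ZMod.card, nsmul_eq_mul, ← sum_div]
    push_cast
    rw [← hM]
    field_simp
  rw [e4, abs_div, abs_of_pos hM0, div_le_iff₀ hM0]
  refine e3.trans ?_
  have e5 : (2 : ℝ) ^ (Fintype.card U + 2) ≤ ε / 2 * M := by
    have h1 : (2 : ℝ) ^ (Fintype.card U + 2) * 2 ^ n ≤ M := by
      rw [hM, ← pow_add]
      exact pow_le_pow_right₀ (by norm_num) (by omega)
    have h2 : (2 : ℝ) ^ (Fintype.card U + 2) ≤ M * (1 / 2 ^ n) := by
      rw [mul_one_div, le_div_iff₀ (by positivity)]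
      exact h1
    refine h2.trans ?_
    rw [mul_comm]
    exact mul_le_mul_of_nonneg_right hn hM0.le
  linarith

end Pool.Agent.N916.MO
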