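import Pool.Agent.N916.MO.Lk
import Pool.Agent.N916.MO.LaQ

/-!
# MO: the hypothesis LAH, positive discriminants
-/

set_option autoImplicit false
set_option linter.all false

open scoped Classical

namespace Pool.Agent.N916.MO

open Finset
open Pool.Agent.N916.GB (pt ps sx Po Vt sy)
open Pool.Agent.Y703.CQ (c2 nr)
open Pool.Agent.N973.ND (uu nr_rec nr_self)
open Pool.Agent.N916.AM (LAH Nd Rich Bs sub_Bs uu_mod nr_Bs)
open Pool.Agent.N958.GB (lb rr rr_inj rr_im NR sgm two_tuples rec_NR ud wd z2 mem_Vt Vt_sub sy_ne)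

section
variable {M : ℕ} {ι : Type} [Fintype ι] [LinearOrder ι] {S₀ : Finset ℕ} {p : ι → ℕ}
  {t : Bool} {r s : ZMod 2}

theorem sum_udP (hS₀ : ∀ v ∈ S₀, Po v) (hp : ∀ i, Po (p i) ∧ p i ∉ S₀ ∧ (p i).Coprime M)
    (hpi : Function.Injective p) (hts : t = false → s = 0)
    (h4 : ((∏ v ∈ S₀, v) * ∏ i, p i) % 4 = if s = 0 then 1 else 3) :
    ∑ i, ud s (rr t S₀ p) i = 0 := by
  have h2S : 2 ∉ S₀ := fun h => (hS₀ 2 h).2 rfl
  have hur : ∀ k : ι, ud s (rr t S₀ p) (Sum.inr k) = uu (p k) := fun k => if_neg (hp k).1.2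
  rw [Fintype.sum_sum_type]
  have a1 : ∑ i, ud s (rr t S₀ p) (Sum.inr i : (Vt t S₀ : Finset ℕ) ⊕ ι) = ∑ i, uu (p i) :=
    sum_congr rfl fun i _ => hur i
  have a2 : ∑ v : (Vt t S₀ : Finset ℕ), ud s (rr t S₀ p) (Sum.inl v : (Vt t S₀ : Finset ℕ) ⊕ ι) =
      ∑ x ∈ Vt t S₀, if x = 2 then s else uu x := by
    rw [← Finset.sum_coe_sort (Vt t S₀)]
    rfl
  have a3 : ∑ x ∈ S₀, (if x = 2 then s else uu x) = ∑ x ∈ S₀, uu x :=
    sum_congr rfl fun x hx => if_neg (hS₀ x hx).2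
  have a4 : ∑ x ∈ Vt t S₀, (if x = 2 then s else uu x) = s + ∑ x ∈ S₀, uu x := by
    cases t with
    | true =>
      show ∑ x ∈ insert 2 S₀, (if x = 2 then s else uu x) = s + ∑ x ∈ S₀, uu x
      rw [sum_insert h2S, a3, if_pos rfl]
    | false =>
      show ∑ x ∈ S₀, (if x = 2 then s else uu x) = s + ∑ x ∈ S₀, uu x
      rw [a3, hts rfl, zero_add]
  have a5 : ∑ i, uu (p i) = ∑ x ∈ univ.image p, uu x := (sum_image fun i _ j _ h => hpi h).symm
  have hdis : Disjoint S₀ (univ.image p) := by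
    rw [Finset.disjoint_left]
    intro x hx hx'
    obtain ⟨i, -, rfl⟩ := mem_image.1 hx'
    exact (hp i).2.1 hx
  have a6 : ∑ x ∈ S₀ ∪ univ.image p, uu x = ∑ x ∈ S₀, uu x + ∑ x ∈ univ.image p, uu x :=
    sum_union hdis
  have a7 : ∏ x ∈ S₀ ∪ univ.image p, x = (∏ v ∈ S₀, v) * ∏ i, p i := by
    rw [prod_union hdis, prod_image fun i _ j _ h => hpi h]
  have a8 := Pool.Agent.N916.GB.sum_uu (S₀ ∪ univ.image p) (by
    intro x hx
    rcases mem_union.1 hx with h | h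
    · exact hS₀ x h
    · obtain ⟨i, -, rfl⟩ := mem_image.1 h
      exact (hp i).1)
  rw [a7] at a8
  rw [a8, a6] at h4
  rw [a1, a2, a4, a5]
  rcases z2 s with hs | hs <;> rcases z2 (∑ x ∈ S₀, uu x + ∑ x ∈ univ.image p, uu x) with h | h
  · rw [hs, zero_add, h]
  · rw [h, hs, if_neg (by decide), if_pos rfl] at h4
    omega
  · rw [h, hs, if_pos rfl, if_neg (by decide)] at h4
    omega
  · rw [hs, add_assoc, h, aa]

theorem sum_nvP (hS₀ : ∀ v ∈ S₀, Po v) (hp : ∀ i, Po (p i) ∧ p i ∉ S₀ ∧ (p i).Coprime M)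
    (hpi : Function.Injective p)
    (hd : ¬ 17 ∣ (∏ v ∈ S₀, v) * ∏ i, p i) (h : nr 17 ((∏ v ∈ S₀, v) * ∏ i, p i) = 0) :
    ∑ i, nv (rr t S₀ p) i = 0 := by
  have h2S : 2 ∉ S₀ := fun h => (hS₀ 2 h).2 rfl
  rw [Fintype.sum_sum_type]
  have a2 : ∑ v : (Vt t S₀ : Finset ℕ), nv (rr t S₀ p) (Sum.inl v : (Vt t S₀ : Finset ℕ) ⊕ ι) =
      ∑ x ∈ Vt t S₀, nr x 17 := by
    rw [← Finset.sum_coe_sort (Vt t S₀)]
    rfl
  have a4 : ∑ x ∈ Vt t S₀, nr x 17 = ∑ x ∈ S₀, nr x 17 := by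
    cases t with
    | true =>
      show ∑ x ∈ insert 2 S₀, nr x 17 = ∑ x ∈ S₀, nr x 17
      rw [sum_insert h2S, nr2_17, zero_add]
    | false => rfl
  have hdis : Disjoint S₀ (univ.image p) := by
    rw [Finset.disjoint_left]
    intro x hx hx'
    obtain ⟨i, -, rfl⟩ := mem_image.1 hx'
    exact (hp i).2.1 hx
  have a5 : ∑ i, nv (rr t S₀ p) (Sum.inr i : (Vt t S₀ : Finset ℕ) ⊕ ι) =
      ∑ x ∈ univ.image p, nr x 17 := by
    rw [sum_image fun i _ j _ h => hpi h]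
    rfl
  have a6 : ∑ x ∈ S₀ ∪ univ.image p, nr x 17 = ∑ x ∈ S₀, nr x 17 + ∑ x ∈ univ.image p, nr x 17 :=
    sum_union hdis
  have a7 : ∏ x ∈ S₀ ∪ univ.image p, x = (∏ v ∈ S₀, v) * ∏ i, p i := by
    rw [prod_union hdis, prod_image fun i _ j _ h => hpi h]
  have h17 : ∀ x ∈ S₀ ∪ univ.image p, x ≠ 17 := by
    rintro x hx rfl
    have h1 : 17 ∣ (∏ v ∈ S₀, v) * ∏ i, p i := by
      rw [← a7]
      exact dvd_prod_of_mem (fun x => x) hx
    exact hd h1
  have a8 := (nr17_prod (S₀ ∪ univ.image p) (by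
    intro x hx
    refine ⟨?_, h17 x hx⟩
    rcases mem_union.1 hx with h | h
    · exact hS₀ x h
    · obtain ⟨i, -, rfl⟩ := mem_image.1 h
      exact (hp i).1)).2
  rw [a2, a4, a5, ← a6, a8, a7, h]

/-- enough large primes with both symbols nontrivial -/
theorem enoughP (hM : 136 ∣ M) (hM0 : 0 < M) {V₀ : ℕ}
    (hp : ∀ i, Po (p i) ∧ p i ∉ S₀ ∧ (p i).Coprime M) (hpi : Function.Injective p)
    (hR : Rich M (V₀ + 4) S₀ (univ.image p)) :
    4 * Fintype.card (Vt t S₀ : Finset ℕ) + V₀ ≤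
      (univ.filter fun k : ι => nv (rr t S₀ p) (Sum.inr k) = 1 ∧
        ud s (rr t S₀ p) (Sum.inr k) = 1).card := by
  have h17 : ∀ k, p k ≠ 17 := by
    intro k h
    have h1 := (hp k).2.2
    rw [h] at h1
    have : (17 : ℕ) ∣ M := Dvd.dvd.trans (by norm_num) hM
    have := Nat.Coprime.eq_one_of_dvd h1 this
    omega
  have hnv : ∀ k, nv (rr t S₀ p) (Sum.inr k) = nr 17 (p k % 17) := by
    intro k
    show nr (p k) 17 = _
    rw [nr17 (hp k).1 (h17 k), nr17_mod]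
  have hud : ∀ k, ud s (rr t S₀ p) (Sum.inr k) = uu (p k) := fun k => if_neg (hp k).1.2
  have hle : 4 * Fintype.card (Vt t S₀ : Finset ℕ) + V₀ ≤ (V₀ + 4) * (S₀.card + 1) := by
    have h1 := card_Vt (t := t) (S₀ := S₀)
    have h2 : (V₀ + 4) * (S₀.card + 1) = V₀ * S₀.card + V₀ + 4 * (S₀.card + 1) := by ring
    rw [h2]
    have := Nat.zero_le (V₀ * S₀.card)
    omega
  have m17 : ∀ {k a : ℕ}, k % 136 = a % 136 → k % 17 = a % 17 := by
    intro k a h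
    have h1 := congrArg (· % 17) h
    simp only [Nat.mod_mod_of_dvd _ (show 17 ∣ 136 by norm_num)] at h1
    exact h1
  have m4 : ∀ {k a : ℕ}, k % 136 = a % 136 → k % 4 = a % 4 := by
    intro k a h
    have h1 := congrArg (· % 4) h
    simp only [Nat.mod_mod_of_dvd _ (show 4 ∣ 136 by norm_num)] at h1
    exact h1
  refine hle.trans ?_
  refine rich_cls hpi hR hM0 hM 3 ?_ _ fun i hi => ?_
  · rw [ZMod.isUnit_iff_coprime]
    norm_num
  · rw [hnv, m17 hi, hud]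
    refine ⟨nr17_3, ?_⟩
    unfold uu
    rw [if_pos (m4 hi)]

end

/-- **positive discriminants** -/
theorem lah_p {M : ℕ} (hM : 136 ∣ M) (hM0 : 0 < M) {t : Bool} {r s : ZMod 2} {K : Finset ℕ}
    (hts : t = false → s = 0) (htr : t = true → r ≠ 0 ∨ s ≠ 0)
    (hK : ∀ a ∈ K, a % 4 = (if s = 0 then 1 else 3) ∧ nr 17 a = 0 ∧ ¬ 17 ∣ a) : LAH M K (Gu t r s) c2 := by
  have h8 := d8 hM
  have h4M : (4 : ℕ) ∣ M := Dvd.dvd.trans (by norm_num) hM
  have h17M : (17 : ℕ) ∣ M := Dvd.dvd.trans (by norm_num) hM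
  intro ε hε
  obtain ⟨V₀, hV₀⟩ := la_p ε hε
  refine ⟨V₀ + 4, ?_⟩
  intro ι _ _ S₀ p hS₀ hp hpi hpK hN hR
  have h2S : 2 ∉ S₀ := fun h => (hS₀ 2 h).2 rfl
  set r₀ := rr t S₀ p with hr₀
  have hrp : ∀ i, (r₀ i).Prime := prm hS₀ hp
  have hrinj : Function.Injective r₀ := rr_inj t hpi (fun i => (hp i).2.1) fun i => (hp i).1.2
  have hK4 := (hK _ hpK).1
  have hK17 := (hK _ hpK).2.1
  have hKd := (hK _ hpK).2.2
  rw [Nat.dvd_mod_iff h17M] at hKd
  rw [Nat.mod_mod_of_dvd _ h4M] at hK4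
  rw [nr17_mod, Nat.mod_mod_of_dvd _ h17M, ← nr17_mod] at hK17
  have h17S : 17 ∉ S₀ := by
    intro h
    exact hKd (Dvd.dvd.mul_right (dvd_prod_of_mem (fun x => x) h) _)
  have h17V : 17 ∉ Vt t S₀ := by
    intro h
    rcases mem_Vt.1 h with h | h
    · exact absurd h.2 (by norm_num)
    · exact h17S h
  obtain ⟨e1, e2, e3⟩ := enough (t := t) (s := s) hM hM0 hp hpi hR
  have e4 := enoughP (t := t) (s := s) hM hM0 hp hpi hR
  have h2 := hV₀ (Vt t S₀) ι (wd r r₀) (ud s r₀) (nv r₀) (NR r s r₀)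
    (fun k => if_neg (hp k).1.2) (sum_udP hS₀ hp hpi hts hK4) (sum_nvP hS₀ hp hpi hKd hK17)
    (fun i j hij => rec_NR r s hrinj hrp i j hij) (uniq2 htr hS₀)
    (by
      intro b s' a hbs
      set w : ℕ → ZMod 2 := fun n => if h : n ∈ Vt t S₀ then b ⟨n, h⟩ else if n = 17 then a else 0
        with hw
      have hw1 : ∀ v : (Vt t S₀ : Finset ℕ), w v = b v := fun v => by
        rw [hw]
        exact dif_pos v.2
      have hw17 : w 17 = a := by
        rw [hw]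
        show dite _ _ _ = _
        rw [dif_neg h17V, if_pos rfl]
      have hw2 : ∀ n, n ∉ insert 17 (Vt t S₀) → w n = 0 := fun n hn => by
        rw [mem_insert, not_or] at hn
        rw [hw]
        show dite _ _ _ = _
        rw [dif_neg hn.2, if_neg hn.1]
      have hsub : insert 17 (Vt t S₀) ⊆ Bs M S₀ := by
        intro x hx
        rcases mem_insert.1 hx with h | h
        · rw [h]
          exact mem17 hM hM0 S₀
        · exact (Vt_sub t S₀).trans (sub_Bs h8 hM0 S₀) h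
      obtain ⟨x, hx, hx2⟩ := hN w s' (by
        rcases hbs with ⟨v, hv⟩ | h | h
        · exact Or.inl ⟨v, hsub (mem_insert_of_mem v.2), by rw [hw1]; exact hv⟩
        · exact Or.inr h
        · exact Or.inl ⟨17, mem17 hM hM0 S₀, by rw [hw17]; exact h⟩)
      obtain ⟨k, -, rfl⟩ := mem_image.1 hx
      refine ⟨k, ?_⟩
      have hur : ud s r₀ (Sum.inr k) = uu (p k) := if_neg (hp k).1.2
      rw [hur]
      intro h0
      apply hx2
      refine Eq.trans ?_ h0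
      have c2 : ∑ v ∈ insert 17 (Vt t S₀), w v * nr (p k) v = ∑ v ∈ Bs M S₀, w v * nr (p k) v :=
        sum_subset hsub fun x _ hx => by rw [hw2 x hx, zero_mul]
      have c3 : ∑ v : (Vt t S₀ : Finset ℕ), b v * NR r s r₀ (Sum.inl v) (Sum.inr k) =
          ∑ v ∈ Vt t S₀, w v * nr (p k) v := by
        rw [← Finset.sum_coe_sort (Vt t S₀)]
        refine sum_congr rfl fun v _ => ?_
        rw [hw1]
        congr 1
        exact sy_ne r s (hp k).1.2
      rw [← c2, sum_insert h17V, hw17, c3]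
      show a * nr (p k) 17 + _ + _ = _ + _ + a * nr (p k) 17
      ring)
    e1 e2 e3 (by convert e4)
  refine ⟨fun σ => Kx (nv r₀) (ud s r₀) (Lm (pt (NR r s r₀) (sx (σ + sgm p)))), ?_, ?_⟩
  · intro q hqi hq
    rw [Gu_iff (rr_inj t hqi (fun i => (hq i).2.1) fun i => (hq i).1.2) (rr_im t)]
    obtain ⟨a1, a2, a3⟩ := two_q (t := t) (r := r) (s := s) hM hM0 hS₀ hp hpi hqi hq
    rw [a1, a2, a3]
    rfl
  · rw [shift_card (fun σ => Kx (nv r₀) (ud s r₀) (Lm (pt (NR r s r₀) (sx σ))))]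
    exact h2

end Pool.Agent.N916.MO
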