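import Pool.Agent.N916.MO.Chain

/-!
# MO: the bounds for the bad systems, the first moment
-/

set_option autoImplicit false
set_option linter.all false

open scoped Classical

namespace Pool.Agent.N916.MO

open Finset Module

section
variable {E0 I : Type} [AddCommGroup E0] [Module (ZMod 2) E0] [Fintype E0] [Fintype I]
  [DecidableEq I]

/-- the bounds at `A` -/
structure Bd (B : EE E0 I →ₗ[ZMod 2] EE E0 I →ₗ[ZMod 2] ZMod 2) (A : Finset I) (δ : ℝ) : Prop where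
  na : ∀ z : EE E0 I, z.2.1 = 0 → z.2.2 = 0 →
    (∀ w : EE E0 I, w.2.1 = 0 → w.2.2 = 0 → B z w = 0) →
    (∀ k ∈ A, B z (fx k) = 0 ∧ B z (fy k) = 0) → z = 0
  a1 : ((univ.filter fun z : EE E0 I => z ∈ EA A ∧ z.2.1 = 0 ∧
    ∀ k ∈ A, B z (fy k) = 0).card : ℝ) ≤ δ * 2 ^ A.card
  a2 : ((univ.filter fun z : EE E0 I => z ∈ EA A ∧ z.2.2 = 0 ∧
    ∀ k ∈ A, B z (fx k) = 0).card : ℝ) ≤ δ * 2 ^ A.card
  a3 : ((univ.filter fun z : EE E0 I => z ∈ EA A ∧ z.2.1 = z.2.2 ∧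
    ∀ k ∈ A, B z (fx k) = B z (fy k)).card : ℝ) ≤ δ * 2 ^ A.card
  q2 : ((univ.filter fun q : EE E0 I × EE E0 I => q.1 ∈ EA A ∧ q.2 ∈ EA A ∧ q.1.2.2 = q.2.2.1 ∧
    q.1.2.1 + q.1.2.2 + q.2.2.2 = 0 ∧ ∀ k ∈ A, B q.1 (fx k) = B q.2 (fy k) ∧
      B q.1 (fy k) + B q.1 (fx k) + B q.2 (fx k) = 0).card : ℝ) ≤ δ * 2 ^ (2 * A.card)
  q3 : ((univ.filter fun q : EE E0 I × EE E0 I => q.1 ∈ EA A ∧ q.2 ∈ EA A ∧ q.1.2.2 = q.2.2.1 ∧
    ∀ k ∈ A, B q.1 (fx k) = B q.2 (fy k)).card : ℝ) ≤ δ * 2 ^ (3 * A.card)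

variable {B : EE E0 I →ₗ[ZMod 2] EE E0 I →ₗ[ZMod 2] ZMod 2} {A : Finset I}

theorem e01 {a b : ZMod 2} (h : a + b = 0) : a = b := by
  revert a b
  decide

theorem vadd {v w : I → ZMod 2} (h : v + w = 0) : v = w := by
  funext k
  exact e01 (congrFun h k)

theorem rad_fx {s : Sy I} {z : EE E0 I} (hz : z ∈ Rad (B + sB s.1) (EA A)) {k : I} (hk : k ∈ A) :
    ∑ l, s.1 k l * z.2.2 l = B z (fx k) := by
  have h := hz.2 (fx k) (by
    intro l hl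
    refine ⟨?_, rfl⟩
    show (Pi.single k 1 : I → ZMod 2) l = 0
    exact Pi.single_eq_of_ne (fun h => hl (by rw [h]; exact hk)) 1)
  rw [LinearMap.add_apply, LinearMap.add_apply, sB_fx] at h
  exact (e01 h).symm

theorem rad_fy {s : Sy I} {z : EE E0 I} (hz : z ∈ Rad (B + sB s.1) (EA A)) {k : I} (hk : k ∈ A) :
    ∑ l, s.1 k l * z.2.1 l = B z (fy k) := by
  have h := hz.2 (fy k) (by
    intro l hl
    refine ⟨rfl, ?_⟩
    show (Pi.single k 1 : I → ZMod 2) l = 0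
    exact Pi.single_eq_of_ne (fun h => hl (by rw [h]; exact hk)) 1)
  rw [LinearMap.add_apply, LinearMap.add_apply, sB_fy s.2] at h
  exact (e01 h).symm

theorem rad_e {s : Sy I} {z : EE E0 I} (hz : z ∈ Rad (B + sB s.1) (EA A)) {w : EE E0 I}
    (h1 : w.2.1 = 0) (h2 : w.2.2 = 0) : B z w = 0 := by
  have h := hz.2 w (by
    intro l hl
    rw [h1, h2]
    exact ⟨rfl, rfl⟩)
  have h3 : sB s.1 z w = 0 := by
    rw [sB_apply, h1, h2]
    refine sum_eq_zero fun k _ => sum_eq_zero fun l _ => ?_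
    rw [Pi.zero_apply, Pi.zero_apply, mul_zero, zero_mul, add_zero, mul_zero]
  rw [LinearMap.add_apply, LinearMap.add_apply, h3, add_zero] at h
  exact h

theorem rad_na {δ : ℝ} (hb : Bd B A δ) {s : Sy I} {z : EE E0 I}
    (hz : z ∈ Rad (B + sB s.1) (EA A)) (h1 : z.2.1 = 0) (h2 : z.2.2 = 0) : z = 0 := by
  refine hb.na z h1 h2 (fun w hw1 hw2 => rad_e hz hw1 hw2) fun k hk => ⟨?_, ?_⟩
  · rw [← rad_fx hz hk, h2]
    exact sum_eq_zero fun l _ => mul_zero _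
  · rw [← rad_fy hz hk, h1]
    exact sum_eq_zero fun l _ => mul_zero _

/-- a union bound -/
theorem ub {α β : Type} [Fintype α] [Fintype β] (T : Finset β) (P : α → β → Prop) {c N : ℝ} {a : ℕ}
    (hT : (T.card : ℝ) ≤ c * 2 ^ a) (C : ℕ)
    (hN : (Fintype.card α : ℝ) = N) (h : ∀ b ∈ T, (univ.filter fun x => P x b).card * 2 ^ a ≤
      C * Fintype.card α) :
    ((univ.filter fun x : α => ∃ b ∈ T, P x b).card : ℝ) ≤ C * c * N := by
  have h1 : (univ.filter fun x : α => ∃ b ∈ T, P x b) ⊆ T.biUnion fun b => univ.filter fun x => P x b := by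
    intro x hx
    rw [mem_filter] at hx
    obtain ⟨b, hb, hx⟩ := hx.2
    exact mem_biUnion.2 ⟨b, hb, mem_filter.2 ⟨mem_univ _, hx⟩⟩
  have h2 : (univ.filter fun x : α => ∃ b ∈ T, P x b).card ≤
      ∑ b ∈ T, (univ.filter fun x => P x b).card := (card_le_card h1).trans card_biUnion_le
  have h3 : ∀ b ∈ T, ((univ.filter fun x => P x b).card : ℝ) ≤ C * N / 2 ^ a := by
    intro b hb
    rw [le_div_iff₀ (by positivity), ← hN]
    exact_mod_cast h b hb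
  have hN0 : 0 ≤ N := by
    rw [← hN]
    positivity
  calc ((univ.filter fun x : α => ∃ b ∈ T, P x b).card : ℝ)
      ≤ ∑ b ∈ T, ((univ.filter fun x => P x b).card : ℝ) := by exact_mod_cast h2
    _ ≤ ∑ b ∈ T, C * N / 2 ^ a := sum_le_sum h3
    _ = T.card * (C * N / 2 ^ a) := by rw [sum_const, nsmul_eq_mul]
    _ ≤ c * 2 ^ a * (C * N / 2 ^ a) := mul_le_mul_of_nonneg_right hT (by positivity)
    _ = C * c * N := by field_simp

/-- few systems are not generic -/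
theorem bad_le {δ : ℝ} (hb : Bd B A δ) :
    ((univ.filter fun s : Sy I => ¬ Gen B s A).card : ℝ) ≤ 534 * δ * Fintype.card (Sy I) := by
  set T1 := univ.filter fun z : EE E0 I => (z ∈ EA A ∧ z.2.1 = 0 ∧ ∀ k ∈ A, B z (fy k) = 0) ∧
    z.2.2 ≠ 0 with hT1
  set T2 := univ.filter fun z : EE E0 I => (z ∈ EA A ∧ z.2.2 = 0 ∧ ∀ k ∈ A, B z (fx k) = 0) ∧
    z.2.1 ≠ 0 with hT2
  set T3 := univ.filter fun z : EE E0 I => (z ∈ EA A ∧ z.2.1 = z.2.2 ∧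
    ∀ k ∈ A, B z (fx k) = B z (fy k)) ∧ z.2.1 ≠ 0 with hT3
  set T4 := univ.filter fun q : EE E0 I × EE E0 I => (q.1 ∈ EA A ∧ q.2 ∈ EA A ∧
    q.1.2.2 = q.2.2.1 ∧ q.1.2.1 + q.1.2.2 + q.2.2.2 = 0 ∧ ∀ k ∈ A, B q.1 (fx k) = B q.2 (fy k) ∧
      B q.1 (fy k) + B q.1 (fx k) + B q.2 (fx k) = 0) ∧ q.1.2.1 ≠ 0 ∧ q.1.2.2 ≠ 0 ∧
      q.1.2.1 ≠ q.1.2.2 with hT4
  set T5 := univ.filter fun q : EE E0 I × EE E0 I => (q.1 ∈ EA A ∧ q.2 ∈ EA A ∧
    q.1.2.2 = q.2.2.1 ∧ ∀ k ∈ A, B q.1 (fx k) = B q.2 (fy k)) ∧ (q.1.2.1 ≠ 0 ∧ q.1.2.2 ≠ 0 ∧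
      q.2.2.2 ≠ 0 ∧ q.1.2.1 ≠ q.1.2.2 ∧ q.1.2.1 ≠ q.2.2.2 ∧ q.1.2.2 ≠ q.2.2.2 ∧
      q.1.2.1 + q.1.2.2 + q.2.2.2 ≠ 0) with hT5
  have c1 : (T1.card : ℝ) ≤ δ * 2 ^ A.card := le_trans (Nat.cast_le.2 (card_le_card fun z hz => by
    rw [hT1, mem_filter] at hz
    exact mem_filter.2 ⟨mem_univ _, hz.2.1⟩)) hb.a1
  have c2 : (T2.card : ℝ) ≤ δ * 2 ^ A.card := le_trans (Nat.cast_le.2 (card_le_card fun z hz => by
    rw [hT2, mem_filter] at hz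
    exact mem_filter.2 ⟨mem_univ _, hz.2.1⟩)) hb.a2
  have c3 : (T3.card : ℝ) ≤ δ * 2 ^ A.card := le_trans (Nat.cast_le.2 (card_le_card fun z hz => by
    rw [hT3, mem_filter] at hz
    exact mem_filter.2 ⟨mem_univ _, hz.2.1⟩)) hb.a3
  have c4 : (T4.card : ℝ) ≤ δ * 2 ^ (2 * A.card) :=
    le_trans (Nat.cast_le.2 (card_le_card fun z hz => by
      rw [hT4, mem_filter] at hz
      exact mem_filter.2 ⟨mem_univ _, hz.2.1⟩)) hb.q2
  have c5 : (T5.card : ℝ) ≤ δ * 2 ^ (3 * A.card) :=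
    le_trans (Nat.cast_le.2 (card_le_card fun z hz => by
      rw [hT5, mem_filter] at hz
      exact mem_filter.2 ⟨mem_univ _, hz.2.1⟩)) hb.q3
  set V1 := univ.filter fun s : Sy I => ∃ z ∈ T1, ∀ k ∈ A, ∑ l, s.1 k l * z.2.2 l = B z (fx k)
    with hV1
  set V2 := univ.filter fun s : Sy I => ∃ z ∈ T2, ∀ k ∈ A, ∑ l, s.1 k l * z.2.1 l = B z (fy k)
    with hV2
  set V3 := univ.filter fun s : Sy I => ∃ z ∈ T3, ∀ k ∈ A, ∑ l, s.1 k l * z.2.1 l = B z (fy k)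
    with hV3
  set V4 := univ.filter fun s : Sy I => ∃ q ∈ T4, ∀ k ∈ A,
    ∑ l, s.1 k l * q.1.2.1 l = B q.1 (fy k) ∧ ∑ l, s.1 k l * q.1.2.2 l = B q.1 (fx k) with hV4
  set V5 := univ.filter fun s : Sy I => ∃ q ∈ T5, ∀ k ∈ A,
    ∑ l, s.1 k l * q.1.2.1 l = B q.1 (fy k) ∧ ∑ l, s.1 k l * q.1.2.2 l = B q.1 (fx k) ∧
      ∑ l, s.1 k l * q.2.2.2 l = B q.2 (fx k) with hV5
  have u1 : (V1.card : ℝ) ≤ (2 : ℕ) * δ * (Fintype.card (Sy I) : ℝ) := by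
    convert ub T1 (fun (s : Sy I) z => ∀ k ∈ A, ∑ l, s.1 k l * z.2.2 l = B z (fx k)) c1 2 rfl
      (fun z hz => by
        rw [hT1, mem_filter] at hz
        convert sy1 hz.2.2 A (fun k hk => (hz.2.1.1 k hk).2) fun k => B z (fx k))
  have u2 : (V2.card : ℝ) ≤ (2 : ℕ) * δ * (Fintype.card (Sy I) : ℝ) := by
    convert ub T2 (fun (s : Sy I) z => ∀ k ∈ A, ∑ l, s.1 k l * z.2.1 l = B z (fy k)) c2 2 rfl
      (fun z hz => by
        rw [hT2, mem_filter] at hz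
        convert sy1 hz.2.2 A (fun k hk => (hz.2.1.1 k hk).1) fun k => B z (fy k))
  have u3 : (V3.card : ℝ) ≤ (2 : ℕ) * δ * (Fintype.card (Sy I) : ℝ) := by
    convert ub T3 (fun (s : Sy I) z => ∀ k ∈ A, ∑ l, s.1 k l * z.2.1 l = B z (fy k)) c3 2 rfl
      (fun z hz => by
        rw [hT3, mem_filter] at hz
        convert sy1 hz.2.2 A (fun k hk => (hz.2.1.1 k hk).1) fun k => B z (fy k))
  have u4 : (V4.card : ℝ) ≤ (16 : ℕ) * δ * (Fintype.card (Sy I) : ℝ) := by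
    convert ub T4 (fun (s : Sy I) q => ∀ k ∈ A, ∑ l, s.1 k l * q.1.2.1 l = B q.1 (fy k) ∧
        ∑ l, s.1 k l * q.1.2.2 l = B q.1 (fx k)) c4 16 rfl
      (fun q hq => by
        rw [hT4, mem_filter] at hq
        convert sy2 hq.2.2.1 hq.2.2.2.1 hq.2.2.2.2 A (fun k hk => (hq.2.1.1 k hk).1)
          (fun k hk => (hq.2.1.1 k hk).2) (fun k => B q.1 (fy k)) fun k => B q.1 (fx k))
  have u5 : (V5.card : ℝ) ≤ (512 : ℕ) * δ * (Fintype.card (Sy I) : ℝ) := by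
    convert ub T5 (fun (s : Sy I) q => ∀ k ∈ A, ∑ l, s.1 k l * q.1.2.1 l = B q.1 (fy k) ∧
        ∑ l, s.1 k l * q.1.2.2 l = B q.1 (fx k) ∧
        ∑ l, s.1 k l * q.2.2.2 l = B q.2 (fx k)) c5 512 rfl
      (fun q hq => by
        rw [hT5, mem_filter] at hq
        obtain ⟨h1, h2, h3, h4, h5, h6, h7⟩ := hq.2.2
        convert sy3 h1 h2 h3 h4 h5 h6 h7 A (fun k hk => (hq.2.1.1 k hk).1)
          (fun k hk => (hq.2.1.1 k hk).2) (fun k hk => (hq.2.1.2.1 k hk).2)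
          (fun k => B q.1 (fy k)) (fun k => B q.1 (fx k)) fun k => B q.2 (fx k))
  have hsub : (univ.filter fun s : Sy I => ¬ Gen B s A) ⊆ V1 ∪ V2 ∪ V3 ∪ V4 ∪ V5 := by
    intro s hs
    rw [mem_filter] at hs
    have hs := hs.2
    by_contra hc
    simp only [hV1, hV2, hV3, hV4, hV5, mem_union, mem_filter, mem_univ, true_and, not_or] at hc
    obtain ⟨⟨⟨⟨n1, n2⟩, n3⟩, n4⟩, n5⟩ := hc
    have r1 : ∀ z ∈ Rad (B + sB s.1) (EA A), z.2.1 = 0 → z = 0 := by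
      intro z hz hz1
      by_cases h2 : z.2.2 = 0
      · exact rad_na hb hz hz1 h2
      · exfalso
        refine n1 ⟨z, ?_, fun k hk => rad_fx hz hk⟩
        rw [hT1, mem_filter]
        refine ⟨mem_univ _, ⟨hz.1, hz1, fun k hk => ?_⟩, h2⟩
        rw [← rad_fy hz hk, hz1]
        exact sum_eq_zero fun l _ => mul_zero _
    have r2 : ∀ z ∈ Rad (B + sB s.1) (EA A), z.2.2 = 0 → z = 0 := by
      intro z hz hz1
      by_cases h2 : z.2.1 = 0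
      · exact rad_na hb hz h2 hz1
      · exfalso
        refine n2 ⟨z, ?_, fun k hk => rad_fy hz hk⟩
        rw [hT2, mem_filter]
        refine ⟨mem_univ _, ⟨hz.1, hz1, fun k hk => ?_⟩, h2⟩
        rw [← rad_fx hz hk, hz1]
        exact sum_eq_zero fun l _ => mul_zero _
    have r3 : ∀ z ∈ Rad (B + sB s.1) (EA A), z.2.1 = z.2.2 → z = 0 := by
      intro z hz hz1
      by_cases h2 : z.2.1 = 0
      · exact rad_na hb hz h2 (by rw [← hz1, h2])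
      · exfalso
        refine n3 ⟨z, ?_, fun k hk => rad_fy hz hk⟩
        rw [hT3, mem_filter]
        refine ⟨mem_univ _, ⟨hz.1, hz1, fun k hk => ?_⟩, h2⟩
        rw [← rad_fy hz hk, ← rad_fx hz hk, hz1]
    apply hs
    intro z1 hz1 z2 hz2 h12
    by_contra hne
    have h12' : z1.2.2 = z2.2.1 := vadd h12
    have hn1 : z1 ≠ 0 := by
      rintro rfl
      refine hne ⟨rfl, r1 z2 hz2 ?_⟩
      rw [← h12']
      rfl
    have hn2 : z2 ≠ 0 := by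
      rintro rfl
      refine hn1 (r2 z1 hz1 ?_)
      rw [h12']
      rfl
    have x1 : z1.2.1 ≠ 0 := fun h => hn1 (r1 z1 hz1 h)
    have y1 : z1.2.2 ≠ 0 := fun h => hn1 (r2 z1 hz1 h)
    have y2 : z2.2.2 ≠ 0 := fun h => hn2 (r2 z2 hz2 h)
    have xy1 : z1.2.1 ≠ z1.2.2 := fun h => hn1 (r3 z1 hz1 h)
    have yy : z1.2.2 ≠ z2.2.2 := fun h => hn2 (r3 z2 hz2 (by rw [← h12', h]))
    have xy : z1.2.1 ≠ z2.2.2 := by
      intro h
      have h3 := r3 (z1 + z2) (Submodule.add_mem _ hz1 hz2) (by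
        show z1.2.1 + z2.2.1 = z1.2.2 + z2.2.2
        rw [← h12', ← h, add_comm])
      have h4 : (z1 + z2).2.1 = 0 := by rw [h3]; rfl
      have h5 : z1.2.1 = z2.2.1 := vadd h4
      exact xy1 (by rw [h5, h12'])
    by_cases hs0 : z1.2.1 + z1.2.2 + z2.2.2 = 0
    · refine n4 ⟨(z1, z2), ?_, fun k hk => ⟨rad_fy hz1 hk, rad_fx hz1 hk⟩⟩
      rw [hT4, mem_filter]
      refine ⟨mem_univ _, ⟨hz1.1, hz2.1, h12', hs0, fun k hk => ⟨?_, ?_⟩⟩, x1, y1, xy1⟩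
      · show B z1 (fx k) = B z2 (fy k)
        rw [← rad_fx hz1 hk, ← rad_fy hz2 hk, h12']
      · show B z1 (fy k) + B z1 (fx k) + B z2 (fx k) = 0
        rw [← rad_fx hz1 hk, ← rad_fy hz1 hk, ← rad_fx hz2 hk, ← sum_add_distrib,
          ← sum_add_distrib]
        refine sum_eq_zero fun l _ => ?_
        rw [← mul_add, ← mul_add]
        have : z1.2.1 l + z1.2.2 l + z2.2.2 l = 0 := congrFun hs0 l
        rw [this, mul_zero]
    · refine n5 ⟨(z1, z2), ?_, fun k hk => ⟨rad_fy hz1 hk, rad_fx hz1 hk, rad_fx hz2 hk⟩⟩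
      rw [hT5, mem_filter]
      refine ⟨mem_univ _, ⟨hz1.1, hz2.1, h12', fun k hk => ?_⟩, x1, y1, y2, xy1, xy, yy, hs0⟩
      show B z1 (fx k) = B z2 (fy k)
      rw [← rad_fx hz1 hk, ← rad_fy hz2 hk, h12']
  have hcard := (card_le_card hsub).trans ((card_union_le _ _).trans (Nat.add_le_add_right
    ((card_union_le _ _).trans (Nat.add_le_add_right ((card_union_le _ _).trans
      (Nat.add_le_add_right (card_union_le _ _) _)) _)) _))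
  have hcard' := (Nat.cast_le (α := ℝ)).2 hcard
  push_cast at hcard'
  push_cast at u1 u2 u3 u4 u5
  refine hcard'.trans ?_
  linarith

end

end Pool.Agent.N916.MO
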