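import Pool.Agent.N916.MO.Fu

/-!
# MO: the symbols between the large primes and the symmetric matrices; the final estimates
-/

set_option autoImplicit false
set_option linter.all false

open scoped Classical

namespace Pool.Agent.N916.MO

open Finset Module
open Pool.Agent.N916.GB (pt ps sx)
open Pool.Agent.Y703.CQ (c2)

section
variable {V : Type} [Fintype V] [DecidableEq V]

/-- the matrix with row sums zero -/
def Lm (N : V → V → ZMod 2) (i j : V) : ZMod 2 :=
  if i = j then ∑ k, (if k = i then 0 else N i k) else N i j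

theorem Lm_row (N : V → V → ZMod 2) (i : V) : ∑ j, Lm N i j = 0 := by
  have h : ∀ j, Lm N i j = (if j = i then ∑ k, (if k = i then 0 else N i k) else 0) +
      (if j = i then 0 else N i j) := by
    intro j
    unfold Lm
    by_cases h : j = i
    · rw [if_pos h.symm, if_pos h, if_pos h, add_zero]
    · rw [if_neg (Ne.symm h), if_neg h, if_neg h, zero_add]
  rw [sum_congr rfl fun j _ => h j, sum_add_distrib, sum_ite_eq' univ i, if_pos (mem_univ i), aa]

theorem Lm_ne (N : V → V → ZMod 2) {i j : V} (h : i ≠ j) : Lm N i j = N i j := if_neg h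

end

section
variable {U J : Type} [Fintype U] [DecidableEq U] [Fintype J] [LinearOrder J] {k0 : J}

theorem Lm_pt (N : U ⊕ J → U ⊕ J → ZMod 2) (δ : J → J → ZMod 2) :
    Lm (pt N δ) = pt (Lm N) (Lm δ) := by
  funext i j
  rcases i with v | k
  · have : ∀ j, pt N δ (Sum.inl v) j = N (Sum.inl v) j := by
      rintro (v' | l) <;> rfl
    have h2 : pt (Lm N) (Lm δ) (Sum.inl v) j = Lm N (Sum.inl v) j := by
      rcases j with v' | l <;> rfl
    rw [h2]
    unfold Lm
    simp only [this]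
  · rcases j with v | l
    · have h2 : pt (Lm N) (Lm δ) (Sum.inr k) (Sum.inl v) = Lm N (Sum.inr k) (Sum.inl v) := rfl
      rw [h2, Lm_ne _ (by simp), Lm_ne _ (by simp)]
      rfl
    · have h2 : pt (Lm N) (Lm δ) (Sum.inr k) (Sum.inr l) =
        Lm N (Sum.inr k) (Sum.inr l) + Lm δ k l := rfl
      rw [h2]
      by_cases hkl : k = l
      · subst hkl
        unfold Lm
        rw [if_pos rfl, if_pos rfl, if_pos rfl, Fintype.sum_sum_type, Fintype.sum_sum_type,
          add_assoc]
        congr 1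
        rw [← sum_add_distrib]
        refine sum_congr rfl fun j _ => ?_
        by_cases h : j = k
        · rw [h, if_pos rfl, if_pos rfl, if_pos rfl, add_zero]
        · rw [if_neg fun h' => h (Sum.inr_injective h'), if_neg fun h' => h (Sum.inr_injective h'),
            if_neg h]
          rfl
      · rw [Lm_ne _ fun h => hkl (Sum.inr_injective h), Lm_ne _ fun h => hkl (Sum.inr_injective h),
          Lm_ne _ hkl]
        rfl

theorem sx_symm (σ : ps J → ZMod 2) (k l : J) : sx σ k l = sx σ l k := by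
  unfold sx
  by_cases h : (k, l) ∈ ps J
  · have h2 : (l, k) ∉ ps J := fun h' => lt_asymm (mem_filter.1 h).2 (mem_filter.1 h').2
    rw [dif_pos h, dif_neg h2, dif_pos h]
  · by_cases h2 : (l, k) ∈ ps J
    · rw [dif_neg h, dif_pos h2, dif_pos h2]
    · rw [dif_neg h, dif_neg h2, dif_neg h2, dif_neg h]

theorem Lsx_symm (σ : ps J → ZMod 2) (k l : J) : Lm (sx σ) k l = Lm (sx σ) l k := by
  by_cases h : k = l
  · rw [h]
  · rw [Lm_ne _ h, Lm_ne _ (Ne.symm h), sx_symm]

/-- the symmetric matrix of the symbols -/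
noncomputable def Sg (k0 : J) (σ : ps J → ZMod 2) : Sy (Ix k0) :=
  ⟨fun k l => Lm (sx σ) k l, fun k l => Lsx_symm σ k l⟩

theorem sx_mem {σ : ps J → ZMod 2} (e : ps J) : sx σ e.1.1 e.1.2 = σ e := by
  unfold sx
  have h : (e.1.1, e.1.2) ∈ ps J := e.2
  rw [dif_pos h]

theorem Sg_inj : Function.Injective (Sg k0) := by
  intro σ σ' h
  have h1 : ∀ k l : Ix k0, Lm (sx σ) k l = Lm (sx σ') k l := fun k l =>
    congrFun (congrFun (congrArg Subtype.val h) k) l
  have h2 : ∀ k l : J, k ≠ k0 → l ≠ k0 → k ≠ l → sx σ k l = sx σ' k l := by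
    intro k l hk hl hkl
    have := h1 ⟨k, hk⟩ ⟨l, hl⟩
    rwa [Lm_ne _ hkl, Lm_ne _ hkl] at this
  have h3 : ∀ k : J, k ≠ k0 → sx σ k k0 = sx σ' k k0 := by
    intro k hk
    have h4 := h1 ⟨k, hk⟩ ⟨k, hk⟩
    have e : ∀ σ : ps J → ZMod 2, Lm (sx σ) k k = sx σ k k0 +
        ∑ l : {l // l ≠ k0}, (if (l : J) = k then 0 else sx σ k l) := by
      intro σ
      unfold Lm
      rw [if_pos rfl, Fintype.sum_eq_add_sum_subtype_ne _ k0, if_neg (Ne.symm hk)]
    have h5 : Lm (sx σ) k k = Lm (sx σ') k k := h4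
    rw [e, e] at h5
    have h6 : ∑ l : {l // l ≠ k0}, (if (l : J) = k then 0 else sx σ k l) =
        ∑ l : {l // l ≠ k0}, (if (l : J) = k then 0 else sx σ' k l) := by
      refine sum_congr rfl fun l _ => ?_
      by_cases hl : (l : J) = k
      · rw [if_pos hl, if_pos hl]
      · rw [if_neg hl, if_neg hl, h2 k l hk l.2 (Ne.symm hl)]
    rw [h6] at h5
    exact add_right_cancel h5
  funext e
  rw [← sx_mem (σ := σ) e, ← sx_mem (σ := σ') e]
  have hne : e.1.1 ≠ e.1.2 := ne_of_lt (mem_filter.1 e.2).2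
  by_cases ha : e.1.1 = k0
  · rw [sx_symm, sx_symm σ', ha]
    exact h3 _ fun h => hne (ha.trans h.symm)
  · by_cases hb : e.1.2 = k0
    · rw [hb]
      exact h3 _ ha
    · exact h2 _ _ ha hb hne

theorem Sg_surj : Function.Surjective (Sg k0) := by
  intro s
  let g : Ix k0 → ZMod 2 := fun k => s.1 k k + ∑ l : Ix k0, (if l = k then 0 else s.1 k l)
  let τ : J → J → ZMod 2 := fun k l =>
    if hk : k = k0 then (if hl : l = k0 then 0 else g ⟨l, hl⟩)
    else if hl : l = k0 then g ⟨k, hk⟩ else s.1 ⟨k, hk⟩ ⟨l, hl⟩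
  have t1 : ∀ k l : Ix k0, τ k l = s.1 k l := by
    intro k l
    show dite _ _ _ = _
    rw [dif_neg k.2, dif_neg l.2]
  have t2 : ∀ k : Ix k0, τ k k0 = g k := by
    intro k
    show dite _ _ _ = _
    rw [dif_neg k.2, dif_pos rfl]
  have t3 : ∀ k l, τ k l = τ l k := by
    intro k l
    show dite _ _ _ = dite _ _ _
    by_cases hk : k = k0
    · by_cases hl : l = k0
      · rw [dif_pos hk, dif_pos hl, dif_pos hl, dif_pos hk]
      · rw [dif_pos hk, dif_neg hl, dif_neg hl, dif_pos hk]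
    · by_cases hl : l = k0
      · rw [dif_neg hk, dif_pos hl, dif_pos hl, dif_neg hk]
      · rw [dif_neg hk, dif_neg hl, dif_neg hl, dif_neg hk]
        exact s.2 _ _
  let σ : ps J → ZMod 2 := fun e => τ e.1.1 e.1.2
  have t4 : ∀ k l, k ≠ l → sx σ k l = τ k l := by
    intro k l hkl
    unfold sx
    rcases lt_or_gt_of_ne hkl with h | h
    · have h1 : (k, l) ∈ ps J := mem_filter.2 ⟨mem_univ _, h⟩
      rw [dif_pos h1]
    · have h1 : (l, k) ∈ ps J := mem_filter.2 ⟨mem_univ _, h⟩
      have h2 : (k, l) ∉ ps J := fun h' => lt_asymm h (mem_filter.1 h').2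
      rw [dif_neg h2, dif_pos h1]
      exact t3 l k
  refine ⟨σ, Subtype.ext (funext fun k => funext fun l => ?_)⟩
  show Lm (sx σ) k l = s.1 k l
  by_cases hkl : k = l
  · subst hkl
    unfold Lm
    rw [if_pos rfl, Fintype.sum_eq_add_sum_subtype_ne _ k0, if_neg (Ne.symm k.2),
      t4 _ _ k.2, t2]
    have h6 : ∑ l : {l // l ≠ k0}, (if (l : J) = k then 0 else sx σ k l) =
        ∑ l : Ix k0, (if l = k then 0 else s.1 k l) := by
      refine sum_congr rfl fun l _ => ?_
      by_cases hl : l = k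
      · rw [if_pos hl, if_pos (by rw [hl])]
      · have hl' : (l : J) ≠ k := fun h => hl (Subtype.ext h)
        rw [if_neg hl, if_neg hl', t4 _ _ (Ne.symm hl'), t1]
    rw [h6]
    show s.1 k k + _ + _ = _
    rw [add_assoc, aa, add_zero]
  · have h : (k : J) ≠ l := fun h => hkl (Subtype.ext h)
    rw [Lm_ne _ h, t4 _ _ h, t1]

theorem card_Sg (P : Sy (Ix k0) → Prop) :
    ((univ.filter fun σ : ps J → ZMod 2 => P (Sg k0 σ)).card : ℝ) / 2 ^ (ps J).card =
      ((univ.filter P).card : ℝ) / Fintype.card (Sy (Ix k0)) := by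
  have h1 : (univ.filter fun σ : ps J → ZMod 2 => P (Sg k0 σ)).card = (univ.filter P).card := by
    refine card_bij (fun σ _ => Sg k0 σ) ?_ ?_ ?_
    · intro σ hσ
      rw [mem_filter] at hσ ⊢
      exact ⟨mem_univ _, hσ.2⟩
    · intro σ _ σ' _ h
      exact Sg_inj h
    · intro s hs
      obtain ⟨σ, rfl⟩ := Sg_surj s
      exact ⟨σ, mem_filter.2 ⟨mem_univ _, (mem_filter.1 hs).2⟩, rfl⟩
  have h2 : Fintype.card (Sy (Ix k0)) = 2 ^ (ps J).card := by
    have := Fintype.card_of_bijective (f := Sg k0) ⟨Sg_inj, Sg_surj⟩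
    rw [Fintype.card_fun, ZMod.card, Fintype.card_coe] at this
    exact this.symm
  rw [h1, h2]
  push_cast
  rfl

/-- choosing few indices with the same common kernel -/
theorem few {J E : Type} [Fintype J] [AddCommGroup E] [Module (ZMod 2) E] [Finite E]
    (F : J → Submodule (ZMod 2) E) (h : ∀ e, (∀ k, e ∈ F k) → e = 0) :
    ∃ J₀ : Finset J, J₀.card ≤ finrank (ZMod 2) E ∧ ∀ e, (∀ k ∈ J₀, e ∈ F k) → e = 0 := by
  have key : ∀ m : ℕ, ∃ J₀ : Finset J, J₀.card ≤ m ∧
      ((∀ e, (∀ k ∈ J₀, e ∈ F k) → e = 0) ∨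
        finrank (ZMod 2) (⨅ k ∈ J₀, F k : Submodule (ZMod 2) E) + m ≤ finrank (ZMod 2) E) := by
    intro m
    induction m with
    | zero =>
      refine ⟨∅, le_refl _, Or.inr ?_⟩
      rw [add_zero]
      exact Submodule.finrank_le _
    | succ m ih =>
      obtain ⟨J₀, h1, h2⟩ := ih
      rcases h2 with h2 | h2
      · exact ⟨J₀, by omega, Or.inl h2⟩
      · by_cases h3 : ∀ e, (∀ k ∈ J₀, e ∈ F k) → e = 0
        · exact ⟨J₀, by omega, Or.inl h3⟩
        · push Not at h3
          obtain ⟨e, he, he0⟩ := h3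
          obtain ⟨k, hk⟩ : ∃ k, e ∉ F k := by
            by_contra hc
            push Not at hc
            exact he0 (h e hc)
          refine ⟨insert k J₀, (card_insert_le _ _).trans (by omega), Or.inr ?_⟩
          have h4 : (⨅ k' ∈ insert k J₀, F k' : Submodule (ZMod 2) E) < ⨅ k' ∈ J₀, F k' := by
            refine lt_of_le_of_ne ?_ ?_
            · refine le_iInf₂ fun k' hk' => iInf₂_le k' (mem_insert_of_mem hk')
            · intro heq
              have h5 : e ∈ (⨅ k' ∈ J₀, F k' : Submodule (ZMod 2) E) := by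
                simp only [Submodule.mem_iInf]
                exact he
              rw [← heq] at h5
              simp only [Submodule.mem_iInf] at h5
              exact hk (h5 k (mem_insert_self _ _))
          have h6 := Submodule.finrank_lt_finrank_of_lt h4
          omega
  obtain ⟨J₀, h1, h2⟩ := key (finrank (ZMod 2) E)
  refine ⟨J₀, h1, ?_⟩
  rcases h2 with h2 | h2
  · exact h2
  · intro e he
    have h3 : finrank (ZMod 2) (⨅ k ∈ J₀, F k : Submodule (ZMod 2) E) = 0 := by omega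
    rw [Submodule.finrank_eq_zero] at h3
    have h5 : e ∈ (⨅ k' ∈ J₀, F k' : Submodule (ZMod 2) E) := by
      simp only [Submodule.mem_iInf]
      exact he
    rw [h3] at h5
    exact (Submodule.mem_bot _).1 h5

end

/-- the general estimate -/
theorem gen (ε : ℝ) (hε : 0 < ε) : ∃ V₀ : ℕ, ∀ (U J : Type) [Fintype U] [DecidableEq U] [Fintype J]
    [LinearOrder J] (k0 : J) (J₀ : Finset J)
    (B : EE (E2 U) (Ix k0) →ₗ[ZMod 2] EE (E2 U) (Ix k0) →ₗ[ZMod 2] ZMod 2) (ν u : J → ZMod 2)
    (c : Ix k0 → ZMod 2) (lam lam' : J → E2 U → ZMod 2) (m : J → J → ZMod 2),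
    k0 ∉ J₀ → J₀.card ≤ 2 * Fintype.card U → (∀ z, B z z = 0) →
    (∀ k, lam k 0 = 0 ∧ lam' k 0 = 0) → (∀ k l, k ≠ l → m k l + m l k = u k * u l) →
    (∀ z (k : Ix k0), B z (fx k) = lam k z.1 + ν k * (∑ l : Ix k0, ν l * z.2.1 l) + ν k * z.2.1 k +
      ν k * (∑ l, c l * z.2.2 l) + ∑ l : Ix k0, m k l * z.2.2 l) →
    (∀ z (k : Ix k0), B z (fy k) = lam' k z.1 + u k * (∑ l : Ix k0, u l * z.2.2 l) + u k * z.2.2 k +
      (∑ l : Ix k0, ν l * z.2.1 l) * c k + ∑ l : Ix k0, m l k * z.2.1 l) →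
    4 * Fintype.card U + V₀ ≤ (univ.filter fun k : J => ν k = 1).card →
    4 * Fintype.card U + V₀ ≤ (univ.filter fun k : J => u k = 1).card →
    4 * Fintype.card U + V₀ ≤ (univ.filter fun k : J => ν k ≠ u k).card →
    (∀ e, (∀ k ∈ J₀, lam k e = 0 ∧ lam' k e = 0) → e = 0) →
    |((univ.filter (Nde B)).card : ℝ) / Fintype.card (Sy (Ix k0)) - c2| ≤ ε := by
  obtain ⟨T, δ, hδ, hmain⟩ := main ε hε
  obtain ⟨V1, hV1⟩ : ∃ V1 : ℕ, (32 : ℝ) / 2 ^ V1 ≤ δ := by
    obtain ⟨V1, h⟩ := exists_pow_lt_of_lt_one (show (0 : ℝ) < δ / 32 by positivity)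
      (show (1 / 2 : ℝ) < 1 by norm_num)
    refine ⟨V1, ?_⟩
    rw [one_div_pow, lt_div_iff₀ (by norm_num)] at h
    rw [div_eq_mul_one_div]
    linarith
  refine ⟨V1 + T + 1, ?_⟩
  intro U J _ _ _ _ k0 J₀ B ν u c lam lam' m hk0 hJ₀ hB h0 hm hx hy r1 r2 r3 hnd
  -- choice of K
  have hcard : J₀.card + T + 1 ≤ Fintype.card J := by
    have h1 : (univ.filter fun k : J => ν k = 1).card ≤ Fintype.card J := by
      rw [← Finset.card_univ]
      exact card_le_card (filter_subset _ _)
    omega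
  obtain ⟨K, hK1, hK2⟩ : ∃ K : Finset (Ix k0), K.card = T ∧ ∀ k ∈ K, (k : J) ∉ J₀ := by
    have h1 : T ≤ (univ.filter fun k : Ix k0 => (k : J) ∉ J₀).card := by
      have h2 : (univ.filter fun k : Ix k0 => (k : J) ∈ J₀).card ≤ J₀.card :=
        card_le_card_of_injOn (fun k => (k : J)) (fun k hk => (mem_filter.1 hk).2)
          (fun k _ l _ h => Subtype.ext h)
      have h3 := Finset.card_filter_add_card_filter_not (s := (univ : Finset (Ix k0)))
        (fun k => (k : J) ∈ J₀)
      have h4 : (univ : Finset (Ix k0)).card = Fintype.card J - 1 := by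
        rw [Finset.card_univ]
        have := Fintype.card_subtype_compl (fun k : J => k = k0)
        rw [Fintype.card_subtype_eq] at this
        exact this
      omega
    obtain ⟨K, hK, hK'⟩ := exists_subset_card_eq h1
    exact ⟨K, hK', fun k hk => (mem_filter.1 (hK hk)).2⟩
  refine hmain (E2 U) (Ix k0) B K hB ev_E2 hK1 fun A hA => ?_
  have rich : ∀ P : J → Prop, 4 * Fintype.card U + (V1 + T + 1) ≤ (univ.filter P).card →
      4 * Fintype.card U + V1 ≤ (A.filter fun k : Ix k0 => P k).card := by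
    intro P hP
    have h1 : (univ.filter P) ⊆ insert k0 (K.image (Subtype.val : Ix k0 → J) ∪
        (A.filter fun k : Ix k0 => P k).image (Subtype.val : Ix k0 → J)) := by
      intro k hk
      by_cases h : k = k0
      · rw [h]
        exact mem_insert_self _ _
      · refine mem_insert_of_mem (mem_union.2 ?_)
        by_cases h2 : (⟨k, h⟩ : Ix k0) ∈ K
        · exact Or.inl (mem_image.2 ⟨⟨k, h⟩, h2, rfl⟩)
        · exact Or.inr (mem_image.2 ⟨⟨k, h⟩, mem_filter.2 ⟨hA (mem_compl.2 h2),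
            (mem_filter.1 hk).2⟩, rfl⟩)
    have h2 := (card_le_card h1).trans (card_insert_le _ _)
    have h3 := card_union_le (K.image (Subtype.val : Ix k0 → J))
      ((A.filter fun k : Ix k0 => P k).image (Subtype.val : Ix k0 → J))
    have h4 : (K.image (Subtype.val : Ix k0 → J)).card ≤ T := card_image_le.trans hK1.le
    have h5 : ((A.filter fun k : Ix k0 => P k).image (Subtype.val : Ix k0 → J)).card ≤
        (A.filter fun k : Ix k0 => P k).card := card_image_le
    omega
  refine str (ν := fun k : Ix k0 => ν k) (u := fun k : Ix k0 => u k) (c := c)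
    (lam := fun k : Ix k0 => lam k) (lam' := fun k : Ix k0 => lam' k)
    (m := fun k l : Ix k0 => m k l) (V := 4 * Fintype.card U + V1) (fun k => h0 k)
    (fun k l hkl => hm k l fun h => hkl (Subtype.ext h)) hx hy
    (by convert rich (fun k => ν k = 1) (by convert r1))
    (by convert rich (fun k => u k = 1) (by convert r2))
    (by convert rich (fun k => ν k ≠ u k) (by convert r3)) ?_ ?_
  · intro e he
    refine hnd e fun k hk => ?_
    have hkk : k ≠ k0 := fun h => hk0 (h ▸ hk)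
    refine he ⟨k, hkk⟩ (hA ?_)
    rw [mem_compl]
    exact fun h => hK2 _ h hk
  · have h1 : (Fintype.card (E2 U) : ℝ) = 4 ^ Fintype.card U := by
      rw [Fintype.card_prod, Fintype.card_fun, ZMod.card]
      push_cast
      rw [← mul_pow]
      norm_num
    rw [h1]
    have h2 : (2 : ℝ) ^ (4 * Fintype.card U + V1) = (4 ^ Fintype.card U) ^ 2 * 2 ^ V1 := by
      have h4 : ((4 : ℝ) ^ Fintype.card U) ^ 2 = (4 ^ 2) ^ Fintype.card U := by
        rw [← pow_mul, mul_comm, pow_mul]
      rw [pow_add, pow_mul, h4]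
      norm_num
    rw [h2]
    have h3 : 32 * ((4 : ℝ) ^ Fintype.card U) ^ 2 / ((4 ^ Fintype.card U) ^ 2 * 2 ^ V1) =
        32 / 2 ^ V1 := by
      field_simp
    rw [h3]
    exact hV1

end Pool.Agent.N916.MO
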