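import Pool.Agent.N916.MO.Sp

/-!
# MO: the step of the Markov chain
-/

set_option autoImplicit false
set_option linter.all false

open scoped Classical

namespace Pool.Agent.N916.MO

open Finset Module

section
variable {E0 I : Type} [AddCommGroup E0] [Module (ZMod 2) E0] [Fintype I] [DecidableEq I]

/-- the dimension of the radical -/
noncomputable def dR (B : EE E0 I →ₗ[ZMod 2] EE E0 I →ₗ[ZMod 2] ZMod 2) (s : Sy I)
    (A : Finset I) : ℕ :=
  finrank (ZMod 2) (Rad (B + sB s.1) (EA A))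

/-- the system is generic at `A` -/
def Gen (B : EE E0 I →ₗ[ZMod 2] EE E0 I →ₗ[ZMod 2] ZMod 2) (s : Sy I) (A : Finset I) : Prop :=
  ∀ z1 ∈ Rad (B + sB s.1) (EA A), ∀ z2 ∈ Rad (B + sB s.1) (EA A), z1.2.2 + z2.2.1 = 0 →
    z1 = 0 ∧ z2 = 0

theorem sumZ (f : ZMod 2 → ℝ) : ∑ ε : ZMod 2, f ε = f 0 + f 1 := Fin.sum_univ_two f

theorem chain [Finite E0] {B : EE E0 I →ₗ[ZMod 2] EE E0 I →ₗ[ZMod 2] ZMod 2}
    (hB : ∀ z, B z z = 0) (s : Sy I) {A : Finset I} {n : I} (hn : n ∉ A) (hg : Gen B s A)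
    {r t : ℕ} (hr : dR B s A = 2 * r) :
    ∑ φ : I → ZMod 2, ∑ ε : ZMod 2, hh t (dR B (s + Pp n φ ε) (insert n A) / 2) =
      2 ^ (Fintype.card I + 1) * hh (t + 1) r := by
  set b : EE E0 I →ₗ[ZMod 2] EE E0 I →ₗ[ZMod 2] ZMod 2 := B + sB s.1 with hb
  set R := Rad b (EA A) with hR
  have hRf : finrank (ZMod 2) R = 2 * r := hr
  let bp : (I → ZMod 2) → ZMod 2 → (EE E0 I →ₗ[ZMod 2] EE E0 I →ₗ[ZMod 2] ZMod 2) :=
    fun φ ε => b + sB (Pp n φ ε).1
  have hbp : ∀ φ ε (z w : EE E0 I), bp φ ε z w = b z w + sB (Pp n φ ε).1 z w :=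
    fun _ _ _ _ => rfl
  have hadd : ∀ φ ε, B + sB (s + Pp n φ ε).1 = bp φ ε := by
    intro φ ε
    have : (s + Pp n φ ε).1 = s.1 + (Pp n φ ε).1 := rfl
    rw [this, sB_add, ← add_assoc]
  have halt : ∀ φ ε (z : EE E0 I), bp φ ε z z = 0 := by
    intro φ ε z
    rw [hbp, sB_alt, add_zero, hb, LinearMap.add_apply, LinearMap.add_apply, sB_alt, add_zero, hB]
  have hzw : ∀ φ ε, ∀ z ∈ EA A, ∀ w ∈ EA A, bp φ ε z w = b z w := by
    intro φ ε z hz w hw
    rw [hbp, Pp_zero hn φ ε hz hw, add_zero]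
  have hzf : ∀ φ ε, ∀ z ∈ EA A, bp φ ε z (fx n) = b z (fx n) + ∑ l, φ l * z.2.2 l := by
    intro φ ε z hz
    rw [hbp, Pp_fx hn φ ε hz]
  have hzg : ∀ φ ε, ∀ z ∈ EA A, bp φ ε z (fy n) = b z (fy n) + ∑ l, φ l * z.2.1 l := by
    intro φ ε z hz
    rw [hbp, Pp_fy hn φ ε hz]
  have hfg : ∀ φ ε, bp φ ε (fx n) (fy n) = b (fx n) (fy n) + ε := by
    intro φ ε
    rw [hbp, Pp_fxy]
  have hRad : ∀ φ ε, Rad (bp φ ε) (EA A) = R := by
    intro φ ε
    ext z
    rw [mem_Rad, hR, mem_Rad]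
    constructor
    · rintro ⟨h1, h2⟩
      exact ⟨h1, fun w hw => by rw [← hzw φ ε z h1 w hw]; exact h2 w hw⟩
    · rintro ⟨h1, h2⟩
      exact ⟨h1, fun w hw => by rw [hzw φ ε z h1 w hw]; exact h2 w hw⟩
  have hRA : ∀ z ∈ R, z ∈ EA A := fun z hz => hz.1
  -- the conditions
  set P : (I → ZMod 2) → Prop := fun φ => ∀ z ∈ R, b z (fx n) + ∑ l, φ l * z.2.2 l = 0 with hP
  set Q : (I → ZMod 2) → Prop := fun φ => ∀ z ∈ R, b z (fy n) + ∑ l, φ l * z.2.1 l = 0 with hQ
  set S : (I → ZMod 2) → Prop := fun φ => ∀ z ∈ R, b z (fx n) + ∑ l, φ l * z.2.2 l =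
    b z (fy n) + ∑ l, φ l * z.2.1 l with hS
  have hd : ∀ φ ε, dR B (s + Pp n φ ε) (insert n A) = finrank (ZMod 2)
      (Rad (bp φ ε)
        (EA A ⊔ Submodule.span (ZMod 2) {fx n} ⊔ Submodule.span (ZMod 2) {fy n})) := by
    intro φ ε
    unfold dR
    rw [hadd, EA_insert hn]
  have hPe : ∀ φ ε, (∀ z ∈ R, (bp φ ε) z (fx n) = 0) ↔ P φ := by
    intro φ ε
    refine forall₂_congr fun z hz => ?_
    rw [hzf φ ε z (hRA z hz)]
  have hQe : ∀ φ ε, (∀ z ∈ R, (bp φ ε) z (fy n) = 0) ↔ Q φ := by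
    intro φ ε
    refine forall₂_congr fun z hz => ?_
    rw [hzg φ ε z (hRA z hz)]
  have hSe : ∀ φ ε, (∀ z ∈ R, (bp φ ε) z (fx n) = (bp φ ε) z (fy n)) ↔
      S φ := by
    intro φ ε
    refine forall₂_congr fun z hz => ?_
    rw [hzf φ ε z (hRA z hz), hzg φ ε z (hRA z hz)]
  have c0 : ∀ φ, ¬ P φ → ¬ Q φ → ¬ S φ →
      ∑ ε : ZMod 2, hh t (dR B (s + Pp n φ ε) (insert n A) / 2) = 2 * hh t (r - 1) := by
    intro φ h1 h2 h3
    have h : ∀ ε, dR B (s + Pp n φ ε) (insert n A) / 2 = r - 1 := by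
      intro ε
      have h4 := (two_vec (halt φ ε) (fx_notin hn) (fy_notin hn)).1
      rw [hRad φ ε, hPe, hQe, hSe] at h4
      have h5 := h4 ⟨h1, h2, h3⟩
      rw [hd]
      omega
    rw [sumZ, h 0, h 1]
    ring
  have c1 : ∀ φ, ¬ (P φ ∧ Q φ) → (P φ ∨ Q φ ∨ S φ) →
      ∑ ε : ZMod 2, hh t (dR B (s + Pp n φ ε) (insert n A) / 2) = 2 * hh t r := by
    intro φ h1 h2
    have h : ∀ ε, dR B (s + Pp n φ ε) (insert n A) / 2 = r := by
      intro ε
      have h4 := (two_vec (halt φ ε) (fx_notin hn) (fy_notin hn)).2.1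
      rw [hRad φ ε, hPe, hQe, hSe] at h4
      have h5 := h4 h1 h2
      rw [hd]
      omega
    rw [sumZ, h 0, h 1]
    ring
  have c2 : ∀ φ, (P φ ∧ Q φ) →
      ∑ ε : ZMod 2, hh t (dR B (s + Pp n φ ε) (insert n A) / 2) = hh t r + hh t (r + 1) := by
    intro φ h1
    obtain ⟨w, hw, hw'⟩ := rep (B := bp φ 0) (W := EA A) (f := fx n) (by
      rw [hRad φ 0]
      exact (hPe φ 0).2 h1.1)
    have hww : ∀ ε, ∀ v ∈ EA A, (bp φ ε) v (fx n) = (bp φ ε) v w := by
      intro ε v hv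
      have h2 := hw' v hv
      rw [hzf φ 0 v hv, hzw φ 0 v hv w hw] at h2
      rw [hzf φ ε v hv, hzw φ ε v hv w hw]
      exact h2
    obtain ⟨C, hC⟩ : ∃ C : ZMod 2, ∀ ε, (bp φ ε) (fx n + w) (fy n) = C + ε := by
      refine ⟨b (fx n) (fy n) + (b w (fy n) + ∑ l, φ l * w.2.1 l), fun ε => ?_⟩
      rw [LinearMap.map_add₂, hfg, hzg φ ε w hw]
      ring
    have h : ∀ ε, (C + ε ≠ 0 → dR B (s + Pp n φ ε) (insert n A) / 2 = r) ∧
        (C + ε = 0 → dR B (s + Pp n φ ε) (insert n A) / 2 = r + 1) := by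
      intro ε
      have h4 := (two_vec (halt φ ε) (fx_notin hn) (fy_notin hn)).2.2
      rw [hRad φ ε, hPe, hQe] at h4
      obtain ⟨h5, h6⟩ := h4 h1 w hw (hww ε)
      rw [hC] at h5 h6
      rw [hd]
      exact ⟨fun h => by have := h5 h; omega, fun h => by have := h6 h; omega⟩
    rw [sumZ]
    rcases zz C with hC0 | hC0
    · rw [(h 0).2 (by rw [hC0]; rfl), (h 1).1 (by rw [hC0]; decide)]
      ring
    · rw [(h 0).1 (by rw [hC0]; decide), (h 1).2 (by rw [hC0]; rfl)]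
  -- the counts
  have inj1 : ∀ z1 ∈ R, ∀ z2 ∈ R, z1.2.2 + z2.2.1 = 0 → z1 = 0 ∧ z2 = 0 := hg
  let Lx : R →ₗ[ZMod 2] (I → ZMod 2) :=
    (LinearMap.fst (ZMod 2) (I → ZMod 2) (I → ZMod 2) ∘ₗ
      LinearMap.snd (ZMod 2) E0 ((I → ZMod 2) × (I → ZMod 2))) ∘ₗ R.subtype
  let Ly : R →ₗ[ZMod 2] (I → ZMod 2) :=
    (LinearMap.snd (ZMod 2) (I → ZMod 2) (I → ZMod 2) ∘ₗ
      LinearMap.snd (ZMod 2) E0 ((I → ZMod 2) × (I → ZMod 2))) ∘ₗ R.subtype
  have hLx : ∀ z : R, Lx z = z.1.2.1 := fun z => rfl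
  have hLy : ∀ z : R, Ly z = z.1.2.2 := fun z => rfl
  let ax : R →ₗ[ZMod 2] ZMod 2 := (b.flip (fx n)) ∘ₗ R.subtype
  let ay : R →ₗ[ZMod 2] ZMod 2 := (b.flip (fy n)) ∘ₗ R.subtype
  have hax : ∀ z : R, ax z = b z.1 (fx n) := fun z => rfl
  have hay : ∀ z : R, ay z = b z.1 (fy n) := fun z => rfl
  have zero_R : (0 : EE E0 I) ∈ R := R.zero_mem
  have iy : Function.Injective Ly := by
    rw [← LinearMap.ker_eq_bot, LinearMap.ker_eq_bot']
    intro z hz
    have h1 := inj1 z.1 z.2 0 zero_R (by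
      rw [← hLy, hz]
      rfl)
    exact Subtype.ext h1.1
  have ix : Function.Injective Lx := by
    rw [← LinearMap.ker_eq_bot, LinearMap.ker_eq_bot']
    intro z hz
    have h1 := inj1 0 zero_R z.1 z.2 (by
      rw [← hLx, hz]
      rfl)
    exact Subtype.ext h1.2
  have ixy : Function.Injective (Lx + Ly) := by
    rw [← LinearMap.ker_eq_bot, LinearMap.ker_eq_bot']
    intro z hz
    have h1 := inj1 z.1 z.2 z.1 z.2 (by
      rw [add_comm, ← hLx, ← hLy]
      exact hz)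
    exact Subtype.ext h1.2
  have ipq : Function.Injective (Ly.coprod Lx) := by
    rw [← LinearMap.ker_eq_bot, LinearMap.ker_eq_bot']
    rintro ⟨z1, z2⟩ hz
    have h1 := inj1 z1.1 z1.2 z2.1 z2.2 hz
    exact Prod.ext (Subtype.ext h1.1) (Subtype.ext h1.2)
  have ab0 : ∀ a b : ZMod 2, a + b = 0 ↔ b = a := by decide
  have nP : (univ.filter P).card * 2 ^ (2 * r) = 2 ^ Fintype.card I := by
    have h := fib Ly iy ax
    rw [hRf] at h
    rw [← h]
    congr 2
    ext φ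
    simp only [mem_filter, mem_univ, true_and, hP]
    constructor
    · intro h z
      rw [hLy, hax]
      exact (ab0 _ _).1 (h z.1 z.2)
    · intro h z hz
      have := h ⟨z, hz⟩
      rw [hLy, hax] at this
      exact (ab0 _ _).2 this
  have nQ : (univ.filter Q).card * 2 ^ (2 * r) = 2 ^ Fintype.card I := by
    have h := fib Lx ix ay
    rw [hRf] at h
    rw [← h]
    congr 2
    ext φ
    simp only [mem_filter, mem_univ, true_and, hQ]
    constructor
    · intro h z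
      rw [hLx, hay]
      exact (ab0 _ _).1 (h z.1 z.2)
    · intro h z hz
      have := h ⟨z, hz⟩
      rw [hLx, hay] at this
      exact (ab0 _ _).2 this
  have abcd : ∀ a b c d : ZMod 2, a + b = c + d ↔ d + b = a + c := by decide
  have nS : (univ.filter S).card * 2 ^ (2 * r) = 2 ^ Fintype.card I := by
    have h := fib (Lx + Ly) ixy (ax + ay)
    rw [hRf] at h
    rw [← h]
    congr 2
    ext φ
    simp only [mem_filter, mem_univ, true_and, hS]
    have e : ∀ z : R, ∑ l, φ l * (Lx + Ly) z l = ∑ l, φ l * z.1.2.1 l + ∑ l, φ l * z.1.2.2 l := by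
      intro z
      rw [← sum_add_distrib]
      refine sum_congr rfl fun l _ => ?_
      rw [LinearMap.add_apply, Pi.add_apply, hLx, hLy, mul_add]
    constructor
    · intro h z
      rw [e, LinearMap.add_apply, hax, hay]
      exact (abcd _ _ _ _).1 (h z.1 z.2)
    · intro h z hz
      have := h ⟨z, hz⟩
      rw [e, LinearMap.add_apply, hax, hay] at this
      exact (abcd _ _ _ _).2 this
  have nPQ : (univ.filter fun φ => P φ ∧ Q φ).card * 2 ^ (2 * (2 * r)) = 2 ^ Fintype.card I := by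
    have h := fib (Ly.coprod Lx) ipq (ax.coprod ay)
    rw [Module.finrank_prod, hRf, ← two_mul] at h
    rw [← h]
    congr 2
    ext φ
    simp only [mem_filter, mem_univ, true_and, hP, hQ]
    have e : ∀ z : R × R, ∑ l, φ l * (Ly.coprod Lx) z l =
        ∑ l, φ l * z.1.1.2.2 l + ∑ l, φ l * z.2.1.2.1 l := by
      intro z
      rw [← sum_add_distrib]
      refine sum_congr rfl fun l _ => ?_
      rw [LinearMap.coprod_apply, Pi.add_apply, hLx, hLy, mul_add]
    constructor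
    · rintro ⟨h1, h2⟩ z
      rw [e, LinearMap.coprod_apply, hax, hay, (ab0 _ _).1 (h1 z.1.1 z.1.2),
        (ab0 _ _).1 (h2 z.2.1 z.2.2)]
    · intro h
      refine ⟨fun z hz => ?_, fun z hz => ?_⟩
      · have := h (⟨z, hz⟩, 0)
        rw [e, LinearMap.coprod_apply, hax, map_zero, add_zero] at this
        have h0 : ∑ l, φ l * ((0 : R) : EE E0 I).2.1 l = 0 :=
          sum_eq_zero fun l _ => mul_zero _
        rw [h0, add_zero] at this
        exact (ab0 _ _).2 this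
      · have := h (0, ⟨z, hz⟩)
        rw [e, LinearMap.coprod_apply, hay, map_zero, zero_add] at this
        have h0 : ∑ l, φ l * ((0 : R) : EE E0 I).2.2 l = 0 :=
          sum_eq_zero fun l _ => mul_zero _
        rw [h0, zero_add] at this
        exact (ab0 _ _).2 this
  rcases r with _ | r
  · -- zero radical
    have hR0 : R = ⊥ := by
      rw [mul_zero] at hRf
      exact Submodule.finrank_eq_zero.1 hRf
    have h0 : ∀ φ, P φ ∧ Q φ := by
      intro φ
      have hz : ∀ z ∈ R, z = 0 := by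
        rw [hR0]
        exact fun z hz => (Submodule.mem_bot _).1 hz
      refine ⟨fun z h => ?_, fun z h => ?_⟩
      · rw [hz z h, map_zero, LinearMap.zero_apply, zero_add]
        exact sum_eq_zero fun l _ => mul_zero _
      · rw [hz z h, map_zero, LinearMap.zero_apply, zero_add]
        exact sum_eq_zero fun l _ => mul_zero _
    rw [sum_congr rfl fun φ _ => c2 φ (h0 φ), sum_const, Finset.card_univ, Fintype.card_fun,
      ZMod.card, nsmul_eq_mul, step0]
    push_cast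
    ring
  · have hv : ∀ φ, ∑ ε : ZMod 2, hh t (dR B (s + Pp n φ ε) (insert n A) / 2) =
        2 * (hh t r + ((if P φ then 1 else 0) + (if Q φ then 1 else 0) + (if S φ then 1 else 0)) *
          (hh t (r + 1) - hh t r) + (if P φ ∧ Q φ then 1 else 0) * (2 * hh t r - 3 * hh t (r + 1) +
            (hh t (r + 1) + hh t (r + 2)) / 2)) := by
      intro φ
      by_cases h1 : P φ <;> by_cases h2 : Q φ
      · have h3 : S φ := fun z hz => by rw [h1 z hz, h2 z hz]
        rw [c2 φ ⟨h1, h2⟩, if_pos h1, if_pos h2, if_pos h3, if_pos ⟨h1, h2⟩]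
        ring
      · have h3 : ¬ S φ := fun h => h2 fun z hz => by rw [← h z hz, h1 z hz]
        rw [c1 φ (by tauto) (Or.inl h1), if_pos h1, if_neg h2, if_neg h3, if_neg (by tauto)]
        ring
      · have h3 : ¬ S φ := fun h => h1 fun z hz => by rw [h z hz, h2 z hz]
        rw [c1 φ (by tauto) (Or.inr (Or.inl h2)), if_neg h1, if_pos h2, if_neg h3,
          if_neg (by tauto)]
        ring
      · by_cases h3 : S φ
        · rw [c1 φ (by tauto) (Or.inr (Or.inr h3)), if_neg h1, if_neg h2, if_pos h3,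
            if_neg (by tauto)]
          ring
        · rw [c0 φ h1 h2 h3, if_neg h1, if_neg h2, if_neg h3, if_neg (by tauto)]
          rw [Nat.add_sub_cancel]
          ring
    rw [sum_congr rfl fun φ _ => hv φ, ← mul_sum, sum_add_distrib, sum_add_distrib, sum_const,
      ← sum_mul, ← sum_mul, sum_add_distrib, sum_add_distrib, Finset.card_univ, Fintype.card_fun,
      ZMod.card, nsmul_eq_mul, step1]
    simp only [← sum_filter, sum_const, nsmul_eq_mul, mul_one]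
    have e : ∀ (N k : ℕ), N * 2 ^ k = 2 ^ Fintype.card I → (N : ℝ) = 2 ^ Fintype.card I / 2 ^ k := by
      intro N k h
      rw [eq_div_iff (by positivity)]
      exact_mod_cast h
    rw [e _ _ nP, e _ _ nQ, e _ _ nS, e _ _ nPQ]
    have e2 : (2 : ℝ) ^ (2 * (r + 1)) = 4 ^ (r + 1) := by
      rw [pow_mul]
      norm_num
    have e3 : (2 : ℝ) ^ (2 * (2 * (r + 1))) = (4 ^ (r + 1)) ^ 2 := by
      rw [pow_mul, pow_mul, ← pow_mul, mul_comm 2 (r + 1), pow_mul]
      norm_num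
    rw [e2, e3]
    push_cast
    ring

end

end Pool.Agent.N916.MO
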