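import Pool.Agent.N916.MO.Tx

/-!
# MO: natural density of the level 17 criterion among all negative fundamental discriminants in
# which `17` does not split
-/

set_option autoImplicit false
set_option linter.all false

open scoped Classical

namespace Pool.Agent.N916.MO

open Finset Filter
open Pool.Agent.N916.GB (Po Vt)
open Pool.Agent.Y703.CQ (c2 nr)
open Pool.Agent.N916.TE (FD sq2 count_split)
open Pool.Agent.N916.AM (LAH Ks mem_Ks cls_iff dq low ratio)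
open Pool.Agent.N972.P17 (Sx Sr Cm Cme Cr Cre)

theorem c201 : 0 ≤ c2 ∧ c2 ≤ 1 := by
  obtain ⟨-, h1, h2, -, -⟩ := Pool.Agent.Y948.CQ.t_C2
  exact ⟨h1.le, h2.le⟩

/-- from the four types to all the negative fundamental discriminants -/
theorem count_gen {m : ℕ} (hm : 0 < m) {R : Finset ℕ} {P : ℕ → Prop}
    {G : Bool → ZMod 2 → ZMod 2 → Finset ℕ → Prop} {c : ℝ} (hc0 : 0 ≤ c) (hc1 : c ≤ 1)
    (h0 : ∀ n, Squarefree n → n % 4 = 3 → n % m ∈ R → (P n ↔ G false 0 0 n.primeFactors))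
    (h1 : ∀ M, Squarefree M → M % 4 = 1 → (4 * M) % m ∈ R →
      (P (4 * M) ↔ G true 0 1 M.primeFactors))
    (h2 : ∀ M, Squarefree M → M % 4 = 1 → (8 * M) % m ∈ R →
      (P (8 * M) ↔ G true 1 1 M.primeFactors))
    (h3 : ∀ M, Squarefree M → M % 4 = 3 → (8 * M) % m ∈ R →
      (P (8 * M) ↔ G true 1 0 M.primeFactors))
    (l0 : LAH (8 * m) (Ks m 3 1 R) (G false 0 0) c) (l1 : LAH (8 * m) (Ks m 1 4 R) (G true 0 1) c)
    (l2 : LAH (8 * m) (Ks m 1 8 R) (G true 1 1) c) (l3 : LAH (8 * m) (Ks m 3 8 R) (G true 1 0) c) :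
    ∀ ε : ℝ, 0 < ε → ∃ X₀ : ℕ, ∀ X : ℕ, X₀ ≤ X →
      |(((Icc 1 X).filter fun n => FD n ∧ n % m ∈ R ∧ P n).card : ℝ) -
        c * (((Icc 1 X).filter fun n => FD n ∧ n % m ∈ R).card : ℝ)| ≤ ε * X := by
  have odd : ∀ {c' k : ℕ}, (c' = 1 ∨ c' = 3) → ∀ a ∈ Ks m c' k R, a % 2 = 1 := by
    intro c' k hc' a ha
    have h4 : a % 4 = c' := (mem_filter.1 ha).2.1
    omega
  intro ε hε
  obtain ⟨X0, b0'⟩ := dq (Dvd.intro _ rfl) (by omega) hc0 hc1 l0 (odd (Or.inr rfl)) (ε / 8)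
    (by positivity)
  obtain ⟨X1, b1'⟩ := dq (Dvd.intro _ rfl) (by omega) hc0 hc1 l1 (odd (Or.inl rfl)) (ε / 8)
    (by positivity)
  obtain ⟨X2, b2'⟩ := dq (Dvd.intro _ rfl) (by omega) hc0 hc1 l2 (odd (Or.inl rfl)) (ε / 8)
    (by positivity)
  obtain ⟨X3, b3'⟩ := dq (Dvd.intro _ rfl) (by omega) hc0 hc1 l3 (odd (Or.inr rfl)) (ε / 8)
    (by positivity)
  refine ⟨8 * (X0 + X1 + X2 + X3), fun X hX => ?_⟩
  have b0 := b0' X (by omega)
  have b1 := b1' (X / 4) (by omega)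
  have b2 := b2' (X / 8) (by omega)
  have b3 := b3' (X / 8) (by omega)
  have hiff : ∀ n, (FD n ∧ n % m ∈ R ∧ P n) ↔
      (Squarefree n ∧ n % (8 * m) ∈ Ks m 3 1 R ∧ G false 0 0 n.primeFactors) ∨
      (∃ M, n = 4 * M ∧ (Squarefree M ∧ M % (8 * m) ∈ Ks m 1 4 R ∧ G true 0 1 M.primeFactors)) ∨
      (∃ M, n = 8 * M ∧ (Squarefree M ∧ M % (8 * m) ∈ Ks m 1 8 R ∧ G true 1 1 M.primeFactors)) ∨
      (∃ M, n = 8 * M ∧ (Squarefree M ∧ M % (8 * m) ∈ Ks m 3 8 R ∧ G true 1 0 M.primeFactors)) := by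
    intro n
    rw [← and_assoc, cls_iff hm]
    simp only [mem_Ks hm, one_mul]
    constructor
    · rintro ⟨⟨a1, a2, a3⟩ | ⟨M, rfl, a1, a2, a3⟩ | ⟨M, rfl, a1, a2, a3⟩ | ⟨M, rfl, a1, a2, a3⟩, h⟩
      · exact Or.inl ⟨a1, ⟨a2, a3⟩, (h0 n a1 a2 a3).1 h⟩
      · exact Or.inr (Or.inl ⟨M, rfl, a1, ⟨a2, a3⟩, (h1 M a1 a2 a3).1 h⟩)
      · exact Or.inr (Or.inr (Or.inl ⟨M, rfl, a1, ⟨a2, a3⟩, (h2 M a1 a2 a3).1 h⟩))
      · exact Or.inr (Or.inr (Or.inr ⟨M, rfl, a1, ⟨a2, a3⟩, (h3 M a1 a2 a3).1 h⟩))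
    · rintro (⟨a1, ⟨a2, a3⟩, h⟩ | ⟨M, rfl, a1, ⟨a2, a3⟩, h⟩ | ⟨M, rfl, a1, ⟨a2, a3⟩, h⟩ |
        ⟨M, rfl, a1, ⟨a2, a3⟩, h⟩)
      · exact ⟨Or.inl ⟨a1, a2, a3⟩, (h0 n a1 a2 a3).2 h⟩
      · exact ⟨Or.inr (Or.inl ⟨M, rfl, a1, a2, a3⟩), (h1 M a1 a2 a3).2 h⟩
      · exact ⟨Or.inr (Or.inr (Or.inl ⟨M, rfl, a1, a2, a3⟩)), (h2 M a1 a2 a3).2 h⟩
      · exact ⟨Or.inr (Or.inr (Or.inr ⟨M, rfl, a1, a2, a3⟩)), (h3 M a1 a2 a3).2 h⟩
  have e1 := count_split X _ _ _ _ _ hiff (fun n h => by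
      have := ((mem_Ks hm n).1 h.2.1).1; omega) (fun n h => ((mem_Ks hm n).1 h.2.1).1)
    (fun n h => ((mem_Ks hm n).1 h.2.1).1) (fun n h => ((mem_Ks hm n).1 h.2.1).1)
  have e2 := count_split X _ _ _ _ _ (cls_iff hm R) (fun n h => by
      have := ((mem_Ks hm n).1 h.2).1; omega) (fun n h => ((mem_Ks hm n).1 h.2).1)
    (fun n h => ((mem_Ks hm n).1 h.2).1) (fun n h => ((mem_Ks hm n).1 h.2).1)
  have e1' := congrArg (Nat.cast : ℕ → ℝ) e1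
  have e2' := congrArg (Nat.cast : ℕ → ℝ) e2
  push_cast at e1' e2'
  have d4 : (((X / 4 : ℕ) : ℝ)) ≤ X / 4 := by
    have := @Nat.cast_div_le ℝ _ _ _ X 4
    simpa using this
  have d8 : (((X / 8 : ℕ) : ℝ)) ≤ X / 8 := by
    have := @Nat.cast_div_le ℝ _ _ _ X 8
    simpa using this
  rw [abs_le] at b0 b1 b2 b3
  have q1 : ε / 8 * ((X / 4 : ℕ) : ℝ) ≤ ε / 8 * (X / 4) :=
    mul_le_mul_of_nonneg_left d4 (by positivity)
  have q2 : ε / 8 * ((X / 8 : ℕ) : ℝ) ≤ ε / 8 * (X / 8) :=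
    mul_le_mul_of_nonneg_left d8 (by positivity)
  have hX' : 0 ≤ ε / 8 * X := by positivity
  rw [e1', e2', abs_le]
  constructor
  · linarith [b0.1, b1.1, b2.1, b3.1]
  · linarith [b0.2, b1.2, b2.2, b3.2]

/-! ### The types -/

theorem pf_odd {n : ℕ} : n.primeFactors = Vt false n.primeFactors := rfl

theorem pf_4 {M : ℕ} (hM : M ≠ 0) : (4 * M).primeFactors = Vt true M.primeFactors := by
  rw [Nat.primeFactors_mul (by norm_num) hM, show (4 : ℕ) = 2 ^ 2 by norm_num,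
    Nat.primeFactors_prime_pow (by norm_num) Nat.prime_two]
  rfl

theorem pf_8 {M : ℕ} (hM : M ≠ 0) : (8 * M).primeFactors = Vt true M.primeFactors := by
  rw [Nat.primeFactors_mul (by norm_num) hM, show (8 : ℕ) = 2 ^ 3 by norm_num,
    Nat.primeFactors_prime_pow (by norm_num) Nat.prime_two]
  rfl

theorem par0 {n : ℕ} (h : n % 4 = 3) : Par n false 0 0 :=
  ⟨fun _ => by omega, fun h => absurd h (by decide)⟩

theorem par1 {M : ℕ} (h : M % 4 = 1) : Par (4 * M) true 0 1 :=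
  ⟨fun h => absurd h (by decide), fun _ => Or.inl ⟨by omega, rfl, rfl⟩⟩

theorem par2 {M : ℕ} (h : M % 4 = 1) : Par (8 * M) true 1 1 :=
  ⟨fun h => absurd h (by decide), fun _ => Or.inr (Or.inl ⟨by omega, rfl, rfl⟩)⟩

theorem par3 {M : ℕ} (h : M % 4 = 3) : Par (8 * M) true 1 0 :=
  ⟨fun h => absurd h (by decide), fun _ => Or.inr (Or.inr ⟨by omega, rfl, rfl⟩)⟩

theorem nr17_dvd {a : ℕ} (h : 17 ∣ a) : nr 17 a = 0 := by
  rw [nr17_mod, Nat.mod_eq_zero_of_dvd h]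
  unfold nr
  rw [if_pos]
  decide

theorem nr17_4 : nr 17 4 = 0 := by
  unfold nr
  rw [if_pos]
  decide

theorem nr17_8 : nr 17 8 = 0 := by
  unfold nr
  rw [if_pos]
  decide

/-- the residues, unramified -/
theorem ks_u {m : ℕ} (h17 : 17 ∣ m) {R : Finset ℕ} (hR : ∀ a ∈ R, nr 17 a = 1) {c k : ℕ}
    {s : ZMod 2} (hc : c = if s = 0 then 3 else 1) (hk : ¬ 17 ∣ k) (hk0 : nr 17 k = 0) :
    ∀ a ∈ Ks m c k R, a % 4 = (if s = 0 then 3 else 1) ∧ nr 17 a = 1 := by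
  intro a ha
  obtain ⟨-, h1, h2⟩ := mem_filter.1 ha
  have h3 := hR _ h2
  rw [nr17_mod, Nat.mod_mod_of_dvd _ h17, ← nr17_mod] at h3
  have h4 : ¬ 17 ∣ a := by
    intro h
    rw [nr17_dvd (Dvd.dvd.mul_left h k)] at h3
    exact absurd h3 (by decide)
  rw [nr17_mul hk h4, hk0, zero_add] at h3
  exact ⟨h1.trans hc, h3⟩

/-- the residues, ramified -/
theorem ks_w {m : ℕ} (h17 : 17 ∣ m) {R : Finset ℕ} (hR : ∀ a ∈ R, 17 ∣ a) {c k : ℕ}
    {s : ZMod 2} (hc : c = if s = 0 then 3 else 1) (hk : ¬ 17 ∣ k) :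
    ∀ a ∈ Ks m c k R, a % 4 = (if s = 0 then 3 else 1) ∧ 17 ∣ a := by
  intro a ha
  obtain ⟨-, h1, h2⟩ := mem_filter.1 ha
  have h3 := (Nat.dvd_mod_iff h17).1 (hR _ h2)
  exact ⟨h1.trans hc, ((p17.dvd_mul).1 h3).resolve_left hk⟩

theorem nd17 {m n : ℕ} (h17 : 17 ∣ m) {R : Finset ℕ} (hR : ∀ a ∈ R, nr 17 a = 1)
    (h : n % m ∈ R) : ¬ 17 ∣ n := by
  intro hn
  have h3 := hR _ h
  rw [nr17_mod, Nat.mod_mod_of_dvd _ h17, ← nr17_mod, nr17_dvd hn] at h3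
  exact absurd h3 (by decide)

/-- the criterion of level 17 -/
def C17 (n : ℕ) : Prop := (¬ 17 ∣ n → Sx n) ∧ (17 ∣ n → Sr n)

theorem odd2 {M : ℕ} (h : M % 4 = 1 ∨ M % 4 = 3) : ¬ 2 ∣ M := by omega

theorem count_u {m : ℕ} (hm : 0 < m) (h17 : 17 ∣ m) {R : Finset ℕ}
    (hR : ∀ a ∈ R, nr 17 a = 1) : ∀ ε : ℝ, 0 < ε → ∃ X₀ : ℕ, ∀ X : ℕ, X₀ ≤ X →
      |(((Icc 1 X).filter fun n => FD n ∧ n % m ∈ R ∧ C17 n).card : ℝ) -
        c2 * (((Icc 1 X).filter fun n => FD n ∧ n % m ∈ R).card : ℝ)| ≤ ε * X := by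
  have h136 : 136 ∣ 8 * m := by
    obtain ⟨k, rfl⟩ := h17
    exact ⟨k, by ring⟩
  have hC : ∀ n, n % m ∈ R → (C17 n ↔ Sx n) := by
    intro n hn
    have := nd17 h17 hR hn
    exact ⟨fun h => h.1 this, fun h => ⟨fun _ => h, fun h' => absurd h' this⟩⟩
  have g0 : (3 : ℕ) = if (0 : ZMod 2) = 0 then 3 else 1 := by rw [if_pos rfl]
  have g1 : (1 : ℕ) = if (1 : ZMod 2) = 0 then 3 else 1 := by rw [if_neg (by decide)]
  refine count_gen (G := Gu) hm c201.1 c201.2 ?_ ?_ ?_ ?_ ?_ ?_ ?_ ?_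
  · intro n h1 h2 h3
    rw [hC n h3]
    exact Sx_iff (par0 h2) pf_odd (odd2 (Or.inr h2)) (nd17 h17 hR h3)
  · intro M h1 h2 h3
    rw [hC _ h3]
    exact Sx_iff (par1 h2) (pf_4 h1.ne_zero) (odd2 (Or.inl h2)) (nd17 h17 hR h3)
  · intro M h1 h2 h3
    rw [hC _ h3]
    exact Sx_iff (par2 h2) (pf_8 h1.ne_zero) (odd2 (Or.inl h2)) (nd17 h17 hR h3)
  · intro M h1 h2 h3
    rw [hC _ h3]
    exact Sx_iff (par3 h2) (pf_8 h1.ne_zero) (odd2 (Or.inr h2)) (nd17 h17 hR h3)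
  · exact lah_u h136 (by omega) (fun _ => rfl) (fun h => absurd h (by decide))
      (ks_u h17 hR g0 (by norm_num) nr17_1)
  · exact lah_u h136 (by omega) (fun h => absurd h (by decide)) (fun _ => Or.inr (by decide))
      (ks_u h17 hR g1 (by norm_num) nr17_4)
  · exact lah_u h136 (by omega) (fun h => absurd h (by decide)) (fun _ => Or.inr (by decide))
      (ks_u h17 hR g1 (by norm_num) nr17_8)
  · exact lah_u h136 (by omega) (fun h => absurd h (by decide)) (fun _ => Or.inl (by decide))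
      (ks_u h17 hR g0 (by norm_num) nr17_8)

theorem count_w {m : ℕ} (hm : 0 < m) (h17 : 17 ∣ m) {R : Finset ℕ}
    (hR : ∀ a ∈ R, 17 ∣ a) : ∀ ε : ℝ, 0 < ε → ∃ X₀ : ℕ, ∀ X : ℕ, X₀ ≤ X →
      |(((Icc 1 X).filter fun n => FD n ∧ n % m ∈ R ∧ C17 n).card : ℝ) -
        c2 * (((Icc 1 X).filter fun n => FD n ∧ n % m ∈ R).card : ℝ)| ≤ ε * X := by
  have h136 : 136 ∣ 8 * m := by
    obtain ⟨k, rfl⟩ := h17
    exact ⟨k, by ring⟩
  have hd : ∀ n, n % m ∈ R → 17 ∣ n := fun n hn => (Nat.dvd_mod_iff h17).1 (hR _ hn)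
  have hC : ∀ n, n % m ∈ R → (C17 n ↔ Sr n) := by
    intro n hn
    have := hd n hn
    exact ⟨fun h => h.2 this, fun h => ⟨fun h' => absurd this h', fun _ => h⟩⟩
  have g0 : (3 : ℕ) = if (0 : ZMod 2) = 0 then 3 else 1 := by rw [if_pos rfl]
  have g1 : (1 : ℕ) = if (1 : ZMod 2) = 0 then 3 else 1 := by rw [if_neg (by decide)]
  refine count_gen (G := Gw) hm c201.1 c201.2 ?_ ?_ ?_ ?_ ?_ ?_ ?_ ?_
  · intro n h1 h2 h3
    rw [hC n h3]
    exact Sr_iff (par0 h2) pf_odd (odd2 (Or.inr h2)) (hd n h3) h1.ne_zero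
  · intro M h1 h2 h3
    rw [hC _ h3]
    exact Sr_iff (par1 h2) (pf_4 h1.ne_zero) (odd2 (Or.inl h2)) (hd _ h3)
      (mul_ne_zero (by norm_num) h1.ne_zero)
  · intro M h1 h2 h3
    rw [hC _ h3]
    exact Sr_iff (par2 h2) (pf_8 h1.ne_zero) (odd2 (Or.inl h2)) (hd _ h3)
      (mul_ne_zero (by norm_num) h1.ne_zero)
  · intro M h1 h2 h3
    rw [hC _ h3]
    exact Sr_iff (par3 h2) (pf_8 h1.ne_zero) (odd2 (Or.inr h2)) (hd _ h3)
      (mul_ne_zero (by norm_num) h1.ne_zero)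
  · exact lah_w h136 (by omega) (fun _ => rfl) (fun h => absurd h (by decide))
      (ks_w h17 hR g0 (by norm_num))
  · exact lah_w h136 (by omega) (fun h => absurd h (by decide)) (fun _ => Or.inr (by decide))
      (ks_w h17 hR g1 (by norm_num))
  · exact lah_w h136 (by omega) (fun h => absurd h (by decide)) (fun _ => Or.inr (by decide))
      (ks_w h17 hR g1 (by norm_num))
  · exact lah_w h136 (by omega) (fun h => absurd h (by decide)) (fun _ => Or.inl (by decide))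
      (ks_w h17 hR g0 (by norm_num))

/-- the count in classes modulo `m` in which `17` does not split -/
theorem count17 {m : ℕ} (hm : 0 < m) (h17 : 17 ∣ m) {R : Finset ℕ}
    (hR : ∀ a ∈ R, nr 17 a = 1 ∨ 17 ∣ a) : ∀ ε : ℝ, 0 < ε → ∃ X₀ : ℕ, ∀ X : ℕ, X₀ ≤ X →
      |(((Icc 1 X).filter fun n => FD n ∧ n % m ∈ R ∧ C17 n).card : ℝ) -
        c2 * (((Icc 1 X).filter fun n => FD n ∧ n % m ∈ R).card : ℝ)| ≤ ε * X := by
  intro ε hε
  set R1 := R.filter fun a => nr 17 a = 1 with hR1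
  set R2 := R.filter fun a => 17 ∣ a with hR2
  obtain ⟨X1, h1⟩ := count_u hm h17 (R := R1) (fun a ha => (mem_filter.1 ha).2) (ε / 2)
    (by positivity)
  obtain ⟨X2, h2⟩ := count_w hm h17 (R := R2) (fun a ha => (mem_filter.1 ha).2) (ε / 2)
    (by positivity)
  refine ⟨X1 + X2, fun X hX => ?_⟩
  have b1 := h1 X (by omega)
  have b2 := h2 X (by omega)
  have hmem : ∀ a, a ∈ R ↔ a ∈ R1 ∨ a ∈ R2 := by
    intro a
    rw [hR1, hR2, mem_filter, mem_filter]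
    constructor
    · intro h
      rcases hR a h with h' | h'
      · exact Or.inl ⟨h, h'⟩
      · exact Or.inr ⟨h, h'⟩
    · rintro (h | h)
      · exact h.1
      · exact h.1
  have hdis : ∀ a, a ∈ R1 → a ∉ R2 := by
    intro a ha ha'
    have h3 := (mem_filter.1 ha).2
    rw [nr17_dvd (mem_filter.1 ha').2] at h3
    exact absurd h3 (by decide)
  clear_value R1 R2
  have key : ∀ Q : ℕ → Prop, ((Icc 1 X).filter fun n => FD n ∧ n % m ∈ R ∧ Q n).card =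
      ((Icc 1 X).filter fun n => FD n ∧ n % m ∈ R1 ∧ Q n).card +
      ((Icc 1 X).filter fun n => FD n ∧ n % m ∈ R2 ∧ Q n).card := by
    intro Q
    rw [← card_union_of_disjoint]
    · congr 1
      ext n
      rw [mem_union, mem_filter, mem_filter, mem_filter, hmem]
      constructor
      · rintro ⟨i1, i2, i3 | i3, i4⟩
        · exact Or.inl ⟨i1, i2, i3, i4⟩
        · exact Or.inr ⟨i1, i2, i3, i4⟩
      · rintro (⟨i1, i2, i3, i4⟩ | ⟨i1, i2, i3, i4⟩)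
        · exact ⟨i1, i2, Or.inl i3, i4⟩
        · exact ⟨i1, i2, Or.inr i3, i4⟩
    · rw [Finset.disjoint_left]
      intro n hn hn'
      exact hdis _ (mem_filter.1 hn).2.2.1 (mem_filter.1 hn').2.2.1
  have k1 := key C17
  have k2 := key fun _ => True
  simp only [and_true] at k2
  have k1' := congrArg (Nat.cast : ℕ → ℝ) k1
  have k2' := congrArg (Nat.cast : ℕ → ℝ) k2
  push_cast at k1' k2'
  rw [abs_le] at b1 b2 ⊢
  rw [k1', k2']
  constructor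
  · linarith [b1.1, b2.1]
  · linarith [b1.2, b2.2]

/-- **natural density in classes modulo `m`** of the level 17 criterion among the negative
fundamental discriminants in which `17` does not split -/
theorem density17_mod {m : ℕ} (hm : 0 < m) (h17 : 17 ∣ m) {R : Finset ℕ}
    (hR : ∀ a ∈ R, nr 17 a = 1 ∨ 17 ∣ a) {n₀ : ℕ} (hn : Squarefree n₀) (h4 : n₀ % 4 = 3)
    (hR0 : n₀ % m ∈ R) : Tendsto
  (fun X : ℕ => (((Icc 1 X).filter fun n => FD n ∧ n % m ∈ R ∧ C17 n).card : ℝ) /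
    (((Icc 1 X).filter fun n => FD n ∧ n % m ∈ R).card : ℝ)) atTop (nhds c2) := by
  obtain ⟨c₁, X₁, hc₁, hlow⟩ := low (M := 8 * m) (by omega) ⟨4 * m, by ring⟩ hn
  refine ratio hc₁ (fun X hX => (hlow X hX).trans ?_) (count17 hm h17 hR)
  refine Nat.cast_le.2 (card_le_card fun n hn' => ?_)
  rw [mem_filter] at hn' ⊢
  have h1 : n % 4 = 3 := by
    have h2 : n % (8 * m) % 4 = n₀ % (8 * m) % 4 := by rw [hn'.2.2]
    rw [Nat.mod_mod_of_dvd _ ⟨2 * m, by ring⟩, Nat.mod_mod_of_dvd _ ⟨2 * m, by ring⟩] at h2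
    omega
  have h2 : n % m ∈ R := by
    have h3 : n % (8 * m) % m = n₀ % (8 * m) % m := by rw [hn'.2.2]
    rw [Nat.mod_mod_of_dvd _ ⟨8, by ring⟩, Nat.mod_mod_of_dvd _ ⟨8, by ring⟩] at h3
    rw [h3]
    exact hR0
  exact ⟨hn'.1, Or.inl ⟨hn'.2.1, h1⟩, h2⟩

end Pool.Agent.N916.MO
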