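import Pool.Agent.N916.MO.Lin

/-!
# MO: the forms attached to matrices
-/

set_option autoImplicit false
set_option linter.all false

open scoped Classical

namespace Pool.Agent.N916.MO

open Finset Module

section
variable {V : Type} [Fintype V] [DecidableEq V]

/-- the symmetric form -/
def SL (ν α : V → ZMod 2) (L : V → V → ZMod 2) :
    ((V → ZMod 2) × (V → ZMod 2)) →ₗ[ZMod 2] ((V → ZMod 2) × (V → ZMod 2)) →ₗ[ZMod 2] ZMod 2 :=
  LinearMap.mk₂ (ZMod 2)
    (fun z w => ∑ i, ν i * (z.1 i * w.1 i) + ∑ i, ∑ j, L i j * (w.1 i * z.2 j + z.1 i * w.2 j) +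
      ∑ j, α j * (z.2 j * w.2 j))
    (by
      intro z z' w
      have e1 : ∑ i, ν i * ((z + z').1 i * w.1 i) = ∑ i, ν i * (z.1 i * w.1 i) +
          ∑ i, ν i * (z'.1 i * w.1 i) := by
        rw [← sum_add_distrib]
        refine sum_congr rfl fun i _ => ?_
        rw [Prod.fst_add, Pi.add_apply]
        ring
      have e2 : ∑ i, ∑ j, L i j * (w.1 i * (z + z').2 j + (z + z').1 i * w.2 j) =
          ∑ i, ∑ j, L i j * (w.1 i * z.2 j + z.1 i * w.2 j) +
          ∑ i, ∑ j, L i j * (w.1 i * z'.2 j + z'.1 i * w.2 j) := by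
        rw [← sum_add_distrib]
        refine sum_congr rfl fun i _ => ?_
        rw [← sum_add_distrib]
        refine sum_congr rfl fun j _ => ?_
        rw [Prod.fst_add, Prod.snd_add, Pi.add_apply, Pi.add_apply]
        ring
      have e3 : ∑ j, α j * ((z + z').2 j * w.2 j) = ∑ j, α j * (z.2 j * w.2 j) +
          ∑ j, α j * (z'.2 j * w.2 j) := by
        rw [← sum_add_distrib]
        refine sum_congr rfl fun i _ => ?_
        rw [Prod.snd_add, Pi.add_apply]
        ring
      rw [e1, e2, e3]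
      ring)
    (by
      intro c z w
      simp only [smul_add, smul_sum]
      congr 1
      · congr 1
        · refine sum_congr rfl fun i _ => ?_
          simp only [Prod.smul_fst, Pi.smul_apply, smul_eq_mul]
          ring
        · refine sum_congr rfl fun i _ => sum_congr rfl fun j _ => ?_
          simp only [Prod.smul_fst, Prod.smul_snd, Pi.smul_apply, smul_eq_mul]
          ring
      · refine sum_congr rfl fun i _ => ?_
        simp only [Prod.smul_snd, Pi.smul_apply, smul_eq_mul]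
        ring)
    (by
      intro z w w'
      have e1 : ∑ i, ν i * (z.1 i * (w + w').1 i) = ∑ i, ν i * (z.1 i * w.1 i) +
          ∑ i, ν i * (z.1 i * w'.1 i) := by
        rw [← sum_add_distrib]
        refine sum_congr rfl fun i _ => ?_
        rw [Prod.fst_add, Pi.add_apply]
        ring
      have e2 : ∑ i, ∑ j, L i j * ((w + w').1 i * z.2 j + z.1 i * (w + w').2 j) =
          ∑ i, ∑ j, L i j * (w.1 i * z.2 j + z.1 i * w.2 j) +
          ∑ i, ∑ j, L i j * (w'.1 i * z.2 j + z.1 i * w'.2 j) := by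
        rw [← sum_add_distrib]
        refine sum_congr rfl fun i _ => ?_
        rw [← sum_add_distrib]
        refine sum_congr rfl fun j _ => ?_
        rw [Prod.fst_add, Prod.snd_add, Pi.add_apply, Pi.add_apply]
        ring
      have e3 : ∑ j, α j * (z.2 j * (w + w').2 j) = ∑ j, α j * (z.2 j * w.2 j) +
          ∑ j, α j * (z.2 j * w'.2 j) := by
        rw [← sum_add_distrib]
        refine sum_congr rfl fun i _ => ?_
        rw [Prod.snd_add, Pi.add_apply]
        ring
      rw [e1, e2, e3]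
      ring)
    (by
      intro c z w
      simp only [smul_add, smul_sum]
      congr 1
      · congr 1
        · refine sum_congr rfl fun i _ => ?_
          simp only [Prod.smul_fst, Pi.smul_apply, smul_eq_mul]
          ring
        · refine sum_congr rfl fun i _ => sum_congr rfl fun j _ => ?_
          simp only [Prod.smul_fst, Prod.smul_snd, Pi.smul_apply, smul_eq_mul]
          ring
      · refine sum_congr rfl fun i _ => ?_
        simp only [Prod.smul_snd, Pi.smul_apply, smul_eq_mul]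
        ring)

theorem SL_apply (ν α : V → ZMod 2) (L : V → V → ZMod 2) (z w : (V → ZMod 2) × (V → ZMod 2)) :
    SL ν α L z w = ∑ i, ν i * (z.1 i * w.1 i) +
      ∑ i, ∑ j, L i j * (w.1 i * z.2 j + z.1 i * w.2 j) + ∑ j, α j * (z.2 j * w.2 j) := rfl

/-- the column sums -/
def cs (L : V → V → ZMod 2) (j : V) : ZMod 2 := ∑ i, L i j

variable {ν α : V → ZMod 2} {L : V → V → ZMod 2}

/-- the values as linear combinations -/
theorem SL_lin (z w : (V → ZMod 2) × (V → ZMod 2)) :
    SL ν α L z w = ∑ i, w.1 i * (ν i * z.1 i + ∑ j, L i j * z.2 j) +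
      ∑ j, w.2 j * (∑ i, L i j * z.1 i + α j * z.2 j) := by
  rw [SL_apply]
  have e2 : ∑ i, ∑ j, L i j * (w.1 i * z.2 j + z.1 i * w.2 j) =
      ∑ i, w.1 i * ∑ j, L i j * z.2 j + ∑ j, w.2 j * ∑ i, L i j * z.1 i := by
    simp only [mul_add, sum_add_distrib, mul_sum]
    congr 1
    · refine sum_congr rfl fun i _ => sum_congr rfl fun j _ => ?_
      ring
    · rw [sum_comm]
      refine sum_congr rfl fun i _ => sum_congr rfl fun j _ => ?_
      ring
  rw [e2]
  simp only [mul_add, sum_add_distrib]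
  have e3 : ∑ i, ν i * (z.1 i * w.1 i) = ∑ i, w.1 i * (ν i * z.1 i) :=
    sum_congr rfl fun i _ => by ring
  have e4 : ∑ i, α i * (z.2 i * w.2 i) = ∑ i, w.2 i * (α i * z.2 i) :=
    sum_congr rfl fun i _ => by ring
  rw [e3, e4]
  ring

theorem SL_x (z : (V → ZMod 2) × (V → ZMod 2)) (i : V) :
    SL ν α L z (Pi.single i 1, 0) = ν i * z.1 i + ∑ j, L i j * z.2 j := by
  rw [SL_lin]
  simp only [Pi.single_apply, Pi.zero_apply, zero_mul, sum_const_zero, add_zero, ite_mul, one_mul]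
  rw [sum_ite_eq' univ i, if_pos (mem_univ i)]

theorem SL_y (z : (V → ZMod 2) × (V → ZMod 2)) (j : V) :
    SL ν α L z (0, Pi.single j 1) = ∑ i, L i j * z.1 i + α j * z.2 j := by
  rw [SL_lin]
  simp only [Pi.single_apply, Pi.zero_apply, zero_mul, sum_const_zero, zero_add, ite_mul, one_mul]
  rw [sum_ite_eq' univ j, if_pos (mem_univ j)]

theorem SL_1 (z : (V → ZMod 2) × (V → ZMod 2)) :
    SL ν α L z (1, 0) = ∑ i, ν i * z.1 i + ∑ j, cs L j * z.2 j := by
  rw [SL_lin]
  simp only [Pi.one_apply, Pi.zero_apply, zero_mul, sum_const_zero, add_zero, one_mul]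
  rw [sum_add_distrib, sum_comm]
  congr 1
  refine sum_congr rfl fun j _ => ?_
  unfold cs
  rw [sum_mul]

theorem SL_2 (hr : ∀ i, ∑ j, L i j = 0) (z : (V → ZMod 2) × (V → ZMod 2)) :
    SL ν α L z (0, 1) = ∑ j, α j * z.2 j := by
  rw [SL_lin]
  simp only [Pi.one_apply, Pi.zero_apply, zero_mul, sum_const_zero, zero_add, one_mul]
  rw [sum_add_distrib, sum_comm]
  have : ∑ i, ∑ j, L i j * z.1 i = 0 := by
    refine sum_eq_zero fun i _ => ?_
    rw [← sum_mul, hr, zero_mul]
  rw [this, zero_add]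

theorem SL_self (z : (V → ZMod 2) × (V → ZMod 2)) :
    SL ν α L z z = ∑ i, ν i * z.1 i + ∑ j, α j * z.2 j := by
  rw [SL_apply]
  have e : ∀ a : ZMod 2, a * a = a := by decide
  have e2 : ∑ i, ∑ j, L i j * (z.1 i * z.2 j + z.1 i * z.2 j) = 0 := by
    refine sum_eq_zero fun i _ => sum_eq_zero fun j _ => ?_
    rw [aa, mul_zero]
  rw [e2, add_zero]
  simp only [e]

/-- the criterion with all rows -/
def Kx (ν α : V → ZMod 2) (L : V → V → ZMod 2) : Prop :=
  ∀ x y : V → ZMod 2, (∀ i, ν i * x i + ∑ j, L i j * y j = 0) →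
    (∀ j, ∑ i, L i j * x i + α j * y j = 0) → ∀ i, x i = 0 ∧ y i = 0

/-- the criterion without the row and the column of `v0` -/
def Kr (v0 : V) (ν α : V → ZMod 2) (L : V → V → ZMod 2) : Prop :=
  ∀ x y : V → ZMod 2, x v0 = 0 → (∀ i, i ≠ v0 → ν i * x i + ∑ j, L i j * y j = 0) →
    (∀ j, ∑ i, L i j * x i + α j * y j = 0) → ∀ i, x i = 0 ∧ y i = 0

theorem Kx_iff : Kx ν α L ↔ NdW (SL ν α L) ⊤ := by
  constructor
  · intro h z _ hz
    have := h z.1 z.2 (fun i => by rw [← SL_x (α := α)]; exact hz _ Submodule.mem_top)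
      (fun j => by rw [← SL_y (ν := ν)]; exact hz _ Submodule.mem_top)
    exact Prod.ext (funext fun i => (this i).1) (funext fun i => (this i).2)
  · intro h x y h1 h2 i
    have := h (x, y) Submodule.mem_top (fun w _ => by
      rw [SL_lin]
      have e1 : ∑ i, w.1 i * (ν i * x i + ∑ j, L i j * y j) = 0 :=
        sum_eq_zero fun i _ => by rw [h1, mul_zero]
      have e2 : ∑ j, w.2 j * (∑ i, L i j * x i + α j * y j) = 0 :=
        sum_eq_zero fun i _ => by rw [h2, mul_zero]
      rw [e1, e2, add_zero])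
    exact ⟨congrFun (congrArg Prod.fst this) i, congrFun (congrArg Prod.snd this) i⟩

/-- the vectors with `x v0 = 0` -/
def W0 (v0 : V) : Submodule (ZMod 2) ((V → ZMod 2) × (V → ZMod 2)) where
  carrier := {z | z.1 v0 = 0}
  add_mem' := by
    intro a b ha hb
    show a.1 v0 + b.1 v0 = 0
    rw [show a.1 v0 = 0 from ha, show b.1 v0 = 0 from hb, add_zero]
  zero_mem' := rfl
  smul_mem' := by
    intro c a ha
    show c * a.1 v0 = 0
    rw [show a.1 v0 = 0 from ha, mul_zero]

theorem mem_W0 {v0 : V} {z : (V → ZMod 2) × (V → ZMod 2)} : z ∈ W0 v0 ↔ z.1 v0 = 0 := Iff.rfl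

theorem Kr_iff {v0 : V} : Kr v0 ν α L ↔ NdW (SL ν α L) (W0 v0) := by
  constructor
  · intro h z hz0 hz
    have := h z.1 z.2 hz0 (fun i hi => by
        rw [← SL_x (α := α)]
        refine hz _ ?_
        rw [mem_W0]
        exact Pi.single_eq_of_ne (Ne.symm hi) 1)
      (fun j => by
        rw [← SL_y (ν := ν)]
        refine hz _ ?_
        rw [mem_W0]
        rfl)
    exact Prod.ext (funext fun i => (this i).1) (funext fun i => (this i).2)
  · intro h x y h0 h1 h2 i
    have := h (x, y) h0 (fun w hw => by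
      rw [SL_lin]
      have e1 : ∑ i, w.1 i * (ν i * x i + ∑ j, L i j * y j) = 0 :=
        sum_eq_zero fun i _ => by
          by_cases hi : i = v0
          · rw [hi, mem_W0.1 hw, zero_mul]
          · rw [h1 i hi, mul_zero]
      have e2 : ∑ j, w.2 j * (∑ i, L i j * x i + α j * y j) = 0 :=
        sum_eq_zero fun i _ => by rw [h2, mul_zero]
      rw [e1, e2, add_zero])
    exact ⟨congrFun (congrArg Prod.fst this) i, congrFun (congrArg Prod.snd this) i⟩

end

/-! ### The parametrization -/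

section
variable {U ι : Type} [Fintype U] [DecidableEq U] [Fintype ι] [DecidableEq ι]

/-- the large indices different from `k0` -/
abbrev Ix (k0 : ι) : Type := {k : ι // k ≠ k0}

abbrev E2 (U : Type) : Type := (U → ZMod 2) × (U → ZMod 2)

/-- extension by zero -/
def xt (k0 : ι) (x : Ix k0 → ZMod 2) (k : ι) : ZMod 2 := if h : k ≠ k0 then x ⟨k, h⟩ else 0

theorem xt_sub {k0 : ι} (x : Ix k0 → ZMod 2) (l : Ix k0) : xt k0 x l = x l := dif_pos l.2

theorem xt_k0 {k0 : ι} (x : Ix k0 → ZMod 2) : xt k0 x k0 = 0 := dif_neg (not_not.2 rfl)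

theorem xt_add {k0 : ι} (x y : Ix k0 → ZMod 2) (k : ι) : xt k0 (x + y) k = xt k0 x k + xt k0 y k := by
  unfold xt
  split_ifs
  · rfl
  · rw [add_zero]

theorem xt_smul {k0 : ι} (c : ZMod 2) (x : Ix k0 → ZMod 2) (k : ι) :
    xt k0 (c • x) k = c * xt k0 x k := by
  unfold xt
  split_ifs
  · rfl
  · rw [mul_zero]

theorem sum_xt {k0 : ι} (f : ι → ZMod 2) (x : Ix k0 → ZMod 2) :
    ∑ k, f k * xt k0 x k = ∑ l : Ix k0, f l * x l := by
  have h1 : ∑ k ∈ univ.filter (fun k : ι => k ≠ k0), f k * xt k0 x k =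
      ∑ k, f k * xt k0 x k := by
    refine sum_subset (filter_subset _ _) fun k _ hk => ?_
    have : k = k0 := by
      by_contra h
      exact hk (mem_filter.2 ⟨mem_univ _, h⟩)
    rw [this, xt_k0, mul_zero]
  rw [← h1, Finset.sum_subtype (univ.filter fun k : ι => k ≠ k0) (p := fun k => k ≠ k0)
    (fun k => by simp)]
  refine sum_congr rfl fun l _ => ?_
  rw [xt_sub]

variable {k0 : ι}

/-- the first component -/
def P1 (z : EE (E2 U) (Ix k0)) : U ⊕ ι → ZMod 2 := Sum.elim z.1.1 (xt k0 z.2.1)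

/-- the second component -/
def P2 (z : EE (E2 U) (Ix k0)) : U ⊕ ι → ZMod 2 := Sum.elim z.1.2 (xt k0 z.2.2)

theorem P1_add (z w : EE (E2 U) (Ix k0)) (i : U ⊕ ι) : P1 (z + w) i = P1 z i + P1 w i := by
  rcases i with v | k
  · rfl
  · exact xt_add _ _ k

theorem P2_add (z w : EE (E2 U) (Ix k0)) (i : U ⊕ ι) : P2 (z + w) i = P2 z i + P2 w i := by
  rcases i with v | k
  · rfl
  · exact xt_add _ _ k

theorem P1_smul (c : ZMod 2) (z : EE (E2 U) (Ix k0)) (i : U ⊕ ι) : P1 (c • z) i = c * P1 z i := by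
  rcases i with v | k
  · rfl
  · exact xt_smul _ _ k

theorem P2_smul (c : ZMod 2) (z : EE (E2 U) (Ix k0)) (i : U ⊕ ι) : P2 (c • z) i = c * P2 z i := by
  rcases i with v | k
  · rfl
  · exact xt_smul _ _ k

theorem sum_P1 (f : U ⊕ ι → ZMod 2) (z : EE (E2 U) (Ix k0)) :
    ∑ i, f i * P1 z i = ∑ v, f (Sum.inl v) * z.1.1 v + ∑ l : Ix k0, f (Sum.inr l) * z.2.1 l := by
  rw [Fintype.sum_sum_type]
  congr 1
  exact sum_xt (fun k => f (Sum.inr k)) z.2.1

theorem sum_P2 (f : U ⊕ ι → ZMod 2) (z : EE (E2 U) (Ix k0)) :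
    ∑ i, f i * P2 z i = ∑ v, f (Sum.inl v) * z.1.2 v + ∑ l : Ix k0, f (Sum.inr l) * z.2.2 l := by
  rw [Fintype.sum_sum_type]
  congr 1
  exact sum_xt (fun k => f (Sum.inr k)) z.2.2

/-- the parametrization -/
def phi (α : U ⊕ ι → ZMod 2) (β : EE (E2 U) (Ix k0) →ₗ[ZMod 2] ZMod 2) :
    EE (E2 U) (Ix k0) →ₗ[ZMod 2] ((U ⊕ ι → ZMod 2) × (U ⊕ ι → ZMod 2)) where
  toFun z := (fun i => P1 z i + β z, fun i => P2 z i + ∑ j, α j * P2 z j)
  map_add' z w := by
    refine Prod.ext ?_ ?_
    · funext i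
      show P1 (z + w) i + β (z + w) = (P1 z i + β z) + (P1 w i + β w)
      rw [P1_add, map_add]
      ring
    · funext i
      show P2 (z + w) i + ∑ j, α j * P2 (z + w) j =
        (P2 z i + ∑ j, α j * P2 z j) + (P2 w i + ∑ j, α j * P2 w j)
      have : ∑ j, α j * P2 (z + w) j = ∑ j, α j * P2 z j + ∑ j, α j * P2 w j := by
        rw [← sum_add_distrib]
        refine sum_congr rfl fun j _ => ?_
        rw [P2_add]
        ring
      rw [P2_add, this]
      ring
  map_smul' c z := by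
    refine Prod.ext ?_ ?_
    · funext i
      show P1 (c • z) i + β (c • z) = c * (P1 z i + β z)
      rw [P1_smul, map_smul, smul_eq_mul]
      ring
    · funext i
      show P2 (c • z) i + ∑ j, α j * P2 (c • z) j = c * (P2 z i + ∑ j, α j * P2 z j)
      have : ∑ j, α j * P2 (c • z) j = c * ∑ j, α j * P2 z j := by
        rw [mul_sum]
        refine sum_congr rfl fun j _ => ?_
        rw [P2_smul]
        ring
      rw [P2_smul, this]
      ring

theorem phi1 (α : U ⊕ ι → ZMod 2) (β : EE (E2 U) (Ix k0) →ₗ[ZMod 2] ZMod 2)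
    (z : EE (E2 U) (Ix k0)) (i : U ⊕ ι) : (phi α β z).1 i = P1 z i + β z := rfl

theorem phi2 (α : U ⊕ ι → ZMod 2) (β : EE (E2 U) (Ix k0) →ₗ[ZMod 2] ZMod 2)
    (z : EE (E2 U) (Ix k0)) (i : U ⊕ ι) :
    (phi α β z).2 i = P2 z i + ∑ j, α j * P2 z j := rfl

/-- the linear functional of the diagonal -/
def dph (ν α : U ⊕ ι → ZMod 2) (β : EE (E2 U) (Ix k0) →ₗ[ZMod 2] ZMod 2) :
    EE (E2 U) (Ix k0) →ₗ[ZMod 2] ZMod 2 where
  toFun z := ∑ i, ν i * (phi α β z).1 i
  map_add' z w := by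
    rw [map_add, ← sum_add_distrib]
    refine sum_congr rfl fun i _ => ?_
    rw [Prod.fst_add, Pi.add_apply]
    ring
  map_smul' c z := by
    rw [map_smul, RingHom.id_apply, smul_sum]
    refine sum_congr rfl fun i _ => ?_
    rw [Prod.smul_fst, Pi.smul_apply, smul_eq_mul, smul_eq_mul]
    ring

theorem dph_apply (ν α : U ⊕ ι → ZMod 2) (β : EE (E2 U) (Ix k0) →ₗ[ZMod 2] ZMod 2)
    (z : EE (E2 U) (Ix k0)) : dph ν α β z = ∑ i, ν i * (phi α β z).1 i := rfl

/-- the alternating form -/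
def BB (ν α : U ⊕ ι → ZMod 2) (L : U ⊕ ι → U ⊕ ι → ZMod 2)
    (β : EE (E2 U) (Ix k0) →ₗ[ZMod 2] ZMod 2) :
    EE (E2 U) (Ix k0) →ₗ[ZMod 2] EE (E2 U) (Ix k0) →ₗ[ZMod 2] ZMod 2 :=
  (SL ν α L).compl₁₂ (phi α β) (phi α β) +
    LinearMap.mk₂ (ZMod 2) (fun z w => dph ν α β z * dph ν α β w)
      (fun z z' w => by rw [map_add, add_mul]) (fun c z w => by rw [map_smul, smul_mul_assoc])
      (fun z w w' => by rw [map_add, mul_add]) (fun c z w => by rw [map_smul, mul_smul_comm])

theorem BB_apply (ν α : U ⊕ ι → ZMod 2) (L : U ⊕ ι → U ⊕ ι → ZMod 2)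
    (β : EE (E2 U) (Ix k0) →ₗ[ZMod 2] ZMod 2) (z w : EE (E2 U) (Ix k0)) :
    BB ν α L β z w = SL ν α L (phi α β z) (phi α β w) + dph ν α β z * dph ν α β w := rfl

theorem ev_E2 : Even (finrank (ZMod 2) (E2 U)) := by
  rw [Module.finrank_prod]
  exact ⟨_, rfl⟩

theorem ev_EE : Even (finrank (ZMod 2) (EE (E2 U) (Ix k0))) := by
  rw [Module.finrank_prod, Module.finrank_prod, Module.finrank_prod]
  exact ⟨finrank (ZMod 2) (U → ZMod 2) + finrank (ZMod 2) (Ix k0 → ZMod 2), by ring⟩

/-- the general reduction -/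
theorem redu {ν α : U ⊕ ι → ZMod 2} {L : U ⊕ ι → U ⊕ ι → ZMod 2}
    {β : EE (E2 U) (Ix k0) →ₗ[ZMod 2] ZMod 2}
    {W : Submodule (ZMod 2) ((U ⊕ ι → ZMod 2) × (U ⊕ ι → ZMod 2))}
    (hα : ∑ i, α i = 1) (hW : ∀ w ∈ W, ∑ j, α j * w.2 j = 0) (h1 : ∀ z, phi α β z ∈ W)
    (h2 : ∀ w ∈ W, ∀ z : EE (E2 U) (Ix k0), (∀ i, P1 z i = w.1 i + w.1 (Sum.inr k0)) →
      (∀ i, P2 z i = w.2 i + w.2 (Sum.inr k0)) → β z = w.1 (Sum.inr k0)) :
    NdW (SL ν α L) W ↔ ∀ z, (∀ w, BB ν α L β z w = 0) → z = 0 := by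
  have abb : ∀ a b : ZMod 2, a + b + b = a := by decide
  rw [pullb (S' := (SL ν α L).compl₁₂ (phi α β) (phi α β)) (phi α β) h1 ?_ ?_ (fun z w => rfl)]
  · refine sym_alt (d := dph ν α β) ?_ (fun z w => rfl) ev_EE
    intro z
    show SL ν α L (phi α β z) (phi α β z) = _
    rw [SL_self, hW _ (h1 z), add_zero, dph_apply]
  · intro w hw
    let z : EE (E2 U) (Ix k0) :=
      ((fun v => w.1 (Sum.inl v) + w.1 (Sum.inr k0), fun v => w.2 (Sum.inl v) + w.2 (Sum.inr k0)),
        fun k => w.1 (Sum.inr k) + w.1 (Sum.inr k0), fun k => w.2 (Sum.inr k) + w.2 (Sum.inr k0))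
    have e1 : ∀ i, P1 z i = w.1 i + w.1 (Sum.inr k0) := by
      rintro (v | k)
      · rfl
      · show xt k0 _ k = _
        by_cases hk : k = k0
        · rw [hk, xt_k0, aa]
        · exact dif_pos hk
    have e2 : ∀ i, P2 z i = w.2 i + w.2 (Sum.inr k0) := by
      rintro (v | k)
      · rfl
      · show xt k0 _ k = _
        by_cases hk : k = k0
        · rw [hk, xt_k0, aa]
        · exact dif_pos hk
    refine ⟨z, Prod.ext (funext fun i => ?_) (funext fun i => ?_)⟩
    · rw [phi1, h2 w hw z e1 e2, e1, abb]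
    · rw [phi2, e2]
      have : ∑ j, α j * P2 z j = w.2 (Sum.inr k0) := by
        simp only [e2, mul_add, sum_add_distrib]
        rw [hW w hw, ← sum_mul, hα, one_mul, zero_add]
      rw [this, abb]
  · intro z hz
    have a1 : β z = 0 := by
      have h := congrFun (congrArg Prod.fst hz) (Sum.inr k0)
      rw [phi1] at h
      have h3 : P1 z (Sum.inr k0) = 0 := xt_k0 _
      rw [h3, zero_add] at h
      exact h
    have a2 : ∑ j, α j * P2 z j = 0 := by
      have h := congrFun (congrArg Prod.snd hz) (Sum.inr k0)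
      rw [phi2] at h
      have h3 : P2 z (Sum.inr k0) = 0 := xt_k0 _
      rw [h3, zero_add] at h
      exact h
    have b1 : ∀ i, P1 z i = 0 := by
      intro i
      have h := congrFun (congrArg Prod.fst hz) i
      rw [phi1, a1, add_zero] at h
      exact h
    have b2 : ∀ i, P2 z i = 0 := by
      intro i
      have h := congrFun (congrArg Prod.snd hz) i
      rw [phi2, a2, add_zero] at h
      exact h
    refine Prod.ext (Prod.ext (funext fun v => b1 (Sum.inl v)) (funext fun v => b2 (Sum.inl v)))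
      (Prod.ext (funext fun l => ?_) (funext fun l => ?_))
    · have := b1 (Sum.inr l)
      rw [show P1 z (Sum.inr (l : ι)) = xt k0 z.2.1 l from rfl, xt_sub] at this
      exact this
    · have := b2 (Sum.inr l)
      rw [show P2 z (Sum.inr (l : ι)) = xt k0 z.2.2 l from rfl, xt_sub] at this
      exact this

end

end Pool.Agent.N916.MO
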