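import Pool.Agent.N916.MO.Gen2

/-!
# MO: positive discriminants: the criterion as a nondegenerate alternating form
-/

set_option autoImplicit false
set_option linter.all false

open scoped Classical

namespace Pool.Agent.N916.MO

open Finset Module
open Pool.Agent.N916.GB (pt ps sx)

section
variable {E : Type} [AddCommGroup E] [Module (ZMod 2) E]

/-- splitting off an isotropic plane -/
theorem iso {S : E →ₗ[ZMod 2] E →ₗ[ZMod 2] ZMod 2} (hS : ∀ x y, S x y = S y x)
    {W : Submodule (ZMod 2) E} {e1 e2 r1 r2 : E} (h11 : S e1 e1 = 0) (h12 : S e1 e2 = 0)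
    (h22 : S e2 e2 = 0) (a11 : S r1 e1 = 1) (a12 : S r1 e2 = 0) (a21 : S r2 e1 = 0)
    (a22 : S r2 e2 = 1) (hW1 : ∀ z ∈ W, S z e1 = 0 ∧ S z e2 = 0)
    (hW2 : ∀ z, S z e1 = 0 → S z e2 = 0 → ∃ w ∈ W, ∃ a b : ZMod 2, z = w + a • e1 + b • e2)
    (hW3 : ∀ a b : ZMod 2, a • e1 + b • e2 ∈ W → a = 0 ∧ b = 0) : NdW S ⊤ ↔ NdW S W := by
  constructor
  · intro h z hz hzW
    set a := S z r1 with ha
    set b := S z r2 with hb
    obtain ⟨ze1, ze2⟩ := hW1 z hz
    set z' := z + a • e1 + b • e2 with hz'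
    have f : ∀ v, S z' v = S z v + a * S v e1 + b * S v e2 := by
      intro v
      rw [hz', LinearMap.map_add₂, LinearMap.map_add₂, LinearMap.map_smul₂, LinearMap.map_smul₂,
        smul_eq_mul, smul_eq_mul, hS e1 v, hS e2 v]
    have f1 : S z' e1 = 0 := by
      rw [f, ze1, h11, h12]
      ring
    have f2 : S z' e2 = 0 := by
      rw [f, ze2, hS e2 e1, h12, h22]
      ring
    have f3 : S z' r1 = 0 := by
      rw [f, a11, a12, ← ha, mul_one, mul_zero, add_zero, aa]
    have f4 : S z' r2 = 0 := by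
      rw [f, a21, a22, ← hb, mul_one, mul_zero, add_zero, aa]
    have f5 : z' = 0 := by
      refine h z' Submodule.mem_top fun v _ => ?_
      set v' := v + S v e1 • r1 + S v e2 • r2 with hv'
      have g1 : S v' e1 = 0 := by
        rw [hv', LinearMap.map_add₂, LinearMap.map_add₂, LinearMap.map_smul₂, LinearMap.map_smul₂,
          smul_eq_mul, smul_eq_mul, a11, a21, mul_one, mul_zero, add_zero, aa]
      have g2 : S v' e2 = 0 := by
        rw [hv', LinearMap.map_add₂, LinearMap.map_add₂, LinearMap.map_smul₂, LinearMap.map_smul₂,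
          smul_eq_mul, smul_eq_mul, a12, a22, mul_one, mul_zero, add_zero, aa]
      obtain ⟨w, hw, c, d, hcd⟩ := hW2 v' g1 g2
      obtain ⟨w1, w2⟩ := hW1 w hw
      have g3 : S z' w = 0 := by
        rw [f, hzW w hw, w1, w2]
        ring
      have g4 : S z' v' = 0 := by
        rw [hcd, map_add, map_add, map_smul, map_smul, g3, f1, f2, smul_zero, smul_zero]
        ring
      have g5 : S z' v' = S z' v := by
        rw [hv', map_add, map_add, map_smul, map_smul, f3, f4, smul_zero, smul_zero, add_zero,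
          add_zero]
      rw [← g5, g4]
    have f6 : z = a • e1 + b • e2 := by
      have g : z + (a • e1 + b • e2) = 0 := by rw [← f5, hz', add_assoc]
      have g2 : z = z + (a • e1 + b • e2) + (a • e1 + b • e2) := by
        rw [add_assoc, dbl, add_zero]
      rw [g2, g, zero_add]
    obtain ⟨q1, q2⟩ := hW3 a b (by rw [← f6]; exact hz)
    rw [f6, q1, q2, zero_smul, zero_smul, add_zero]
  · intro h z _ hz
    have hz' : ∀ w, S z w = 0 := fun w => hz w Submodule.mem_top
    obtain ⟨w, hw, a, b, hab⟩ := hW2 z (hz' _) (hz' _)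
    have f : ∀ v, S z v = S w v + a * S v e1 + b * S v e2 := by
      intro v
      rw [hab, LinearMap.map_add₂, LinearMap.map_add₂, LinearMap.map_smul₂, LinearMap.map_smul₂,
        smul_eq_mul, smul_eq_mul, hS e1 v, hS e2 v]
    have w0 : w = 0 := by
      refine h w hw fun v hv => ?_
      have g := hz' v
      obtain ⟨v1, v2⟩ := hW1 v hv
      rw [f, v1, v2, mul_zero, mul_zero, add_zero, add_zero] at g
      exact g
    have g1 := hz' r1
    rw [f, w0, a11, a12, LinearMap.map_zero₂, mul_one, mul_zero, add_zero, zero_add] at g1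
    have g2 := hz' r2
    rw [f, w0, a21, a22, LinearMap.map_zero₂, mul_one, mul_zero, zero_add, zero_add] at g2
    rw [hab, w0, g1, g2, zero_smul, zero_smul, add_zero, add_zero]

end

section
variable {U ι : Type} [Fintype U] [DecidableEq U] [Fintype ι] [DecidableEq ι] {k0 : ι}

/-- the first component, zero at the special index and at `k0` -/
def O1 (z : EE (E2 U) (Ix k0)) : Option U ⊕ ι → ZMod 2 :=
  Sum.elim (fun o => o.elim 0 z.1.1) (xt k0 z.2.1)

/-- the second component -/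
def O2 (z : EE (E2 U) (Ix k0)) : Option U ⊕ ι → ZMod 2 :=
  Sum.elim (fun o => o.elim 0 z.1.2) (xt k0 z.2.2)

theorem O1_add (z w : EE (E2 U) (Ix k0)) (i : Option U ⊕ ι) : O1 (z + w) i = O1 z i + O1 w i := by
  rcases i with (_ | v) | k
  · exact (add_zero _).symm
  · rfl
  · exact xt_add _ _ k

theorem O2_add (z w : EE (E2 U) (Ix k0)) (i : Option U ⊕ ι) : O2 (z + w) i = O2 z i + O2 w i := by
  rcases i with (_ | v) | k
  · exact (add_zero _).symm
  · rfl
  · exact xt_add _ _ k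

theorem O1_smul (c : ZMod 2) (z : EE (E2 U) (Ix k0)) (i : Option U ⊕ ι) :
    O1 (c • z) i = c * O1 z i := by
  rcases i with (_ | v) | k
  · exact (mul_zero _).symm
  · rfl
  · exact xt_smul _ _ k

theorem O2_smul (c : ZMod 2) (z : EE (E2 U) (Ix k0)) (i : Option U ⊕ ι) :
    O2 (c • z) i = c * O2 z i := by
  rcases i with (_ | v) | k
  · exact (mul_zero _).symm
  · rfl
  · exact xt_smul _ _ k

theorem sum_O1 (f : Option U ⊕ ι → ZMod 2) (z : EE (E2 U) (Ix k0)) :
    ∑ i, f i * O1 z i = ∑ v, f (Sum.inl (some v)) * z.1.1 v +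
      ∑ l : Ix k0, f (Sum.inr l) * z.2.1 l := by
  rw [Fintype.sum_sum_type, Fintype.sum_option]
  have e0 : f (Sum.inl none) * O1 z (Sum.inl none) = 0 := mul_zero _
  rw [e0, zero_add]
  congr 1
  exact sum_xt (fun k => f (Sum.inr k)) z.2.1

theorem sum_O2 (f : Option U ⊕ ι → ZMod 2) (z : EE (E2 U) (Ix k0)) :
    ∑ i, f i * O2 z i = ∑ v, f (Sum.inl (some v)) * z.1.2 v +
      ∑ l : Ix k0, f (Sum.inr l) * z.2.2 l := by
  rw [Fintype.sum_sum_type, Fintype.sum_option]
  have e0 : f (Sum.inl none) * O2 z (Sum.inl none) = 0 := mul_zero _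
  rw [e0, zero_add]
  congr 1
  exact sum_xt (fun k => f (Sum.inr k)) z.2.2

/-- the unit vector of the special index -/
def dl (i : Option U ⊕ ι) : ZMod 2 := (Pi.single (Sum.inl none) 1 : Option U ⊕ ι → ZMod 2) i

theorem dl_none : dl (Sum.inl none : Option U ⊕ ι) = 1 := Pi.single_eq_same _ _

theorem dl_some (v : U) : dl (Sum.inl (some v) : Option U ⊕ ι) = 0 := by
  unfold dl
  rw [Pi.single_eq_of_ne]
  simp

theorem dl_inr (k : ι) : dl (Sum.inr k : Option U ⊕ ι) = 0 := by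
  unfold dl
  rw [Pi.single_eq_of_ne]
  simp

theorem sum_dl (f : Option U ⊕ ι → ZMod 2) : ∑ i, f i * dl i = f (Sum.inl none) := sum_sg f _

/-- the functional of the second component -/
def gP (u : Option U ⊕ ι → ZMod 2) : EE (E2 U) (Ix k0) →ₗ[ZMod 2] ZMod 2 where
  toFun z := ∑ i, u i * O2 z i
  map_add' z w := by
    rw [← sum_add_distrib]
    exact sum_congr rfl fun i _ => by rw [O2_add, mul_add]
  map_smul' a z := by
    rw [RingHom.id_apply, smul_eq_mul, mul_sum]
    exact sum_congr rfl fun i _ => by rw [O2_smul]; ring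

theorem gP_apply (u : Option U ⊕ ι → ZMod 2) (z : EE (E2 U) (Ix k0)) :
    gP u z = ∑ i, u i * O2 z i := rfl

/-- the functional of the first component -/
def bP (ν u c : Option U ⊕ ι → ZMod 2) : EE (E2 U) (Ix k0) →ₗ[ZMod 2] ZMod 2 where
  toFun z := ∑ i, ν i * O1 z i + ∑ i, c i * O2 z i + c (Sum.inl none) * ∑ i, u i * O2 z i
  map_add' z w := by
    have e1 : ∀ f : Option U ⊕ ι → ZMod 2, ∑ i, f i * O1 (z + w) i =
        ∑ i, f i * O1 z i + ∑ i, f i * O1 w i := by
      intro f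
      rw [← sum_add_distrib]
      exact sum_congr rfl fun i _ => by rw [O1_add, mul_add]
    have e2 : ∀ f : Option U ⊕ ι → ZMod 2, ∑ i, f i * O2 (z + w) i =
        ∑ i, f i * O2 z i + ∑ i, f i * O2 w i := by
      intro f
      rw [← sum_add_distrib]
      exact sum_congr rfl fun i _ => by rw [O2_add, mul_add]
    rw [e1, e2, e2]
    ring
  map_smul' a z := by
    have e1 : ∀ f : Option U ⊕ ι → ZMod 2, ∑ i, f i * O1 (a • z) i = a * ∑ i, f i * O1 z i := by
      intro f
      rw [mul_sum]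
      exact sum_congr rfl fun i _ => by rw [O1_smul]; ring
    have e2 : ∀ f : Option U ⊕ ι → ZMod 2, ∑ i, f i * O2 (a • z) i = a * ∑ i, f i * O2 z i := by
      intro f
      rw [mul_sum]
      exact sum_congr rfl fun i _ => by rw [O2_smul]; ring
    rw [e1, e2, e2, RingHom.id_apply, smul_eq_mul]
    ring

theorem bP_apply (ν u c : Option U ⊕ ι → ZMod 2) (z : EE (E2 U) (Ix k0)) :
    bP ν u c z = ∑ i, ν i * O1 z i + ∑ i, c i * O2 z i + c (Sum.inl none) * gP u z := rfl

/-- the parametrization -/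
def phP (ν u c : Option U ⊕ ι → ZMod 2) :
    EE (E2 U) (Ix k0) →ₗ[ZMod 2] ((Option U ⊕ ι → ZMod 2) × (Option U ⊕ ι → ZMod 2)) where
  toFun z := (fun i => O1 z i + bP ν u c z * dl i, fun i => O2 z i + gP u z * dl i)
  map_add' z w := by
    refine Prod.ext ?_ ?_
    · funext i
      show O1 (z + w) i + bP ν u c (z + w) * dl i =
        (O1 z i + bP ν u c z * dl i) + (O1 w i + bP ν u c w * dl i)
      rw [O1_add, map_add]
      ring
    · funext i
      show O2 (z + w) i + gP u (z + w) * dl i = (O2 z i + gP u z * dl i) + (O2 w i + gP u w * dl i)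
      rw [O2_add, map_add]
      ring
  map_smul' a z := by
    refine Prod.ext ?_ ?_
    · funext i
      show O1 (a • z) i + bP ν u c (a • z) * dl i = a * (O1 z i + bP ν u c z * dl i)
      rw [O1_smul, map_smul, smul_eq_mul]
      ring
    · funext i
      show O2 (a • z) i + gP u (a • z) * dl i = a * (O2 z i + gP u z * dl i)
      rw [O2_smul, map_smul, smul_eq_mul]
      ring

variable {ν u c : Option U ⊕ ι → ZMod 2} {L : Option U ⊕ ι → Option U ⊕ ι → ZMod 2}

theorem phP1 (z : EE (E2 U) (Ix k0)) (i : Option U ⊕ ι) :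
    (phP ν u c z).1 i = O1 z i + bP ν u c z * dl i := rfl

theorem phP2 (z : EE (E2 U) (Ix k0)) (i : Option U ⊕ ι) :
    (phP ν u c z).2 i = O2 z i + gP u z * dl i := rfl

theorem sum_ph1 (f : Option U ⊕ ι → ZMod 2) (z : EE (E2 U) (Ix k0)) :
    ∑ i, f i * (phP ν u c z).1 i = ∑ i, f i * O1 z i + bP ν u c z * f (Sum.inl none) := by
  simp only [phP1, mul_add, sum_add_distrib]
  congr 1
  rw [← sum_dl f, mul_sum]
  exact sum_congr rfl fun i _ => by ring

theorem sum_ph2 (f : Option U ⊕ ι → ZMod 2) (z : EE (E2 U) (Ix k0)) :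
    ∑ i, f i * (phP ν u c z).2 i = ∑ i, f i * O2 z i + gP u z * f (Sum.inl none) := by
  simp only [phP2, mul_add, sum_add_distrib]
  congr 1
  rw [← sum_dl f, mul_sum]
  exact sum_congr rfl fun i _ => by ring

/-- the linear functional of the diagonal -/
def dP (ν u c : Option U ⊕ ι → ZMod 2) : EE (E2 U) (Ix k0) →ₗ[ZMod 2] ZMod 2 where
  toFun z := ∑ i, ν i * (phP ν u c z).1 i
  map_add' z w := by
    rw [map_add, ← sum_add_distrib]
    refine sum_congr rfl fun i _ => ?_
    rw [Prod.fst_add, Pi.add_apply]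
    ring
  map_smul' a z := by
    rw [map_smul, RingHom.id_apply, smul_sum]
    refine sum_congr rfl fun i _ => ?_
    rw [Prod.smul_fst, Pi.smul_apply, smul_eq_mul, smul_eq_mul]
    ring

theorem dP_apply (z : EE (E2 U) (Ix k0)) : dP ν u c z = ∑ i, ν i * (phP ν u c z).1 i := rfl

/-- the alternating form -/
def BP (ν u c : Option U ⊕ ι → ZMod 2) (L : Option U ⊕ ι → Option U ⊕ ι → ZMod 2) :
    EE (E2 U) (Ix k0) →ₗ[ZMod 2] EE (E2 U) (Ix k0) →ₗ[ZMod 2] ZMod 2 :=
  (SL ν u L).compl₁₂ (phP ν u c) (phP ν u c) +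
    LinearMap.mk₂ (ZMod 2) (fun z w => dP ν u c z * dP ν u c w)
      (fun z z' w => by rw [map_add, add_mul]) (fun c z w => by rw [map_smul, smul_mul_assoc])
      (fun z w w' => by rw [map_add, mul_add]) (fun c z w => by rw [map_smul, mul_smul_comm])

theorem BP_apply (z w : EE (E2 U) (Ix k0)) :
    BP ν u c L z w = SL ν u L (phP ν u c z) (phP ν u c w) + dP ν u c z * dP ν u c w := rfl

theorem SL_symm {V : Type} [Fintype V] [DecidableEq V] (ν α : V → ZMod 2) (L : V → V → ZMod 2)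
    (z w : (V → ZMod 2) × (V → ZMod 2)) : SL ν α L z w = SL ν α L w z := by
  rw [SL_apply, SL_apply]
  congr 1
  · congr 1
    · exact sum_congr rfl fun i _ => by ring
    · exact sum_congr rfl fun i _ => sum_congr rfl fun j _ => by ring
  · exact sum_congr rfl fun i _ => by ring

theorem u_ph2 (hus : u (Sum.inl none) = 1) (z : EE (E2 U) (Ix k0)) :
    ∑ i, u i * (phP ν u c z).2 i = 0 := by
  rw [sum_ph2, hus, mul_one, ← gP_apply, aa]

theorem nc_ph (hνs : ν (Sum.inl none) = 1) (z : EE (E2 U) (Ix k0)) :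
    ∑ i, ν i * (phP ν u c z).1 i + ∑ i, c i * (phP ν u c z).2 i = 0 := by
  rw [sum_ph1, sum_ph2, hνs, mul_one, bP_apply]
  have : ∀ a b d g : ZMod 2, a + (a + b + d * g) + (b + g * d) = 0 := by decide
  exact this _ _ _ _

theorem ph_eq (z : EE (E2 U) (Ix k0)) (w : (Option U ⊕ ι → ZMod 2) × (Option U ⊕ ι → ZMod 2))
    (a b : ZMod 2) (h1 : ∀ i, O1 z i = w.1 i + a + (w.1 (Sum.inl none) + a) * dl i)
    (h2 : ∀ i, O2 z i = w.2 i + b + (w.2 (Sum.inl none) + b) * dl i)
    (hb : bP ν u c z = w.1 (Sum.inl none) + a) (hg : gP u z = w.2 (Sum.inl none) + b) :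
    w = phP ν u c z + a • ((1, 0) : (Option U ⊕ ι → ZMod 2) × (Option U ⊕ ι → ZMod 2)) +
      b • ((0, 1) : (Option U ⊕ ι → ZMod 2) × (Option U ⊕ ι → ZMod 2)) := by
  have e : ∀ x a s d : ZMod 2, x = x + a + (s + a) * d + (s + a) * d + a * 1 + 0 := by decide
  have e' : ∀ x a s d : ZMod 2, x = x + a + (s + a) * d + (s + a) * d + 0 + a * 1 := by decide
  refine Prod.ext (funext fun i => ?_) (funext fun i => ?_)
  · show w.1 i = (phP ν u c z).1 i + a * 1 + b * 0
    rw [phP1, h1, hb, mul_zero]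
    exact e _ _ _ _
  · show w.2 i = (phP ν u c z).2 i + a * 0 + b * 1
    rw [phP2, h2, hg, mul_zero]
    exact e' _ _ _ _

/-- the reduction -/
theorem redP (hν : ∑ i, ν i = 0) (hu : ∑ i, u i = 0) (hr : ∀ i, ∑ j, L i j = 0)
    (hνs : ν (Sum.inl none) = 1) (hus : u (Sum.inl none) = 1) :
    Kx ν u L ↔ ∀ z, (∀ w, BP (k0 := k0) ν u (cs L) L z w = 0) → z = 0 := by
  have s1 : ∀ f : Option U ⊕ ι → ZMod 2, ∑ j, f j * (1 : Option U ⊕ ι → ZMod 2) j = ∑ j, f j :=
    fun f => sum_congr rfl fun j _ => mul_one _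
  have s0 : ∀ f : Option U ⊕ ι → ZMod 2, ∑ j, f j * (0 : Option U ⊕ ι → ZMod 2) j = 0 := fun f =>
    sum_eq_zero fun j _ => mul_zero _
  have sd : ∀ f : Option U ⊕ ι → ZMod 2,
      ∑ j, f j * (Pi.single (Sum.inl none) 1 : Option U ⊕ ι → ZMod 2) j = f (Sum.inl none) :=
    fun f => sum_sg f _
  have sdc : ∀ (f : Option U ⊕ ι → ZMod 2) (a : ZMod 2),
      ∑ j, f j * (a • (Pi.single (Sum.inl none) 1 : Option U ⊕ ι → ZMod 2)) j =
        a * f (Sum.inl none) := by
    intro f a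
    rw [← sd f, mul_sum]
    exact sum_congr rfl fun j _ => by rw [Pi.smul_apply, smul_eq_mul]; ring
  set φ : EE (E2 U) (Ix k0) →ₗ[ZMod 2] ((Option U ⊕ ι → ZMod 2) × (Option U ⊕ ι → ZMod 2)) :=
    phP ν u (cs L) with hφ
  rw [Kx_iff, iso (SL_symm ν u L) (W := LinearMap.range φ)
    (e1 := ((1, 0) : (Option U ⊕ ι → ZMod 2) × (Option U ⊕ ι → ZMod 2)))
    (e2 := ((0, 1) : (Option U ⊕ ι → ZMod 2) × (Option U ⊕ ι → ZMod 2)))
    (r1 := ((Pi.single (Sum.inl none) 1, 0) :
      (Option U ⊕ ι → ZMod 2) × (Option U ⊕ ι → ZMod 2)))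
    (r2 := ((cs L (Sum.inl none) • Pi.single (Sum.inl none) 1, Pi.single (Sum.inl none) 1) :
      (Option U ⊕ ι → ZMod 2) × (Option U ⊕ ι → ZMod 2)))
    (by rw [SL_1]; show ∑ i, ν i * (1 : Option U ⊕ ι → ZMod 2) i + _ = 0; rw [s1, s0, hν, add_zero])
    (by rw [SL_2 hr]; exact s0 _)
    (by rw [SL_2 hr]; show ∑ j, u j * (1 : Option U ⊕ ι → ZMod 2) j = 0; rw [s1, hu])
    (by rw [SL_1]; show ∑ i, ν i * (Pi.single (Sum.inl none) 1 : Option U ⊕ ι → ZMod 2) i +
          ∑ i, cs L i * (0 : Option U ⊕ ι → ZMod 2) i = 1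
        rw [sd, s0, hνs, add_zero])
    (by rw [SL_2 hr]; exact s0 _)
    (by rw [SL_1]; show ∑ i, ν i * (cs L (Sum.inl none) •
            (Pi.single (Sum.inl none) 1 : Option U ⊕ ι → ZMod 2)) i +
          ∑ i, cs L i * (Pi.single (Sum.inl none) 1 : Option U ⊕ ι → ZMod 2) i = 0
        rw [sdc, sd, hνs, mul_one, aa])
    (by rw [SL_2 hr]; exact (sd u).trans hus)
    (by
      rintro _ ⟨z, rfl⟩
      refine ⟨?_, ?_⟩
      · rw [SL_1, hφ]
        exact nc_ph hνs z
      · rw [SL_2 hr, hφ]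
        exact u_ph2 hus z)
    (by
      intro z h1 h2
      rw [SL_1] at h1
      rw [SL_2 hr] at h2
      set a := z.1 (Sum.inr k0) with ha
      set b := z.2 (Sum.inr k0) with hb
      let ζ : EE (E2 U) (Ix k0) :=
        ((fun v => z.1 (Sum.inl (some v)) + a, fun v => z.2 (Sum.inl (some v)) + b),
          fun k => z.1 (Sum.inr k) + a, fun k => z.2 (Sum.inr k) + b)
      have e1 : ∀ i, O1 ζ i = z.1 i + a + (z.1 (Sum.inl none) + a) * dl i := by
        rintro ((_ | v) | k)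
        · rw [dl_none, mul_one, aa]
          rfl
        · rw [dl_some, mul_zero, add_zero]
          rfl
        · rw [dl_inr, mul_zero, add_zero]
          show xt k0 _ k = _
          by_cases hk : k = k0
          · rw [hk, xt_k0, ← ha, aa]
          · exact dif_pos hk
      have e2 : ∀ i, O2 ζ i = z.2 i + b + (z.2 (Sum.inl none) + b) * dl i := by
        rintro ((_ | v) | k)
        · rw [dl_none, mul_one, aa]
          rfl
        · rw [dl_some, mul_zero, add_zero]
          rfl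
        · rw [dl_inr, mul_zero, add_zero]
          show xt k0 _ k = _
          by_cases hk : k = k0
          · rw [hk, xt_k0, ← hb, aa]
          · exact dif_pos hk
      have sO1 : ∀ f : Option U ⊕ ι → ZMod 2, ∑ i, f i * O1 ζ i = ∑ i, f i * z.1 i +
          a * ∑ i, f i + (z.1 (Sum.inl none) + a) * f (Sum.inl none) := by
        intro f
        rw [← sum_dl f, mul_sum, mul_sum, ← sum_add_distrib, ← sum_add_distrib]
        exact sum_congr rfl fun i _ => by rw [e1]; ring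
      have sO2 : ∀ f : Option U ⊕ ι → ZMod 2, ∑ i, f i * O2 ζ i = ∑ i, f i * z.2 i +
          b * ∑ i, f i + (z.2 (Sum.inl none) + b) * f (Sum.inl none) := by
        intro f
        rw [← sum_dl f, mul_sum, mul_sum, ← sum_add_distrib, ← sum_add_distrib]
        exact sum_congr rfl fun i _ => by rw [e2]; ring
      have hg : gP u ζ = z.2 (Sum.inl none) + b := by
        rw [gP_apply, sO2, h2, hu, hus, mul_zero, mul_one, zero_add, zero_add]
      have hbb : bP ν u (cs L) ζ = z.1 (Sum.inl none) + a := by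
        rw [bP_apply, hg, sO1, sO2, hν, hνs, cs_sum hr, mul_zero, mul_zero, mul_one]
        have : ∀ x y p q s : ZMod 2, x + y = 0 → x + 0 + p + (y + 0 + q * s) + s * q = p := by
          decide
        exact this _ _ _ _ _ h1
      exact ⟨φ ζ, ⟨ζ, rfl⟩, a, b, ph_eq ζ z a b e1 e2 hbb hg⟩)
    (by
      rintro a b ⟨z, hz⟩
      have h1 := congrFun (congrArg Prod.fst hz) (Sum.inr k0)
      have h2 := congrFun (congrArg Prod.snd hz) (Sum.inr k0)
      rw [hφ, phP1, dl_inr, mul_zero, add_zero] at h1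
      rw [hφ, phP2, dl_inr, mul_zero, add_zero] at h2
      have h3 : O1 z (Sum.inr k0) = 0 := xt_k0 _
      have h4 : O2 z (Sum.inr k0) = 0 := xt_k0 _
      rw [h3] at h1
      rw [h4] at h2
      have h5 : (0 : ZMod 2) = a * 1 + b * 0 := h1
      have h6 : (0 : ZMod 2) = a * 0 + b * 1 := h2
      rw [mul_one, mul_zero, add_zero] at h5
      rw [mul_one, mul_zero, zero_add] at h6
      exact ⟨h5.symm, h6.symm⟩)]
  refine (pullb (W := LinearMap.range φ) (S' := (SL ν u L).compl₁₂ φ φ) φ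
    (fun z => LinearMap.mem_range_self φ z) (fun w hw => LinearMap.mem_range.1 hw) ?_
    (fun z w => rfl)).trans ?_
  rotate_left
  · refine sym_alt (d := dP ν u (cs L)) ?_ (fun z w => rfl) ev_EE
    intro z
    show SL ν u L (φ z) (φ z) = _
    rw [SL_self, hφ, u_ph2 hus, add_zero]
    rfl
  · intro z hz
    have b1 : ∀ i, i ≠ Sum.inl none → O1 z i = 0 := by
      intro i hi
      have h := congrFun (congrArg Prod.fst hz) i
      rw [hφ, phP1] at h
      have : dl i = 0 := Pi.single_eq_of_ne hi _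
      rw [this, mul_zero, add_zero] at h
      exact h
    have b2 : ∀ i, i ≠ Sum.inl none → O2 z i = 0 := by
      intro i hi
      have h := congrFun (congrArg Prod.snd hz) i
      rw [hφ, phP2] at h
      have : dl i = 0 := Pi.single_eq_of_ne hi _
      rw [this, mul_zero, add_zero] at h
      exact h
    refine Prod.ext (Prod.ext (funext fun v => b1 (Sum.inl (some v)) (by simp))
      (funext fun v => b2 (Sum.inl (some v)) (by simp)))
      (Prod.ext (funext fun l => ?_) (funext fun l => ?_))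
    · have := b1 (Sum.inr l) (by simp)
      rw [show O1 z (Sum.inr (l : ι)) = xt k0 z.2.1 l from rfl, xt_sub] at this
      exact this
    · have := b2 (Sum.inr l) (by simp)
      rw [show O2 z (Sum.inr (l : ι)) = xt k0 z.2.2 l from rfl, xt_sub] at this
      exact this

/-! ### Values on the unit vectors -/

theorem O1_fx (k : Ix k0) (i : Option U ⊕ ι) : O1 (fx k : EE (E2 U) (Ix k0)) i =
    (Pi.single (Sum.inr (k : ι)) 1 : Option U ⊕ ι → ZMod 2) i := by
  rw [Pi.single_apply]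
  rcases i with (_ | v) | l
  · rfl
  · rfl
  · show xt k0 (Pi.single k 1 : Ix k0 → ZMod 2) l = _
    by_cases hl : l = k0
    · rw [hl, xt_k0, if_neg fun h => k.2 (Sum.inr_injective h).symm]
    · have : xt k0 (Pi.single k 1 : Ix k0 → ZMod 2) l = (Pi.single k 1 : Ix k0 → ZMod 2) ⟨l, hl⟩ :=
        dif_pos hl
      rw [this, Pi.single_apply]
      by_cases h : l = k
      · rw [if_pos (Subtype.ext h), if_pos (by rw [h])]
      · rw [if_neg (fun h' => h (congrArg Subtype.val h')),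
          if_neg (fun h' => h (Sum.inr_injective h'))]

theorem O2_fx (k : Ix k0) (i : Option U ⊕ ι) : O2 (fx k : EE (E2 U) (Ix k0)) i = 0 := by
  rcases i with (_ | v) | l
  · rfl
  · rfl
  · show xt k0 (0 : Ix k0 → ZMod 2) l = _
    unfold xt
    split_ifs <;> rfl

theorem O1_fy (k : Ix k0) (i : Option U ⊕ ι) : O1 (fy k : EE (E2 U) (Ix k0)) i = 0 := O2_fx k i

theorem O2_fy (k : Ix k0) (i : Option U ⊕ ι) : O2 (fy k : EE (E2 U) (Ix k0)) i =
    (Pi.single (Sum.inr (k : ι)) 1 : Option U ⊕ ι → ZMod 2) i := O1_fx k i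

theorem gP_fx (k : Ix k0) : gP u (fx k) = 0 := by
  rw [gP_apply]
  exact sum_eq_zero fun i _ => by rw [O2_fx, mul_zero]

theorem gP_fy (k : Ix k0) : gP u (fy k) = u (Sum.inr k) := by
  rw [gP_apply, ← sum_sg u]
  exact sum_congr rfl fun i _ => by rw [O2_fy]

theorem bP_fx (k : Ix k0) : bP ν u c (fx k) = ν (Sum.inr k) := by
  rw [bP_apply, gP_fx, mul_zero, add_zero]
  have e1 : ∑ i, c i * O2 (fx k : EE (E2 U) (Ix k0)) i = 0 :=
    sum_eq_zero fun i _ => by rw [O2_fx, mul_zero]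
  rw [e1, add_zero, ← sum_sg ν]
  exact sum_congr rfl fun i _ => by rw [O1_fx]

theorem bP_fy (k : Ix k0) :
    bP ν u c (fy k) = c (Sum.inr k) + c (Sum.inl none) * u (Sum.inr k) := by
  rw [bP_apply, gP_fy]
  have e1 : ∑ i, ν i * O1 (fy k : EE (E2 U) (Ix k0)) i = 0 :=
    sum_eq_zero fun i _ => by rw [O1_fy, mul_zero]
  rw [e1, zero_add, ← sum_sg c (Sum.inr (k : ι))]
  congr 1
  exact sum_congr rfl fun i _ => by rw [O2_fy]

theorem ph_fx (k : Ix k0) : phP ν u c (fx k) =
    ((Pi.single (Sum.inr (k : ι)) 1, 0) : (Option U ⊕ ι → ZMod 2) × (Option U ⊕ ι → ZMod 2)) +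
      ν (Sum.inr k) • ((Pi.single (Sum.inl none) 1, 0) :
        (Option U ⊕ ι → ZMod 2) × (Option U ⊕ ι → ZMod 2)) := by
  refine Prod.ext (funext fun i => ?_) (funext fun i => ?_)
  · rw [phP1, O1_fx, bP_fx]
    rfl
  · rw [phP2, O2_fx, gP_fx, zero_mul]
    show _ = 0 + ν (Sum.inr k) * 0
    rw [mul_zero]

theorem ph_fy (k : Ix k0) : phP ν u c (fy k) =
    ((0, Pi.single (Sum.inr (k : ι)) 1) : (Option U ⊕ ι → ZMod 2) × (Option U ⊕ ι → ZMod 2)) +
      (c (Sum.inr k) + c (Sum.inl none) * u (Sum.inr k)) • ((Pi.single (Sum.inl none) 1, 0) :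
        (Option U ⊕ ι → ZMod 2) × (Option U ⊕ ι → ZMod 2)) +
      u (Sum.inr k) • ((0, Pi.single (Sum.inl none) 1) :
        (Option U ⊕ ι → ZMod 2) × (Option U ⊕ ι → ZMod 2)) := by
  refine Prod.ext (funext fun i => ?_) (funext fun i => ?_)
  · rw [phP1, O1_fy, bP_fy]
    show 0 + _ * dl i = 0 + _ * dl i + u (Sum.inr k) * 0
    rw [mul_zero, add_zero]
  · rw [phP2, O2_fy, gP_fy]
    show _ + u (Sum.inr k) * dl i = (Pi.single (Sum.inr (k : ι)) 1 : Option U ⊕ ι → ZMod 2) i +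
      (c (Sum.inr k) + c (Sum.inl none) * u (Sum.inr k)) * 0 + u (Sum.inr k) * dl i
    rw [mul_zero, add_zero]

theorem O1_inr (z : EE (E2 U) (Ix k0)) (k : Ix k0) : O1 z (Sum.inr (k : ι)) = z.2.1 k :=
  xt_sub z.2.1 k

theorem O2_inr (z : EE (E2 U) (Ix k0)) (k : Ix k0) : O2 z (Sum.inr (k : ι)) = z.2.2 k :=
  xt_sub z.2.2 k

/-- the values at the special index -/
def FP (ν u c : Option U ⊕ ι → ZMod 2) (L : Option U ⊕ ι → Option U ⊕ ι → ZMod 2)
    (z : EE (E2 U) (Ix k0)) : ZMod 2 × ZMod 2 × ZMod 2 × ZMod 2 × ZMod 2 :=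
  (bP ν u c z, gP u z,
    SL ν u L (phP ν u c z) (Pi.single (Sum.inl none) 1, 0),
    SL ν u L (phP ν u c z) (0, Pi.single (Sum.inl none) 1), dP ν u c z)

theorem hxP (hνs : ν (Sum.inl none) = 1) (z : EE (E2 U) (Ix k0)) (k : Ix k0) :
    BP ν u c L z (fx k) = ν (Sum.inr k) * z.2.1 k +
      ∑ l : Ix k0, L (Sum.inr k) (Sum.inr l) * z.2.2 l +
      (∑ v, L (Sum.inr k) (Sum.inl (some v)) * z.1.2 v +
        L (Sum.inr k) (Sum.inl none) * (FP ν u c L z).2.1 +
        ν (Sum.inr k) * (FP ν u c L z).2.2.1) := by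
  have hd : dP ν u c (fx k : EE (E2 U) (Ix k0)) = 0 := by
    rw [dP_apply, sum_ph1, bP_fx, hνs, mul_one]
    have : ∑ i, ν i * O1 (fx k : EE (E2 U) (Ix k0)) i = ν (Sum.inr k) := by
      rw [← sum_sg ν]
      exact sum_congr rfl fun i _ => by rw [O1_fx]
    rw [this, aa]
  rw [BP_apply, hd, mul_zero, add_zero, ph_fx, map_add, map_smul, SL_x, smul_eq_mul]
  show _ + ν (Sum.inr k) * (FP ν u c L z).2.2.1 = _
  rw [phP1, dl_inr, mul_zero, add_zero, O1_inr, sum_ph2, sum_O2]
  show _ + (_ + (FP ν u c L z).2.1 * _) + _ = _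
  ring

theorem hyP (z : EE (E2 U) (Ix k0)) (k : Ix k0) :
    BP ν u c L z (fy k) = u (Sum.inr k) * z.2.2 k +
      ∑ l : Ix k0, L (Sum.inr l) (Sum.inr k) * z.2.1 l +
      (∑ v, L (Sum.inl (some v)) (Sum.inr k) * z.1.1 v +
        L (Sum.inl none) (Sum.inr k) * (FP ν u c L z).1 +
        (c (Sum.inr k) + c (Sum.inl none) * u (Sum.inr k)) * (FP ν u c L z).2.2.1 +
        u (Sum.inr k) * (FP ν u c L z).2.2.2.1 +
        (FP ν u c L z).2.2.2.2 * dP ν u c (fy k : EE (E2 U) (Ix k0))) := by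
  rw [BP_apply, ph_fy, map_add, map_add, map_smul, map_smul, SL_y, smul_eq_mul, smul_eq_mul]
  show _ + (c (Sum.inr k) + c (Sum.inl none) * u (Sum.inr k)) * (FP ν u c L z).2.2.1 +
    u (Sum.inr k) * (FP ν u c L z).2.2.2.1 +
    (FP ν u c L z).2.2.2.2 * dP ν u c (fy k : EE (E2 U) (Ix k0)) = _
  rw [phP2, dl_inr, mul_zero, add_zero, O2_inr, sum_ph1 (fun i => L i (Sum.inr (k : ι))),
    sum_O1 (fun i => L i (Sum.inr (k : ι)))]
  show _ + (FP ν u c L z).1 * _ + _ + _ + _ + _ = _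
  ring

/-! ### The change of the matrix -/

theorem D_sum0 {D : ι → ι → ZMod 2} (x y : Ix k0 → ZMod 2) :
    ∑ k, ∑ l, D k l * (xt k0 x k * xt k0 y l) = ∑ k : Ix k0, ∑ l : Ix k0, D k l * (x k * y l) := by
  have e1 : ∀ k, ∑ l, D k l * (xt k0 x k * xt k0 y l) =
      (∑ l : Ix k0, D k l * y l) * xt k0 x k := by
    intro k
    rw [← sum_xt (fun l => D k l) y, sum_mul]
    exact sum_congr rfl fun l _ => by ring
  rw [sum_congr rfl fun k _ => e1 k, sum_xt (fun k => ∑ l : Ix k0, D k l * y l)]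
  refine sum_congr rfl fun k _ => ?_
  rw [sum_mul]
  exact sum_congr rfl fun l _ => by ring

theorem BP_pt {D : ι → ι → ZMod 2} :
    BP ν u c (pt L D) = BP ν u c L + sB (fun k l : Ix k0 => D k l) := by
  refine LinearMap.ext fun z => LinearMap.ext fun w => ?_
  rw [BP_apply, LinearMap.add_apply, LinearMap.add_apply, BP_apply, SL_pt, sB_apply]
  have e : ∑ k, ∑ l, D k l * ((phP ν u c w).1 (Sum.inr k) * (phP ν u c z).2 (Sum.inr l) +
      (phP ν u c z).1 (Sum.inr k) * (phP ν u c w).2 (Sum.inr l)) =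
      ∑ k : Ix k0, ∑ l : Ix k0, D k l * (z.2.1 k * w.2.2 l + w.2.1 k * z.2.2 l) := by
    have f1 : ∀ (z : EE (E2 U) (Ix k0)) k, (phP ν u c z).1 (Sum.inr k) = xt k0 z.2.1 k := by
      intro z k
      rw [phP1, dl_inr, mul_zero, add_zero]
      rfl
    have f2 : ∀ (z : EE (E2 U) (Ix k0)) k, (phP ν u c z).2 (Sum.inr k) = xt k0 z.2.2 k := by
      intro z k
      rw [phP2, dl_inr, mul_zero, add_zero]
      rfl
    simp only [f1, f2, mul_add, sum_add_distrib]
    rw [D_sum0, D_sum0, add_comm]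
  rw [e]
  ring

end

end Pool.Agent.N916.MO
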