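import Pool.Agent.N916.MO.Fo
import Pool.Agent.N958.GB.BOX

/-!
# MO: the unramified and the ramified criterion as nondegenerate alternating forms
-/

set_option autoImplicit false
set_option linter.all false

open scoped Classical

namespace Pool.Agent.N916.MO

open Finset Module
open Pool.Agent.N916.GB (pt ps sx)

section
variable {U ι : Type} [Fintype U] [DecidableEq U] [Fintype ι] [DecidableEq ι] {k0 : ι}

/-! ### The values on the unit vectors -/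

theorem P1_fx (k : Ix k0) (i : U ⊕ ι) :
    P1 (fx k : EE (E2 U) (Ix k0)) i = (Pi.single (Sum.inr (k : ι)) 1 : U ⊕ ι → ZMod 2) i := by
  rw [Pi.single_apply]
  rcases i with v | l
  · rfl
  · show xt k0 (Pi.single k 1 : Ix k0 → ZMod 2) l = _
    by_cases hl : l = k0
    · rw [hl, xt_k0, if_neg fun h => k.2 (Sum.inr_injective h).symm]
    · have : xt k0 (Pi.single k 1 : Ix k0 → ZMod 2) l = (Pi.single k 1 : Ix k0 → ZMod 2) ⟨l, hl⟩ :=
        dif_pos hl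
      rw [this, Pi.single_apply]
      by_cases h : l = k
      · rw [if_pos (Subtype.ext h), if_pos (by rw [h])]
      · rw [if_neg (fun h' => h (congrArg Subtype.val h')),
          if_neg (fun h' => h (Sum.inr_injective h'))]

theorem P2_fx (k : Ix k0) (i : U ⊕ ι) : P2 (fx k : EE (E2 U) (Ix k0)) i = 0 := by
  rcases i with v | l
  · rfl
  · show xt k0 (0 : Ix k0 → ZMod 2) l = _
    unfold xt
    split_ifs <;> rfl

theorem P1_fy (k : Ix k0) (i : U ⊕ ι) : P1 (fy k : EE (E2 U) (Ix k0)) i = 0 := P2_fx k i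

theorem P2_fy (k : Ix k0) (i : U ⊕ ι) :
    P2 (fy k : EE (E2 U) (Ix k0)) i = (Pi.single (Sum.inr (k : ι)) 1 : U ⊕ ι → ZMod 2) i := P1_fx k i

variable {ν α : U ⊕ ι → ZMod 2} {L : U ⊕ ι → U ⊕ ι → ZMod 2}
  {β : EE (E2 U) (Ix k0) →ₗ[ZMod 2] ZMod 2}

theorem sum_sg (f : U ⊕ ι → ZMod 2) (j : U ⊕ ι) :
    ∑ i, f i * (Pi.single j 1 : U ⊕ ι → ZMod 2) i = f j := by
  simp only [Pi.single_apply, mul_ite, mul_one, mul_zero]
  rw [sum_ite_eq' univ j, if_pos (mem_univ j)]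

theorem phi_fx (k : Ix k0) : phi α β (fx k) =
    ((Pi.single (Sum.inr (k : ι)) 1, 0) : (U ⊕ ι → ZMod 2) × (U ⊕ ι → ZMod 2)) +
      β (fx k) • ((1, 0) : (U ⊕ ι → ZMod 2) × (U ⊕ ι → ZMod 2)) := by
  refine Prod.ext (funext fun i => ?_) (funext fun i => ?_)
  · rw [phi1, P1_fx]
    show _ = _ + β (fx k) * 1
    rw [mul_one]
  · rw [phi2, P2_fx]
    have : ∑ j, α j * P2 (fx k : EE (E2 U) (Ix k0)) j = 0 :=
      sum_eq_zero fun j _ => by rw [P2_fx, mul_zero]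
    rw [this]
    show _ = 0 + β (fx k) * 0
    rw [mul_zero]

theorem phi_fy (k : Ix k0) : phi α β (fy k) =
    ((0, Pi.single (Sum.inr (k : ι)) 1) : (U ⊕ ι → ZMod 2) × (U ⊕ ι → ZMod 2)) +
      β (fy k) • ((1, 0) : (U ⊕ ι → ZMod 2) × (U ⊕ ι → ZMod 2)) +
      α (Sum.inr k) • ((0, 1) : (U ⊕ ι → ZMod 2) × (U ⊕ ι → ZMod 2)) := by
  have h : ∑ j, α j * P2 (fy k : EE (E2 U) (Ix k0)) j = α (Sum.inr k) := by
    rw [← sum_sg α (Sum.inr (k : ι))]
    exact sum_congr rfl fun j _ => by rw [P2_fy]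
  refine Prod.ext (funext fun i => ?_) (funext fun i => ?_)
  · rw [phi1, P1_fy]
    show 0 + β (fy k) = 0 + β (fy k) * 1 + α (Sum.inr k) * 0
    ring
  · rw [phi2, P2_fy, h]
    show _ = (Pi.single (Sum.inr (k : ι)) 1 : U ⊕ ι → ZMod 2) i + β (fy k) * 0 + α (Sum.inr k) * 1
    ring

theorem SL_phi2 (hα : ∑ i, α i = 1) (hr : ∀ i, ∑ j, L i j = 0) (z : EE (E2 U) (Ix k0)) :
    SL ν α L (phi α β z) (0, 1) = 0 := by
  rw [SL_2 hr]
  simp only [phi2, mul_add, sum_add_distrib]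
  rw [← sum_mul, hα, one_mul, aa]

theorem dph_fx (k : Ix k0) : dph ν α β (fx k) = ν (Sum.inr k) + β (fx k) * ∑ i, ν i := by
  rw [dph_apply]
  simp only [phi1, P1_fx, mul_add, sum_add_distrib]
  rw [sum_sg, ← sum_mul, mul_comm (∑ i, ν i)]

theorem dph_fy (k : Ix k0) : dph ν α β (fy k) = β (fy k) * ∑ i, ν i := by
  rw [dph_apply]
  simp only [phi1, P1_fy, zero_add]
  rw [← sum_mul, mul_comm]

theorem dph_z (z : EE (E2 U) (Ix k0)) : dph ν α β z = ∑ i, ν i * P1 z i + β z * ∑ i, ν i := by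
  rw [dph_apply]
  simp only [phi1, mul_add, sum_add_distrib]
  rw [← sum_mul, mul_comm (∑ i, ν i)]

theorem BB_fx (hr : ∀ i, ∑ j, L i j = 0) (z : EE (E2 U) (Ix k0)) (k : Ix k0) :
    BB ν α L β z (fx k) = ν (Sum.inr k) * (P1 z (Sum.inr k) + β z) +
      ∑ j, L (Sum.inr k) j * P2 z j + β (fx k) * SL ν α L (phi α β z) (1, 0) +
      (∑ i, ν i * P1 z i + β z * ∑ i, ν i) * (ν (Sum.inr k) + β (fx k) * ∑ i, ν i) := by
  rw [BB_apply, phi_fx, map_add, map_smul, SL_x, dph_fx, dph_z, phi1, smul_eq_mul]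
  have : ∑ j, L (Sum.inr k) j * (phi α β z).2 j = ∑ j, L (Sum.inr k) j * P2 z j := by
    simp only [phi2, mul_add, sum_add_distrib]
    rw [← sum_mul, hr, zero_mul, add_zero]
  rw [this]

theorem BB_fy (hα : ∑ i, α i = 1) (hr : ∀ i, ∑ j, L i j = 0) (z : EE (E2 U) (Ix k0)) (k : Ix k0) :
    BB ν α L β z (fy k) = ∑ i, L i (Sum.inr k) * P1 z i + cs L (Sum.inr k) * β z +
      α (Sum.inr k) * (P2 z (Sum.inr k) + ∑ j, α j * P2 z j) +
      β (fy k) * SL ν α L (phi α β z) (1, 0) +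
      (∑ i, ν i * P1 z i + β z * ∑ i, ν i) * (β (fy k) * ∑ i, ν i) := by
  rw [BB_apply, phi_fy, map_add, map_add, map_smul, map_smul, SL_y, SL_phi2 hα hr, dph_fy, dph_z,
    phi2, smul_eq_mul, smul_zero, add_zero]
  have : ∑ i, L i (Sum.inr k) * (phi α β z).1 i = ∑ i, L i (Sum.inr k) * P1 z i +
      cs L (Sum.inr k) * β z := by
    simp only [phi1, mul_add, sum_add_distrib]
    rw [← sum_mul]
    rfl
  rw [this]

/-! ### The unramified case -/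

/-- the functional in the unramified case -/
def bu (ν c : U ⊕ ι → ZMod 2) : EE (E2 U) (Ix k0) →ₗ[ZMod 2] ZMod 2 where
  toFun z := ∑ i, ν i * P1 z i + ∑ j, c j * P2 z j
  map_add' z w := by
    have e1 : ∑ i, ν i * P1 (z + w) i = ∑ i, ν i * P1 z i + ∑ i, ν i * P1 w i := by
      rw [← sum_add_distrib]
      exact sum_congr rfl fun i _ => by rw [P1_add, mul_add]
    have e2 : ∑ i, c i * P2 (z + w) i = ∑ i, c i * P2 z i + ∑ i, c i * P2 w i := by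
      rw [← sum_add_distrib]
      exact sum_congr rfl fun i _ => by rw [P2_add, mul_add]
    rw [e1, e2]
    ring
  map_smul' a z := by
    have e1 : ∑ i, ν i * P1 (a • z) i = a * ∑ i, ν i * P1 z i := by
      rw [mul_sum]
      exact sum_congr rfl fun i _ => by rw [P1_smul]; ring
    have e2 : ∑ i, c i * P2 (a • z) i = a * ∑ i, c i * P2 z i := by
      rw [mul_sum]
      exact sum_congr rfl fun i _ => by rw [P2_smul]; ring
    rw [e1, e2, RingHom.id_apply, smul_eq_mul]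
    ring

theorem bu_apply (ν c : U ⊕ ι → ZMod 2) (z : EE (E2 U) (Ix k0)) :
    bu ν c z = ∑ i, ν i * P1 z i + ∑ j, c j * P2 z j := rfl

/-- kernels of functionals -/
def Wf (f g : U ⊕ ι → ZMod 2) (h : U ⊕ ι → ZMod 2) :
    Submodule (ZMod 2) ((U ⊕ ι → ZMod 2) × (U ⊕ ι → ZMod 2)) where
  carrier := {z | ∑ j, h j * z.2 j = 0 ∧ ∑ i, f i * z.1 i + ∑ j, g j * z.2 j = 0}
  add_mem' := by
    rintro a b ⟨ha, ha'⟩ ⟨hb, hb'⟩
    have e : ∀ (h a b : U ⊕ ι → ZMod 2), ∑ j, h j * (a + b) j = ∑ j, h j * a j + ∑ j, h j * b j := by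
      intro h a b
      rw [← sum_add_distrib]
      exact sum_congr rfl fun j _ => by rw [Pi.add_apply, mul_add]
    refine ⟨?_, ?_⟩
    · show ∑ j, h j * (a.2 + b.2) j = 0
      rw [e, ha, hb, add_zero]
    · show ∑ i, f i * (a.1 + b.1) i + ∑ j, g j * (a.2 + b.2) j = 0
      rw [e, e]
      have : ∀ p q r s : ZMod 2, p + r + (q + s) = (p + q) + (r + s) := fun p q r s => by ring
      rw [this, ha', hb', add_zero]
  zero_mem' := by
    refine ⟨sum_eq_zero fun j _ => mul_zero _, ?_⟩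
    have e1 : ∑ i, f i * (0 : (U ⊕ ι → ZMod 2) × (U ⊕ ι → ZMod 2)).1 i = 0 :=
      sum_eq_zero fun j _ => mul_zero _
    have e2 : ∑ i, g i * (0 : (U ⊕ ι → ZMod 2) × (U ⊕ ι → ZMod 2)).2 i = 0 :=
      sum_eq_zero fun j _ => mul_zero _
    rw [e1, e2, add_zero]
  smul_mem' := by
    rintro c a ⟨ha, ha'⟩
    have e : ∀ (h a : U ⊕ ι → ZMod 2), ∑ j, h j * (c • a) j = c * ∑ j, h j * a j := by
      intro h a
      rw [mul_sum]
      exact sum_congr rfl fun j _ => by rw [Pi.smul_apply, smul_eq_mul]; ring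
    refine ⟨?_, ?_⟩
    · show ∑ j, h j * (c • a.2) j = 0
      rw [e, ha, mul_zero]
    · show ∑ i, f i * (c • a.1) i + ∑ j, g j * (c • a.2) j = 0
      rw [e, e, ← mul_add, ha', mul_zero]

theorem mem_Wf {f g h : U ⊕ ι → ZMod 2} {z : (U ⊕ ι → ZMod 2) × (U ⊕ ι → ZMod 2)} :
    z ∈ Wf f g h ↔ ∑ j, h j * z.2 j = 0 ∧ ∑ i, f i * z.1 i + ∑ j, g j * z.2 j = 0 := Iff.rfl

theorem cs_sum (hr : ∀ i, ∑ j, L i j = 0) : ∑ j, cs L j = 0 := by
  unfold cs
  rw [sum_comm]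
  exact sum_eq_zero fun i _ => hr i

theorem red_u (hν : ∑ i, ν i = 1) (hα : ∑ i, α i = 1) (hr : ∀ i, ∑ j, L i j = 0) :
    Kx ν α L ↔ ∀ z, (∀ w, BB ν α L (bu (k0 := k0) ν (cs L)) z w = 0) → z = 0 := by
  have s1 : ∀ f : U ⊕ ι → ZMod 2, ∑ j, f j * (1 : U ⊕ ι → ZMod 2) j = ∑ j, f j := fun f =>
    sum_congr rfl fun j _ => mul_one _
  have s0 : ∀ f : U ⊕ ι → ZMod 2, ∑ j, f j * (0 : U ⊕ ι → ZMod 2) j = 0 := fun f =>
    sum_eq_zero fun j _ => mul_zero _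
  rw [Kx_iff, spl (e := ((0, 1) : (U ⊕ ι → ZMod 2) × (U ⊕ ι → ZMod 2))) (W' := Wf 0 0 α)
    Submodule.mem_top (by rw [SL_2 hr]; exact (s1 α).trans hα) (by
      intro z
      rw [SL_2 hr, mem_Wf]
      constructor
      · exact fun h => ⟨Submodule.mem_top, h.1⟩
      · refine fun h => ⟨h.2, ?_⟩
        have e1 : ∑ i, (0 : U ⊕ ι → ZMod 2) i * z.1 i = 0 := sum_eq_zero fun j _ => zero_mul _
        have e2 : ∑ i, (0 : U ⊕ ι → ZMod 2) i * z.2 i = 0 := sum_eq_zero fun j _ => zero_mul _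
        rw [e1, e2, add_zero])]
  rw [spl (e := ((1, 0) : (U ⊕ ι → ZMod 2) × (U ⊕ ι → ZMod 2))) (W' := Wf ν (cs L) α)
    (by
      rw [mem_Wf]
      refine ⟨s0 α, ?_⟩
      have e1 : ∑ i, (0 : U ⊕ ι → ZMod 2) i * (1 : U ⊕ ι → ZMod 2) i = 0 :=
        sum_eq_zero fun j _ => zero_mul _
      have e2 : ∑ i, (0 : U ⊕ ι → ZMod 2) i * (0 : U ⊕ ι → ZMod 2) i = 0 :=
        sum_eq_zero fun j _ => zero_mul _
      show ∑ i, (0 : U ⊕ ι → ZMod 2) i * (1 : U ⊕ ι → ZMod 2) i +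
        ∑ i, (0 : U ⊕ ι → ZMod 2) i * (0 : U ⊕ ι → ZMod 2) i = 0
      rw [e1, e2, add_zero])
    (by
      rw [SL_1]
      show ∑ i, ν i * (1 : U ⊕ ι → ZMod 2) i + ∑ i, cs L i * (0 : U ⊕ ι → ZMod 2) i = 1
      rw [s1, s0, hν, add_zero])
    (by
      intro z
      rw [SL_1, mem_Wf, mem_Wf]
      constructor
      · refine fun h => ⟨⟨h.1, ?_⟩, h.2⟩
        have e1 : ∑ i, (0 : U ⊕ ι → ZMod 2) i * z.1 i = 0 := sum_eq_zero fun j _ => zero_mul _
        have e2 : ∑ i, (0 : U ⊕ ι → ZMod 2) i * z.2 i = 0 := sum_eq_zero fun j _ => zero_mul _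
        rw [e1, e2, add_zero]
      · exact fun h => ⟨h.1.1, h.2⟩)]
  refine redu hα (fun w hw => hw.1) ?_ ?_
  · intro z
    rw [mem_Wf]
    simp only [phi1, phi2, mul_add, sum_add_distrib]
    rw [← sum_mul, ← sum_mul, ← sum_mul, hα, hν, one_mul, one_mul, cs_sum hr, zero_mul, add_zero]
    refine ⟨aa _, ?_⟩
    rw [bu_apply]
    have : ∀ a b : ZMod 2, a + (a + b) + b = 0 := by decide
    exact this _ _
  · intro w hw z h1 h2
    rw [mem_Wf] at hw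
    rw [bu_apply]
    simp only [h1, h2, mul_add, sum_add_distrib]
    rw [← sum_mul, ← sum_mul, hν, cs_sum hr, one_mul, zero_mul, add_zero]
    have : ∀ a b c : ZMod 2, a + c = 0 → a + b + c = b := by decide
    exact this _ _ _ hw.2

/-- the first functional, unramified -/
def lu (k : Ix k0) (ν : U ⊕ ι → ZMod 2) (L : U ⊕ ι → U ⊕ ι → ZMod 2) (e : E2 U) : ZMod 2 :=
  ν (Sum.inr k) * (∑ v, ν (Sum.inl v) * e.1 v + ∑ v, cs L (Sum.inl v) * e.2 v) +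
    ∑ v, L (Sum.inr k) (Sum.inl v) * e.2 v

/-- the second functional, unramified -/
def lu' (k : Ix k0) (ν α : U ⊕ ι → ZMod 2) (L : U ⊕ ι → U ⊕ ι → ZMod 2) (e : E2 U) : ZMod 2 :=
  ∑ v, L (Sum.inl v) (Sum.inr k) * e.1 v + (∑ v, ν (Sum.inl v) * e.1 v) * cs L (Sum.inr k) +
    α (Sum.inr k) * ∑ v, α (Sum.inl v) * e.2 v

theorem P1_inr (z : EE (E2 U) (Ix k0)) (k : Ix k0) : P1 z (Sum.inr (k : ι)) = z.2.1 k :=
  xt_sub z.2.1 k

theorem P2_inr (z : EE (E2 U) (Ix k0)) (k : Ix k0) : P2 z (Sum.inr (k : ι)) = z.2.2 k :=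
  xt_sub z.2.2 k

theorem SL_u (hν : ∑ i, ν i = 1) (hr : ∀ i, ∑ j, L i j = 0) (z : EE (E2 U) (Ix k0)) :
    SL ν α L (phi α (bu ν (cs L)) z) (1, 0) = 0 := by
  rw [SL_1]
  simp only [phi1, phi2, mul_add, sum_add_distrib]
  rw [← sum_mul, ← sum_mul, hν, one_mul, cs_sum hr, zero_mul, add_zero, bu_apply]
  have : ∀ a b : ZMod 2, a + (a + b) + b = 0 := by decide
  exact this _ _

theorem bu_fx (c : U ⊕ ι → ZMod 2) (k : Ix k0) : bu ν c (fx k) = ν (Sum.inr k) := by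
  rw [bu_apply]
  simp only [P1_fx, P2_fx, mul_zero, sum_const_zero, add_zero]
  exact sum_sg ν _

theorem bu_fy (c : U ⊕ ι → ZMod 2) (k : Ix k0) : bu ν c (fy k) = c (Sum.inr k) := by
  rw [bu_apply]
  simp only [P1_fy, P2_fy, mul_zero, sum_const_zero, zero_add]
  exact sum_sg c _

theorem hx_u (hν : ∑ i, ν i = 1) (hr : ∀ i, ∑ j, L i j = 0) (z : EE (E2 U) (Ix k0)) (k : Ix k0) :
    BB ν α L (bu ν (cs L)) z (fx k) = lu k ν L z.1 +
      ν (Sum.inr k) * (∑ l : Ix k0, ν (Sum.inr l) * z.2.1 l) + ν (Sum.inr k) * z.2.1 k +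
      ν (Sum.inr k) * (∑ l : Ix k0, cs L (Sum.inr l) * z.2.2 l) +
      ∑ l : Ix k0, L (Sum.inr k) (Sum.inr l) * z.2.2 l := by
  rw [BB_fx hr, SL_u hν hr, bu_fx, hν, mul_zero, add_zero, mul_one, mul_one, aa, mul_zero,
    add_zero, bu_apply, sum_P1, sum_P2, sum_P2, P1_inr]
  unfold lu
  ring

theorem hy_u (hν : ∑ i, ν i = 1) (hα : ∑ i, α i = 1) (hr : ∀ i, ∑ j, L i j = 0)
    (z : EE (E2 U) (Ix k0)) (k : Ix k0) :
    BB ν α L (bu ν (cs L)) z (fy k) = lu' k ν α L z.1 +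
      α (Sum.inr k) * (∑ l : Ix k0, α (Sum.inr l) * z.2.2 l) + α (Sum.inr k) * z.2.2 k +
      (∑ l : Ix k0, ν (Sum.inr l) * z.2.1 l) * cs L (Sum.inr k) +
      ∑ l : Ix k0, L (Sum.inr l) (Sum.inr k) * z.2.1 l := by
  rw [BB_fy hα hr, SL_u hν hr, bu_fy, hν, mul_zero, add_zero, mul_one, mul_one, bu_apply,
    sum_P1, sum_P1, sum_P2, sum_P2, P2_inr]
  unfold lu'
  have h : ∀ A1 A2 B1 B2 C1 C2 D1 D2 c a y : ZMod 2,
      A1 + A2 + c * (B1 + B2 + (C1 + C2)) + a * (y + (D1 + D2)) +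
        (B1 + B2 + (B1 + B2 + (C1 + C2))) * c =
      A1 + B1 * c + a * D1 + a * D2 + a * y + B2 * c + A2 := by
    intro A1 A2 B1 B2 C1 C2 D1 D2 c a y
    have e : A1 + A2 + c * (B1 + B2 + (C1 + C2)) + a * (y + (D1 + D2)) +
        (B1 + B2 + (B1 + B2 + (C1 + C2))) * c =
        (A1 + B1 * c + a * D1 + a * D2 + a * y + B2 * c + A2) +
        (c * (C1 + C2) + c * (C1 + C2)) + ((B1 * c + B1 * c) + (B2 * c + B2 * c)) := by ring
    rw [e, aa, aa, aa, add_zero, add_zero, add_zero]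
  exact h _ _ _ _ _ _ _ _ _ _ _

/-! ### The ramified case -/

/-- the functional in the ramified case -/
def br (v0 : U) : EE (E2 U) (Ix k0) →ₗ[ZMod 2] ZMod 2 where
  toFun z := z.1.1 v0
  map_add' z w := rfl
  map_smul' a z := rfl

theorem br_apply (v0 : U) (z : EE (E2 U) (Ix k0)) : br v0 z = z.1.1 v0 := rfl

theorem red_r {v0 : U} (hα : ∑ i, α i = 1) (hr : ∀ i, ∑ j, L i j = 0) :
    Kr (Sum.inl v0) ν α L ↔ ∀ z, (∀ w, BB ν α L (br (k0 := k0) v0) z w = 0) → z = 0 := by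
  have s1 : ∀ f : U ⊕ ι → ZMod 2, ∑ j, f j * (1 : U ⊕ ι → ZMod 2) j = ∑ j, f j := fun f =>
    sum_congr rfl fun j _ => mul_one _
  rw [Kr_iff, spl (e := ((0, 1) : (U ⊕ ι → ZMod 2) × (U ⊕ ι → ZMod 2)))
    (W' := Wf (Pi.single (Sum.inl v0) 1) 0 α)
    (show (0 : U ⊕ ι → ZMod 2) (Sum.inl v0) = 0 from rfl)
    (by rw [SL_2 hr]; exact (s1 α).trans hα) (by
      intro z
      rw [SL_2 hr, mem_Wf, mem_W0]
      have e2 : ∑ i, (0 : U ⊕ ι → ZMod 2) i * z.2 i = 0 := sum_eq_zero fun j _ => zero_mul _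
      have e3 : ∑ i, (Pi.single (Sum.inl v0) 1 : U ⊕ ι → ZMod 2) i * z.1 i = z.1 (Sum.inl v0) := by
        rw [← sum_sg z.1 (Sum.inl v0)]
        exact sum_congr rfl fun i _ => mul_comm _ _
      rw [e2, add_zero, e3]
      exact and_comm)]
  have ab : ∀ (w : (U ⊕ ι → ZMod 2) × (U ⊕ ι → ZMod 2)), w ∈ Wf (Pi.single (Sum.inl v0) 1) 0 α →
      w.1 (Sum.inl v0) = 0 := by
    intro w hw
    have h := hw.2
    have e2 : ∑ i, (0 : U ⊕ ι → ZMod 2) i * w.2 i = 0 := sum_eq_zero fun j _ => zero_mul _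
    have e3 : ∑ i, (Pi.single (Sum.inl v0) 1 : U ⊕ ι → ZMod 2) i * w.1 i = w.1 (Sum.inl v0) := by
      rw [← sum_sg w.1 (Sum.inl v0)]
      exact sum_congr rfl fun i _ => mul_comm _ _
    rw [e2, add_zero, e3] at h
    exact h
  refine redu hα (fun w hw => hw.1) ?_ ?_
  · intro z
    rw [mem_Wf]
    refine ⟨?_, ?_⟩
    · simp only [phi2, mul_add, sum_add_distrib]
      rw [← sum_mul, hα, one_mul, aa]
    · have e2 : ∑ i, (0 : U ⊕ ι → ZMod 2) i * (phi α (br v0) z).2 i = 0 :=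
        sum_eq_zero fun j _ => zero_mul _
      have e3 : ∑ i, (Pi.single (Sum.inl v0) 1 : U ⊕ ι → ZMod 2) i * (phi α (br v0) z).1 i =
          (phi α (br v0) z).1 (Sum.inl v0) := by
        rw [← sum_sg (phi α (br v0) z).1 (Sum.inl v0)]
        exact sum_congr rfl fun i _ => mul_comm _ _
      rw [e2, add_zero, e3, phi1, br_apply]
      exact aa _
  · intro w hw z h1 h2
    have h3 := h1 (Sum.inl v0)
    rw [ab w hw, zero_add] at h3
    exact h3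

/-- the first functional, ramified -/
def lr (v0 : U) (k : Ix k0) (ν : U ⊕ ι → ZMod 2) (L : U ⊕ ι → U ⊕ ι → ZMod 2) (e : E2 U) : ZMod 2 :=
  ν (Sum.inr k) * e.1 v0 + ∑ v, L (Sum.inr k) (Sum.inl v) * e.2 v +
    ν (Sum.inr k) * (∑ v, ν (Sum.inl v) * e.1 v + e.1 v0 * ∑ i, ν i)

/-- the second functional, ramified -/
def lr' (v0 : U) (k : Ix k0) (α : U ⊕ ι → ZMod 2) (L : U ⊕ ι → U ⊕ ι → ZMod 2) (e : E2 U) : ZMod 2 :=
  ∑ v, L (Sum.inl v) (Sum.inr k) * e.1 v + e.1 v0 * cs L (Sum.inr k) +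
    α (Sum.inr k) * ∑ v, α (Sum.inl v) * e.2 v

theorem hx_r (v0 : U) (hr : ∀ i, ∑ j, L i j = 0) (z : EE (E2 U) (Ix k0)) (k : Ix k0) :
    BB ν α L (br v0) z (fx k) = lr v0 k ν L z.1 +
      ν (Sum.inr k) * (∑ l : Ix k0, ν (Sum.inr l) * z.2.1 l) + ν (Sum.inr k) * z.2.1 k +
      ν (Sum.inr k) * (∑ l : Ix k0, 0 * z.2.2 l) +
      ∑ l : Ix k0, L (Sum.inr k) (Sum.inr l) * z.2.2 l := by
  have e : (br v0 : EE (E2 U) (Ix k0) →ₗ[ZMod 2] ZMod 2) (fx k) = 0 := rfl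
  rw [BB_fx hr, e, zero_mul, zero_mul, add_zero, add_zero, br_apply, sum_P1, sum_P2, P1_inr]
  simp only [zero_mul, sum_const_zero, mul_zero, add_zero]
  unfold lr
  ring

theorem hy_r (v0 : U) (hα : ∑ i, α i = 1) (hr : ∀ i, ∑ j, L i j = 0) (z : EE (E2 U) (Ix k0))
    (k : Ix k0) :
    BB ν α L (br v0) z (fy k) = lr' v0 k α L z.1 +
      α (Sum.inr k) * (∑ l : Ix k0, α (Sum.inr l) * z.2.2 l) + α (Sum.inr k) * z.2.2 k +
      (∑ l : Ix k0, ν (Sum.inr l) * z.2.1 l) * 0 +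
      ∑ l : Ix k0, L (Sum.inr l) (Sum.inr k) * z.2.1 l := by
  have e : (br v0 : EE (E2 U) (Ix k0) →ₗ[ZMod 2] ZMod 2) (fy k) = 0 := rfl
  rw [BB_fy hα hr, e, zero_mul, zero_mul, mul_zero, add_zero, add_zero, mul_zero, add_zero,
    br_apply, sum_P1, sum_P2, P2_inr]
  unfold lr'
  ring

/-! ### The change of the matrix -/

theorem cs_pt {D : ι → ι → ZMod 2} (hD : ∀ k l, D k l = D l k) (h0 : ∀ k, ∑ l, D k l = 0)
    (j : U ⊕ ι) : cs (pt L D) j = cs L j := by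
  unfold cs
  rw [Fintype.sum_sum_type, Fintype.sum_sum_type]
  rcases j with v | l
  · rfl
  · show ∑ v, L (Sum.inl v) (Sum.inr l) + ∑ k, (L (Sum.inr k) (Sum.inr l) + D k l) = _
    rw [sum_add_distrib]
    have : ∑ k, D k l = 0 := by
      rw [← h0 l]
      exact sum_congr rfl fun k _ => hD k l
    rw [this, add_zero]

theorem SL_pt {D : ι → ι → ZMod 2} (z w : (U ⊕ ι → ZMod 2) × (U ⊕ ι → ZMod 2)) :
    SL ν α (pt L D) z w = SL ν α L z w +
      ∑ k, ∑ l, D k l * (w.1 (Sum.inr k) * z.2 (Sum.inr l) + z.1 (Sum.inr k) * w.2 (Sum.inr l)) := by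
  rw [SL_apply, SL_apply]
  have e : ∑ i, ∑ j, pt L D i j * (w.1 i * z.2 j + z.1 i * w.2 j) =
      ∑ i, ∑ j, L i j * (w.1 i * z.2 j + z.1 i * w.2 j) +
      ∑ k, ∑ l, D k l * (w.1 (Sum.inr k) * z.2 (Sum.inr l) + z.1 (Sum.inr k) * w.2 (Sum.inr l)) := by
    rw [Fintype.sum_sum_type, Fintype.sum_sum_type]
    have e1 : ∀ v : U, ∑ j, pt L D (Sum.inl v) j * (w.1 (Sum.inl v) * z.2 j + z.1 (Sum.inl v) * w.2 j) =
        ∑ j, L (Sum.inl v) j * (w.1 (Sum.inl v) * z.2 j + z.1 (Sum.inl v) * w.2 j) := by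
      intro v
      refine sum_congr rfl fun j _ => ?_
      rcases j with v' | l <;> rfl
    have e2 : ∀ k : ι, ∑ j, pt L D (Sum.inr k) j * (w.1 (Sum.inr k) * z.2 j + z.1 (Sum.inr k) * w.2 j) =
        ∑ j, L (Sum.inr k) j * (w.1 (Sum.inr k) * z.2 j + z.1 (Sum.inr k) * w.2 j) +
        ∑ l, D k l * (w.1 (Sum.inr k) * z.2 (Sum.inr l) + z.1 (Sum.inr k) * w.2 (Sum.inr l)) := by
      intro k
      rw [Fintype.sum_sum_type, Fintype.sum_sum_type, add_assoc]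
      congr 1
      rw [← sum_add_distrib]
      refine sum_congr rfl fun l _ => ?_
      show (L (Sum.inr k) (Sum.inr l) + D k l) * _ = _
      ring
    rw [sum_congr rfl fun v _ => e1 v, sum_congr rfl fun k _ => e2 k, sum_add_distrib, add_assoc]
  rw [e]
  ring

theorem D_sum {D : ι → ι → ZMod 2} (hD : ∀ k l, D k l = D l k) (h0 : ∀ k, ∑ l, D k l = 0)
    (x y : Ix k0 → ZMod 2) (a b : ZMod 2) :
    ∑ k, ∑ l, D k l * ((xt k0 x k + a) * (xt k0 y l + b)) =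
      ∑ k : Ix k0, ∑ l : Ix k0, D k l * (x k * y l) := by
  have h0' : ∀ l, ∑ k, D k l = 0 := by
    intro l
    rw [← h0 l]
    exact sum_congr rfl fun k _ => hD k l
  have e1 : ∀ k, ∑ l, D k l * ((xt k0 x k + a) * (xt k0 y l + b)) =
      ∑ l, D k l * xt k0 y l * (xt k0 x k + a) := by
    intro k
    have : ∀ l, D k l * ((xt k0 x k + a) * (xt k0 y l + b)) =
        D k l * xt k0 y l * (xt k0 x k + a) + D k l * ((xt k0 x k + a) * b) := fun l => by ring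
    rw [sum_congr rfl fun l _ => this l, sum_add_distrib, ← sum_mul (f := fun l => D k l), h0,
      zero_mul, add_zero]
  rw [sum_congr rfl fun k _ => e1 k, sum_comm]
  have e2 : ∀ l, ∑ k, D k l * xt k0 y l * (xt k0 x k + a) =
      (∑ k : Ix k0, D k l * x k) * xt k0 y l := by
    intro l
    have : ∀ k, D k l * xt k0 y l * (xt k0 x k + a) = D k l * xt k0 x k * xt k0 y l +
        D k l * (xt k0 y l * a) := fun k => by ring
    rw [sum_congr rfl fun k _ => this k, sum_add_distrib, ← sum_mul (f := fun k => D k l), h0',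
      zero_mul, add_zero, ← sum_mul, sum_xt]
  rw [sum_congr rfl fun l _ => e2 l, sum_xt (fun l => ∑ k : Ix k0, D k l * x k), sum_comm]
  refine sum_congr rfl fun l _ => ?_
  rw [sum_mul]
  refine sum_congr rfl fun k _ => ?_
  ring

theorem BB_pt {D : ι → ι → ZMod 2} (hD : ∀ k l, D k l = D l k) (h0 : ∀ k, ∑ l, D k l = 0) :
    BB ν α (pt L D) β = BB ν α L β + sB (fun k l : Ix k0 => D k l) := by
  refine LinearMap.ext fun z => LinearMap.ext fun w => ?_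
  rw [BB_apply, LinearMap.add_apply, LinearMap.add_apply, BB_apply, SL_pt, sB_apply]
  have e : ∑ k, ∑ l, D k l * ((phi α β w).1 (Sum.inr k) * (phi α β z).2 (Sum.inr l) +
      (phi α β z).1 (Sum.inr k) * (phi α β w).2 (Sum.inr l)) =
      ∑ k : Ix k0, ∑ l : Ix k0, D k l * (z.2.1 k * w.2.2 l + w.2.1 k * z.2.2 l) := by
    have a1 := D_sum hD h0 w.2.1 z.2.2 (β w) (∑ j, α j * P2 z j)
    have a2 := D_sum hD h0 z.2.1 w.2.2 (β z) (∑ j, α j * P2 w j)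
    simp only [mul_add, sum_add_distrib]
    have b1 : ∑ k, ∑ l, D k l * ((phi α β w).1 (Sum.inr k) * (phi α β z).2 (Sum.inr l)) =
        ∑ k : Ix k0, ∑ l : Ix k0, D k l * (w.2.1 k * z.2.2 l) := a1
    have b2 : ∑ k, ∑ l, D k l * ((phi α β z).1 (Sum.inr k) * (phi α β w).2 (Sum.inr l)) =
        ∑ k : Ix k0, ∑ l : Ix k0, D k l * (z.2.1 k * w.2.2 l) := a2
    rw [b1, b2, add_comm]
  rw [e]
  ring

end

end Pool.Agent.N916.MO
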