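import Pool.Agent.N916.MO.Str2
import Pool.Agent.N916.MO.Bij

/-!
# MO: the general estimate, second form
-/

set_option autoImplicit false
set_option linter.all false

open scoped Classical

namespace Pool.Agent.N916.MO

open Finset Module
open Pool.Agent.N916.GB (pt ps sx)
open Pool.Agent.Y703.CQ (c2)

/-- the general estimate -/
theorem gen2 (ε : ℝ) (hε : 0 < ε) : ∃ V₀ : ℕ, ∀ (U J C C' : Type) [Fintype U] [DecidableEq U]
    [Fintype J] [LinearOrder J] [Fintype C] [Fintype C'] (k0 : J) (J₀ : Finset J)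
    (B : EE (E2 U) (Ix k0) →ₗ[ZMod 2] EE (E2 U) (Ix k0) →ₗ[ZMod 2] ZMod 2) (ν u : J → ZMod 2)
    (m : Ix k0 → Ix k0 → ZMod 2) (F : EE (E2 U) (Ix k0) → C) (G : (Ix k0 → ZMod 2) → C')
    (Φ Ψ : Ix k0 → E2 U → C → ZMod 2) (Θ : Ix k0 → C' → ZMod 2),
    Fintype.card C ≤ 32 → Fintype.card C' ≤ 4 →
    k0 ∉ J₀ → J₀.card ≤ 2 * Fintype.card U → (∀ z, B z z = 0) →
    (∀ z (k : Ix k0), B z (fx k) = ν k * z.2.1 k + ∑ l, m k l * z.2.2 l + Φ k z.1 (F z)) →
    (∀ z (k : Ix k0), B z (fy k) = u k * z.2.2 k + ∑ l, m l k * z.2.1 l + Ψ k z.1 (F z)) →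
    (∀ (x : Ix k0 → ZMod 2) (k : Ix k0), ∑ l, m k l * x l + ∑ l, m l k * x l =
      u k * x k + Θ k (G x)) →
    4 * Fintype.card U + V₀ ≤ (univ.filter fun k : J => ν k = 1).card →
    4 * Fintype.card U + V₀ ≤ (univ.filter fun k : J => u k = 1).card →
    4 * Fintype.card U + V₀ ≤ (univ.filter fun k : J => ν k ≠ u k).card →
    (∀ e, (∀ k : Ix k0, (k : J) ∈ J₀ → B (e, 0, 0) (fx k) = 0 ∧ B (e, 0, 0) (fy k) = 0) → e = 0) →
    |((univ.filter (Nde B)).card : ℝ) / Fintype.card (Sy (Ix k0)) - c2| ≤ ε := by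
  obtain ⟨T, δ, hδ, hmain⟩ := main ε hε
  obtain ⟨V1, hV1⟩ : ∃ V1 : ℕ, (4096 : ℝ) / 2 ^ V1 ≤ δ := by
    obtain ⟨V1, h⟩ := exists_pow_lt_of_lt_one (show (0 : ℝ) < δ / 4096 by positivity)
      (show (1 / 2 : ℝ) < 1 by norm_num)
    refine ⟨V1, ?_⟩
    rw [one_div_pow, lt_div_iff₀ (by norm_num)] at h
    rw [div_eq_mul_one_div]
    linarith
  refine ⟨V1 + T + 1, ?_⟩
  intro U J C C' _ _ _ _ _ _ k0 J₀ B ν u m F G Φ Ψ Θ hC hC' hk0 hJ₀ hB hx hy hm r1 r2 r3 hnd
  -- choice of K
  have hcard : J₀.card + T + 1 ≤ Fintype.card J := by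
    have h1 : (univ.filter fun k : J => ν k = 1).card ≤ Fintype.card J := by
      rw [← Finset.card_univ]
      exact card_le_card (filter_subset _ _)
    omega
  obtain ⟨K, hK1, hK2⟩ : ∃ K : Finset (Ix k0), K.card = T ∧ ∀ k ∈ K, (k : J) ∉ J₀ := by
    have h1 : T ≤ (univ.filter fun k : Ix k0 => (k : J) ∉ J₀).card := by
      have h2 : (univ.filter fun k : Ix k0 => (k : J) ∈ J₀).card ≤ J₀.card :=
        card_le_card_of_injOn (fun k => (k : J)) (fun k hk => (mem_filter.1 hk).2)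
          (fun k _ l _ h => Subtype.ext h)
      have h3 := Finset.card_filter_add_card_filter_not (s := (univ : Finset (Ix k0)))
        (fun k => (k : J) ∈ J₀)
      have h4 : (univ : Finset (Ix k0)).card = Fintype.card J - 1 := by
        rw [Finset.card_univ]
        have := Fintype.card_subtype_compl (fun k : J => k = k0)
        rw [Fintype.card_subtype_eq] at this
        exact this
      omega
    obtain ⟨K, hK, hK'⟩ := exists_subset_card_eq h1
    exact ⟨K, hK', fun k hk => (mem_filter.1 (hK hk)).2⟩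
  refine hmain (E2 U) (Ix k0) B K hB ev_E2 hK1 fun A hA => ?_
  have rich : ∀ P : J → Prop, 4 * Fintype.card U + (V1 + T + 1) ≤ (univ.filter P).card →
      4 * Fintype.card U + V1 ≤ (A.filter fun k : Ix k0 => P k).card := by
    intro P hP
    have h1 : (univ.filter P) ⊆ insert k0 (K.image (Subtype.val : Ix k0 → J) ∪
        (A.filter fun k : Ix k0 => P k).image (Subtype.val : Ix k0 → J)) := by
      intro k hk
      by_cases h : k = k0
      · rw [h]
        exact mem_insert_self _ _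
      · refine mem_insert_of_mem (mem_union.2 ?_)
        by_cases h2 : (⟨k, h⟩ : Ix k0) ∈ K
        · exact Or.inl (mem_image.2 ⟨⟨k, h⟩, h2, rfl⟩)
        · exact Or.inr (mem_image.2 ⟨⟨k, h⟩, mem_filter.2 ⟨hA (mem_compl.2 h2),
            (mem_filter.1 hk).2⟩, rfl⟩)
    have h2 := (card_le_card h1).trans (card_insert_le _ _)
    have h3 := card_union_le (K.image (Subtype.val : Ix k0 → J))
      ((A.filter fun k : Ix k0 => P k).image (Subtype.val : Ix k0 → J))
    have h4 : (K.image (Subtype.val : Ix k0 → J)).card ≤ T := card_image_le.trans hK1.le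
    have h5 : ((A.filter fun k : Ix k0 => P k).image (Subtype.val : Ix k0 → J)).card ≤
        (A.filter fun k : Ix k0 => P k).card := card_image_le
    omega
  refine str2 (ν := fun k : Ix k0 => ν k) (u := fun k : Ix k0 => u k) (V := 4 * Fintype.card U + V1)
    hx hy hm
    (by convert rich (fun k => ν k = 1) (by convert r1))
    (by convert rich (fun k => u k = 1) (by convert r2))
    (by convert rich (fun k => ν k ≠ u k) (by convert r3)) ?_ ?_
  · intro e he
    refine hnd e fun k hk => ?_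
    refine he k (hA ?_)
    rw [mem_compl]
    exact fun h => hK2 _ h hk
  · have h1 : (Fintype.card (E2 U) : ℝ) = 4 ^ Fintype.card U := by
      rw [Fintype.card_prod, Fintype.card_fun, ZMod.card]
      push_cast
      rw [← mul_pow]
      norm_num
    rw [h1]
    have h2 : (2 : ℝ) ^ (4 * Fintype.card U + V1) = (4 ^ Fintype.card U) ^ 2 * 2 ^ V1 := by
      have h4 : ((4 : ℝ) ^ Fintype.card U) ^ 2 = (4 ^ 2) ^ Fintype.card U := by
        rw [← pow_mul, mul_comm, pow_mul]
      rw [pow_add, pow_mul, h4]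
      norm_num
    rw [h2]
    have hCr : (Fintype.card C : ℝ) ≤ 32 := by exact_mod_cast hC
    have hCr' : (Fintype.card C' : ℝ) ≤ 4 := by exact_mod_cast hC'
    have hp : (0 : ℝ) < (4 ^ Fintype.card U) ^ 2 := by positivity
    have h5 : ((4 : ℝ) ^ Fintype.card U * Fintype.card C) ^ 2 * Fintype.card C' ≤
        (4 ^ Fintype.card U) ^ 2 * 4096 := by
      rw [mul_pow, mul_assoc]
      refine mul_le_mul_of_nonneg_left ?_ hp.le
      have h6 : (Fintype.card C : ℝ) ^ 2 ≤ 1024 := by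
        have : (0 : ℝ) ≤ Fintype.card C := Nat.cast_nonneg _
        nlinarith
      have h7 : (0 : ℝ) ≤ (Fintype.card C : ℝ) ^ 2 := sq_nonneg _
      have h8 : (0 : ℝ) ≤ (Fintype.card C' : ℝ) := Nat.cast_nonneg _
      calc (Fintype.card C : ℝ) ^ 2 * Fintype.card C' ≤ 1024 * 4 := mul_le_mul h6 hCr' h8 (by norm_num)
        _ = 4096 := by norm_num
    refine (div_le_div_of_nonneg_right h5 (by positivity)).trans ?_
    have h3 : ((4 : ℝ) ^ Fintype.card U) ^ 2 * 4096 / ((4 ^ Fintype.card U) ^ 2 * 2 ^ V1) =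
        4096 / 2 ^ V1 := by
      field_simp
    rw [h3]
    exact hV1

end Pool.Agent.N916.MO
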