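import Mathlib
import Pool.Agent.Y948.CQ.C2

/-!
# MO: the limit probabilities
-/

set_option autoImplicit false
set_option linter.all false

namespace Pool.Agent.N916.MO

open Finset
open Pool.Agent.Y703.CQ (c2)

/-- the product for the nonsingular alternating matrices -/
noncomputable def Gt (t : ℕ) : ℝ := ∏ i ∈ range t, (1 - (1 / 2 : ℝ) ^ (2 * i + 1))

/-- the probability to arrive at the zero radical after `t` steps from a radical of dimension
`2 r` -/
noncomputable def hh (t r : ℕ) : ℝ := Gt t * ∏ i ∈ range r, (1 - (4 : ℝ) ^ i / 4 ^ t)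

theorem gt_pos (t : ℕ) : 0 < Gt t := by
  unfold Gt
  refine prod_pos fun i _ => ?_
  have : (1 / 2 : ℝ) ^ (2 * i + 1) ≤ 1 / 2 := by
    rw [pow_succ]
    have := pow_le_one₀ (n := 2 * i) (by norm_num : (0 : ℝ) ≤ 1 / 2) (by norm_num)
    linarith
  linarith

theorem gt_le (t : ℕ) : Gt t ≤ 1 := by
  unfold Gt
  refine prod_le_one (fun i _ => ?_) fun i _ => ?_
  · have : (1 / 2 : ℝ) ^ (2 * i + 1) ≤ 1 := pow_le_one₀ (by norm_num) (by norm_num)
    linarith
  · have : 0 ≤ (1 / 2 : ℝ) ^ (2 * i + 1) := by positivity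
    linarith

theorem gt_succ (t : ℕ) : Gt (t + 1) = Gt t * (1 - (1 / 4 : ℝ) ^ t / 2) := by
  unfold Gt
  rw [prod_range_succ]
  congr 2
  rw [pow_succ, pow_mul]
  norm_num
  ring

theorem hh_zero (r : ℕ) : hh 0 r = if r = 0 then 1 else 0 := by
  unfold hh Gt
  rw [range_zero, prod_empty, one_mul]
  split_ifs with h
  · rw [h, range_zero, prod_empty]
  · refine prod_eq_zero (i := 0) (mem_range.2 (Nat.pos_of_ne_zero h)) ?_
    norm_num

theorem hh_r0 (t : ℕ) : hh t 0 = Gt t := by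
  unfold hh
  rw [range_zero, prod_empty, mul_one]

theorem hh_succ (t r : ℕ) : hh t (r + 1) = hh t r * (1 - (4 : ℝ) ^ r / 4 ^ t) := by
  unfold hh
  rw [prod_range_succ, mul_assoc]

/-- the recursion -/
theorem hh_rec (t r : ℕ) : hh (t + 1) (r + 1) = (1 - (1 / 4 : ℝ) ^ t / 2) * (1 - (1 / 4 : ℝ) ^ t / 4) *
    hh t r := by
  unfold hh
  rw [gt_succ, prod_range_succ']
  have h1 : ∀ i ∈ range r, (1 - (4 : ℝ) ^ (i + 1) / 4 ^ (t + 1)) = 1 - (4 : ℝ) ^ i / 4 ^ t := by
    intro i _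
    rw [pow_succ, pow_succ]
    congr 1
    field_simp
  rw [prod_congr rfl h1]
  have h2 : (4 : ℝ) ^ 0 / 4 ^ (t + 1) = (1 / 4 : ℝ) ^ t / 4 := by
    rw [pow_zero, pow_succ, one_div, one_div, inv_pow, mul_inv]
    ring
  rw [h2]
  ring

/-- the step for a zero radical -/
theorem step0 (t : ℕ) : hh (t + 1) 0 = (hh t 0 + hh t 1) / 2 := by
  rw [hh_succ t 0, hh_r0, hh_r0, gt_succ, pow_zero]
  have h2 : (1 : ℝ) / 4 ^ t = (1 / 4 : ℝ) ^ t := by
    rw [one_div_pow]
  rw [h2]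
  ring

/-- the step for a radical of dimension `2 (r + 1)` -/
theorem step1 (t r : ℕ) : hh (t + 1) (r + 1) =
    hh t r + 3 / 4 ^ (r + 1) * (hh t (r + 1) - hh t r) +
      1 / (4 ^ (r + 1)) ^ 2 * (2 * hh t r - 3 * hh t (r + 1) +
        (hh t (r + 1) + hh t (r + 2)) / 2) := by
  rw [hh_rec, hh_succ t (r + 1), hh_succ t r]
  have h2 : ∀ x : ℝ, x / 4 ^ t = x * (1 / 4 : ℝ) ^ t := by
    intro x
    rw [one_div_pow, mul_one_div]
  rw [h2, h2]
  set q : ℝ := 4 ^ r with hq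
  have hq0 : q ≠ 0 := by rw [hq]; positivity
  have h3 : (4 : ℝ) ^ (r + 1) = 4 * q := by rw [hq]; ring
  rw [h3]
  set u : ℝ := (1 / 4) ^ t
  field_simp
  ring

theorem hh_nonneg (t r : ℕ) : 0 ≤ hh t r := by
  unfold hh
  refine mul_nonneg (gt_pos t).le ?_
  by_cases h : t < r
  · rw [prod_eq_zero (mem_range.2 h) (by rw [div_self (by positivity), sub_self])]
  · refine prod_nonneg fun i hi => ?_
    rw [mem_range] at hi
    have : (4 : ℝ) ^ i / 4 ^ t ≤ 1 := by
      rw [div_le_one (by positivity)]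
      exact pow_le_pow_right₀ (by norm_num) (by omega)
    linarith

theorem hh_le (t r : ℕ) : hh t r ≤ Gt t := by
  unfold hh
  by_cases h : t < r
  · rw [prod_eq_zero (mem_range.2 h) (by rw [div_self (by positivity), sub_self]), mul_zero]
    exact (gt_pos t).le
  · refine mul_le_of_le_one_right (gt_pos t).le (prod_le_one (fun i hi => ?_) fun i hi => ?_)
    · rw [mem_range] at hi
      have : (4 : ℝ) ^ i / 4 ^ t ≤ 1 := by
        rw [div_le_one (by positivity)]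
        exact pow_le_pow_right₀ (by norm_num) (by omega)
      linarith
    · have : 0 ≤ (4 : ℝ) ^ i / 4 ^ t := by positivity
      linarith

theorem hh_le1 (t r : ℕ) : hh t r ≤ 1 := (hh_le t r).trans (gt_le t)

/-- the distance to the first factor -/
theorem hh_dist (t r : ℕ) : |hh t r - Gt t| ≤ (4 : ℝ) ^ r / 4 ^ t := by
  have h0 : hh t r - Gt t ≤ 0 := by linarith [hh_le t r]
  rw [abs_of_nonpos h0, neg_sub]
  have : ∀ r : ℕ, Gt t - hh t r ≤ ((4 : ℝ) ^ r - 1) / 4 ^ t := by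
    intro r
    induction r with
    | zero => rw [hh_r0]; norm_num
    | succ r ih =>
      rw [hh_succ]
      have h1 : hh t r * ((4 : ℝ) ^ r / 4 ^ t) ≤ (4 : ℝ) ^ r / 4 ^ t :=
        mul_le_of_le_one_left (by positivity) (hh_le1 t r)
      have h2 : ((4 : ℝ) ^ (r + 1) - 1) / 4 ^ t = ((4 : ℝ) ^ r - 1) / 4 ^ t +
          3 * ((4 : ℝ) ^ r / 4 ^ t) := by
        rw [pow_succ]
        ring
      rw [h2]
      have h3 : 0 ≤ (4 : ℝ) ^ r / 4 ^ t := by positivity
      nlinarith [ih]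
  refine (this r).trans ?_
  exact div_le_div_of_nonneg_right (by linarith) (by positivity)

theorem hh_c2 (t r : ℕ) : |hh t r - c2| ≤ ((4 : ℝ) ^ r + 1) / 4 ^ t := by
  have h1 := hh_dist t r
  have h2 := Pool.Agent.Y948.CQ.t_C2.1 t
  have h3 : |Gt t - c2| ≤ (1 / 4 : ℝ) ^ t := h2
  have h4 : hh t r - c2 = (hh t r - Gt t) + (Gt t - c2) := by ring
  rw [h4]
  refine (abs_add_le _ _).trans ?_
  have h5 : ((4 : ℝ) ^ r + 1) / 4 ^ t = (4 : ℝ) ^ r / 4 ^ t + (1 / 4 : ℝ) ^ t := by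
    rw [one_div_pow]
    ring
  rw [h5]
  exact add_le_add h1 h3

end Pool.Agent.N916.MO
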