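import Pool.Agent.N916.MO.Bij

/-!
# MO: the probability that a random completion of the Monsky matrix is nonsingular
-/

set_option autoImplicit false
set_option linter.all false

open scoped Classical

namespace Pool.Agent.N916.MO

open Finset Module
open Pool.Agent.N916.GB (pt ps sx)
open Pool.Agent.Y703.CQ (c2)

section
variable {U J : Type} [Fintype U] [DecidableEq U] [Fintype J] [LinearOrder J]

/-- the first functional, unramified -/
def mu (ν : U ⊕ J → ZMod 2) (L : U ⊕ J → U ⊕ J → ZMod 2) (k : J) (e : E2 U) : ZMod 2 :=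
  ν (Sum.inr k) * (∑ v, ν (Sum.inl v) * e.1 v + ∑ v, cs L (Sum.inl v) * e.2 v) +
    ∑ v, L (Sum.inr k) (Sum.inl v) * e.2 v

/-- the second functional, unramified -/
def mu' (ν α : U ⊕ J → ZMod 2) (L : U ⊕ J → U ⊕ J → ZMod 2) (k : J) (e : E2 U) : ZMod 2 :=
  ∑ v, L (Sum.inl v) (Sum.inr k) * e.1 v + (∑ v, ν (Sum.inl v) * e.1 v) * cs L (Sum.inr k) +
    α (Sum.inr k) * ∑ v, α (Sum.inl v) * e.2 v

/-- the first functional, ramified -/
def mr (v0 : U) (ν : U ⊕ J → ZMod 2) (L : U ⊕ J → U ⊕ J → ZMod 2) (k : J) (e : E2 U) : ZMod 2 :=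
  ν (Sum.inr k) * e.1 v0 + ∑ v, L (Sum.inr k) (Sum.inl v) * e.2 v +
    ν (Sum.inr k) * (∑ v, ν (Sum.inl v) * e.1 v + e.1 v0 * ∑ i, ν i)

/-- the second functional, ramified -/
def mr' (v0 : U) (α : U ⊕ J → ZMod 2) (L : U ⊕ J → U ⊕ J → ZMod 2) (k : J) (e : E2 U) : ZMod 2 :=
  ∑ v, L (Sum.inl v) (Sum.inr k) * e.1 v + e.1 v0 * cs L (Sum.inr k) +
    α (Sum.inr k) * ∑ v, α (Sum.inl v) * e.2 v

theorem s1a (f g h : U → ZMod 2) : ∑ v, f v * (g + h) v = ∑ v, f v * g v + ∑ v, f v * h v := by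
  rw [← sum_add_distrib]
  exact sum_congr rfl fun v _ => by rw [Pi.add_apply, mul_add]

theorem s1s (c : ZMod 2) (f g : U → ZMod 2) : ∑ v, f v * (c • g) v = c * ∑ v, f v * g v := by
  rw [mul_sum]
  exact sum_congr rfl fun v _ => by rw [Pi.smul_apply, smul_eq_mul]; ring

/-- the common kernel of two functionals -/
def kk2 (f g : E2 U → ZMod 2) (hf : ∀ a b, f (a + b) = f a + f b) (hf' : ∀ (c : ZMod 2) a, f (c • a) = c * f a)
    (hg : ∀ a b, g (a + b) = g a + g b) (hg' : ∀ (c : ZMod 2) a, g (c • a) = c * g a) :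
    Submodule (ZMod 2) (E2 U) where
  carrier := {e | f e = 0 ∧ g e = 0}
  add_mem' := by
    rintro a b ⟨ha, ha'⟩ ⟨hb, hb'⟩
    exact ⟨by rw [hf, ha, hb, add_zero], by rw [hg, ha', hb', add_zero]⟩
  zero_mem' := by
    have h1 := hf' 0 0
    have h2 := hg' 0 0
    rw [zero_smul, zero_mul] at h1 h2
    exact ⟨h1, h2⟩
  smul_mem' := by
    rintro c a ⟨ha, ha'⟩
    exact ⟨by rw [hf', ha, mul_zero], by rw [hg', ha', mul_zero]⟩

theorem fr_E2 : finrank (ZMod 2) (E2 U) = 2 * Fintype.card U := by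
  rw [Module.finrank_prod, Module.finrank_fintype_fun_eq_card]
  ring

/-- the choice of the base index and of few indices -/
theorem choice (lam lam' : J → E2 U → ZMod 2)
    (h1 : ∀ k a b, lam k (a + b) = lam k a + lam k b)
    (h2 : ∀ k (c : ZMod 2) a, lam k (c • a) = c * lam k a)
    (h1' : ∀ k a b, lam' k (a + b) = lam' k a + lam' k b)
    (h2' : ∀ k (c : ZMod 2) a, lam' k (c • a) = c * lam' k a)
    (hn : ∀ e, (∀ k, lam k e = 0 ∧ lam' k e = 0) → e = 0)
    (hJ : 2 * Fintype.card U < Fintype.card J) :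
    ∃ (k0 : J) (J₀ : Finset J), k0 ∉ J₀ ∧ J₀.card ≤ 2 * Fintype.card U ∧
      ∀ e, (∀ k ∈ J₀, lam k e = 0 ∧ lam' k e = 0) → e = 0 := by
  obtain ⟨J₀, a1, a2⟩ := few (fun k => kk2 (lam k) (lam' k) (h1 k) (h2 k) (h1' k) (h2' k))
    (fun e he => hn e he)
  rw [fr_E2] at a1
  obtain ⟨k0, hk0⟩ : ∃ k0, k0 ∉ J₀ := by
    by_contra hc
    push Not at hc
    have : Fintype.card J ≤ J₀.card := by
      rw [← Finset.card_univ]
      exact card_le_card fun k _ => hc k
    omega
  exact ⟨k0, J₀, hk0, a1, a2⟩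

theorem BB_alt {ν α : U ⊕ J → ZMod 2} {L : U ⊕ J → U ⊕ J → ZMod 2} {k0 : J}
    {β : EE (E2 U) (Ix k0) →ₗ[ZMod 2] ZMod 2} (hα : ∑ i, α i = 1) (z : EE (E2 U) (Ix k0)) :
    BB ν α L β z z = 0 := by
  rw [BB_apply, SL_self, dph_apply]
  have h : ∑ j, α j * (phi α β z).2 j = 0 := by
    simp only [phi2, mul_add, sum_add_distrib]
    rw [← sum_mul, hα, one_mul, aa]
  rw [h, add_zero]
  have : ∀ a : ZMod 2, a + a * a = 0 := by decide
  exact this _

variable {w u ν : U ⊕ J → ZMod 2} {N : U ⊕ J → U ⊕ J → ZMod 2}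

/-- the column sums at the large primes -/
theorem cs_big (hw : ∀ k, w (Sum.inr k) = 1) (hu : ∑ i, u i = 1)
    (hN : ∀ i j, i ≠ j → w i * N i j + w j * N j i = u i * u j) (k : J) :
    cs (Lm N) (Sum.inr k) = ∑ v, (1 + w (Sum.inl v)) * N (Sum.inl v) (Sum.inr k) := by
  have h1 : ∀ i, Lm N i (Sum.inr k) = (if i = Sum.inr k then ∑ j, (if j = Sum.inr k then 0 else
      N (Sum.inr k) j) else 0) + (if i = Sum.inr k then 0 else N i (Sum.inr k)) := by
    intro i
    by_cases h : i = Sum.inr k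
    · rw [h, if_pos rfl, if_pos rfl, add_zero]
      unfold Lm
      rw [if_pos rfl]
    · rw [if_neg h, if_neg h, zero_add, Lm_ne _ h]
  unfold cs
  rw [sum_congr rfl fun i _ => h1 i, sum_add_distrib, sum_ite_eq' univ (Sum.inr k),
    if_pos (mem_univ _), ← sum_add_distrib]
  have h2 : ∀ i, ((if i = Sum.inr k then 0 else N (Sum.inr k) i) +
      (if i = Sum.inr k then 0 else N i (Sum.inr k))) =
      (u i * u (Sum.inr k) + if i = Sum.inr k then u (Sum.inr k) * u (Sum.inr k) else 0) +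
        (1 + w i) * (if i = Sum.inr k then 0 else N i (Sum.inr k)) := by
    intro i
    by_cases h : i = Sum.inr k
    · rw [h, if_pos rfl, if_pos rfl, mul_zero, aa (u (Sum.inr k) * u (Sum.inr k))]
    · rw [if_neg h, if_neg h, if_neg h, add_zero]
      have h3 := hN i (Sum.inr k) h
      rw [hw, one_mul] at h3
      have : ∀ a b c x : ZMod 2, c * b + a = x → a + b = x + (1 + c) * b := by decide
      exact this _ _ _ _ h3
  rw [sum_congr rfl fun i _ => h2 i, sum_add_distrib, sum_add_distrib, ← sum_mul, hu, one_mul,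
    sum_ite_eq' univ (Sum.inr k), if_pos (mem_univ _)]
  have h3 : u (Sum.inr k) + u (Sum.inr k) * u (Sum.inr k) = 0 := by
    have : ∀ a : ZMod 2, a + a * a = 0 := by decide
    exact this _
  rw [h3, zero_add, Fintype.sum_sum_type]
  have h4 : ∑ l : J, (1 + w (Sum.inr l)) * (if (Sum.inr l : U ⊕ J) = Sum.inr k then 0 else
      N (Sum.inr l) (Sum.inr k)) = 0 := by
    refine sum_eq_zero fun l _ => ?_
    rw [hw, aa, zero_mul]
  rw [h4, add_zero]
  refine sum_congr rfl fun v _ => ?_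
  rw [if_neg (by simp)]

theorem sw1 (f : U → ZMod 2) (x : U → ZMod 2) (N : U → ZMod 2) (a b : ZMod 2)
    (g : U → ZMod 2) : ∑ v, (g v * N v + a * f v) * x v = ∑ v, (g v * x v) * N v +
      (∑ v, f v * x v) * a := by
  rw [sum_mul, ← sum_add_distrib]
  refine sum_congr rfl fun v _ => ?_
  ring

end

/-- **unramified** -/
theorem la_u (ε : ℝ) (hε : 0 < ε) : ∃ V₀ : ℕ, ∀ (U J : Type) [Fintype U] [DecidableEq U] [Fintype J]
    [LinearOrder J] (w u ν : U ⊕ J → ZMod 2) (N : U ⊕ J → U ⊕ J → ZMod 2),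
    (∀ k, w (Sum.inr k) = 1) → ∑ i, u i = 1 → ∑ i, ν i = 1 →
    (∀ i j, i ≠ j → w i * N i j + w j * N j i = u i * u j) →
    (∀ v, w (Sum.inl v) = 0 → u (Sum.inl v) = 1 ∧ ∀ v', w (Sum.inl v') = 0 → v = v') →
    (∀ (b : U → ZMod 2) (s a : ZMod 2), ((∃ v, b v ≠ 0) ∨ s ≠ 0 ∨ a ≠ 0) →
      ∃ k, ∑ v, b v * N (Sum.inl v) (Sum.inr k) + s * u (Sum.inr k) + a * ν (Sum.inr k) ≠ 0) →
    4 * Fintype.card U + V₀ ≤ (univ.filter fun k : J => ν (Sum.inr k) = 1).card →
    4 * Fintype.card U + V₀ ≤ (univ.filter fun k : J => u (Sum.inr k) = 1).card →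
    4 * Fintype.card U + V₀ ≤ (univ.filter fun k : J => ν (Sum.inr k) ≠ u (Sum.inr k)).card →
    |((univ.filter fun σ : ps J → ZMod 2 => Kx ν u (Lm (pt N (sx σ)))).card : ℝ) /
      2 ^ (ps J).card - c2| ≤ ε := by
  obtain ⟨V₀, hgen⟩ := gen ε hε
  refine ⟨V₀ + 1, ?_⟩
  intro U J _ _ _ _ w u ν N hw hu hν hN hw0 hnd r1 r2 r3
  have hJ : 2 * Fintype.card U < Fintype.card J := by
    have h1 : (univ.filter fun k : J => ν (Sum.inr k) = 1).card ≤ Fintype.card J := by
      rw [← Finset.card_univ]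
      exact card_le_card (filter_subset _ _)
    omega
  have hkv : ∀ k v, Lm N (Sum.inr k) (Sum.inl v) = w (Sum.inl v) * N (Sum.inl v) (Sum.inr k) +
      u (Sum.inr k) * u (Sum.inl v) := by
    intro k v
    rw [Lm_ne _ (by simp)]
    have h3 := hN (Sum.inl v) (Sum.inr k) (by simp)
    rw [hw, one_mul] at h3
    have : ∀ a b c d : ZMod 2, a + b = c * d → b = a + d * c := by decide
    exact this _ _ _ _ h3
  have hvk : ∀ k v, Lm N (Sum.inl v) (Sum.inr k) = N (Sum.inl v) (Sum.inr k) := by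
    intro k v
    rw [Lm_ne _ (by simp)]
  have key : ∀ e : E2 U, (∀ k, mu ν (Lm N) k e = 0 ∧ mu' ν u (Lm N) k e = 0) → e = 0 := by
    intro e he
    set C : ZMod 2 := ∑ v, ν (Sum.inl v) * e.1 v + ∑ v, cs (Lm N) (Sum.inl v) * e.2 v with hC
    have h1 : ∀ k, ∑ v, (w (Sum.inl v) * e.2 v) * N (Sum.inl v) (Sum.inr k) +
        (∑ v, u (Sum.inl v) * e.2 v) * u (Sum.inr k) + C * ν (Sum.inr k) = 0 := by
      intro k
      have h2 := (he k).1
      unfold mu at h2
      simp only [hkv] at h2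
      rw [sw1 (fun v => u (Sum.inl v)) e.2 (fun v => N (Sum.inl v) (Sum.inr k)) _ 0
        (fun v => w (Sum.inl v))] at h2
      rw [add_comm, mul_comm] at h2
      rw [← h2]
      ring
    have h2 : ¬ ((∃ v, w (Sum.inl v) * e.2 v ≠ 0) ∨ ∑ v, u (Sum.inl v) * e.2 v ≠ 0 ∨ C ≠ 0) := by
      intro h
      obtain ⟨k, hk⟩ := hnd _ _ _ h
      exact hk (h1 k)
    push Not at h2
    obtain ⟨h3, h4, h5⟩ := h2
    have e2z : ∀ v, e.2 v = 0 := by
      intro v
      rcases zz (w (Sum.inl v)) with h | h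
      · obtain ⟨h6, h7⟩ := hw0 v h
        have h8 : ∑ v, u (Sum.inl v) * e.2 v = e.2 v := by
          rw [Finset.sum_eq_single v, h6, one_mul]
          · intro v' _ hv'
            rcases zz (w (Sum.inl v')) with h9 | h9
            · exact absurd (h7 v' h9).symm hv'
            · have := h3 v'
              rw [h9, one_mul] at this
              rw [this, mul_zero]
          · exact fun h => absurd (mem_univ v) h
        rw [← h8, h4]
      · have := h3 v
        rwa [h, one_mul] at this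
    have e2z' : e.2 = 0 := funext e2z
    have s2 : ∀ f : U → ZMod 2, ∑ v, f v * e.2 v = 0 := fun f =>
      sum_eq_zero fun v _ => by rw [e2z v, mul_zero]
    have C1 : ∑ v, ν (Sum.inl v) * e.1 v = 0 := by
      rw [hC, s2, add_zero] at h5
      exact h5
    have e1z : ∀ v, e.1 v = 0 := by
      by_contra hc
      push Not at hc
      obtain ⟨k, hk⟩ := hnd e.1 0 0 (Or.inl hc)
      apply hk
      have h6 := (he k).2
      unfold mu' at h6
      rw [C1, s2, zero_mul, mul_zero, add_zero, add_zero] at h6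
      rw [zero_mul, zero_mul, add_zero, add_zero, ← h6]
      refine sum_congr rfl fun v _ => ?_
      rw [hvk, mul_comm]
    exact Prod.ext (funext e1z) e2z'
  obtain ⟨k0, J₀, hk0, hJ₀, hnn⟩ := choice (fun k => mu ν (Lm N) k) (fun k => mu' ν u (Lm N) k)
    (fun k a b => by
      show mu ν (Lm N) k (a + b) = mu ν (Lm N) k a + mu ν (Lm N) k b
      unfold mu
      rw [Prod.fst_add, Prod.snd_add, s1a, s1a, s1a]
      ring)
    (fun k c a => by
      show mu ν (Lm N) k (c • a) = c * mu ν (Lm N) k a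
      unfold mu
      rw [Prod.smul_fst, Prod.smul_snd, s1s, s1s, s1s]
      ring)
    (fun k a b => by
      show mu' ν u (Lm N) k (a + b) = mu' ν u (Lm N) k a + mu' ν u (Lm N) k b
      unfold mu'
      rw [Prod.fst_add, Prod.snd_add, s1a, s1a, s1a]
      ring)
    (fun k c a => by
      show mu' ν u (Lm N) k (c • a) = c * mu' ν u (Lm N) k a
      unfold mu'
      rw [Prod.smul_fst, Prod.smul_snd, s1s, s1s, s1s]
      ring)
    key hJ
  have hrow : ∀ i, ∑ j, Lm N i j = 0 := Lm_row N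
  have zsum : ∀ f : U → ZMod 2, ∑ v, f v * (0 : U → ZMod 2) v = 0 := fun f =>
    sum_eq_zero fun v _ => mul_zero _
  have h := hgen U J k0 J₀ (BB ν u (Lm N) (bu ν (cs (Lm N)))) (fun k => ν (Sum.inr k))
    (fun k => u (Sum.inr k)) (fun k => cs (Lm N) (Sum.inr (k : J))) (fun k => mu ν (Lm N) k)
    (fun k => mu' ν u (Lm N) k) (fun k l => Lm N (Sum.inr k) (Sum.inr l)) hk0 hJ₀
    (fun z => BB_alt hu z)
    (fun k => by
      constructor
      · show mu ν (Lm N) k 0 = 0
        unfold mu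
        rw [show (0 : E2 U).1 = 0 from rfl, show (0 : E2 U).2 = 0 from rfl, zsum, zsum, zsum]
        ring
      · show mu' ν u (Lm N) k 0 = 0
        unfold mu'
        rw [show (0 : E2 U).1 = 0 from rfl, show (0 : E2 U).2 = 0 from rfl, zsum, zsum, zsum]
        ring)
    (fun k l hkl => by
      have hne : (Sum.inr k : U ⊕ J) ≠ Sum.inr l := fun h => hkl (Sum.inr_injective h)
      rw [Lm_ne _ hne, Lm_ne _ (Ne.symm hne)]
      have h3 := hN _ _ hne
      rwa [hw, hw, one_mul, one_mul] at h3)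
    (fun z k => hx_u hν hrow z k) (fun z k => hy_u hν hu hrow z k) (by omega) (by omega) (by omega)
    hnn
  rw [← card_Sg] at h
  have hiff : ∀ σ : ps J → ZMod 2, Kx ν u (Lm (pt N (sx σ))) ↔
      Nde (BB ν u (Lm N) (bu ν (cs (Lm N)))) (Sg k0 σ) := by
    intro σ
    have hcs : cs (pt (Lm N) (Lm (sx σ))) = cs (Lm N) :=
      funext fun j => cs_pt (Lsx_symm σ) (Lm_row (sx σ)) j
    rw [red_u (k0 := k0) hν hu (Lm_row _), Lm_pt, hcs, BB_pt (Lsx_symm σ) (Lm_row (sx σ))]
    rfl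
  have hfil : (univ.filter fun σ : ps J → ZMod 2 => Kx ν u (Lm (pt N (sx σ)))) =
      (univ.filter fun σ : ps J → ZMod 2 => Nde (BB ν u (Lm N) (bu ν (cs (Lm N)))) (Sg k0 σ)) :=
    filter_congr fun σ _ => hiff σ
  rw [hfil]
  exact h

/-- **ramified** -/
theorem la_r (ε : ℝ) (hε : 0 < ε) : ∃ V₀ : ℕ, ∀ (U J : Type) [Fintype U] [DecidableEq U] [Fintype J]
    [LinearOrder J] (v0 : U) (w u ν : U ⊕ J → ZMod 2) (N : U ⊕ J → U ⊕ J → ZMod 2),
    (∀ k, w (Sum.inr k) = 1) → ∑ i, u i = 1 → w (Sum.inl v0) = 1 → u (Sum.inl v0) = 0 →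
    (∀ k, ν (Sum.inr k) = N (Sum.inl v0) (Sum.inr k)) →
    (∀ i j, i ≠ j → w i * N i j + w j * N j i = u i * u j) →
    (∀ v, w (Sum.inl v) = 0 → u (Sum.inl v) = 1 ∧ ∀ v', w (Sum.inl v') = 0 → v = v') →
    (∀ (b : U → ZMod 2) (s : ZMod 2), ((∃ v, b v ≠ 0) ∨ s ≠ 0) →
      ∃ k, ∑ v, b v * N (Sum.inl v) (Sum.inr k) + s * u (Sum.inr k) ≠ 0) →
    4 * Fintype.card U + V₀ ≤ (univ.filter fun k : J => ν (Sum.inr k) = 1).card →
    4 * Fintype.card U + V₀ ≤ (univ.filter fun k : J => u (Sum.inr k) = 1).card →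
    4 * Fintype.card U + V₀ ≤ (univ.filter fun k : J => ν (Sum.inr k) ≠ u (Sum.inr k)).card →
    |((univ.filter fun σ : ps J → ZMod 2 => Kr (Sum.inl v0) ν u (Lm (pt N (sx σ)))).card : ℝ) /
      2 ^ (ps J).card - c2| ≤ ε := by
  obtain ⟨V₀, hgen⟩ := gen ε hε
  refine ⟨V₀ + 1, ?_⟩
  intro U J _ _ _ _ v0 w u ν N hw hu hwv huv hν hN hw0 hnd r1 r2 r3
  have hJ : 2 * Fintype.card U < Fintype.card J := by
    have h1 : (univ.filter fun k : J => ν (Sum.inr k) = 1).card ≤ Fintype.card J := by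
      rw [← Finset.card_univ]
      exact card_le_card (filter_subset _ _)
    omega
  have hkv : ∀ k v, Lm N (Sum.inr k) (Sum.inl v) = w (Sum.inl v) * N (Sum.inl v) (Sum.inr k) +
      u (Sum.inr k) * u (Sum.inl v) := by
    intro k v
    rw [Lm_ne _ (by simp)]
    have h3 := hN (Sum.inl v) (Sum.inr k) (by simp)
    rw [hw, one_mul] at h3
    have : ∀ a b c d : ZMod 2, a + b = c * d → b = a + d * c := by decide
    exact this _ _ _ _ h3
  have hvk : ∀ k v, Lm N (Sum.inl v) (Sum.inr k) = N (Sum.inl v) (Sum.inr k) := by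
    intro k v
    rw [Lm_ne _ (by simp)]
  have key : ∀ e : E2 U, (∀ k, mr v0 ν (Lm N) k e = 0 ∧ mr' v0 u (Lm N) k e = 0) → e = 0 := by
    intro e he
    set C : ZMod 2 := e.1 v0 + (∑ v, ν (Sum.inl v) * e.1 v + e.1 v0 * ∑ i, ν i) with hC
    have h1 : ∀ k, ∑ v, (w (Sum.inl v) * e.2 v + if v = v0 then C else 0) *
        N (Sum.inl v) (Sum.inr k) + (∑ v, u (Sum.inl v) * e.2 v) * u (Sum.inr k) = 0 := by
      intro k
      have h2 := (he k).1
      unfold mr at h2
      simp only [hkv] at h2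
      rw [sw1 (fun v => u (Sum.inl v)) e.2 (fun v => N (Sum.inl v) (Sum.inr k)) _ 0
        (fun v => w (Sum.inl v))] at h2
      simp only [add_mul, sum_add_distrib, ite_mul, zero_mul]
      rw [sum_ite_eq' univ v0, if_pos (mem_univ _), ← h2, hν, hC]
      ring
    have h2 : ¬ ((∃ v, w (Sum.inl v) * e.2 v + (if v = v0 then C else 0) ≠ 0) ∨
        ∑ v, u (Sum.inl v) * e.2 v ≠ 0) := by
      intro h
      obtain ⟨k, hk⟩ := hnd _ _ h
      exact hk (h1 k)
    push Not at h2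
    obtain ⟨h3, h4⟩ := h2
    have e2z : ∀ v, v ≠ v0 → e.2 v = 0 := by
      intro v hv
      rcases zz (w (Sum.inl v)) with h | h
      · obtain ⟨h6, h7⟩ := hw0 v h
        have h8 : ∑ v, u (Sum.inl v) * e.2 v = e.2 v := by
          rw [Finset.sum_eq_single v, h6, one_mul]
          · intro v' _ hv'
            rcases zz (w (Sum.inl v')) with h9 | h9
            · exact absurd (h7 v' h9).symm hv'
            · by_cases hv0 : v' = v0
              · rw [hv0, huv, zero_mul]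
              · have := h3 v'
                rw [h9, one_mul, if_neg hv0, add_zero] at this
                rw [this, mul_zero]
          · exact fun h => absurd (mem_univ v) h
        rw [← h8, h4]
      · have := h3 v
        rwa [h, one_mul, if_neg hv, add_zero] at this
    have e2v : e.2 v0 = C := by
      have := h3 v0
      rw [hwv, one_mul, if_pos rfl] at this
      exact e01 this
    have h5 : ∀ k, ∑ v, (e.1 v + e.1 v0 * (1 + w (Sum.inl v))) * N (Sum.inl v) (Sum.inr k) = 0 := by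
      intro k
      have h6 := (he k).2
      unfold mr' at h6
      rw [h4, mul_zero, add_zero, cs_big hw hu hN, mul_sum, ← sum_add_distrib] at h6
      rw [← h6]
      refine sum_congr rfl fun v _ => ?_
      rw [hvk]
      ring
    have h6 : ∀ v, e.1 v + e.1 v0 * (1 + w (Sum.inl v)) = 0 := by
      by_contra hc
      push Not at hc
      obtain ⟨k, hk⟩ := hnd (fun v => e.1 v + e.1 v0 * (1 + w (Sum.inl v))) 0 (Or.inl hc)
      apply hk
      rw [zero_mul, add_zero]
      exact h5 k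
    have e1v : e.1 v0 = 0 := by
      have := h6 v0
      rwa [hwv, aa, mul_zero, add_zero] at this
    have e1z : ∀ v, e.1 v = 0 := by
      intro v
      have := h6 v
      rwa [e1v, zero_mul, add_zero] at this
    have C0 : C = 0 := by
      have : ∑ v, ν (Sum.inl v) * e.1 v = 0 := sum_eq_zero fun v _ => by rw [e1z v, mul_zero]
      rw [hC, this, e1v, zero_mul, add_zero, add_zero]
    refine Prod.ext (funext e1z) (funext fun v => ?_)
    by_cases hv : v = v0
    · rw [hv, e2v, C0]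
      rfl
    · exact e2z v hv
  obtain ⟨k0, J₀, hk0, hJ₀, hnn⟩ := choice (fun k => mr v0 ν (Lm N) k) (fun k => mr' v0 u (Lm N) k)
    (fun k a b => by
      show mr v0 ν (Lm N) k (a + b) = mr v0 ν (Lm N) k a + mr v0 ν (Lm N) k b
      unfold mr
      rw [Prod.fst_add, Prod.snd_add, s1a, s1a, Pi.add_apply]
      ring)
    (fun k c a => by
      show mr v0 ν (Lm N) k (c • a) = c * mr v0 ν (Lm N) k a
      unfold mr
      rw [Prod.smul_fst, Prod.smul_snd, s1s, s1s, Pi.smul_apply, smul_eq_mul]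
      ring)
    (fun k a b => by
      show mr' v0 u (Lm N) k (a + b) = mr' v0 u (Lm N) k a + mr' v0 u (Lm N) k b
      unfold mr'
      rw [Prod.fst_add, Prod.snd_add, s1a, s1a, Pi.add_apply]
      ring)
    (fun k c a => by
      show mr' v0 u (Lm N) k (c • a) = c * mr' v0 u (Lm N) k a
      unfold mr'
      rw [Prod.smul_fst, Prod.smul_snd, s1s, s1s, Pi.smul_apply, smul_eq_mul]
      ring)
    key hJ
  have hrow : ∀ i, ∑ j, Lm N i j = 0 := Lm_row N
  have zsum : ∀ f : U → ZMod 2, ∑ v, f v * (0 : U → ZMod 2) v = 0 := fun f =>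
    sum_eq_zero fun v _ => mul_zero _
  have h := hgen U J k0 J₀ (BB ν u (Lm N) (br v0)) (fun k => ν (Sum.inr k))
    (fun k => u (Sum.inr k)) (fun k => 0) (fun k => mr v0 ν (Lm N) k)
    (fun k => mr' v0 u (Lm N) k) (fun k l => Lm N (Sum.inr k) (Sum.inr l)) hk0 hJ₀
    (fun z => BB_alt hu z)
    (fun k => by
      constructor
      · show mr v0 ν (Lm N) k 0 = 0
        unfold mr
        rw [show (0 : E2 U).1 = 0 from rfl, show (0 : E2 U).2 = 0 from rfl, zsum, zsum,
          Pi.zero_apply]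
        ring
      · show mr' v0 u (Lm N) k 0 = 0
        unfold mr'
        rw [show (0 : E2 U).1 = 0 from rfl, show (0 : E2 U).2 = 0 from rfl, zsum, zsum,
          Pi.zero_apply]
        ring)
    (fun k l hkl => by
      have hne : (Sum.inr k : U ⊕ J) ≠ Sum.inr l := fun h => hkl (Sum.inr_injective h)
      rw [Lm_ne _ hne, Lm_ne _ (Ne.symm hne)]
      have h3 := hN _ _ hne
      rwa [hw, hw, one_mul, one_mul] at h3)
    (fun z k => hx_r v0 hrow z k) (fun z k => hy_r v0 hu hrow z k) (by omega) (by omega) (by omega)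
    hnn
  rw [← card_Sg] at h
  have hiff : ∀ σ : ps J → ZMod 2, Kr (Sum.inl v0) ν u (Lm (pt N (sx σ))) ↔
      Nde (BB ν u (Lm N) (br v0)) (Sg k0 σ) := by
    intro σ
    rw [red_r (k0 := k0) hu (Lm_row _), Lm_pt, BB_pt (Lsx_symm σ) (Lm_row (sx σ))]
    rfl
  have hfil : (univ.filter fun σ : ps J → ZMod 2 => Kr (Sum.inl v0) ν u (Lm (pt N (sx σ)))) =
      (univ.filter fun σ : ps J → ZMod 2 => Nde (BB ν u (Lm N) (br v0)) (Sg k0 σ)) :=
    filter_congr fun σ _ => hiff σ
  rw [hfil]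
  exact h

end Pool.Agent.N916.MO
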