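import Pool.Agent.N916.MO.FoP
import Pool.Agent.N916.MO.La

/-!
# MO: positive discriminants: the probability when one index is special
-/

set_option autoImplicit false
set_option linter.all false

open scoped Classical

namespace Pool.Agent.N916.MO

open Finset Module
open Pool.Agent.N916.GB (pt ps sx)
open Pool.Agent.Y703.CQ (c2)

section
variable {U J : Type} [Fintype U] [DecidableEq U] [Fintype J] [DecidableEq J] {k0 : J}
  {ν u c w : Option U ⊕ J → ZMod 2} {L N : Option U ⊕ J → Option U ⊕ J → ZMod 2}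

/-- the second component on the small indices -/
def e2x (u : Option U ⊕ J → ZMod 2) : E2 U →ₗ[ZMod 2] (Option U → ZMod 2) where
  toFun e o := o.elim (∑ v, u (Sum.inl (some v)) * e.2 v) e.2
  map_add' a b := by
    funext o
    rcases o with _ | v
    · show ∑ v, u (Sum.inl (some v)) * (a.2 + b.2) v = _
      rw [s1a]
      rfl
    · rfl
  map_smul' a b := by
    funext o
    rcases o with _ | v
    · show ∑ v, u (Sum.inl (some v)) * (a • b.2) v = _
      rw [s1s]
      rfl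
    · rfl

/-- the first component on the small indices -/
def e1x (ν u c : Option U ⊕ J → ZMod 2) : E2 U →ₗ[ZMod 2] (Option U → ZMod 2) where
  toFun e o := o.elim (∑ v, ν (Sum.inl (some v)) * e.1 v + ∑ v, c (Sum.inl (some v)) * e.2 v +
    c (Sum.inl none) * ∑ v, u (Sum.inl (some v)) * e.2 v) e.1
  map_add' a b := by
    funext o
    rcases o with _ | v
    · show ∑ v, ν (Sum.inl (some v)) * (a.1 + b.1) v + ∑ v, c (Sum.inl (some v)) * (a.2 + b.2) v +
        c (Sum.inl none) * ∑ v, u (Sum.inl (some v)) * (a.2 + b.2) v =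
        (∑ v, ν (Sum.inl (some v)) * a.1 v + ∑ v, c (Sum.inl (some v)) * a.2 v +
        c (Sum.inl none) * ∑ v, u (Sum.inl (some v)) * a.2 v) +
        (∑ v, ν (Sum.inl (some v)) * b.1 v + ∑ v, c (Sum.inl (some v)) * b.2 v +
        c (Sum.inl none) * ∑ v, u (Sum.inl (some v)) * b.2 v)
      rw [s1a, s1a, s1a]
      ring
    · rfl
  map_smul' a b := by
    funext o
    rcases o with _ | v
    · show ∑ v, ν (Sum.inl (some v)) * (a • b.1) v + ∑ v, c (Sum.inl (some v)) * (a • b.2) v +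
        c (Sum.inl none) * ∑ v, u (Sum.inl (some v)) * (a • b.2) v =
        a * (∑ v, ν (Sum.inl (some v)) * b.1 v + ∑ v, c (Sum.inl (some v)) * b.2 v +
        c (Sum.inl none) * ∑ v, u (Sum.inl (some v)) * b.2 v)
      rw [s1s, s1s, s1s]
      ring
    · rfl

/-- the value at the first unit vector of the special index -/
def Xe (ν u c : Option U ⊕ J → ZMod 2) (L : Option U ⊕ J → Option U ⊕ J → ZMod 2) (e : E2 U) :
    ZMod 2 :=
  ν (Sum.inl none) * e1x ν u c e none + ∑ o, L (Sum.inl none) (Sum.inl o) * e2x u e o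

/-- the value at the second unit vector of the special index -/
def Ye (ν u c : Option U ⊕ J → ZMod 2) (L : Option U ⊕ J → Option U ⊕ J → ZMod 2) (e : E2 U) :
    ZMod 2 :=
  ∑ o, L (Sum.inl o) (Sum.inl none) * e1x ν u c e o + u (Sum.inl none) * e2x u e none

/-- the first functional -/
def lamP (ν u c : Option U ⊕ J → ZMod 2) (L : Option U ⊕ J → Option U ⊕ J → ZMod 2) (k : J)
    (e : E2 U) : ZMod 2 :=
  ∑ o, L (Sum.inr k) (Sum.inl o) * e2x u e o + ν (Sum.inr k) * Xe ν u c L e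

/-- the second functional -/
def lamP' (ν u c : Option U ⊕ J → ZMod 2) (L : Option U ⊕ J → Option U ⊕ J → ZMod 2) (k : J)
    (e : E2 U) : ZMod 2 :=
  ∑ o, L (Sum.inl o) (Sum.inr k) * e1x ν u c e o +
    (c (Sum.inr k) + c (Sum.inl none) * u (Sum.inr k)) * Xe ν u c L e +
    u (Sum.inr k) * Ye ν u c L e +
    (∑ o, ν (Sum.inl o) * e1x ν u c e o) * (c (Sum.inr k) + c (Sum.inl none) * u (Sum.inr k))

theorem so_a (f : Option U → ZMod 2) (g h : Option U → ZMod 2) :
    ∑ o, f o * (g + h) o = ∑ o, f o * g o + ∑ o, f o * h o := s1a f g h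

theorem so_s (a : ZMod 2) (f g : Option U → ZMod 2) :
    ∑ o, f o * (a • g) o = a * ∑ o, f o * g o := s1s a f g

theorem Xe_add (a b : E2 U) : Xe ν u c L (a + b) = Xe ν u c L a + Xe ν u c L b := by
  unfold Xe
  rw [map_add, map_add, so_a, Pi.add_apply]
  ring

theorem Xe_smul (s : ZMod 2) (a : E2 U) : Xe ν u c L (s • a) = s * Xe ν u c L a := by
  unfold Xe
  rw [map_smul, map_smul, so_s, Pi.smul_apply, smul_eq_mul]
  ring

theorem Ye_add (a b : E2 U) : Ye ν u c L (a + b) = Ye ν u c L a + Ye ν u c L b := by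
  unfold Ye
  rw [map_add, map_add, so_a, Pi.add_apply]
  ring

theorem Ye_smul (s : ZMod 2) (a : E2 U) : Ye ν u c L (s • a) = s * Ye ν u c L a := by
  unfold Ye
  rw [map_smul, map_smul, so_s, Pi.smul_apply, smul_eq_mul]
  ring

theorem lamP_add (k : J) (a b : E2 U) :
    lamP ν u c L k (a + b) = lamP ν u c L k a + lamP ν u c L k b := by
  unfold lamP
  rw [map_add, so_a, Xe_add]
  ring

theorem lamP_smul (k : J) (s : ZMod 2) (a : E2 U) :
    lamP ν u c L k (s • a) = s * lamP ν u c L k a := by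
  unfold lamP
  rw [map_smul, so_s, Xe_smul]
  ring

theorem lamP'_add (k : J) (a b : E2 U) :
    lamP' ν u c L k (a + b) = lamP' ν u c L k a + lamP' ν u c L k b := by
  unfold lamP'
  rw [map_add, so_a, so_a, Xe_add, Ye_add]
  ring

theorem lamP'_smul (k : J) (s : ZMod 2) (a : E2 U) :
    lamP' ν u c L k (s • a) = s * lamP' ν u c L k a := by
  unfold lamP'
  rw [map_smul, so_s, so_s, Xe_smul, Ye_smul]
  ring

/-! ### relation to the form -/

theorem xt0 (k : J) : xt k0 (0 : Ix k0 → ZMod 2) k = 0 := by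
  unfold xt
  split_ifs <;> rfl

theorem gP_e (e : E2 U) : gP u ((e, 0, 0) : EE (E2 U) (Ix k0)) = e2x u e none := by
  rw [gP_apply, sum_O2]
  have : ∑ l : Ix k0, u (Sum.inr l) * (0 : Ix k0 → ZMod 2) l = 0 :=
    sum_eq_zero fun l _ => mul_zero _
  rw [show ((e, 0, 0) : EE (E2 U) (Ix k0)).2.2 = 0 from rfl, this, add_zero]
  rfl

theorem bP_e (e : E2 U) : bP ν u c ((e, 0, 0) : EE (E2 U) (Ix k0)) = e1x ν u c e none := by
  rw [bP_apply, gP_e, sum_O1, sum_O2]
  have : ∀ f : Option U ⊕ J → ZMod 2, ∑ l : Ix k0, f (Sum.inr l) * (0 : Ix k0 → ZMod 2) l = 0 :=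
    fun f => sum_eq_zero fun l _ => mul_zero _
  rw [show ((e, 0, 0) : EE (E2 U) (Ix k0)).2.2 = 0 from rfl,
    show ((e, 0, 0) : EE (E2 U) (Ix k0)).2.1 = 0 from rfl, this, this, add_zero, add_zero]
  rfl

theorem ph_e1 (e : E2 U) (i : Option U ⊕ J) :
    (phP ν u c ((e, 0, 0) : EE (E2 U) (Ix k0))).1 i = Sum.elim (e1x ν u c e) 0 i := by
  rw [phP1, bP_e]
  rcases i with (_ | v) | k
  · rw [dl_none, mul_one]
    exact zero_add _
  · rw [dl_some, mul_zero, add_zero]
    rfl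
  · rw [dl_inr, mul_zero, add_zero]
    exact xt0 k

theorem ph_e2 (e : E2 U) (i : Option U ⊕ J) :
    (phP ν u c ((e, 0, 0) : EE (E2 U) (Ix k0))).2 i = Sum.elim (e2x u e) 0 i := by
  rw [phP2, gP_e]
  rcases i with (_ | v) | k
  · rw [dl_none, mul_one]
    exact zero_add _
  · rw [dl_some, mul_zero, add_zero]
    rfl
  · rw [dl_inr, mul_zero, add_zero]
    exact xt0 k

theorem sum_el (f : Option U ⊕ J → ZMod 2) (g : Option U → ZMod 2) :
    ∑ i, f i * (Sum.elim g 0 : Option U ⊕ J → ZMod 2) i = ∑ o, f (Sum.inl o) * g o := by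
  rw [Fintype.sum_sum_type]
  have : ∑ k : J, f (Sum.inr k) * (Sum.elim g 0 : Option U ⊕ J → ZMod 2) (Sum.inr k) = 0 :=
    sum_eq_zero fun l _ => mul_zero _
  rw [this, add_zero]
  rfl

theorem X_e (e : E2 U) : SL ν u L (phP ν u c ((e, 0, 0) : EE (E2 U) (Ix k0)))
    (Pi.single (Sum.inl none) 1, 0) = Xe ν u c L e := by
  rw [SL_x]
  simp only [ph_e1, ph_e2]
  rw [sum_el]
  rfl

theorem Y_e (e : E2 U) : SL ν u L (phP ν u c ((e, 0, 0) : EE (E2 U) (Ix k0)))
    (0, Pi.single (Sum.inl none) 1) = Ye ν u c L e := by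
  rw [SL_y]
  simp only [ph_e1, ph_e2]
  rw [sum_el (fun i => L i (Sum.inl none))]
  rfl

theorem BP_ex (hνs : ν (Sum.inl none) = 1) (e : E2 U) (k : Ix k0) :
    BP ν u c L (e, 0, 0) (fx k) = lamP ν u c L k e := by
  rw [hxP hνs]
  have e1 : (FP ν u c L ((e, 0, 0) : EE (E2 U) (Ix k0))).2.1 = e2x u e none := gP_e e
  have e2 : (FP ν u c L ((e, 0, 0) : EE (E2 U) (Ix k0))).2.2.1 = Xe ν u c L e := X_e e
  have e3 : ∑ l : Ix k0, L (Sum.inr k) (Sum.inr l) * (0 : Ix k0 → ZMod 2) l = 0 :=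
    sum_eq_zero fun l _ => mul_zero _
  rw [e1, e2]
  show ν (Sum.inr k) * 0 + ∑ l : Ix k0, L (Sum.inr k) (Sum.inr l) * (0 : Ix k0 → ZMod 2) l +
    (∑ v, L (Sum.inr k) (Sum.inl (some v)) * e.2 v + _ + _) = _
  rw [e3, mul_zero, zero_add, zero_add]
  unfold lamP
  rw [Fintype.sum_option, add_comm (L (Sum.inr k) (Sum.inl none) * _)]
  rfl

theorem BP_ey (hνs : ν (Sum.inl none) = 1) (e : E2 U) (k : Ix k0) :
    BP ν u c L (e, 0, 0) (fy k) = lamP' ν u c L k e := by
  rw [hyP]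
  have e1 : (FP ν u c L ((e, 0, 0) : EE (E2 U) (Ix k0))).1 = e1x ν u c e none := bP_e e
  have e2 : (FP ν u c L ((e, 0, 0) : EE (E2 U) (Ix k0))).2.2.1 = Xe ν u c L e := X_e e
  have e4 : (FP ν u c L ((e, 0, 0) : EE (E2 U) (Ix k0))).2.2.2.1 = Ye ν u c L e := Y_e e
  have e5 : (FP ν u c L ((e, 0, 0) : EE (E2 U) (Ix k0))).2.2.2.2 =
      ∑ o, ν (Sum.inl o) * e1x ν u c e o := by
    show dP ν u c _ = _
    rw [dP_apply]
    simp only [ph_e1]
    rw [sum_el]
  have e3 : ∑ l : Ix k0, L (Sum.inr l) (Sum.inr k) * (0 : Ix k0 → ZMod 2) l = 0 :=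
    sum_eq_zero fun l _ => mul_zero _
  have e6 : dP ν u c (fy k : EE (E2 U) (Ix k0)) =
      c (Sum.inr k) + c (Sum.inl none) * u (Sum.inr k) := by
    rw [dP_apply, sum_ph1, bP_fy, hνs, mul_one]
    have : ∑ i, ν i * O1 (fy k : EE (E2 U) (Ix k0)) i = 0 :=
      sum_eq_zero fun i _ => by rw [O1_fy, mul_zero]
    rw [this, zero_add]
  rw [e1, e2, e4, e5, e6]
  show u (Sum.inr k) * 0 + ∑ l : Ix k0, L (Sum.inr l) (Sum.inr k) * (0 : Ix k0 → ZMod 2) l +
    (∑ v, L (Sum.inl (some v)) (Sum.inr k) * e.1 v + _ + _ + _ + _) = _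
  rw [e3, mul_zero, zero_add, zero_add]
  unfold lamP'
  rw [Fintype.sum_option (fun o => L (Sum.inl o) (Sum.inr (k : J)) * e1x ν u c e o),
    add_comm (L (Sum.inl none) (Sum.inr (k : J)) * _)]
  rfl

end

/-- **one special index** -/
theorem la_p0 (ε : ℝ) (hε : 0 < ε) : ∃ V₀ : ℕ, ∀ (U J : Type) [Fintype U] [DecidableEq U]
    [Fintype J] [LinearOrder J] (w u ν : Option U ⊕ J → ZMod 2)
    (N : Option U ⊕ J → Option U ⊕ J → ZMod 2),
    (∀ k, w (Sum.inr k) = 1) → ν (Sum.inl none) = 1 → u (Sum.inl none) = 1 →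
    ∑ i, u i = 0 → ∑ i, ν i = 0 →
    (∀ i j, i ≠ j → w i * N i j + w j * N j i = u i * u j) →
    (∀ v, w (Sum.inl v) = 0 → u (Sum.inl v) = 1 ∧ ∀ v', w (Sum.inl v') = 0 → v = v') →
    (∀ (b : Option U → ZMod 2) (s a : ZMod 2), ((∃ v, b v ≠ 0) ∨ s ≠ 0 ∨ a ≠ 0) →
      ∃ k, ∑ v, b v * N (Sum.inl v) (Sum.inr k) + s * u (Sum.inr k) + a * ν (Sum.inr k) ≠ 0) →
    4 * Fintype.card U + V₀ ≤ (univ.filter fun k : J => ν (Sum.inr k) = 1).card →
    4 * Fintype.card U + V₀ ≤ (univ.filter fun k : J => u (Sum.inr k) = 1).card →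
    4 * Fintype.card U + V₀ ≤ (univ.filter fun k : J => ν (Sum.inr k) ≠ u (Sum.inr k)).card →
    |((univ.filter fun σ : ps J → ZMod 2 => Kx ν u (Lm (pt N (sx σ)))).card : ℝ) /
      2 ^ (ps J).card - c2| ≤ ε := by
  obtain ⟨V₀, hgen⟩ := gen2 ε hε
  refine ⟨V₀ + 1, ?_⟩
  intro U J _ _ _ _ w u ν N hw hνs hus hu hν hN hw0 hnd r1 r2 r3
  have hJ : 2 * Fintype.card U < Fintype.card J := by
    have h1 : (univ.filter fun k : J => ν (Sum.inr k) = 1).card ≤ Fintype.card J := by
      rw [← Finset.card_univ]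
      exact card_le_card (filter_subset _ _)
    omega
  have hkv : ∀ k v, Lm N (Sum.inr k) (Sum.inl v) = w (Sum.inl v) * N (Sum.inl v) (Sum.inr k) +
      u (Sum.inr k) * u (Sum.inl v) := by
    intro k v
    rw [Lm_ne _ (by simp)]
    have h3 := hN (Sum.inl v) (Sum.inr k) (by simp)
    rw [hw, one_mul] at h3
    have : ∀ a b c d : ZMod 2, a + b = c * d → b = a + d * c := by decide
    exact this _ _ _ _ h3
  have hvk : ∀ k v, Lm N (Sum.inl v) (Sum.inr k) = N (Sum.inl v) (Sum.inr k) := by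
    intro k v
    rw [Lm_ne _ (by simp)]
  set c := cs (Lm N) with hc
  -- the sum of the second component
  have su : ∀ e : E2 U, ∑ o, u (Sum.inl o) * e2x u e o = 0 := by
    intro e
    rw [Fintype.sum_option, hus, one_mul]
    exact aa _
  have key : ∀ e : E2 U, (∀ k, lamP ν u c (Lm N) k e = 0 ∧ lamP' ν u c (Lm N) k e = 0) → e = 0 := by
    intro e he
    have h1 : ∀ k, ∑ o, (w (Sum.inl o) * e2x u e o) * N (Sum.inl o) (Sum.inr k) +
        0 * u (Sum.inr k) + Xe ν u c (Lm N) e * ν (Sum.inr k) = 0 := by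
      intro k
      have h2 := (he k).1
      unfold lamP at h2
      simp only [hkv] at h2
      rw [sw1 (fun o => u (Sum.inl o)) (e2x u e) (fun o => N (Sum.inl o) (Sum.inr k)) _ 0
        (fun o => w (Sum.inl o)), su, zero_mul, add_zero] at h2
      rw [zero_mul, add_zero, ← h2]
      ring
    have h2 : ¬ ((∃ o, w (Sum.inl o) * e2x u e o ≠ 0) ∨ (0 : ZMod 2) ≠ 0 ∨
        Xe ν u c (Lm N) e ≠ 0) := by
      intro h
      obtain ⟨k, hk⟩ := hnd _ _ _ h
      exact hk (h1 k)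
    push Not at h2
    obtain ⟨h3, -, h5⟩ := h2
    have e2z : ∀ o, e2x u e o = 0 := by
      intro v
      rcases zz (w (Sum.inl v)) with h | h
      · obtain ⟨h6, h7⟩ := hw0 v h
        have h8 : ∑ v, u (Sum.inl v) * e2x u e v = e2x u e v := by
          rw [Finset.sum_eq_single v, h6, one_mul]
          · intro v' _ hv'
            rcases zz (w (Sum.inl v')) with h9 | h9
            · exact absurd (h7 v' h9).symm hv'
            · have := h3 v'
              rw [h9, one_mul] at this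
              rw [this, mul_zero]
          · exact fun h => absurd (mem_univ v) h
        rw [← h8, su]
      · have := h3 v
        rwa [h, one_mul] at this
    have ez2 : e.2 = 0 := funext fun v => e2z (some v)
    have X0 : e1x ν u c e none = 0 := by
      unfold Xe at h5
      have : ∑ o, Lm N (Sum.inl none) (Sum.inl o) * e2x u e o = 0 :=
        sum_eq_zero fun o _ => by rw [e2z, mul_zero]
      rw [this, add_zero, hνs, one_mul] at h5
      exact h5
    have d0 : ∑ o, ν (Sum.inl o) * e1x ν u c e o = 0 := by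
      rw [Fintype.sum_option, X0, mul_zero, zero_add]
      have h6 : e1x ν u c e none = ∑ v, ν (Sum.inl (some v)) * e.1 v +
        ∑ v, c (Sum.inl (some v)) * e.2 v + c (Sum.inl none) *
          ∑ v, u (Sum.inl (some v)) * e.2 v := rfl
      have z0 : ∀ f : U → ZMod 2, ∑ v, f v * e.2 v = 0 := fun f =>
        sum_eq_zero fun v _ => by rw [ez2]; exact mul_zero _
      rw [X0, z0, z0, mul_zero, add_zero, add_zero] at h6
      exact h6.symm
    have e1z : ∀ o, e1x ν u c e o = 0 := by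
      by_contra hcc
      push Not at hcc
      obtain ⟨k, hk⟩ := hnd (fun o => e1x ν u c e o) (Ye ν u c (Lm N) e) 0 (Or.inl hcc)
      apply hk
      have h6 := (he k).2
      unfold lamP' at h6
      rw [h5, d0, mul_zero, zero_mul, add_zero, add_zero] at h6
      rw [zero_mul, add_zero, ← h6]
      congr 1
      · refine sum_congr rfl fun v _ => ?_
        rw [hvk, mul_comm]
      · ring
    exact Prod.ext (funext fun v => e1z (some v)) ez2
  obtain ⟨k0, J₀, hk0, hJ₀, hnn⟩ := choice (fun k => lamP ν u c (Lm N) k)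
    (fun k => lamP' ν u c (Lm N) k) (fun k a b => lamP_add k a b) (fun k s a => lamP_smul k s a)
    (fun k a b => lamP'_add k a b) (fun k s a => lamP'_smul k s a) key hJ
  have hrow : ∀ i, ∑ j, Lm N i j = 0 := Lm_row N
  have h := hgen U J (ZMod 2 × ZMod 2 × ZMod 2 × ZMod 2 × ZMod 2) (ZMod 2) k0 J₀
    (BP ν u c (Lm N)) (fun k => ν (Sum.inr k)) (fun k => u (Sum.inr k))
    (fun k l => Lm N (Sum.inr (k : J)) (Sum.inr (l : J))) (FP ν u c (Lm N))
    (fun x => ∑ l : Ix k0, u (Sum.inr (l : J)) * x l)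
    (fun k e F => ∑ v, Lm N (Sum.inr (k : J)) (Sum.inl (some v)) * e.2 v +
        Lm N (Sum.inr (k : J)) (Sum.inl none) * F.2.1 + ν (Sum.inr (k : J)) * F.2.2.1)
    (fun k e F => ∑ v, Lm N (Sum.inl (some v)) (Sum.inr (k : J)) * e.1 v +
        Lm N (Sum.inl none) (Sum.inr (k : J)) * F.1 +
        (c (Sum.inr (k : J)) + c (Sum.inl none) * u (Sum.inr (k : J))) * F.2.2.1 +
        u (Sum.inr (k : J)) * F.2.2.2.1 +
        F.2.2.2.2 * dP ν u c (fy k : EE (E2 U) (Ix k0)))
    (fun k g => u (Sum.inr (k : J)) * g)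
    (by simp only [Fintype.card_prod, ZMod.card]; norm_num) (by rw [ZMod.card]; norm_num)
    hk0 hJ₀
    (fun z => by
      rw [BP_apply, SL_self, u_ph2 hus, add_zero, dP_apply]
      have : ∀ a : ZMod 2, a + a * a = 0 := by decide
      exact this _)
    (fun z k => hxP hνs z k) (fun z k => hyP z k)
    (fun x k => by
      have hm : ∀ k l : Ix k0, k ≠ l → Lm N (Sum.inr (k : J)) (Sum.inr (l : J)) +
          Lm N (Sum.inr (l : J)) (Sum.inr (k : J)) = u (Sum.inr (k : J)) * u (Sum.inr (l : J)) := by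
        intro k l hkl
        have hne : (Sum.inr (k : J) : Option U ⊕ J) ≠ Sum.inr (l : J) := fun h =>
          hkl (Subtype.ext (Sum.inr_injective h))
        rw [Lm_ne _ hne, Lm_ne _ (Ne.symm hne)]
        have h3 := hN _ _ hne
        rwa [hw, hw, one_mul, one_mul] at h3
      have h5 := msum (u := fun k : Ix k0 => u (Sum.inr (k : J)))
        (m := fun k l : Ix k0 => Lm N (Sum.inr (k : J)) (Sum.inr (l : J))) hm k x
      rw [h5, add_comm])
    (by omega) (by omega) (by omega)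
    (fun e he => by
      by_contra hcc
      refine hcc (hnn e fun k hk => ?_)
      have hkk : k ≠ k0 := fun h => hk0 (h ▸ hk)
      have h1 := he ⟨k, hkk⟩ hk
      rw [BP_ex hνs, BP_ey hνs] at h1
      exact h1)
  rw [← card_Sg] at h
  have hiff : ∀ σ : ps J → ZMod 2, Kx ν u (Lm (pt N (sx σ))) ↔
      Nde (BP ν u c (Lm N)) (Sg k0 σ) := by
    intro σ
    have hcs : cs (pt (Lm N) (Lm (sx σ))) = c :=
      funext fun j => cs_pt (Lsx_symm σ) (Lm_row (sx σ)) j
    rw [redP (k0 := k0) hν hu (Lm_row _) hνs hus, Lm_pt, hcs, BP_pt]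
    rfl
  have hfil : (univ.filter fun σ : ps J → ZMod 2 => Kx ν u (Lm (pt N (sx σ)))) =
      (univ.filter fun σ : ps J → ZMod 2 => Nde (BP ν u c (Lm N)) (Sg k0 σ)) :=
    filter_congr fun σ _ => hiff σ
  rw [hfil]
  exact h

end Pool.Agent.N916.MO
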