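import Pool.Agent.N916.MO.Str

/-!
# MO: splitting off vectors, from symmetric forms to alternating forms
-/

set_option autoImplicit false
set_option linter.all false

open scoped Classical

namespace Pool.Agent.N916.MO

open Finset Module

section
variable {E : Type} [AddCommGroup E] [Module (ZMod 2) E]

/-- nondegenerate on a subspace -/
def NdW (S : E →ₗ[ZMod 2] E →ₗ[ZMod 2] ZMod 2) (W : Submodule (ZMod 2) E) : Prop :=
  ∀ z ∈ W, (∀ w ∈ W, S z w = 0) → z = 0

theorem dbl (z : E) : z + z = 0 := by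
  rw [← two_nsmul, ← Nat.cast_smul_eq_nsmul (ZMod 2)]
  exact zero_smul _ _

/-- splitting off a vector -/
theorem spl {S : E →ₗ[ZMod 2] E →ₗ[ZMod 2] ZMod 2} {W W' : Submodule (ZMod 2) E} {e : E}
    (he : e ∈ W) (h1 : S e e = 1) (hW : ∀ z, z ∈ W' ↔ z ∈ W ∧ S z e = 0) :
    NdW S W ↔ NdW S W' := by
  constructor
  · intro h z hz hz'
    have hzW := (hW z).1 hz
    refine h z hzW.1 fun w hw => ?_
    have h2 : w + S w e • e ∈ W' := by
      rw [hW]
      refine ⟨W.add_mem hw (W.smul_mem _ he), ?_⟩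
      rw [LinearMap.map_add₂, LinearMap.map_smul₂, h1, smul_eq_mul, mul_one, aa]
    have h3 := hz' _ h2
    rwa [map_add, map_smul, hzW.2, smul_zero, add_zero] at h3
  · intro h z hz hz'
    exact h z ((hW z).2 ⟨hz, hz' e he⟩) fun w hw => hz' w ((hW w).1 hw).1

/-- from symmetric forms to alternating forms -/
theorem sym_alt [Finite E] {S B : E →ₗ[ZMod 2] E →ₗ[ZMod 2] ZMod 2} {d : E →ₗ[ZMod 2] ZMod 2}
    (hd : ∀ z, S z z = d z) (hB : ∀ z w, B z w = S z w + d z * d w)
    (hE : Even (finrank (ZMod 2) E)) : NdW S ⊤ ↔ ∀ z, (∀ w, B z w = 0) → z = 0 := by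
  have sq : ∀ a : ZMod 2, a + a * a = 0 := by decide
  have halt : ∀ z, B z z = 0 := fun z => by rw [hB, hd, sq]
  constructor
  · intro h
    by_contra hc
    push Not at hc
    obtain ⟨z, hz, hz0⟩ := hc
    have hzR : z ∈ Rad B ⊤ := ⟨Submodule.mem_top, fun w _ => hz w⟩
    have hp := parity halt ⊤
    rw [finrank_top] at hp
    have hR : Even (finrank (ZMod 2) (Rad B ⊤)) := (Nat.even_add.1 hp).1 hE
    have key : ∀ w ∈ Rad B ⊤, d w = 0 → w = 0 := by
      intro w hw hdw
      refine h w Submodule.mem_top fun v _ => ?_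
      have := hw.2 v Submodule.mem_top
      rwa [hB, hdw, zero_mul, add_zero] at this
    by_cases hall : ∀ w ∈ Rad B ⊤, d w = 0
    · exact hz0 (key z hzR (hall z hzR))
    · push Not at hall
      have h1 := fr1 (R := Rad B ⊤) (R' := Rad B ⊤ ⊓ LinearMap.ker d) (φ := d) hall (fun z => by
        rw [Submodule.mem_inf, LinearMap.mem_ker])
      have h2 : finrank (ZMod 2) (Rad B ⊤ ⊓ LinearMap.ker d : Submodule (ZMod 2) E) = 0 := by
        rw [Submodule.finrank_eq_zero, eq_bot_iff]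
        rintro w ⟨hw1, hw2⟩
        exact (Submodule.mem_bot _).2 (key w hw1 (LinearMap.mem_ker.1 hw2))
      rw [h2] at h1
      rw [← h1] at hR
      exact absurd hR (by decide)
  · intro h z _ hz
    refine h z fun w => ?_
    have h0 : d z = 0 := by rw [← hd]; exact hz z Submodule.mem_top
    rw [hB, hz w Submodule.mem_top, h0, zero_mul, add_zero]

/-- pull back -/
theorem pullb {E' : Type} [AddCommGroup E'] [Module (ZMod 2) E']
    {S : E →ₗ[ZMod 2] E →ₗ[ZMod 2] ZMod 2} {W : Submodule (ZMod 2) E} (φ : E' →ₗ[ZMod 2] E)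
    (hφ : ∀ z, φ z ∈ W) (hs : ∀ w ∈ W, ∃ z, φ z = w) (hi : ∀ z, φ z = 0 → z = 0)
    {S' : E' →ₗ[ZMod 2] E' →ₗ[ZMod 2] ZMod 2} (hS : ∀ z w, S' z w = S (φ z) (φ w)) :
    NdW S W ↔ NdW S' ⊤ := by
  constructor
  · intro h z _ hz
    refine hi z (h (φ z) (hφ z) fun w hw => ?_)
    obtain ⟨w, rfl⟩ := hs w hw
    rw [← hS]
    exact hz w Submodule.mem_top
  · intro h z hz hz'
    obtain ⟨z, rfl⟩ := hs z hz
    rw [h z Submodule.mem_top fun w _ => by rw [hS]; exact hz' _ (hφ w), map_zero]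

end

end Pool.Agent.N916.MO
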