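import Pool.Agent.N916.MO.Lh

/-!
# MO: the hypothesis LAH
-/

set_option autoImplicit false
set_option linter.all false

open scoped Classical

namespace Pool.Agent.N916.MO

open Finset
open Pool.Agent.N916.GB (pt ps sx Po Vt sy)
open Pool.Agent.Y703.CQ (c2 nr)
open Pool.Agent.N973.ND (uu nr_rec nr_self)
open Pool.Agent.N916.AM (LAH Nd Rich Bs sub_Bs uu_mod nr_Bs)
open Pool.Agent.N958.GB (lb rr rr_inj rr_im NR sgm two_tuples rec_NR ud wd z2 mem_Vt Vt_sub sy_ne)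

theorem d8 {M : ℕ} (hM : 136 ∣ M) : 8 ∣ M := Dvd.dvd.trans (by norm_num) hM

theorem mem17 {M : ℕ} (hM : 136 ∣ M) (hM0 : 0 < M) (S₀ : Finset ℕ) : 17 ∈ Bs M S₀ := by
  unfold Bs
  rw [mem_union]
  right
  rw [Nat.mem_primeFactors]
  exact ⟨p17, Dvd.dvd.trans (by norm_num) hM, hM0.ne'⟩

section
variable {M : ℕ} {ι : Type} [Fintype ι] [LinearOrder ι] {S₀ : Finset ℕ} {p : ι → ℕ}
  {t : Bool} {r s : ZMod 2}

theorem prm (hS₀ : ∀ v ∈ S₀, Po v) (hp : ∀ i, Po (p i) ∧ p i ∉ S₀ ∧ (p i).Coprime M)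
    (i : (Vt t S₀ : Finset ℕ) ⊕ ι) : (rr t S₀ p i).Prime := by
  rcases i with v | k
  · rcases mem_Vt.1 v.2 with h | h
    · show (v : ℕ).Prime
      rw [h.2]
      exact Nat.prime_two
    · exact (hS₀ _ h).1
  · exact (hp k).1.1

theorem sum_ud (hS₀ : ∀ v ∈ S₀, Po v) (hp : ∀ i, Po (p i) ∧ p i ∉ S₀ ∧ (p i).Coprime M)
    (hpi : Function.Injective p) (hts : t = false → s = 0)
    (h4 : ((∏ v ∈ S₀, v) * ∏ i, p i) % 4 = if s = 0 then 3 else 1) :
    ∑ i, ud s (rr t S₀ p) i = 1 := by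
  have h2S : 2 ∉ S₀ := fun h => (hS₀ 2 h).2 rfl
  have hur : ∀ k : ι, ud s (rr t S₀ p) (Sum.inr k) = uu (p k) := fun k => if_neg (hp k).1.2
  rw [Fintype.sum_sum_type]
  have a1 : ∑ i, ud s (rr t S₀ p) (Sum.inr i : (Vt t S₀ : Finset ℕ) ⊕ ι) = ∑ i, uu (p i) :=
    sum_congr rfl fun i _ => hur i
  have a2 : ∑ v : (Vt t S₀ : Finset ℕ), ud s (rr t S₀ p) (Sum.inl v : (Vt t S₀ : Finset ℕ) ⊕ ι) =
      ∑ x ∈ Vt t S₀, if x = 2 then s else uu x := by
    rw [← Finset.sum_coe_sort (Vt t S₀)]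
    rfl
  have a3 : ∑ x ∈ S₀, (if x = 2 then s else uu x) = ∑ x ∈ S₀, uu x :=
    sum_congr rfl fun x hx => if_neg (hS₀ x hx).2
  have a4 : ∑ x ∈ Vt t S₀, (if x = 2 then s else uu x) = s + ∑ x ∈ S₀, uu x := by
    cases t with
    | true =>
      show ∑ x ∈ insert 2 S₀, (if x = 2 then s else uu x) = s + ∑ x ∈ S₀, uu x
      rw [sum_insert h2S, a3, if_pos rfl]
    | false =>
      show ∑ x ∈ S₀, (if x = 2 then s else uu x) = s + ∑ x ∈ S₀, uu x
      rw [a3, hts rfl, zero_add]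
  have a5 : ∑ i, uu (p i) = ∑ x ∈ univ.image p, uu x := (sum_image fun i _ j _ h => hpi h).symm
  have hdis : Disjoint S₀ (univ.image p) := by
    rw [Finset.disjoint_left]
    intro x hx hx'
    obtain ⟨i, -, rfl⟩ := mem_image.1 hx'
    exact (hp i).2.1 hx
  have a6 : ∑ x ∈ S₀ ∪ univ.image p, uu x = ∑ x ∈ S₀, uu x + ∑ x ∈ univ.image p, uu x :=
    sum_union hdis
  have a7 : ∏ x ∈ S₀ ∪ univ.image p, x = (∏ v ∈ S₀, v) * ∏ i, p i := by
    rw [prod_union hdis, prod_image fun i _ j _ h => hpi h]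
  have a8 := Pool.Agent.N916.GB.sum_uu (S₀ ∪ univ.image p) (by
    intro x hx
    rcases mem_union.1 hx with h | h
    · exact hS₀ x h
    · obtain ⟨i, -, rfl⟩ := mem_image.1 h
      exact (hp i).1)
  rw [a7] at a8
  rw [a8, a6] at h4
  rw [a1, a2, a4, a5]
  rcases z2 s with hs | hs <;> rcases z2 (∑ x ∈ S₀, uu x + ∑ x ∈ univ.image p, uu x) with h | h
  · rw [h, hs, if_pos rfl, if_pos rfl] at h4
    omega
  · rw [hs, zero_add, h]
  · rw [hs, add_assoc, h, add_zero]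
  · rw [h, hs, if_neg (by decide), if_neg (by decide)] at h4
    omega

theorem sum_nv (hS₀ : ∀ v ∈ S₀, Po v) (hp : ∀ i, Po (p i) ∧ p i ∉ S₀ ∧ (p i).Coprime M)
    (hpi : Function.Injective p)
    (h : nr 17 ((∏ v ∈ S₀, v) * ∏ i, p i) = 1) :
    ∑ i, nv (rr t S₀ p) i = 1 := by
  have h2S : 2 ∉ S₀ := fun h => (hS₀ 2 h).2 rfl
  rw [Fintype.sum_sum_type]
  have a2 : ∑ v : (Vt t S₀ : Finset ℕ), nv (rr t S₀ p) (Sum.inl v : (Vt t S₀ : Finset ℕ) ⊕ ι) =
      ∑ x ∈ Vt t S₀, nr x 17 := by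
    rw [← Finset.sum_coe_sort (Vt t S₀)]
    rfl
  have a4 : ∑ x ∈ Vt t S₀, nr x 17 = ∑ x ∈ S₀, nr x 17 := by
    cases t with
    | true =>
      show ∑ x ∈ insert 2 S₀, nr x 17 = ∑ x ∈ S₀, nr x 17
      rw [sum_insert h2S, nr2_17, zero_add]
    | false => rfl
  have hdis : Disjoint S₀ (univ.image p) := by
    rw [Finset.disjoint_left]
    intro x hx hx'
    obtain ⟨i, -, rfl⟩ := mem_image.1 hx'
    exact (hp i).2.1 hx
  have a5 : ∑ i, nv (rr t S₀ p) (Sum.inr i : (Vt t S₀ : Finset ℕ) ⊕ ι) =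
      ∑ x ∈ univ.image p, nr x 17 := by
    rw [sum_image fun i _ j _ h => hpi h]
    rfl
  have a6 : ∑ x ∈ S₀ ∪ univ.image p, nr x 17 = ∑ x ∈ S₀, nr x 17 + ∑ x ∈ univ.image p, nr x 17 :=
    sum_union hdis
  have a7 : ∏ x ∈ S₀ ∪ univ.image p, x = (∏ v ∈ S₀, v) * ∏ i, p i := by
    rw [prod_union hdis, prod_image fun i _ j _ h => hpi h]
  have h17 : ∀ x ∈ S₀ ∪ univ.image p, x ≠ 17 := by
    rintro x hx rfl
    have h1 : 17 ∣ (∏ v ∈ S₀, v) * ∏ i, p i := by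
      rw [← a7]
      exact dvd_prod_of_mem (fun x => x) hx
    have h2 : nr 17 ((∏ v ∈ S₀, v) * ∏ i, p i) = 0 := by
      rw [nr17_mod, Nat.mod_eq_zero_of_dvd h1]
      unfold nr
      rw [if_pos]
      decide
    rw [h2] at h
    exact absurd h (by decide)
  have a8 := (nr17_prod (S₀ ∪ univ.image p) (by
    intro x hx
    refine ⟨?_, h17 x hx⟩
    rcases mem_union.1 hx with h | h
    · exact hS₀ x h
    · obtain ⟨i, -, rfl⟩ := mem_image.1 h
      exact (hp i).1)).2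
  rw [a2, a4, a5, ← a6, a8, a7, h]

theorem uniq2 (htr : t = true → r ≠ 0 ∨ s ≠ 0) (hS₀ : ∀ v ∈ S₀, Po v) :
    ∀ v, wd r (rr t S₀ p) (Sum.inl v) = 0 → ud s (rr t S₀ p) (Sum.inl v) = 1 ∧
      ∀ v', wd r (rr t S₀ p) (Sum.inl v') = 0 → v = v' := by
  have h2S : 2 ∉ S₀ := fun h => (hS₀ 2 h).2 rfl
  have ht : ∀ v ∈ Vt t S₀, v = 2 → t = true := by
    intro v hv hv2
    rcases mem_Vt.1 hv with h | h
    · exact h.1
    · exact absurd (hv2 ▸ h) h2S
  intro v hv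
  have b1 : ∀ v' : (Vt t S₀ : Finset ℕ), wd r (rr t S₀ p) (Sum.inl v') = 0 → (v' : ℕ) = 2 ∧ r = 0 := by
    intro v' hv'
    have hv'' : (if (v' : ℕ) = 2 then r else 1) = 0 := hv'
    by_cases h : (v' : ℕ) = 2
    · rw [if_pos h] at hv''
      exact ⟨h, hv''⟩
    · rw [if_neg h] at hv''
      exact absurd hv'' (by decide)
  obtain ⟨b2, b3⟩ := b1 v hv
  refine ⟨?_, fun v' hv' => Subtype.ext (b2.trans (b1 v' hv').1.symm)⟩
  have b4 : s = 1 := by
    rcases z2 s with h | h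
    · exact absurd (htr (ht v v.2 b2)) (by
        rintro (h' | h')
        · exact h' b3
        · exact h' h)
    · exact h
  show (if (v : ℕ) = 2 then s else uu v) = 1
  rw [if_pos b2, b4]

theorem card_Vt : Fintype.card (Vt t S₀ : Finset ℕ) ≤ S₀.card + 1 := by
  rw [Fintype.card_coe]
  exact (card_le_card (Vt_sub t S₀)).trans (card_insert_le _ _)

/-- enough large primes -/
theorem enough (hM : 136 ∣ M) (hM0 : 0 < M) {V₀ : ℕ}
    (hp : ∀ i, Po (p i) ∧ p i ∉ S₀ ∧ (p i).Coprime M) (hpi : Function.Injective p)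
    (hR : Rich M (V₀ + 4) S₀ (univ.image p)) :
    4 * Fintype.card (Vt t S₀ : Finset ℕ) + V₀ ≤
      (univ.filter fun k : ι => nv (rr t S₀ p) (Sum.inr k) = 1).card ∧
    4 * Fintype.card (Vt t S₀ : Finset ℕ) + V₀ ≤
      (univ.filter fun k : ι => ud s (rr t S₀ p) (Sum.inr k) = 1).card ∧
    4 * Fintype.card (Vt t S₀ : Finset ℕ) + V₀ ≤
      (univ.filter fun k : ι => nv (rr t S₀ p) (Sum.inr k) ≠ ud s (rr t S₀ p) (Sum.inr k)).card := by
  have h17 : ∀ k, p k ≠ 17 := by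
    intro k h
    have h1 := (hp k).2.2
    rw [h] at h1
    have : (17 : ℕ) ∣ M := Dvd.dvd.trans (by norm_num) hM
    have := Nat.Coprime.eq_one_of_dvd h1 this
    omega
  have hnv : ∀ k, nv (rr t S₀ p) (Sum.inr k) = nr 17 (p k % 17) := by
    intro k
    show nr (p k) 17 = _
    rw [nr17 (hp k).1 (h17 k), nr17_mod]
  have hud : ∀ k, ud s (rr t S₀ p) (Sum.inr k) = uu (p k) := fun k => if_neg (hp k).1.2
  have hle : 4 * Fintype.card (Vt t S₀ : Finset ℕ) + V₀ ≤ (V₀ + 4) * (S₀.card + 1) := by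
    have h1 := card_Vt (t := t) (S₀ := S₀)
    have h2 : (V₀ + 4) * (S₀.card + 1) = V₀ * S₀.card + V₀ + 4 * (S₀.card + 1) := by ring
    rw [h2]
    have := Nat.zero_le (V₀ * S₀.card)
    omega
  have m17 : ∀ {k a : ℕ}, k % 136 = a % 136 → k % 17 = a % 17 := by
    intro k a h
    have h1 := congrArg (· % 17) h
    simp only [Nat.mod_mod_of_dvd _ (show 17 ∣ 136 by norm_num)] at h1
    exact h1
  have m4 : ∀ {k a : ℕ}, k % 136 = a % 136 → k % 4 = a % 4 := by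
    intro k a h
    have h1 := congrArg (· % 4) h
    simp only [Nat.mod_mod_of_dvd _ (show 4 ∣ 136 by norm_num)] at h1
    exact h1
  refine ⟨hle.trans ?_, hle.trans ?_, hle.trans ?_⟩
  · refine rich_cls hpi hR hM0 hM 3 ?_ _ fun i hi => ?_
    · rw [ZMod.isUnit_iff_coprime]
      norm_num
    · rw [hnv, m17 hi]
      exact nr17_3
  · refine rich_cls hpi hR hM0 hM 3 ?_ _ fun i hi => ?_
    · rw [ZMod.isUnit_iff_coprime]
      norm_num
    · rw [hud]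
      unfold uu
      rw [if_pos (m4 hi)]
  · refine rich_cls hpi hR hM0 hM 5 ?_ _ fun i hi => ?_
    · rw [ZMod.isUnit_iff_coprime]
      norm_num
    · rw [hnv, m17 hi, hud]
      unfold uu
      rw [if_neg (by rw [m4 hi]; norm_num)]
      show nr 17 (5 % 17) ≠ 0
      rw [show 5 % 17 = 5 from rfl, nr17_5]
      decide

/-- two tuples of large primes -/
theorem two_q (hM : 136 ∣ M) (hM0 : 0 < M) (hS₀ : ∀ v ∈ S₀, Po v)
    (hp : ∀ i, Po (p i) ∧ p i ∉ S₀ ∧ (p i).Coprime M) (hpi : Function.Injective p) {q : ι → ℕ}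
    (hqi : Function.Injective q) (hq : ∀ i, Po (q i) ∧ q i ∉ S₀ ∧ q i % M = p i % M ∧
      ∀ v ∈ S₀, nr (q i) v = nr (p i) v) :
    NR r s (rr t S₀ q) = pt (NR r s (rr t S₀ p)) (sx (sgm q + sgm p)) ∧
    nv (rr t S₀ q) = nv (rr t S₀ p) ∧ ud s (rr t S₀ q) = ud s (rr t S₀ p) := by
  have h8 := d8 hM
  have h4M : (4 : ℕ) ∣ M := Dvd.dvd.trans (by norm_num) hM
  have hmod4 : ∀ i, q i % 4 = p i % 4 := by
    intro i
    rw [← Nat.mod_mod_of_dvd (q i) h4M, (hq i).2.2.1, Nat.mod_mod_of_dvd (p i) h4M]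
  have huu : ∀ i, uu (q i) = uu (p i) := fun i => uu_mod h8 (hq i).2.2.1
  have hqc : ∀ i, (q i).Coprime M := by
    intro i
    have h1 := (hp i).2.2
    rw [Nat.coprime_comm, Nat.Coprime, Nat.gcd_rec] at h1 ⊢
    rw [(hq i).2.2.1]
    exact h1
  have hv : ∀ i, ∀ v ∈ Bs M S₀, nr (q i) v = nr (p i) v := fun i =>
    nr_Bs h8 (hq i).1 (hp i).1 (hqc i) (hp i).2.2 (hq i).2.2.1 (hq i).2.2.2
  refine ⟨?_, ?_, ?_⟩
  · refine two_tuples (S₀ := S₀) (τ := fun i => p i % 4) t r s hqi hpi (fun i => (hq i).1)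
      (fun i => (hp i).1) hmod4 (fun i => rfl) (fun i => ?_)
    refine Prod.ext ?_ ?_
    · funext v
      exact hv i v (sub_Bs h8 hM0 S₀ v.2)
    · funext v
      show nr v (q i) = nr v (p i)
      have hne1 : q i ≠ v := fun h => (hq i).2.1 (h ▸ v.2)
      have hne2 : p i ≠ v := fun h => (hp i).2.1 (h ▸ v.2)
      rw [nr_rec (hq i).1.1 (hq i).1.2 (hS₀ v v.2).1 (hS₀ v v.2).2 hne1,
        nr_rec (hp i).1.1 (hp i).1.2 (hS₀ v v.2).1 (hS₀ v v.2).2 hne2, huu,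
        hv i v (sub_Bs h8 hM0 S₀ (mem_insert_of_mem v.2))]
  · funext i
    rcases i with v | k
    · rfl
    · exact hv k 17 (mem17 hM hM0 S₀)
  · funext i
    rcases i with v | k
    · rfl
    · show (if q k = 2 then s else uu (q k)) = if p k = 2 then s else uu (p k)
      rw [if_neg (hq k).1.2, if_neg (hp k).1.2, huu]

end

/-- shifting the symbols -/
theorem shift_card {ι : Type} [Fintype ι] [LinearOrder ι] (P : (ps ι → ZMod 2) → Prop)
    (τ : ps ι → ZMod 2) : (univ.filter fun σ : ps ι → ZMod 2 => P (σ + τ)).card =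
      (univ.filter P).card := by
  refine card_bij (fun σ _ => σ + τ) ?_ ?_ ?_
  · intro σ hσ
    rw [mem_filter] at hσ ⊢
    exact ⟨mem_univ _, hσ.2⟩
  · intro σ _ σ' _ h
    exact add_right_cancel h
  · intro σ hσ
    refine ⟨σ - τ, ?_, sub_add_cancel _ _⟩
    rw [mem_filter] at hσ ⊢
    refine ⟨mem_univ _, ?_⟩
    simp only [sub_add_cancel]
    exact hσ.2

/-- **unramified** -/
theorem lah_u {M : ℕ} (hM : 136 ∣ M) (hM0 : 0 < M) {t : Bool} {r s : ZMod 2} {K : Finset ℕ}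
    (hts : t = false → s = 0) (htr : t = true → r ≠ 0 ∨ s ≠ 0)
    (hK : ∀ a ∈ K, a % 4 = (if s = 0 then 3 else 1) ∧ nr 17 a = 1) : LAH M K (Gu t r s) c2 := by
  have h8 := d8 hM
  have h4M : (4 : ℕ) ∣ M := Dvd.dvd.trans (by norm_num) hM
  have h17M : (17 : ℕ) ∣ M := Dvd.dvd.trans (by norm_num) hM
  intro ε hε
  obtain ⟨V₀, hV₀⟩ := la_u ε hε
  refine ⟨V₀ + 4, ?_⟩
  intro ι _ _ S₀ p hS₀ hp hpi hpK hN hR
  have h2S : 2 ∉ S₀ := fun h => (hS₀ 2 h).2 rfl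
  set r₀ := rr t S₀ p with hr₀
  have hrp : ∀ i, (r₀ i).Prime := prm hS₀ hp
  have hrinj : Function.Injective r₀ := rr_inj t hpi (fun i => (hp i).2.1) fun i => (hp i).1.2
  have hK4 := (hK _ hpK).1
  have hK17 := (hK _ hpK).2
  rw [Nat.mod_mod_of_dvd _ h4M] at hK4
  rw [nr17_mod, Nat.mod_mod_of_dvd _ h17M, ← nr17_mod] at hK17
  have h17S : 17 ∉ S₀ := by
    intro h
    have h1 : 17 ∣ (∏ v ∈ S₀, v) * ∏ i, p i :=
      Dvd.dvd.mul_right (dvd_prod_of_mem (fun x => x) h) _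
    rw [nr17_mod, Nat.mod_eq_zero_of_dvd h1] at hK17
    unfold nr at hK17
    rw [if_pos (by decide)] at hK17
    exact absurd hK17 (by decide)
  have h17V : 17 ∉ Vt t S₀ := by
    intro h
    rcases mem_Vt.1 h with h | h
    · exact absurd h.2 (by norm_num)
    · exact h17S h
  obtain ⟨e1, e2, e3⟩ := enough (t := t) (s := s) hM hM0 hp hpi hR
  have h2 := hV₀ (Vt t S₀) ι (wd r r₀) (ud s r₀) (nv r₀) (NR r s r₀)
    (fun k => if_neg (hp k).1.2) (sum_ud hS₀ hp hpi hts hK4) (sum_nv hS₀ hp hpi hK17)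
    (fun i j hij => rec_NR r s hrinj hrp i j hij) (uniq2 htr hS₀)
    (by
      intro b s' a hbs
      set w : ℕ → ZMod 2 := fun n => if h : n ∈ Vt t S₀ then b ⟨n, h⟩ else if n = 17 then a else 0
        with hw
      have hw1 : ∀ v : (Vt t S₀ : Finset ℕ), w v = b v := fun v => by
        rw [hw]
        exact dif_pos v.2
      have hw17 : w 17 = a := by
        rw [hw]
        show dite _ _ _ = _
        rw [dif_neg h17V, if_pos rfl]
      have hw2 : ∀ n, n ∉ insert 17 (Vt t S₀) → w n = 0 := fun n hn => by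
        rw [mem_insert, not_or] at hn
        rw [hw]
        show dite _ _ _ = _
        rw [dif_neg hn.2, if_neg hn.1]
      have hsub : insert 17 (Vt t S₀) ⊆ Bs M S₀ := by
        intro x hx
        rcases mem_insert.1 hx with h | h
        · rw [h]
          exact mem17 hM hM0 S₀
        · exact (Vt_sub t S₀).trans (sub_Bs h8 hM0 S₀) h
      obtain ⟨x, hx, hx2⟩ := hN w s' (by
        rcases hbs with ⟨v, hv⟩ | h | h
        · exact Or.inl ⟨v, hsub (mem_insert_of_mem v.2), by rw [hw1]; exact hv⟩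
        · exact Or.inr h
        · exact Or.inl ⟨17, mem17 hM hM0 S₀, by rw [hw17]; exact h⟩)
      obtain ⟨k, -, rfl⟩ := mem_image.1 hx
      refine ⟨k, ?_⟩
      have hur : ud s r₀ (Sum.inr k) = uu (p k) := if_neg (hp k).1.2
      rw [hur]
      intro h0
      apply hx2
      refine Eq.trans ?_ h0
      have c2 : ∑ v ∈ insert 17 (Vt t S₀), w v * nr (p k) v = ∑ v ∈ Bs M S₀, w v * nr (p k) v :=
        sum_subset hsub fun x _ hx => by rw [hw2 x hx, zero_mul]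
      have c3 : ∑ v : (Vt t S₀ : Finset ℕ), b v * NR r s r₀ (Sum.inl v) (Sum.inr k) =
          ∑ v ∈ Vt t S₀, w v * nr (p k) v := by
        rw [← Finset.sum_coe_sort (Vt t S₀)]
        refine sum_congr rfl fun v _ => ?_
        rw [hw1]
        congr 1
        exact sy_ne r s (hp k).1.2
      rw [← c2, sum_insert h17V, hw17, c3]
      show a * nr (p k) 17 + _ + _ = _ + _ + a * nr (p k) 17
      ring)
    e1 e2 e3
  refine ⟨fun σ => Kx (nv r₀) (ud s r₀) (Lm (pt (NR r s r₀) (sx (σ + sgm p)))), ?_, ?_⟩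
  · intro q hqi hq
    rw [Gu_iff (rr_inj t hqi (fun i => (hq i).2.1) fun i => (hq i).1.2) (rr_im t)]
    obtain ⟨a1, a2, a3⟩ := two_q (t := t) (r := r) (s := s) hM hM0 hS₀ hp hpi hqi hq
    rw [a1, a2, a3]
    rfl
  · rw [shift_card (fun σ => Kx (nv r₀) (ud s r₀) (Lm (pt (NR r s r₀) (sx σ))))]
    exact h2

/-- **ramified** -/
theorem lah_w {M : ℕ} (hM : 136 ∣ M) (hM0 : 0 < M) {t : Bool} {r s : ZMod 2} {K : Finset ℕ}
    (hts : t = false → s = 0) (htr : t = true → r ≠ 0 ∨ s ≠ 0)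
    (hK : ∀ a ∈ K, a % 4 = (if s = 0 then 3 else 1) ∧ 17 ∣ a) : LAH M K (Gw t r s) c2 := by
  have h8 := d8 hM
  have h4M : (4 : ℕ) ∣ M := Dvd.dvd.trans (by norm_num) hM
  have h17M : (17 : ℕ) ∣ M := Dvd.dvd.trans (by norm_num) hM
  intro ε hε
  obtain ⟨V₀, hV₀⟩ := la_r ε hε
  refine ⟨V₀ + 4, ?_⟩
  intro ι _ _ S₀ p hS₀ hp hpi hpK hN hR
  have h2S : 2 ∉ S₀ := fun h => (hS₀ 2 h).2 rfl
  set r₀ := rr t S₀ p with hr₀
  have hrp : ∀ i, (r₀ i).Prime := prm hS₀ hp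
  have hrinj : Function.Injective r₀ := rr_inj t hpi (fun i => (hp i).2.1) fun i => (hp i).1.2
  have hK4 := (hK _ hpK).1
  have hK17 := (hK _ hpK).2
  rw [Nat.mod_mod_of_dvd _ h4M] at hK4
  have hK17' : 17 ∣ (∏ v ∈ S₀, v) * ∏ i, p i := (Nat.dvd_mod_iff h17M).1 hK17
  have h17S : 17 ∈ S₀ := by
    rcases (p17.dvd_mul).1 hK17' with h | h
    · obtain ⟨v, hv, hv'⟩ := (Prime.dvd_finset_prod_iff p17.prime _).1 h
      have := (Nat.prime_dvd_prime_iff_eq p17 (hS₀ v hv).1).1 hv'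
      rw [this]
      exact hv
    · obtain ⟨k, -, hk⟩ := (Prime.dvd_finset_prod_iff p17.prime _).1 h
      have h1 := (Nat.prime_dvd_prime_iff_eq p17 (hp k).1.1).1 hk
      have h2 := (hp k).2.2
      rw [← h1] at h2
      have := Nat.Coprime.eq_one_of_dvd h2 h17M
      omega
  have h17V : 17 ∈ Vt t S₀ := mem_Vt.2 (Or.inr h17S)
  obtain ⟨e1, e2, e3⟩ := enough (t := t) (s := s) hM hM0 hp hpi hR
  have h2 := hV₀ (Vt t S₀) ι ⟨17, h17V⟩ (wd r r₀) (ud s r₀) (nv r₀) (NR r s r₀)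
    (fun k => if_neg (hp k).1.2) (sum_ud hS₀ hp hpi hts hK4) (if_neg (by
      show (17 : ℕ) ≠ 2
      norm_num))
    (by
      show (if (17 : ℕ) = 2 then s else uu 17) = 0
      rw [if_neg (by norm_num), uu17])
    (fun k => (sy_ne r s (hp k).1.2).symm)
    (fun i j hij => rec_NR r s hrinj hrp i j hij) (uniq2 htr hS₀)
    (by
      intro b s' hbs
      set w : ℕ → ZMod 2 := fun n => if h : n ∈ Vt t S₀ then b ⟨n, h⟩ else 0 with hw
      have hw1 : ∀ v : (Vt t S₀ : Finset ℕ), w v = b v := fun v => by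
        rw [hw]
        exact dif_pos v.2
      have hw2 : ∀ n, n ∉ Vt t S₀ → w n = 0 := fun n hn => by
        rw [hw]
        exact dif_neg hn
      have hsub : Vt t S₀ ⊆ Bs M S₀ := (Vt_sub t S₀).trans (sub_Bs h8 hM0 S₀)
      obtain ⟨x, hx, hx2⟩ := hN w s' (by
        rcases hbs with ⟨v, hv⟩ | h
        · exact Or.inl ⟨v, hsub v.2, by rw [hw1]; exact hv⟩
        · exact Or.inr h)
      obtain ⟨k, -, rfl⟩ := mem_image.1 hx
      refine ⟨k, ?_⟩
      have hur : ud s r₀ (Sum.inr k) = uu (p k) := if_neg (hp k).1.2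
      rw [hur]
      intro h0
      apply hx2
      refine Eq.trans ?_ h0
      congr 1
      have c2 : ∑ v ∈ Vt t S₀, w v * nr (p k) v = ∑ v ∈ Bs M S₀, w v * nr (p k) v :=
        sum_subset hsub fun x _ hx => by rw [hw2 x hx, zero_mul]
      have c3 : ∑ v : (Vt t S₀ : Finset ℕ), b v * NR r s r₀ (Sum.inl v) (Sum.inr k) =
          ∑ v ∈ Vt t S₀, w v * nr (p k) v := by
        rw [← Finset.sum_coe_sort (Vt t S₀)]
        refine sum_congr rfl fun v _ => ?_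
        rw [hw1]
        congr 1
        exact sy_ne r s (hp k).1.2
      exact c2.symm.trans c3.symm)
    e1 e2 e3
  refine ⟨fun σ => Kr (Sum.inl ⟨17, h17V⟩) (nv r₀) (ud s r₀)
    (Lm (pt (NR r s r₀) (sx (σ + sgm p)))), ?_, ?_⟩
  · intro q hqi hq
    rw [Gw_iff (v0 := Sum.inl ⟨17, h17V⟩) (rr_inj t hqi (fun i => (hq i).2.1) fun i => (hq i).1.2)
      (rr_im t) rfl]
    obtain ⟨a1, a2, a3⟩ := two_q (t := t) (r := r) (s := s) hM hM0 hS₀ hp hpi hqi hq
    rw [a1, a2, a3]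
    rfl
  · rw [shift_card (fun σ => Kr (Sum.inl ⟨17, h17V⟩) (nv r₀) (ud s r₀)
      (Lm (pt (NR r s r₀) (sx σ))))]
    exact h2

end Pool.Agent.N916.MO
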