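import Pool.Agent.N916.MO.Mom

/-!
# MO: the main theorem on the random alternating forms
-/

set_option autoImplicit false
set_option linter.all false

open scoped Classical

namespace Pool.Agent.N916.MO

open Finset Module
open Pool.Agent.Y703.CQ (c2)

section
variable {E0 I : Type} [AddCommGroup E0] [Module (ZMod 2) E0] [Fintype E0] [Fintype I]
  [DecidableEq I]

variable {B : EE E0 I →ₗ[ZMod 2] EE E0 I →ₗ[ZMod 2] ZMod 2}

theorem alt_s (hB : ∀ z, B z z = 0) (s : Sy I) (z : EE E0 I) :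
    (B + sB s.1 : EE E0 I →ₗ[ZMod 2] EE E0 I →ₗ[ZMod 2] ZMod 2) z z = 0 := by
  rw [LinearMap.add_apply, LinearMap.add_apply, sB_alt, hB, add_zero]

theorem dR_even (hB : ∀ z, B z z = 0) (hE : Even (finrank (ZMod 2) E0)) (s : Sy I)
    (A : Finset I) : ∃ r, dR B s A = 2 * r := by
  have h := parity (B := (B + sB s.1 : EE E0 I →ₗ[ZMod 2] EE E0 I →ₗ[ZMod 2] ZMod 2))
    (alt_s hB s) (EA A)
  rw [fr_EA] at h
  have h2 : Even (finrank (ZMod 2) E0 + 2 * A.card) := hE.add (even_two_mul _)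
  have h3 := (Nat.even_add.1 h).1 h2
  obtain ⟨r, hr⟩ := h3
  refine ⟨r, ?_⟩
  unfold dR
  omega

/-- the sums -/
noncomputable def VV (B : EE E0 I →ₗ[ZMod 2] EE E0 I →ₗ[ZMod 2] ZMod 2) (t : ℕ) (A : Finset I) : ℝ :=
  ∑ s : Sy I, hh t (dR B s A / 2)

theorem step (hB : ∀ z, B z z = 0) (hE : Even (finrank (ZMod 2) E0)) {δ : ℝ} {A : Finset I} {n : I}
    (hn : n ∉ A) (hb : Bd B A δ) (t : ℕ) :
    |VV B t (insert n A) - VV B (t + 1) A| ≤ 534 * δ * Fintype.card (Sy I) := by
  set M : ℝ := 2 ^ (Fintype.card I + 1) with hM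
  have hMpos : 0 < M := by rw [hM]; positivity
  have hMc : (∑ φ : I → ZMod 2, ∑ ε : ZMod 2, (1 : ℝ)) = M := by
    rw [sum_const, sum_const, Finset.card_univ, Finset.card_univ, Fintype.card_fun, ZMod.card,
      nsmul_eq_mul, nsmul_eq_mul, hM]
    push_cast
    ring
  have h1 : M * VV B t (insert n A) =
      ∑ s : Sy I, ∑ φ : I → ZMod 2, ∑ ε : ZMod 2,
        hh t (dR B (s + Pp n φ ε) (insert n A) / 2) := by
    rw [sum_comm]
    have e : ∀ φ : I → ZMod 2, ∑ s : Sy I, ∑ ε : ZMod 2,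
        hh t (dR B (s + Pp n φ ε) (insert n A) / 2) = ∑ ε : ZMod 2, VV B t (insert n A) := by
      intro φ
      rw [sum_comm]
      refine sum_congr rfl fun ε _ => ?_
      unfold VV
      exact Equiv.sum_comp (Equiv.addRight (Pp n φ ε)) fun s => hh t (dR B s (insert n A) / 2)
    rw [sum_congr rfl fun φ _ => e φ, ← hMc, sum_mul]
    refine sum_congr rfl fun φ _ => ?_
    rw [sum_mul]
    refine sum_congr rfl fun ε _ => ?_
    rw [one_mul]
  have h2 : M * (VV B t (insert n A) - VV B (t + 1) A) = ∑ s : Sy I,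
      ((∑ φ : I → ZMod 2, ∑ ε : ZMod 2, hh t (dR B (s + Pp n φ ε) (insert n A) / 2)) -
        M * hh (t + 1) (dR B s A / 2)) := by
    rw [mul_sub, h1, sum_sub_distrib]
    unfold VV
    rw [mul_sum]
  have h3 : ∀ s : Sy I, |(∑ φ : I → ZMod 2, ∑ ε : ZMod 2,
      hh t (dR B (s + Pp n φ ε) (insert n A) / 2)) - M * hh (t + 1) (dR B s A / 2)| ≤
      if ¬ Gen B s A then M else 0 := by
    intro s
    by_cases hg : Gen B s A
    · obtain ⟨r, hr⟩ := dR_even hB hE s A
      rw [if_neg (not_not.2 hg), chain hB s hn hg hr, hr, Nat.mul_div_cancel_left r two_pos, hM,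
        sub_self, abs_zero]
    · rw [if_pos hg]
      have a1 : 0 ≤ ∑ φ : I → ZMod 2, ∑ ε : ZMod 2,
          hh t (dR B (s + Pp n φ ε) (insert n A) / 2) :=
        sum_nonneg fun φ _ => sum_nonneg fun ε _ => hh_nonneg _ _
      have a2 : ∑ φ : I → ZMod 2, ∑ ε : ZMod 2,
          hh t (dR B (s + Pp n φ ε) (insert n A) / 2) ≤ M := by
        rw [← hMc]
        exact sum_le_sum fun φ _ => sum_le_sum fun ε _ => hh_le1 _ _
      have a3 : 0 ≤ M * hh (t + 1) (dR B s A / 2) := mul_nonneg hMpos.le (hh_nonneg _ _)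
      have a4 : M * hh (t + 1) (dR B s A / 2) ≤ M := mul_le_of_le_one_right hMpos.le (hh_le1 _ _)
      rw [abs_le]
      constructor <;> linarith
  have h4 : |M * (VV B t (insert n A) - VV B (t + 1) A)| ≤
      M * ((univ.filter fun s : Sy I => ¬ Gen B s A).card : ℝ) := by
    rw [h2]
    refine (abs_sum_le_sum_abs _ _).trans ((sum_le_sum fun s _ => h3 s).trans ?_)
    rw [← sum_filter, sum_const, nsmul_eq_mul, mul_comm]
  rw [abs_mul, abs_of_pos hMpos] at h4
  exact (le_of_mul_le_mul_left h4 hMpos).trans (bad_le hb)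

theorem steps (hB : ∀ z, B z z = 0) (hE : Even (finrank (ZMod 2) E0)) {δ : ℝ} (K : Finset I)
    (hb : ∀ A : Finset I, Kᶜ ⊆ A → Bd B A δ) :
    |VV B 0 univ - VV B K.card Kᶜ| ≤ K.card * (534 * δ * Fintype.card (Sy I)) := by
  induction K using Finset.induction_on with
  | empty =>
    rw [compl_empty, card_empty, sub_self, abs_zero, Nat.cast_zero, zero_mul]
  | insert n K hn ih =>
    have h1 := ih fun A hA => hb A (by
      refine Subset.trans ?_ hA
      exact compl_subset_compl.2 (subset_insert n K))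
    have h2 : insert n (insert n K)ᶜ = Kᶜ := by
      ext k
      simp only [mem_insert, mem_compl]
      constructor
      · rintro (rfl | h)
        · exact hn
        · exact fun h' => h (Or.inr h')
      · intro h
        by_cases hk : k = n
        · exact Or.inl hk
        · exact Or.inr fun h' => h'.elim hk h
    have h3 := step hB hE (n := n) (A := (insert n K)ᶜ) (by simp) (hb _ Subset.rfl) K.card
    rw [h2] at h3
    rw [card_insert_of_notMem hn]
    have h4 : VV B 0 univ - VV B (K.card + 1) (insert n K)ᶜ =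
        (VV B 0 univ - VV B K.card Kᶜ) + (VV B K.card Kᶜ - VV B (K.card + 1) (insert n K)ᶜ) := by
      ring
    rw [h4]
    refine (abs_add_le _ _).trans ?_
    push_cast
    linarith

/-- the forms without radical -/
def Nde (B : EE E0 I →ₗ[ZMod 2] EE E0 I →ₗ[ZMod 2] ZMod 2) (s : Sy I) : Prop :=
  ∀ z, (∀ w, (B + sB s.1 : EE E0 I →ₗ[ZMod 2] EE E0 I →ₗ[ZMod 2] ZMod 2) z w = 0) → z = 0

theorem V0 (hB : ∀ z, B z z = 0) (hE : Even (finrank (ZMod 2) E0)) :
    VV B 0 univ = ((univ.filter (Nde B)).card : ℝ) := by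
  unfold VV
  rw [card_filter, Nat.cast_sum]
  refine sum_congr rfl fun s _ => ?_
  rw [hh_zero]
  obtain ⟨r, hr⟩ := dR_even hB hE s univ
  rw [hr, Nat.mul_div_cancel_left r two_pos]
  have h : r = 0 ↔ Nde B s := by
    have h1 : r = 0 ↔ Rad (B + sB s.1) (EA univ) = ⊥ := by
      rw [← Submodule.finrank_eq_zero (R := ZMod 2)]
      unfold dR at hr
      omega
    rw [h1, EA_univ, eq_bot_iff]
    constructor
    · intro h z hz
      exact (Submodule.mem_bot _).1 (h ⟨Submodule.mem_top, fun w _ => hz w⟩)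
    · rintro h z ⟨-, hz⟩
      exact (Submodule.mem_bot _).2 (h z fun w => hz w Submodule.mem_top)
  by_cases h0 : r = 0
  · rw [if_pos h0, if_pos (h.1 h0), Nat.cast_one]
  · rw [if_neg h0, if_neg (fun h' => h0 (h.2 h')), Nat.cast_zero]

theorem near (hB : ∀ z, B z z = 0) (hE : Even (finrank (ZMod 2) E0)) {δ : ℝ} {A : Finset I}
    (hb : Bd B A δ) (t : ℕ) :
    |VV B t A - c2 * Fintype.card (Sy I)| ≤ (18 + 6 * δ) * Fintype.card (Sy I) / 4 ^ t := by
  have h1 : VV B t A - c2 * Fintype.card (Sy I) = ∑ s : Sy I, (hh t (dR B s A / 2) - c2) := by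
    rw [sum_sub_distrib, sum_const, Finset.card_univ, nsmul_eq_mul, mul_comm c2]
    rfl
  rw [h1]
  refine (abs_sum_le_sum_abs _ _).trans ?_
  have h2 : ∀ s : Sy I, |hh t (dR B s A / 2) - c2| ≤ ((2 : ℝ) ^ dR B s A + 1) / 4 ^ t := by
    intro s
    obtain ⟨r, hr⟩ := dR_even hB hE s A
    rw [hr, Nat.mul_div_cancel_left r two_pos, pow_mul]
    have := hh_c2 t r
    norm_num at this ⊢
    exact this
  refine (sum_le_sum fun s _ => h2 s).trans ?_
  rw [← sum_div, sum_add_distrib, sum_const, Finset.card_univ, nsmul_eq_mul, mul_one]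
  refine div_le_div_of_nonneg_right ?_ (by positivity)
  have := mom hB hb
  linarith

end

/-- **the main theorem**: if the bounds hold for all large subsets, the proportion of the
nondegenerate forms is near to `c2` -/
theorem main (ε : ℝ) (hε : 0 < ε) : ∃ (T : ℕ) (δ : ℝ), 0 < δ ∧
    ∀ (E0 I : Type) [AddCommGroup E0] [Module (ZMod 2) E0] [Fintype E0] [Fintype I]
      [DecidableEq I] (B : EE E0 I →ₗ[ZMod 2] EE E0 I →ₗ[ZMod 2] ZMod 2) (K : Finset I),
      (∀ z, B z z = 0) → Even (finrank (ZMod 2) E0) → K.card = T →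
      (∀ A : Finset I, Kᶜ ⊆ A → Bd B A δ) →
      |((univ.filter (Nde B)).card : ℝ) / Fintype.card (Sy I) - c2| ≤ ε := by
  obtain ⟨T, hT⟩ : ∃ T : ℕ, (24 : ℝ) / 4 ^ T ≤ ε / 2 := by
    obtain ⟨T, hT⟩ := exists_pow_lt_of_lt_one (show (0 : ℝ) < ε / 2 / 24 by positivity)
      (show (1 / 4 : ℝ) < 1 by norm_num)
    refine ⟨T, ?_⟩
    rw [one_div_pow, lt_div_iff₀ (by norm_num)] at hT
    rw [div_eq_mul_one_div]
    linarith
  set δ : ℝ := min 1 (ε / 2 / (534 * (T + 1))) with hδ
  have hδ0 : 0 < δ := lt_min one_pos (by positivity)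
  have hδ1 : δ ≤ 1 := min_le_left _ _
  have hδ2 : δ * (534 * (T + 1)) ≤ ε / 2 := by
    have : δ ≤ ε / 2 / (534 * (T + 1)) := min_le_right _ _
    rwa [le_div_iff₀ (by positivity)] at this
  refine ⟨T, δ, hδ0, ?_⟩
  intro E0 I _ _ _ _ _ B K hB hE hK hb
  have hN : (0 : ℝ) < Fintype.card (Sy I) := by
    exact_mod_cast Fintype.card_pos
  set N : ℝ := ((Fintype.card (Sy I) : ℕ) : ℝ) with hNN
  have h1 := steps hB hE K hb
  rw [V0 hB hE, hK] at h1
  have h2 := near hB hE (hb _ Subset.rfl) T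
  have h3 : |((univ.filter (Nde B)).card : ℝ) - c2 * N| ≤ ε * N := by
    have h4 : ((univ.filter (Nde B)).card : ℝ) - c2 * N =
        (((univ.filter (Nde B)).card : ℝ) - VV B T Kᶜ) + (VV B T Kᶜ - c2 * N) := by ring
    rw [h4]
    refine (abs_add_le _ _).trans ((add_le_add h1 h2).trans ?_)
    have h5 : (18 + 6 * δ) * N / 4 ^ T ≤ ε / 2 * N := by
      have h6 : (18 + 6 * δ) * N / 4 ^ T = (18 + 6 * δ) / 4 ^ T * N := by ring
      rw [h6]
      refine mul_le_mul_of_nonneg_right (le_trans ?_ hT) hN.le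
      exact div_le_div_of_nonneg_right (by linarith) (by positivity)
    have h7 : (T : ℝ) * (534 * δ * N) ≤ ε / 2 * N := by
      have h8 : (T : ℝ) * (534 * δ * N) = (δ * (534 * T)) * N := by ring
      rw [h8]
      refine mul_le_mul_of_nonneg_right (le_trans ?_ hδ2) hN.le
      exact mul_le_mul_of_nonneg_left (by linarith) hδ0.le
    linarith
  have h4 : ((univ.filter (Nde B)).card : ℝ) / N - c2 =
      (((univ.filter (Nde B)).card : ℝ) - c2 * N) / N := by
    field_simp
  rw [h4, abs_div, abs_of_pos hN, div_le_iff₀ hN]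
  exact h3

end Pool.Agent.N916.MO
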