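import Pool.Agent.N916.MO.Bd

/-!
# MO: the first moment
-/

set_option autoImplicit false
set_option linter.all false

open scoped Classical

namespace Pool.Agent.N916.MO

open Finset Module

section
variable {E0 I : Type} [AddCommGroup E0] [Module (ZMod 2) E0] [Fintype E0] [Fintype I]
  [DecidableEq I]

theorem fr_EA (A : Finset I) : finrank (ZMod 2) (EA A : Submodule (ZMod 2) (EE E0 I)) =
    finrank (ZMod 2) E0 + 2 * A.card := by
  induction A using Finset.induction_on with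
  | empty =>
    rw [card_empty, mul_zero, add_zero]
    let e : (EA ∅ : Submodule (ZMod 2) (EE E0 I)) ≃ₗ[ZMod 2] E0 :=
      { toFun := fun z => z.1.1
        map_add' := fun _ _ => rfl
        map_smul' := fun _ _ => rfl
        invFun := fun e => ⟨(e, 0, 0), fun k _ => ⟨rfl, rfl⟩⟩
        left_inv := fun z => by
          refine Subtype.ext (Prod.ext rfl (Prod.ext ?_ ?_))
          · funext k
            exact (z.2 k (notMem_empty k)).1.symm
          · funext k
            exact (z.2 k (notMem_empty k)).2.symm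
        right_inv := fun e => rfl }
    exact e.finrank_eq
  | insert n A hn ih =>
    rw [EA_insert hn, fr2 (fy_notin hn), fr2 (fx_notin hn), ih, card_insert_of_notMem hn]
    ring

theorem fx_mem {A : Finset I} {k : I} (hk : k ∈ A) : (fx k : EE E0 I) ∈ EA A := by
  intro l hl
  refine ⟨?_, rfl⟩
  show (Pi.single k 1 : I → ZMod 2) l = 0
  exact Pi.single_eq_of_ne (fun h => hl (by rw [h]; exact hk)) 1

theorem fy_mem {A : Finset I} {k : I} (hk : k ∈ A) : (fy k : EE E0 I) ∈ EA A := by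
  intro l hl
  refine ⟨rfl, ?_⟩
  show (Pi.single k 1 : I → ZMod 2) l = 0
  exact Pi.single_eq_of_ne (fun h => hl (by rw [h]; exact hk)) 1

variable {B : EE E0 I →ₗ[ZMod 2] EE E0 I →ₗ[ZMod 2] ZMod 2} {A : Finset I}

theorem card_n0 (hB : ∀ z, B z z = 0) {δ : ℝ} (hb : Bd B A δ) :
    (univ.filter fun z : EE E0 I => z ∈ EA A ∧
      ∀ w : EE E0 I, w.2.1 = 0 → w.2.2 = 0 → B z w = 0).card ≤ 2 ^ (2 * A.card) := by
  let L : E0 →ₗ[ZMod 2] Module.Dual (ZMod 2) (EA A : Submodule (ZMod 2) (EE E0 I)) :=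
    { toFun := fun e => (B.flip ((e, 0, 0) : EE E0 I)) ∘ₗ (EA A).subtype
      map_add' := fun a b => by
        refine LinearMap.ext fun z => ?_
        have h : ((a + b, 0, 0) : EE E0 I) = (a, 0, 0) + (b, 0, 0) := by
          refine Prod.ext rfl (Prod.ext ?_ ?_)
          · exact (add_zero _).symm
          · exact (add_zero _).symm
        show B z.1 ((a + b, 0, 0) : EE E0 I) = B z.1 (a, 0, 0) + B z.1 (b, 0, 0)
        rw [h, map_add]
      map_smul' := fun c a => by
        refine LinearMap.ext fun z => ?_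
        have h : ((c • a, 0, 0) : EE E0 I) = c • (a, 0, 0) := by
          refine Prod.ext rfl (Prod.ext ?_ ?_)
          · exact (smul_zero _).symm
          · exact (smul_zero _).symm
        show B z.1 ((c • a, 0, 0) : EE E0 I) = c • B z.1 (a, 0, 0)
        rw [h, map_smul] }
  have hL : ∀ e (z : (EA A : Submodule (ZMod 2) (EE E0 I))), L e z = B z.1 (e, 0, 0) :=
    fun _ _ => rfl
  have inj : Function.Injective L := by
    rw [← LinearMap.ker_eq_bot, LinearMap.ker_eq_bot']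
    intro e he
    have h1 : ∀ z ∈ (EA A : Submodule (ZMod 2) (EE E0 I)), B z (e, 0, 0) = 0 := by
      intro z hz
      have := LinearMap.congr_fun he ⟨z, hz⟩
      exact this
    have h2 := hb.na (e, 0, 0) rfl rfl
      (fun w h1' h2' => by
        rw [symB hB]
        refine h1 w fun k _ => ?_
        rw [h1', h2']
        exact ⟨rfl, rfl⟩)
      (fun k hk => ⟨by rw [symB hB]; exact h1 _ (fx_mem hk), by
        rw [symB hB]; exact h1 _ (fy_mem hk)⟩)
    exact congrArg Prod.fst h2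
  have h1 := Subspace.finrank_add_finrank_dualCoannihilator_eq (LinearMap.range L)
  rw [LinearMap.finrank_range_of_inj inj, fr_EA] at h1
  have h2 : finrank (ZMod 2) (LinearMap.range L).dualCoannihilator = 2 * A.card := by omega
  have h3 := Module.card_eq_pow_finrank (K := ZMod 2) (V := (LinearMap.range L).dualCoannihilator)
  rw [h2, ZMod.card] at h3
  rw [← h3, ← Fintype.card_coe]
  refine Fintype.card_le_of_injective (fun z => ⟨⟨z.1, (mem_filter.1 z.2).2.1⟩, ?_⟩) ?_
  · rw [Submodule.mem_dualCoannihilator]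
    rintro _ ⟨e, rfl⟩
    rw [hL]
    exact (mem_filter.1 z.2).2.2 _ rfl rfl
  · intro z w h
    have h' := congrArg (fun x => x.1.1) h
    exact Subtype.ext h'

/-- a union bound, sum version -/
theorem ub2 {α β : Type} [Fintype α] (T : Finset β) (P : α → β → Prop) {c N : ℝ} {a : ℕ}
    (hT : (T.card : ℝ) ≤ c * 2 ^ a) (C : ℕ)
    (hN : (Fintype.card α : ℝ) = N) (h : ∀ b ∈ T, (univ.filter fun x => P x b).card * 2 ^ a ≤
      C * Fintype.card α) :
    ∑ x : α, ((T.filter fun b => P x b).card : ℝ) ≤ C * c * N := by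
  have h0 : ∑ x : α, ((T.filter fun b => P x b).card : ℝ) =
      ∑ b ∈ T, ((univ.filter fun x => P x b).card : ℝ) := by
    simp only [card_filter, Nat.cast_sum]
    exact sum_comm
  have h3 : ∀ b ∈ T, ((univ.filter fun x => P x b).card : ℝ) ≤ C * N / 2 ^ a := by
    intro b hb
    rw [le_div_iff₀ (by positivity), ← hN]
    exact_mod_cast h b hb
  have hN0 : 0 ≤ N := by
    rw [← hN]
    positivity
  rw [h0]
  calc ∑ b ∈ T, ((univ.filter fun x => P x b).card : ℝ)
      ≤ ∑ b ∈ T, C * N / 2 ^ a := sum_le_sum h3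
    _ = T.card * (C * N / 2 ^ a) := by rw [sum_const, nsmul_eq_mul]
    _ ≤ c * 2 ^ a * (C * N / 2 ^ a) := mul_le_mul_of_nonneg_right hT (by positivity)
    _ = C * c * N := by field_simp

/-- the first moment -/
theorem mom (hB : ∀ z, B z z = 0) {δ : ℝ} (hb : Bd B A δ) :
    ∑ s : Sy I, (2 : ℝ) ^ dR B s A ≤ (17 + 6 * δ) * Fintype.card (Sy I) := by
  set T0 := univ.filter fun z : EE E0 I => (z ∈ EA A ∧
    ∀ w : EE E0 I, w.2.1 = 0 → w.2.2 = 0 → B z w = 0) ∧ z.2.1 ≠ 0 ∧ z.2.2 ≠ 0 ∧ z.2.1 ≠ z.2.2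
    with hT0
  set T1 := univ.filter fun z : EE E0 I => (z ∈ EA A ∧ z.2.1 = 0 ∧ ∀ k ∈ A, B z (fy k) = 0) ∧
    z.2.2 ≠ 0 with hT1
  set T2 := univ.filter fun z : EE E0 I => (z ∈ EA A ∧ z.2.2 = 0 ∧ ∀ k ∈ A, B z (fx k) = 0) ∧
    z.2.1 ≠ 0 with hT2
  set T3 := univ.filter fun z : EE E0 I => (z ∈ EA A ∧ z.2.1 = z.2.2 ∧
    ∀ k ∈ A, B z (fx k) = B z (fy k)) ∧ z.2.1 ≠ 0 with hT3
  have c0 : (T0.card : ℝ) ≤ 1 * 2 ^ (2 * A.card) := by
    rw [one_mul]
    have : T0.card ≤ 2 ^ (2 * A.card) := le_trans (card_le_card fun z hz => by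
      rw [hT0, mem_filter] at hz
      exact mem_filter.2 ⟨mem_univ _, hz.2.1⟩) (card_n0 hB hb)
    exact_mod_cast this
  have c1 : (T1.card : ℝ) ≤ δ * 2 ^ A.card := le_trans (Nat.cast_le.2 (card_le_card fun z hz => by
    rw [hT1, mem_filter] at hz
    exact mem_filter.2 ⟨mem_univ _, hz.2.1⟩)) hb.a1
  have c2 : (T2.card : ℝ) ≤ δ * 2 ^ A.card := le_trans (Nat.cast_le.2 (card_le_card fun z hz => by
    rw [hT2, mem_filter] at hz
    exact mem_filter.2 ⟨mem_univ _, hz.2.1⟩)) hb.a2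
  have c3 : (T3.card : ℝ) ≤ δ * 2 ^ A.card := le_trans (Nat.cast_le.2 (card_le_card fun z hz => by
    rw [hT3, mem_filter] at hz
    exact mem_filter.2 ⟨mem_univ _, hz.2.1⟩)) hb.a3
  have u0 := ub2 T0 (fun (s : Sy I) z => ∀ k ∈ A, ∑ l, s.1 k l * z.2.1 l = B z (fy k) ∧
      ∑ l, s.1 k l * z.2.2 l = B z (fx k)) c0 16 rfl
    (fun z hz => by
      rw [hT0, mem_filter] at hz
      convert sy2 hz.2.2.1 hz.2.2.2.1 hz.2.2.2.2 A (fun k hk => (hz.2.1.1 k hk).1)
        (fun k hk => (hz.2.1.1 k hk).2) (fun k => B z (fy k)) fun k => B z (fx k))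
  have u1 := ub2 T1 (fun (s : Sy I) z => ∀ k ∈ A, ∑ l, s.1 k l * z.2.2 l = B z (fx k)) c1 2 rfl
    (fun z hz => by
      rw [hT1, mem_filter] at hz
      convert sy1 hz.2.2 A (fun k hk => (hz.2.1.1 k hk).2) fun k => B z (fx k))
  have u2 := ub2 T2 (fun (s : Sy I) z => ∀ k ∈ A, ∑ l, s.1 k l * z.2.1 l = B z (fy k)) c2 2 rfl
    (fun z hz => by
      rw [hT2, mem_filter] at hz
      convert sy1 hz.2.2 A (fun k hk => (hz.2.1.1 k hk).1) fun k => B z (fy k))
  have u3 := ub2 T3 (fun (s : Sy I) z => ∀ k ∈ A, ∑ l, s.1 k l * z.2.1 l = B z (fy k)) c3 2 rfl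
    (fun z hz => by
      rw [hT3, mem_filter] at hz
      convert sy1 hz.2.2 A (fun k hk => (hz.2.1.1 k hk).1) fun k => B z (fy k))
  have hs : ∀ s : Sy I, (2 : ℝ) ^ dR B s A ≤ 1 +
      ((T0.filter fun z => ∀ k ∈ A, ∑ l, s.1 k l * z.2.1 l = B z (fy k) ∧
        ∑ l, s.1 k l * z.2.2 l = B z (fx k)).card : ℝ) +
      ((T1.filter fun z => ∀ k ∈ A, ∑ l, s.1 k l * z.2.2 l = B z (fx k)).card : ℝ) +
      ((T2.filter fun z => ∀ k ∈ A, ∑ l, s.1 k l * z.2.1 l = B z (fy k)).card : ℝ) +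
      ((T3.filter fun z => ∀ k ∈ A, ∑ l, s.1 k l * z.2.1 l = B z (fy k)).card : ℝ) := by
    intro s
    have h3 := Module.card_eq_pow_finrank (K := ZMod 2) (V := Rad (B + sB s.1) (EA A))
    rw [ZMod.card] at h3
    have h4 : (2 : ℕ) ^ dR B s A =
        (univ.filter fun z : EE E0 I => z ∈ Rad (B + sB s.1) (EA A)).card := by
      unfold dR
      rw [← h3, ← Fintype.card_subtype]
    have h5 : (univ.filter fun z : EE E0 I => z ∈ Rad (B + sB s.1) (EA A)) ⊆
        {0} ∪ (T0.filter fun z => ∀ k ∈ A, ∑ l, s.1 k l * z.2.1 l = B z (fy k) ∧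
        ∑ l, s.1 k l * z.2.2 l = B z (fx k)) ∪
        (T1.filter fun z => ∀ k ∈ A, ∑ l, s.1 k l * z.2.2 l = B z (fx k)) ∪
        (T2.filter fun z => ∀ k ∈ A, ∑ l, s.1 k l * z.2.1 l = B z (fy k)) ∪
        (T3.filter fun z => ∀ k ∈ A, ∑ l, s.1 k l * z.2.1 l = B z (fy k)) := by
      intro z hz
      have hz := (mem_filter.1 hz).2
      by_cases x0 : z.2.1 = 0
      · by_cases y0 : z.2.2 = 0
        · have := rad_na hb hz x0 y0
          rw [this]
          simp
        · refine mem_union_left _ (mem_union_left _ (mem_union_right _ ?_))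
          rw [mem_filter, hT1, mem_filter]
          refine ⟨⟨mem_univ _, ⟨hz.1, x0, fun k hk => ?_⟩, y0⟩, fun k hk => rad_fx hz hk⟩
          rw [← rad_fy hz hk, x0]
          exact sum_eq_zero fun l _ => mul_zero _
      · by_cases y0 : z.2.2 = 0
        · refine mem_union_left _ (mem_union_right _ ?_)
          rw [mem_filter, hT2, mem_filter]
          refine ⟨⟨mem_univ _, ⟨hz.1, y0, fun k hk => ?_⟩, x0⟩, fun k hk => rad_fy hz hk⟩
          rw [← rad_fx hz hk, y0]
          exact sum_eq_zero fun l _ => mul_zero _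
        · by_cases xy : z.2.1 = z.2.2
          · refine mem_union_right _ ?_
            rw [mem_filter, hT3, mem_filter]
            refine ⟨⟨mem_univ _, ⟨hz.1, xy, fun k hk => ?_⟩, x0⟩, fun k hk => rad_fy hz hk⟩
            rw [← rad_fx hz hk, ← rad_fy hz hk, xy]
          · refine mem_union_left _ (mem_union_left _ (mem_union_left _ (mem_union_right _ ?_)))
            rw [mem_filter, hT0, mem_filter]
            exact ⟨⟨mem_univ _, ⟨hz.1, fun w h1 h2 => rad_e hz h1 h2⟩, x0, y0, xy⟩,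
              fun k hk => ⟨rad_fy hz hk, rad_fx hz hk⟩⟩
    have h6 := (card_le_card h5).trans ((card_union_le _ _).trans (Nat.add_le_add_right
      ((card_union_le _ _).trans (Nat.add_le_add_right ((card_union_le _ _).trans
        (Nat.add_le_add_right (card_union_le _ _) _)) _)) _))
    rw [← h4, card_singleton] at h6
    have h7 := (Nat.cast_le (α := ℝ)).2 h6
    push_cast at h7
    exact h7
  have hsum := sum_le_sum fun s (_ : s ∈ (univ : Finset (Sy I))) => hs s
  rw [sum_add_distrib, sum_add_distrib, sum_add_distrib, sum_add_distrib, sum_const,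
    Finset.card_univ, nsmul_eq_mul, mul_one] at hsum
  refine hsum.trans ?_
  push_cast at u0 u1 u2 u3
  have w0 : ∑ s : Sy I, ((T0.filter fun z => ∀ k ∈ A, ∑ l, s.1 k l * z.2.1 l = B z (fy k) ∧
        ∑ l, s.1 k l * z.2.2 l = B z (fx k)).card : ℝ) ≤ 16 * 1 * Fintype.card (Sy I) := by
    convert u0
  have w1 : ∑ s : Sy I, ((T1.filter fun z => ∀ k ∈ A,
      ∑ l, s.1 k l * z.2.2 l = B z (fx k)).card : ℝ) ≤ 2 * δ * Fintype.card (Sy I) := by
    convert u1
  have w2 : ∑ s : Sy I, ((T2.filter fun z => ∀ k ∈ A,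
      ∑ l, s.1 k l * z.2.1 l = B z (fy k)).card : ℝ) ≤ 2 * δ * Fintype.card (Sy I) := by
    convert u2
  have w3 : ∑ s : Sy I, ((T3.filter fun z => ∀ k ∈ A,
      ∑ l, s.1 k l * z.2.1 l = B z (fy k)).card : ℝ) ≤ 2 * δ * Fintype.card (Sy I) := by
    convert u3
  linarith

end

end Pool.Agent.N916.MO
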