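import Mathlib

/-!
# MO: radicals of alternating forms over the field with two elements
-/

set_option autoImplicit false
set_option linter.all false

open scoped Classical

namespace Pool.Agent.N916.MO

open Module

section
variable {E : Type} [AddCommGroup E] [Module (ZMod 2) E]

/-- the radical of the restriction of a bilinear form to a subspace -/
def Rad (B : E →ₗ[ZMod 2] E →ₗ[ZMod 2] ZMod 2) (W : Submodule (ZMod 2) E) :
    Submodule (ZMod 2) E where
  carrier := {z | z ∈ W ∧ ∀ w ∈ W, B z w = 0}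
  add_mem' := by
    rintro a b ⟨ha, ha'⟩ ⟨hb, hb'⟩
    refine ⟨W.add_mem ha hb, fun w hw => ?_⟩
    rw [map_add, LinearMap.add_apply, ha' w hw, hb' w hw, add_zero]
  zero_mem' := ⟨W.zero_mem, fun w _ => by rw [map_zero, LinearMap.zero_apply]⟩
  smul_mem' := by
    rintro c a ⟨ha, ha'⟩
    refine ⟨W.smul_mem c ha, fun w hw => ?_⟩
    rw [map_smul, LinearMap.smul_apply, ha' w hw, smul_zero]

theorem mem_Rad {B : E →ₗ[ZMod 2] E →ₗ[ZMod 2] ZMod 2} {W : Submodule (ZMod 2) E} {z : E} :
    z ∈ Rad B W ↔ z ∈ W ∧ ∀ w ∈ W, B z w = 0 := Iff.rfl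

theorem zz (a : ZMod 2) : a = 0 ∨ a = 1 := by
  revert a
  decide

theorem aa (a : ZMod 2) : a + a = 0 := by
  revert a
  decide

theorem symB {B : E →ₗ[ZMod 2] E →ₗ[ZMod 2] ZMod 2} (hB : ∀ z, B z z = 0) (z w : E) :
    B z w = B w z := by
  have h := hB (z + w)
  rw [map_add, LinearMap.map_add₂, LinearMap.map_add₂, hB, hB, zero_add, add_zero] at h
  rcases zz (B z w) with h1 | h1 <;> rcases zz (B w z) with h2 | h2 <;> rw [h1, h2] at h ⊢
  · exact absurd h (by decide)
  · exact absurd h (by decide)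

/-- a vector with nonzero values on the radical -/
theorem rad1 {B : E →ₗ[ZMod 2] E →ₗ[ZMod 2] ZMod 2} (hB : ∀ z, B z z = 0)
    {W : Submodule (ZMod 2) E} {f : E} (h : ∃ z ∈ Rad B W, B z f ≠ 0) (z : E) :
    z ∈ Rad B (W ⊔ Submodule.span (ZMod 2) {f}) ↔ z ∈ Rad B W ∧ B z f = 0 := by
  obtain ⟨z0, hz0, h0⟩ := h
  have h1 : B z0 f = 1 := (zz _).resolve_left h0
  constructor
  · rintro ⟨hz, hz'⟩
    obtain ⟨w, hw, v, hv, rfl⟩ := Submodule.mem_sup.1 hz
    obtain ⟨a, rfl⟩ := Submodule.mem_span_singleton.1 hv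
    have h2 := hz' z0 (Submodule.mem_sup_left hz0.1)
    rw [map_add, LinearMap.add_apply, symB hB w z0, hz0.2 w hw, zero_add, map_smul,
      LinearMap.smul_apply, symB hB f z0, h1, smul_eq_mul, mul_one] at h2
    rw [h2, zero_smul, add_zero] at hz' ⊢
    exact ⟨⟨hw, fun v hv => hz' v (Submodule.mem_sup_left hv)⟩,
      hz' f (Submodule.mem_sup_right (Submodule.mem_span_singleton_self f))⟩
  · rintro ⟨⟨hz, hz'⟩, h2⟩
    refine ⟨Submodule.mem_sup_left hz, fun v hv => ?_⟩
    obtain ⟨w, hw, v', hv', rfl⟩ := Submodule.mem_sup.1 hv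
    obtain ⟨a, rfl⟩ := Submodule.mem_span_singleton.1 hv'
    rw [map_add, hz' w hw, map_smul, h2, smul_zero, add_zero]

/-- the functional is represented if it vanishes on the radical -/
theorem rep [Finite E] {B : E →ₗ[ZMod 2] E →ₗ[ZMod 2] ZMod 2}
    {W : Submodule (ZMod 2) E} {f : E} (h : ∀ z ∈ Rad B W, B z f = 0) :
    ∃ w ∈ W, ∀ v ∈ W, B v f = B v w := by
  let T : W →ₗ[ZMod 2] Module.Dual (ZMod 2) W :=
    (LinearMap.domRestrict₁₂ B W W)
  let φ : Module.Dual (ZMod 2) W := (B.flip f).domRestrict W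
  have hT : ∀ v w : W, T v w = B v w := fun v w => rfl
  have hφ : ∀ v : W, φ v = B v f := fun v => rfl
  have h1 : φ ∈ (LinearMap.ker T).dualAnnihilator := by
    rw [Submodule.mem_dualAnnihilator]
    intro v hv
    rw [hφ]
    refine h v ⟨v.2, fun w hw => ?_⟩
    have := LinearMap.congr_fun (LinearMap.mem_ker.1 hv) ⟨w, hw⟩
    exact this
  rw [← LinearMap.range_dualMap_eq_dualAnnihilator_ker] at h1
  obtain ⟨ψ, hψ⟩ := h1
  obtain ⟨w, hw⟩ := (Module.evalEquiv (ZMod 2) W).surjective ψ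
  refine ⟨w, w.2, fun v hv => ?_⟩
  have h2 := LinearMap.congr_fun hψ ⟨v, hv⟩
  rw [LinearMap.dualMap_apply, ← hw] at h2
  have h3 : (Module.evalEquiv (ZMod 2) W) w (T ⟨v, hv⟩) = T ⟨v, hv⟩ w := rfl
  rw [h3, hT, hφ] at h2
  exact h2.symm

/-- a vector vanishing on the radical -/
theorem rad2 {B : E →ₗ[ZMod 2] E →ₗ[ZMod 2] ZMod 2} (hB : ∀ z, B z z = 0)
    {W : Submodule (ZMod 2) E} {f w : E} (hw : w ∈ W) (h : ∀ v ∈ W, B v f = B v w) :
    Rad B (W ⊔ Submodule.span (ZMod 2) {f}) = Rad B W ⊔ Submodule.span (ZMod 2) {f + w} := by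
  have hf : ∀ v ∈ W, B (f + w) v = 0 := by
    intro v hv
    rw [map_add, LinearMap.add_apply, symB hB f v, symB hB w v, h v hv, aa]
  have hff : B (f + w) f = 0 := by
    rw [map_add, LinearMap.add_apply, hB, zero_add, h w hw, hB]
  have h0 : ∀ z ∈ Rad B W, B z f = 0 := fun z hz => by rw [h z hz.1, hz.2 w hw]
  apply le_antisymm
  · rintro z ⟨hz, hz'⟩
    obtain ⟨u, hu, v, hv, rfl⟩ := Submodule.mem_sup.1 hz
    obtain ⟨a, rfl⟩ := Submodule.mem_span_singleton.1 hv
    have e1 : u + a • f = (u + a • w) + a • (f + w) := by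
      have : a • w + a • w = 0 := by
        rw [← add_smul, aa, zero_smul]
      rw [smul_add, add_assoc, add_left_comm (a • w) (a • f) (a • w), this, add_zero]
    rw [e1] at hz' ⊢
    refine Submodule.add_mem_sup ⟨W.add_mem hu (W.smul_mem a hw), fun v hv => ?_⟩
      (Submodule.smul_mem _ a (Submodule.mem_span_singleton_self _))
    have := hz' v (Submodule.mem_sup_left hv)
    rw [map_add, LinearMap.add_apply, map_smul B a (f + w), LinearMap.smul_apply, hf v hv,
      smul_zero, add_zero] at this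
    exact this
  · refine sup_le ?_ ?_
    · rintro z ⟨hz, hz'⟩
      refine ⟨Submodule.mem_sup_left hz, fun v hv => ?_⟩
      obtain ⟨u, hu, v', hv', rfl⟩ := Submodule.mem_sup.1 hv
      obtain ⟨a, rfl⟩ := Submodule.mem_span_singleton.1 hv'
      rw [map_add, hz' u hu, map_smul, h0 z ⟨hz, hz'⟩, smul_zero, add_zero]
    · rw [Submodule.span_singleton_le_iff_mem]
      refine ⟨?_, fun v hv => ?_⟩
      · rw [add_comm]
        exact Submodule.add_mem_sup hw (Submodule.mem_span_singleton_self _)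
      · obtain ⟨u, hu, v', hv', rfl⟩ := Submodule.mem_sup.1 hv
        obtain ⟨a, rfl⟩ := Submodule.mem_span_singleton.1 hv'
        rw [map_add, hf u hu, map_smul, hff, smul_zero, add_zero]

/-- the dimension of the kernel of a nonzero functional -/
theorem fr1 [Finite E] {R R' : Submodule (ZMod 2) E} {φ : E →ₗ[ZMod 2] ZMod 2}
    (h : ∃ z ∈ R, φ z ≠ 0) (hR : ∀ z, z ∈ R' ↔ z ∈ R ∧ φ z = 0) :
    finrank (ZMod 2) R' + 1 = finrank (ZMod 2) R := by
  obtain ⟨z0, hz0, h0⟩ := h
  have h1 : φ z0 = 1 := (zz _).resolve_left h0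
  have h2 : z0 ∉ R' := fun h => h0 ((hR z0).1 h).2
  have h3 : R = R' ⊔ Submodule.span (ZMod 2) {z0} := by
    apply le_antisymm
    · intro z hz
      rcases zz (φ z) with h | h
      · exact Submodule.mem_sup_left ((hR z).2 ⟨hz, h⟩)
      · have h4 : z + z0 ∈ R' := (hR _).2 ⟨R.add_mem hz hz0, by rw [map_add, h, h1]; rfl⟩
        have h5 : z = (z + z0) + z0 := by
          have h6 : z0 + z0 = 0 := by
            rw [← two_nsmul, ← Nat.cast_smul_eq_nsmul (ZMod 2)]
            exact zero_smul _ _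
          rw [add_assoc, h6, add_zero]
        rw [h5]
        exact Submodule.add_mem_sup h4 (Submodule.mem_span_singleton_self _)
    · refine sup_le (fun z hz => ((hR z).1 hz).1) ?_
      rw [Submodule.span_singleton_le_iff_mem]
      exact hz0
  have h4 := Submodule.finrank_sup_add_finrank_inf_eq R' (Submodule.span (ZMod 2) {z0})
  have h5 : R' ⊓ Submodule.span (ZMod 2) {z0} = ⊥ := by
    rw [eq_bot_iff]
    rintro z ⟨hz, hz'⟩
    obtain ⟨a, rfl⟩ := Submodule.mem_span_singleton.1 hz'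
    rcases zz a with rfl | rfl
    · rw [zero_smul]
      exact Submodule.zero_mem _
    · rw [one_smul] at hz
      exact absurd hz h2
  have h6 : z0 ≠ 0 := by
    rintro rfl
    exact h2 (Submodule.zero_mem _)
  rw [h5, finrank_bot, add_zero, finrank_span_singleton h6, ← h3] at h4
  exact h4.symm

theorem fr2 [Finite E] {R : Submodule (ZMod 2) E} {v : E} (h : v ∉ R) :
    finrank (ZMod 2) (R ⊔ Submodule.span (ZMod 2) {v} : Submodule (ZMod 2) E) =
      finrank (ZMod 2) R + 1 := by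
  have h4 := Submodule.finrank_sup_add_finrank_inf_eq R (Submodule.span (ZMod 2) {v})
  have h5 : R ⊓ Submodule.span (ZMod 2) {v} = ⊥ := by
    rw [eq_bot_iff]
    rintro z ⟨hz, hz'⟩
    obtain ⟨a, rfl⟩ := Submodule.mem_span_singleton.1 hz'
    rcases zz a with rfl | rfl
    · rw [zero_smul]
      exact Submodule.zero_mem _
    · rw [one_smul] at hz
      exact absurd hz h
  have h6 : v ≠ 0 := by
    rintro rfl
    exact h (Submodule.zero_mem _)
  rw [h5, finrank_bot, add_zero, finrank_span_singleton h6] at h4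
  exact h4

theorem add_vec [Finite E] {B : E →ₗ[ZMod 2] E →ₗ[ZMod 2] ZMod 2} (hB : ∀ z, B z z = 0)
    {W : Submodule (ZMod 2) E} {f : E} (hf : f ∉ W) :
    ((∃ z ∈ Rad B W, B z f ≠ 0) → finrank (ZMod 2) (Rad B (W ⊔ Submodule.span (ZMod 2) {f})) + 1 =
      finrank (ZMod 2) (Rad B W)) ∧
    ((∀ z ∈ Rad B W, B z f = 0) → finrank (ZMod 2) (Rad B (W ⊔ Submodule.span (ZMod 2) {f})) =
      finrank (ZMod 2) (Rad B W) + 1) := by
  constructor
  · intro h
    exact fr1 (φ := B.flip f) h fun z => rad1 hB h z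
  · intro h
    obtain ⟨w, hw, hw'⟩ := rep h
    rw [rad2 hB hw hw']
    refine fr2 fun h1 => hf ?_
    have h2 := W.add_mem h1.1 hw
    have h6 : w + w = 0 := by
      rw [← two_nsmul, ← Nat.cast_smul_eq_nsmul (ZMod 2)]
      exact zero_smul _ _
    rwa [add_assoc, h6, add_zero] at h2

/-- alternating forms have even rank -/
theorem parity [Finite E] {B : E →ₗ[ZMod 2] E →ₗ[ZMod 2] ZMod 2} (hB : ∀ z, B z z = 0)
    (W : Submodule (ZMod 2) E) : Even (finrank (ZMod 2) W + finrank (ZMod 2) (Rad B W)) := by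
  obtain ⟨s, rfl⟩ : W.FG := IsNoetherian.noetherian W
  induction s using Finset.induction_on with
  | empty =>
    have h : Rad B (Submodule.span (ZMod 2) ((∅ : Finset E) : Set E)) = ⊥ := by
      rw [eq_bot_iff]
      rintro z ⟨hz, -⟩
      rw [Finset.coe_empty, Submodule.span_empty] at hz
      exact hz
    rw [h, Finset.coe_empty, Submodule.span_empty, finrank_bot]
    exact ⟨0, rfl⟩
  | insert f s hfs ih =>
    rw [Finset.coe_insert, Submodule.span_insert, sup_comm]
    by_cases hf : f ∈ Submodule.span (ZMod 2) (s : Set E)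
    · have h : Submodule.span (ZMod 2) (s : Set E) ⊔ Submodule.span (ZMod 2) {f} =
          Submodule.span (ZMod 2) (s : Set E) := by
        rw [sup_eq_left, Submodule.span_singleton_le_iff_mem]
        exact hf
      rw [h]
      exact ih
    · obtain ⟨h1, h2⟩ := add_vec hB hf
      rw [fr2 hf]
      rcases em (∃ z ∈ Rad B (Submodule.span (ZMod 2) (s : Set E)), B z f ≠ 0) with h | h
      · have h3 := h1 h
        rw [← h3] at ih
        have h4 : ∀ a b : ℕ, Even (a + (b + 1)) → Even (a + 1 + b) := by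
          intro a b h
          rwa [add_assoc, add_comm 1 b]
        exact h4 _ _ ih
      · have h3 := h2 (by
          intro z hz
          by_contra hc
          exact h ⟨z, hz, hc⟩)
        rw [h3]
        have h4 : ∀ a b : ℕ, Even (a + b) → Even (a + 1 + (b + 1)) := by
          intro a b h
          have : a + 1 + (b + 1) = a + b + 2 := by ring
          rw [this]
          exact h.add even_two
        exact h4 _ _ ih

/-- two vectors -/
theorem two_vec [Finite E] {B : E →ₗ[ZMod 2] E →ₗ[ZMod 2] ZMod 2} (hB : ∀ z, B z z = 0)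
    {W : Submodule (ZMod 2) E} {f g : E} (hf : f ∉ W)
    (hg : g ∉ W ⊔ Submodule.span (ZMod 2) {f}) :
    ((¬ (∀ z ∈ Rad B W, B z f = 0) ∧ ¬ (∀ z ∈ Rad B W, B z g = 0) ∧
        ¬ (∀ z ∈ Rad B W, B z f = B z g)) →
      finrank (ZMod 2) (Rad B (W ⊔ Submodule.span (ZMod 2) {f} ⊔ Submodule.span (ZMod 2) {g})) + 2 =
        finrank (ZMod 2) (Rad B W)) ∧
    (¬ ((∀ z ∈ Rad B W, B z f = 0) ∧ (∀ z ∈ Rad B W, B z g = 0)) →
      ((∀ z ∈ Rad B W, B z f = 0) ∨ (∀ z ∈ Rad B W, B z g = 0) ∨
        (∀ z ∈ Rad B W, B z f = B z g)) →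
      finrank (ZMod 2) (Rad B (W ⊔ Submodule.span (ZMod 2) {f} ⊔ Submodule.span (ZMod 2) {g})) =
        finrank (ZMod 2) (Rad B W)) ∧
    (((∀ z ∈ Rad B W, B z f = 0) ∧ (∀ z ∈ Rad B W, B z g = 0)) →
      ∀ w ∈ W, (∀ v ∈ W, B v f = B v w) → (B (f + w) g ≠ 0 →
      finrank (ZMod 2) (Rad B (W ⊔ Submodule.span (ZMod 2) {f} ⊔ Submodule.span (ZMod 2) {g})) =
        finrank (ZMod 2) (Rad B W)) ∧ (B (f + w) g = 0 →
      finrank (ZMod 2) (Rad B (W ⊔ Submodule.span (ZMod 2) {f} ⊔ Submodule.span (ZMod 2) {g})) =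
        finrank (ZMod 2) (Rad B W) + 2)) := by
  obtain ⟨a1, a2⟩ := add_vec hB hf
  obtain ⟨b1, b2⟩ := add_vec hB hg
  have key : ¬ (∀ z ∈ Rad B W, B z f = 0) →
      ((∀ z ∈ Rad B (W ⊔ Submodule.span (ZMod 2) {f}), B z g = 0) ↔
        ((∀ z ∈ Rad B W, B z g = 0) ∨ (∀ z ∈ Rad B W, B z f = B z g))) := by
    intro h
    push Not at h
    obtain ⟨z0, hz0, h0⟩ := h
    have h1 : B z0 f = 1 := (zz _).resolve_left h0
    constructor
    · intro h2
      rcases zz (B z0 g) with h3 | h3
      · left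
        intro z hz
        rcases zz (B z f) with h4 | h4
        · exact h2 z ((rad1 hB ⟨z0, hz0, h0⟩ z).2 ⟨hz, h4⟩)
        · have := h2 (z + z0) ((rad1 hB ⟨z0, hz0, h0⟩ _).2 ⟨Submodule.add_mem _ hz hz0, by
            rw [map_add, LinearMap.add_apply, h4, h1]; rfl⟩)
          rwa [map_add, LinearMap.add_apply, h3, add_zero] at this
      · right
        intro z hz
        rcases zz (B z f) with h4 | h4
        · rw [h4]
          exact (h2 z ((rad1 hB ⟨z0, hz0, h0⟩ z).2 ⟨hz, h4⟩)).symm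
        · have := h2 (z + z0) ((rad1 hB ⟨z0, hz0, h0⟩ _).2 ⟨Submodule.add_mem _ hz hz0, by
            rw [map_add, LinearMap.add_apply, h4, h1]; rfl⟩)
          rw [map_add, LinearMap.add_apply, h3] at this
          rw [h4]
          rcases zz (B z g) with h5 | h5
          · rw [h5] at this
            exact absurd this (by decide)
          · exact h5.symm
    · intro h2 z hz
      have h3 := (rad1 hB ⟨z0, hz0, h0⟩ z).1 hz
      rcases h2 with h2 | h2
      · exact h2 z h3.1
      · rw [← h2 z h3.1]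
        exact h3.2
  refine ⟨?_, ?_, ?_⟩
  · rintro ⟨h1, h2, h3⟩
    have h4 := mt (key h1).1 (by tauto)
    push Not at h1 h4
    have h5 := a1 h1
    have h6 := b1 h4
    omega
  · intro h1 h2
    by_cases hP : ∀ z ∈ Rad B W, B z f = 0
    · have h3 : ¬ ∀ z ∈ Rad B W, B z g = 0 := fun h => h1 ⟨hP, h⟩
      have h5 := a2 hP
      push Not at h3
      obtain ⟨z, hz, hz'⟩ := h3
      have h6 := b1 ⟨z, by
        obtain ⟨w, hw, hw'⟩ := rep hP
        rw [rad2 hB hw hw']
        exact Submodule.mem_sup_left hz, hz'⟩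
      omega
    · have h3 := (key hP).2 (h2.resolve_left hP)
      push Not at hP
      have h5 := a1 hP
      have h6 := b2 h3
      omega
  · rintro ⟨h1, h2⟩ w hw hw'
    have h5 := a2 h1
    have h7 := rad2 hB hw hw'
    constructor
    · intro h
      have h6 := b1 ⟨f + w, by
        rw [h7]
        exact Submodule.mem_sup_right (Submodule.mem_span_singleton_self _), h⟩
      omega
    · intro h
      have h6 := b2 (by
        rw [h7]
        intro z hz
        obtain ⟨u, hu, v, hv, rfl⟩ := Submodule.mem_sup.1 hz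
        obtain ⟨a, rfl⟩ := Submodule.mem_span_singleton.1 hv
        rw [map_add, LinearMap.add_apply, h2 u hu, zero_add, map_smul, LinearMap.smul_apply, h,
          smul_zero])
      omega

end

end Pool.Agent.N916.MO
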