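import Mathlib

/-!
# MO: symmetric matrices over the field with two elements with given products
-/

set_option autoImplicit false
set_option linter.all false

open scoped Classical

namespace Pool.Agent.N916.MO

open Finset

/-- the symmetric matrices -/
def Sy (I : Type) : AddSubgroup (I → I → ZMod 2) where
  carrier := {s | ∀ k l, s k l = s l k}
  add_mem' := by
    intro a b ha hb k l
    show a k l + b k l = a l k + b l k
    rw [ha k l, hb k l]
  zero_mem' := fun k l => rfl
  neg_mem' := by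
    intro a ha k l
    show - a k l = - a l k
    rw [ha k l]

theorem mem_Sy {I : Type} {s : I → I → ZMod 2} : s ∈ Sy I ↔ ∀ k l, s k l = s l k := Iff.rfl

section
variable {I : Type} [Fintype I] [DecidableEq I]

/-- dual vectors -/
theorem dual_vec {D : ℕ} {v : Fin D → I → ZMod 2} (hv : LinearIndependent (ZMod 2) v) :
    ∃ u : Fin D → I → ZMod 2, ∀ i j, ∑ l, u i l * v j l = if i = j then 1 else 0 := by
  obtain ⟨ψ, hψ⟩ := LinearMap.exists_leftInverse_of_injective
    (Fintype.linearCombination (ZMod 2) v) (by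
      rw [LinearMap.ker_eq_bot]
      exact hv.fintypeLinearCombination_injective)
  refine ⟨fun i l => ψ (Pi.single l 1) i, fun i j => ?_⟩
  have h1 : ψ (v j) = Pi.single j 1 := by
    have h2 := LinearMap.congr_fun hψ (Pi.single j 1)
    rw [LinearMap.comp_apply, Fintype.linearCombination_apply_single, one_smul] at h2
    exact h2
  have h3 : v j = ∑ l, v j l • (Pi.single l 1 : I → ZMod 2) := by
    funext k
    rw [Finset.sum_apply]
    simp [Pi.single_apply]
  have h4 : ψ (v j) i = ∑ l, ψ (Pi.single l 1) i * v j l := by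
    conv_lhs => rw [h3]
    rw [map_sum, Finset.sum_apply]
    refine sum_congr rfl fun l _ => ?_
    rw [map_smul, Pi.smul_apply, smul_eq_mul, mul_comm]
  rw [← h4, h1, Pi.single_apply]

/-- the number of the symmetric matrices with given products with independent vectors -/
theorem sy_count {D : ℕ} {v : Fin D → I → ZMod 2} (hv : LinearIndependent (ZMod 2) v)
    (A : Finset I) (hvA : ∀ i, ∀ k, k ∉ A → v i k = 0) (g : Fin D → I → ZMod 2) :
    (univ.filter fun s : Sy I => ∀ i, ∀ k ∈ A, ∑ l, s.1 k l * v i l = g i k).card *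
      2 ^ (D * A.card) ≤ 2 ^ (D * D) * Fintype.card (Sy I) := by
  obtain ⟨u, hu⟩ := dual_vec hv
  let ce : (Fin D → A → ZMod 2) → Fin D → I → ZMod 2 := fun c i k =>
    if h : k ∈ A then c i ⟨k, h⟩ else 0
  have hce : ∀ c i k, k ∉ A → ce c i k = 0 := fun c i k hk => dif_neg hk
  let P : (Fin D → A → ZMod 2) → Sy I := fun c =>
    ⟨fun k l => ∑ i, (ce c i k * u i l + u i k * ce c i l), fun k l => by
      refine sum_congr rfl fun i _ => ?_
      ring⟩
  have hP : ∀ (c : Fin D → A → ZMod 2) (j : Fin D) (k : I), ∑ l, (P c).1 k l * v j l =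
      ce c j k + ∑ i, u i k * ∑ l, ce c i l * v j l := by
    intro c j k
    have e1 : ∀ l, (P c).1 k l * v j l =
        ∑ i, (ce c i k * (u i l * v j l) + u i k * (ce c i l * v j l)) := by
      intro l
      show (∑ i, (ce c i k * u i l + u i k * ce c i l)) * v j l = _
      rw [sum_mul]
      refine sum_congr rfl fun i _ => ?_
      ring
    rw [sum_congr rfl fun l _ => e1 l, sum_comm]
    have e2 : ∀ i, ∑ l, (ce c i k * (u i l * v j l) + u i k * (ce c i l * v j l)) =
        ce c i k * (if i = j then 1 else 0) + u i k * ∑ l, ce c i l * v j l := by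
      intro i
      rw [sum_add_distrib, ← mul_sum, ← mul_sum, hu]
    rw [sum_congr rfl fun i _ => e2 i, sum_add_distrib]
    congr 1
    simp
  have h1 : Fintype.card ({s : Sy I // ∀ i, ∀ k ∈ A, ∑ l, s.1 k l * v i l = g i k} ×
      (Fin D → A → ZMod 2)) ≤ Fintype.card ((Fin D → Fin D → ZMod 2) × Sy I) := by
    refine Fintype.card_le_of_injective
      (fun x => (fun i j => ∑ l, ce x.2 i l * v j l, x.1.1 + P x.2)) ?_
    rintro ⟨⟨s, hs⟩, c⟩ ⟨⟨s', hs'⟩, c'⟩ h
    rw [Prod.ext_iff] at h
    obtain ⟨ha, hb⟩ := h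
    simp only at ha hb
    have hc : ∀ j, ∀ k ∈ A, ce c j k = ce c' j k := by
      intro j k hk
      have e1 : ∀ (s : Sy I) (c : Fin D → A → ZMod 2),
          ∑ l, (s + P c).1 k l * v j l = ∑ l, s.1 k l * v j l + ∑ l, (P c).1 k l * v j l := by
        intro s c
        rw [← sum_add_distrib]
        refine sum_congr rfl fun l _ => ?_
        show (s.1 k l + (P c).1 k l) * v j l = _
        ring
      have e2 := e1 s c
      rw [hb, e1 s' c', hs j k hk, hs' j k hk, hP, hP] at e2
      have e3 : ∑ i, u i k * ∑ l, ce c i l * v j l = ∑ i, u i k * ∑ l, ce c' i l * v j l :=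
        sum_congr rfl fun i _ => by rw [congrFun (congrFun ha i) j]
      rw [e3] at e2
      have e4 := add_left_cancel e2
      exact (add_right_cancel e4).symm
    have hcc : c = c' := by
      funext j k
      have := hc j k.1 k.2
      have e : ∀ c : Fin D → A → ZMod 2, ce c j k.1 = c j k := fun c => dif_pos k.2
      rwa [e, e] at this
    subst hcc
    have := add_right_cancel hb
    subst this
    rfl
  rw [Fintype.card_prod, Fintype.card_prod, Fintype.card_subtype] at h1
  have h2 : Fintype.card (Fin D → A → ZMod 2) = 2 ^ (D * A.card) := by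
    rw [Fintype.card_fun, Fintype.card_fun, ZMod.card, Fintype.card_fin, Fintype.card_coe,
      ← pow_mul, mul_comm]
  have h3 : Fintype.card (Fin D → Fin D → ZMod 2) = 2 ^ (D * D) := by
    rw [Fintype.card_fun, Fintype.card_fun, ZMod.card, Fintype.card_fin, ← pow_mul]
  rw [h2, h3] at h1
  exact h1

/-- one vector -/
theorem sy1 {v : I → ZMod 2} (hv : v ≠ 0) (A : Finset I) (hvA : ∀ k, k ∉ A → v k = 0)
    (g : I → ZMod 2) :
    (univ.filter fun s : Sy I => ∀ k ∈ A, ∑ l, s.1 k l * v l = g k).card *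
      2 ^ A.card ≤ 2 * Fintype.card (Sy I) := by
  have h := sy_count (D := 1) (v := fun _ => v) (LinearIndependent.of_subsingleton 0 hv) A
    (fun _ => hvA) (fun _ => g)
  rw [one_mul, one_mul, pow_one] at h
  refine le_trans (Nat.mul_le_mul_right _ (card_le_card fun s hs => ?_)) h
  rw [mem_filter] at hs ⊢
  exact ⟨hs.1, fun _ => hs.2⟩

theorem fin2_cases {α : Type} {P : (Fin 2 → α) → Prop} (h : ∀ a b, P ![a, b]) (c : Fin 2 → α) :
    P c := by
  have : c = ![c 0, c 1] := by
    funext i
    fin_cases i <;> rfl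
  rw [this]
  exact h _ _

theorem li2 {v w : I → ZMod 2} (hv : v ≠ 0) (hw : w ≠ 0) (hvw : v ≠ w) :
    LinearIndependent (ZMod 2) ![v, w] := by
  rw [Fintype.linearIndependent_iff]
  intro c hc
  have z : ∀ a : ZMod 2, a = 0 ∨ a = 1 := by decide
  rw [Fin.sum_univ_two] at hc
  have hc' : c 0 • v + c 1 • w = 0 := hc
  rcases z (c 0) with h0 | h0 <;> rcases z (c 1) with h1 | h1 <;> rw [h0, h1] at hc'
  · intro i
    fin_cases i
    · exact h0
    · exact h1
  · rw [zero_smul, zero_add, one_smul] at hc'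
    exact absurd hc' hw
  · rw [zero_smul, add_zero, one_smul] at hc'
    exact absurd hc' hv
  · rw [one_smul, one_smul] at hc'
    exfalso
    apply hvw
    funext k
    have := congrFun hc' k
    have h2 : v k + w k = 0 := this
    rcases z (v k) with h3 | h3 <;> rcases z (w k) with h4 | h4 <;> rw [h3, h4] at h2 ⊢
    · exact absurd h2 (by decide)
    · exact absurd h2 (by decide)

/-- two vectors -/
theorem sy2 {v w : I → ZMod 2} (hv : v ≠ 0) (hw : w ≠ 0) (hvw : v ≠ w) (A : Finset I)
    (hvA : ∀ k, k ∉ A → v k = 0) (hwA : ∀ k, k ∉ A → w k = 0) (g h : I → ZMod 2) :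
    (univ.filter fun s : Sy I => ∀ k ∈ A, ∑ l, s.1 k l * v l = g k ∧
      ∑ l, s.1 k l * w l = h k).card * 2 ^ (2 * A.card) ≤ 16 * Fintype.card (Sy I) := by
  have h := sy_count (D := 2) (v := ![v, w]) (li2 hv hw hvw) A
    (by
      intro i
      fin_cases i
      · exact hvA
      · exact hwA) ![g, h]
  refine le_trans (Nat.mul_le_mul_right _ (card_le_card fun s hs => ?_)) h
  rw [mem_filter] at hs ⊢
  refine ⟨hs.1, fun i => ?_⟩
  fin_cases i
  · exact fun k hk => (hs.2 k hk).1
  · exact fun k hk => (hs.2 k hk).2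

theorem li3 {v w x : I → ZMod 2} (hv : v ≠ 0) (hw : w ≠ 0) (hx : x ≠ 0) (hvw : v ≠ w)
    (hvx : v ≠ x) (hwx : w ≠ x) (hs : v + w + x ≠ 0) :
    LinearIndependent (ZMod 2) ![v, w, x] := by
  rw [Fintype.linearIndependent_iff]
  intro c hc
  have z : ∀ a : ZMod 2, a = 0 ∨ a = 1 := by decide
  have ne : ∀ a b : I → ZMod 2, a + b = 0 → a = b := by
    intro a b h
    funext k
    have h2 : a k + b k = 0 := congrFun h k
    rcases z (a k) with h3 | h3 <;> rcases z (b k) with h4 | h4 <;> rw [h3, h4] at h2 ⊢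
    · exact absurd h2 (by decide)
    · exact absurd h2 (by decide)
  rw [Fin.sum_univ_three] at hc
  have hc' : c 0 • v + c 1 • w + c 2 • x = 0 := hc
  rcases z (c 0) with h0 | h0 <;> rcases z (c 1) with h1 | h1 <;> rcases z (c 2) with h2 | h2 <;>
    rw [h0, h1, h2] at hc' <;>
    simp only [zero_smul, one_smul, zero_add, add_zero] at hc'
  · intro i
    fin_cases i
    · exact h0
    · exact h1
    · exact h2
  · exact absurd hc' hx
  · exact absurd hc' hw
  · exact absurd (ne _ _ hc') hwx
  · exact absurd hc' hv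
  · exact absurd (ne _ _ hc') hvx
  · exact absurd (ne _ _ hc') hvw
  · exact absurd hc' hs

/-- three vectors -/
theorem sy3 {v w x : I → ZMod 2} (hv : v ≠ 0) (hw : w ≠ 0) (hx : x ≠ 0) (hvw : v ≠ w)
    (hvx : v ≠ x) (hwx : w ≠ x) (hs : v + w + x ≠ 0) (A : Finset I)
    (hvA : ∀ k, k ∉ A → v k = 0) (hwA : ∀ k, k ∉ A → w k = 0) (hxA : ∀ k, k ∉ A → x k = 0)
    (g h j : I → ZMod 2) :
    (univ.filter fun s : Sy I => ∀ k ∈ A, ∑ l, s.1 k l * v l = g k ∧
      ∑ l, s.1 k l * w l = h k ∧ ∑ l, s.1 k l * x l = j k).card * 2 ^ (3 * A.card) ≤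
        512 * Fintype.card (Sy I) := by
  have h := sy_count (D := 3) (v := ![v, w, x]) (li3 hv hw hx hvw hvx hwx hs) A
    (by
      intro i
      fin_cases i
      · exact hvA
      · exact hwA
      · exact hxA) ![g, h, j]
  refine le_trans (Nat.mul_le_mul_right _ (card_le_card fun s hs => ?_)) h
  rw [mem_filter] at hs ⊢
  refine ⟨hs.1, fun i => ?_⟩
  fin_cases i
  · exact fun k hk => (hs.2 k hk).1
  · exact fun k hk => (hs.2 k hk).2.1
  · exact fun k hk => (hs.2 k hk).2.2

end

end Pool.Agent.N916.MO
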