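import Pool.Agent.N916.MO.Rad
import Pool.Agent.N916.MO.Sym
import Pool.Agent.N916.MO.Hh

/-!
# MO: the space, the random form, the step from `A` to `A ∪ {n}`
-/

set_option autoImplicit false
set_option linter.all false

open scoped Classical

namespace Pool.Agent.N916.MO

open Finset Module

/-- the space -/
abbrev EE (E0 I : Type) : Type := E0 × (I → ZMod 2) × (I → ZMod 2)

section
variable {E0 I : Type} [AddCommGroup E0] [Module (ZMod 2) E0] [Fintype I] [DecidableEq I]

/-- the unit vectors of the first kind -/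
def fx (k : I) : EE E0 I := (0, Pi.single k 1, 0)

/-- the unit vectors of the second kind -/
def fy (k : I) : EE E0 I := (0, 0, Pi.single k 1)

/-- the random part of the form -/
def sB (s : I → I → ZMod 2) : EE E0 I →ₗ[ZMod 2] EE E0 I →ₗ[ZMod 2] ZMod 2 :=
  LinearMap.mk₂ (ZMod 2)
    (fun z w => ∑ k, ∑ l, s k l * (z.2.1 k * w.2.2 l + w.2.1 k * z.2.2 l))
    (by
      intro z z' w
      rw [← sum_add_distrib]
      refine sum_congr rfl fun k _ => ?_
      rw [← sum_add_distrib]
      refine sum_congr rfl fun l _ => ?_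
      simp only [Prod.snd_add, Prod.fst_add, Pi.add_apply]
      ring)
    (by
      intro c z w
      rw [smul_sum]
      refine sum_congr rfl fun k _ => ?_
      rw [smul_sum]
      refine sum_congr rfl fun l _ => ?_
      simp only [Prod.smul_snd, Prod.smul_fst, Pi.smul_apply, smul_eq_mul]
      ring)
    (by
      intro z w w'
      rw [← sum_add_distrib]
      refine sum_congr rfl fun k _ => ?_
      rw [← sum_add_distrib]
      refine sum_congr rfl fun l _ => ?_
      simp only [Prod.snd_add, Prod.fst_add, Pi.add_apply]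
      ring)
    (by
      intro c z w
      rw [smul_sum]
      refine sum_congr rfl fun k _ => ?_
      rw [smul_sum]
      refine sum_congr rfl fun l _ => ?_
      simp only [Prod.smul_snd, Prod.smul_fst, Pi.smul_apply, smul_eq_mul]
      ring)

theorem sB_apply (s : I → I → ZMod 2) (z w : EE E0 I) :
    sB s z w = ∑ k, ∑ l, s k l * (z.2.1 k * w.2.2 l + w.2.1 k * z.2.2 l) := rfl

theorem sB_add (s s' : I → I → ZMod 2) :
    (sB (s + s') : EE E0 I →ₗ[ZMod 2] EE E0 I →ₗ[ZMod 2] ZMod 2) = sB s + sB s' := by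
  refine LinearMap.ext fun z => LinearMap.ext fun w => ?_
  rw [LinearMap.add_apply, LinearMap.add_apply, sB_apply, sB_apply, sB_apply, ← sum_add_distrib]
  refine sum_congr rfl fun k _ => ?_
  rw [← sum_add_distrib]
  refine sum_congr rfl fun l _ => ?_
  rw [Pi.add_apply, Pi.add_apply]
  ring

theorem sB_alt (s : I → I → ZMod 2) (z : EE E0 I) : sB s z z = 0 := by
  rw [sB_apply]
  refine sum_eq_zero fun k _ => sum_eq_zero fun l _ => ?_
  rw [aa, mul_zero]

theorem sB_fx (s : I → I → ZMod 2) (z : EE E0 I) (n : I) :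
    sB s z (fx n) = ∑ l, s n l * z.2.2 l := by
  rw [sB_apply]
  have h : ∀ k l, s k l * (z.2.1 k * (fx n : EE E0 I).2.2 l + (fx n : EE E0 I).2.1 k * z.2.2 l) =
      if k = n then s n l * z.2.2 l else 0 := by
    intro k l
    have h1 : (fx n : EE E0 I).2.2 l = 0 := rfl
    have h2 : (fx n : EE E0 I).2.1 k = (Pi.single n 1 : I → ZMod 2) k := rfl
    rw [h1, h2, Pi.single_apply, mul_zero, zero_add]
    split_ifs with hk
    · rw [hk, one_mul]
    · rw [zero_mul, mul_zero]
  rw [sum_congr rfl fun k _ => sum_congr rfl fun l _ => h k l, sum_comm]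
  refine sum_congr rfl fun l _ => ?_
  rw [sum_ite_eq' univ n, if_pos (mem_univ n)]

theorem sB_fy {s : I → I → ZMod 2} (hs : s ∈ Sy I) (z : EE E0 I) (n : I) :
    sB s z (fy n) = ∑ l, s n l * z.2.1 l := by
  rw [sB_apply]
  have h : ∀ k l, s k l * (z.2.1 k * (fy n : EE E0 I).2.2 l + (fy n : EE E0 I).2.1 k * z.2.2 l) =
      if l = n then s n k * z.2.1 k else 0 := by
    intro k l
    have h1 : (fy n : EE E0 I).2.1 k = 0 := rfl
    have h2 : (fy n : EE E0 I).2.2 l = (Pi.single n 1 : I → ZMod 2) l := rfl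
    rw [h1, h2, Pi.single_apply, zero_mul, add_zero]
    split_ifs with hk
    · rw [hk, mul_one, hs k n]
    · rw [mul_zero, mul_zero]
  rw [sum_congr rfl fun k _ => sum_congr rfl fun l _ => h k l]
  refine sum_congr rfl fun k _ => ?_
  rw [sum_ite_eq' univ n, if_pos (mem_univ n)]

/-- the vectors supported in `A` -/
def EA (A : Finset I) : Submodule (ZMod 2) (EE E0 I) where
  carrier := {z | ∀ k, k ∉ A → z.2.1 k = 0 ∧ z.2.2 k = 0}
  add_mem' := by
    intro a b ha hb k hk
    refine ⟨?_, ?_⟩
    · show a.2.1 k + b.2.1 k = 0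
      rw [(ha k hk).1, (hb k hk).1, add_zero]
    · show a.2.2 k + b.2.2 k = 0
      rw [(ha k hk).2, (hb k hk).2, add_zero]
  zero_mem' := fun k _ => ⟨rfl, rfl⟩
  smul_mem' := by
    intro c a ha k hk
    refine ⟨?_, ?_⟩
    · show c * a.2.1 k = 0
      rw [(ha k hk).1, mul_zero]
    · show c * a.2.2 k = 0
      rw [(ha k hk).2, mul_zero]

theorem mem_EA {A : Finset I} {z : EE E0 I} :
    z ∈ EA A ↔ ∀ k, k ∉ A → z.2.1 k = 0 ∧ z.2.2 k = 0 := Iff.rfl

theorem EA_univ : (EA univ : Submodule (ZMod 2) (EE E0 I)) = ⊤ := by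
  rw [eq_top_iff]
  intro z _ k hk
  exact absurd (mem_univ k) hk

theorem fx_notin {A : Finset I} {n : I} (hn : n ∉ A) : (fx n : EE E0 I) ∉ EA A := by
  intro h
  have h1 := (h n hn).1
  have h2 : (fx n : EE E0 I).2.1 n = (Pi.single n 1 : I → ZMod 2) n := rfl
  rw [h2, Pi.single_eq_same] at h1
  exact absurd h1 (by decide)

theorem fy_notin {A : Finset I} {n : I} (hn : n ∉ A) :
    (fy n : EE E0 I) ∉ EA A ⊔ Submodule.span (ZMod 2) {fx n} := by
  intro h
  obtain ⟨u, hu, v, hv, huv⟩ := Submodule.mem_sup.1 h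
  obtain ⟨a, rfl⟩ := Submodule.mem_span_singleton.1 hv
  have h1 : (u + a • fx n).2.2 n = (fy n : EE E0 I).2.2 n := by rw [huv]
  have h2 : (fy n : EE E0 I).2.2 n = (Pi.single n 1 : I → ZMod 2) n := rfl
  have h3 : (u + a • fx n).2.2 n = u.2.2 n + a * 0 := rfl
  rw [h2, h3, (hu n hn).2, Pi.single_eq_same, mul_zero, add_zero] at h1
  exact absurd h1 (by decide)

theorem EA_insert {A : Finset I} {n : I} (hn : n ∉ A) :
    (EA (insert n A) : Submodule (ZMod 2) (EE E0 I)) =
      EA A ⊔ Submodule.span (ZMod 2) {fx n} ⊔ Submodule.span (ZMod 2) {fy n} := by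
  apply le_antisymm
  · intro z hz
    have e : z = ((z.1, fun k => if k = n then 0 else z.2.1 k, fun k => if k = n then 0 else z.2.2 k) :
        EE E0 I) + z.2.1 n • fx n + z.2.2 n • fy n := by
      refine Prod.ext ?_ (Prod.ext ?_ ?_)
      · show z.1 = z.1 + z.2.1 n • (0 : E0) + z.2.2 n • (0 : E0)
        rw [smul_zero, smul_zero, add_zero, add_zero]
      · funext k
        show z.2.1 k = (if k = n then 0 else z.2.1 k) +
          z.2.1 n * (Pi.single n 1 : I → ZMod 2) k + z.2.2 n * 0
        rw [Pi.single_apply]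
        split_ifs with h
        · rw [h]; ring
        · ring
      · funext k
        show z.2.2 k = (if k = n then 0 else z.2.2 k) +
          z.2.1 n * 0 + z.2.2 n * (Pi.single n 1 : I → ZMod 2) k
        rw [Pi.single_apply]
        split_ifs with h
        · rw [h]; ring
        · ring
    rw [e]
    refine Submodule.add_mem_sup (Submodule.add_mem_sup ?_
      (Submodule.smul_mem _ _ (Submodule.mem_span_singleton_self _)))
      (Submodule.smul_mem _ _ (Submodule.mem_span_singleton_self _))
    intro k hk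
    refine ⟨?_, ?_⟩
    · show (if k = n then 0 else z.2.1 k) = 0
      split_ifs with h
      · rfl
      · exact (hz k (by rw [mem_insert, not_or]; exact ⟨h, hk⟩)).1
    · show (if k = n then 0 else z.2.2 k) = 0
      split_ifs with h
      · rfl
      · exact (hz k (by rw [mem_insert, not_or]; exact ⟨h, hk⟩)).2
  · refine sup_le (sup_le ?_ ?_) ?_
    · intro z hz k hk
      exact hz k fun h => hk (mem_insert_of_mem h)
    · rw [Submodule.span_singleton_le_iff_mem]
      intro k hk
      refine ⟨?_, rfl⟩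
      show (Pi.single n 1 : I → ZMod 2) k = 0
      exact Pi.single_eq_of_ne (fun h => hk (by rw [h]; exact mem_insert_self n A)) 1
    · rw [Submodule.span_singleton_le_iff_mem]
      intro k hk
      refine ⟨rfl, ?_⟩
      show (Pi.single n 1 : I → ZMod 2) k = 0
      exact Pi.single_eq_of_ne (fun h => hk (by rw [h]; exact mem_insert_self n A)) 1

/-- the perturbation of the row and the column `n` -/
def Pp (n : I) (φ : I → ZMod 2) (ε : ZMod 2) : Sy I :=
  ⟨fun k l => (if k = n then φ l else 0) + (if l = n then φ k else 0) +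
    (if k = n ∧ l = n then ε else 0), fun k l => by
      show (if k = n then φ l else 0) + (if l = n then φ k else 0) +
        (if k = n ∧ l = n then ε else 0) = (if l = n then φ k else 0) + (if k = n then φ l else 0) +
        (if l = n ∧ k = n then ε else 0)
      rw [add_comm (if k = n then φ l else 0)]
      congr 2
      exact propext and_comm⟩

theorem Pp_zero {A : Finset I} {n : I} (hn : n ∉ A) (φ : I → ZMod 2) (ε : ZMod 2) {z w : EE E0 I}
    (hz : z ∈ EA A) (hw : w ∈ EA A) : sB (Pp n φ ε).1 z w = 0 := by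
  rw [sB_apply]
  refine sum_eq_zero fun k _ => sum_eq_zero fun l _ => ?_
  show ((if k = n then φ l else 0) + (if l = n then φ k else 0) +
    (if k = n ∧ l = n then ε else 0)) * _ = 0
  by_cases hk : k = n
  · rw [hk, (hz n hn).1, (hw n hn).1, zero_mul, zero_mul, add_zero, mul_zero]
  · by_cases hl : l = n
    · rw [hl, (hz n hn).2, (hw n hn).2, mul_zero, mul_zero, add_zero, mul_zero]
    · rw [if_neg hk, if_neg hl, if_neg (fun h => hk h.1), add_zero, add_zero, zero_mul]

theorem Pp_fx {A : Finset I} {n : I} (hn : n ∉ A) (φ : I → ZMod 2) (ε : ZMod 2) {z : EE E0 I}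
    (hz : z ∈ EA A) : sB (Pp n φ ε).1 z (fx n) = ∑ l, φ l * z.2.2 l := by
  rw [sB_fx]
  refine sum_congr rfl fun l _ => ?_
  show ((if n = n then φ l else 0) + (if l = n then φ n else 0) +
    (if n = n ∧ l = n then ε else 0)) * _ = _
  by_cases hl : l = n
  · rw [hl, (hz n hn).2, mul_zero, mul_zero]
  · rw [if_pos rfl, if_neg hl, if_neg (fun h => hl h.2), add_zero, add_zero]

theorem Pp_fy {A : Finset I} {n : I} (hn : n ∉ A) (φ : I → ZMod 2) (ε : ZMod 2) {z : EE E0 I}
    (hz : z ∈ EA A) : sB (Pp n φ ε).1 z (fy n) = ∑ l, φ l * z.2.1 l := by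
  rw [sB_fy (Pp n φ ε).2]
  refine sum_congr rfl fun l _ => ?_
  show ((if n = n then φ l else 0) + (if l = n then φ n else 0) +
    (if n = n ∧ l = n then ε else 0)) * _ = _
  by_cases hl : l = n
  · rw [hl, (hz n hn).1, mul_zero, mul_zero]
  · rw [if_pos rfl, if_neg hl, if_neg (fun h => hl h.2), add_zero, add_zero]

theorem Pp_fxy (n : I) (φ : I → ZMod 2) (ε : ZMod 2) :
    sB (Pp n φ ε).1 (fx n : EE E0 I) (fy n) = ε := by
  rw [sB_fy (Pp n φ ε).2]
  have h : ∀ l, (Pp n φ ε).1 n l * (fx n : EE E0 I).2.1 l = if l = n then ε else 0 := by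
    intro l
    show ((if n = n then φ l else 0) + (if l = n then φ n else 0) +
      (if n = n ∧ l = n then ε else 0)) * (Pi.single n 1 : I → ZMod 2) l = _
    by_cases hl : l = n
    · rw [hl, if_pos rfl, if_pos ⟨rfl, rfl⟩, Pi.single_eq_same, if_pos rfl, aa, zero_add,
        mul_one]
    · rw [Pi.single_eq_of_ne hl, mul_zero, if_neg hl]
  rw [sum_congr rfl fun l _ => h l, sum_ite_eq' univ n, if_pos (mem_univ n)]

end

/-- fibres of the dual of an injective map -/
theorem fib {I R : Type} [Fintype I] [DecidableEq I] [AddCommGroup R] [Module (ZMod 2) R] [Finite R]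
    (L : R →ₗ[ZMod 2] (I → ZMod 2)) (hL : Function.Injective L) (a : R →ₗ[ZMod 2] ZMod 2) :
    ((univ.filter fun φ : I → ZMod 2 => ∀ z, ∑ l, φ l * L z l = a z).card : ℕ) *
      2 ^ finrank (ZMod 2) R = 2 ^ Fintype.card I := by
  obtain ⟨ψ, hψ⟩ := LinearMap.exists_leftInverse_of_injective L (LinearMap.ker_eq_bot.2 hL)
  have hdot : ∀ (a : R →ₗ[ZMod 2] ZMod 2) (z : R),
      ∑ l, a (ψ (Pi.single l 1)) * L z l = a z := by
    intro a z
    have h3 : L z = ∑ l, L z l • (Pi.single l 1 : I → ZMod 2) := by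
      funext k
      rw [Finset.sum_apply]
      simp [Pi.single_apply]
    have h4 : a z = a (ψ (L z)) := by
      rw [← LinearMap.comp_apply ψ L, hψ, LinearMap.id_apply]
    rw [h4]
    conv_rhs => rw [h3]
    rw [map_sum, map_sum]
    refine sum_congr rfl fun l _ => ?_
    rw [map_smul, map_smul, smul_eq_mul, mul_comm]
  let N : (R →ₗ[ZMod 2] ZMod 2) → ℕ := fun a =>
    (univ.filter fun φ : I → ZMod 2 => ∀ z, ∑ l, φ l * L z l = a z).card
  have hN : ∀ a b, N a ≤ N b := by
    intro a b
    apply card_le_card_of_injOn (fun φ l => φ l + (a + b) (ψ (Pi.single l 1)))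
    · intro φ hφ
      rw [mem_coe, mem_filter] at hφ ⊢
      refine ⟨mem_univ _, fun z => ?_⟩
      have h1 : ∀ l, (φ l + (a + b) (ψ (Pi.single l 1))) * L z l = φ l * L z l +
          (a + b) (ψ (Pi.single l 1)) * L z l := fun l => by ring
      rw [sum_congr rfl fun l _ => h1 l, sum_add_distrib, hφ.2 z, hdot, LinearMap.add_apply,
        ← add_assoc, aa, zero_add]
    · intro φ _ φ' _ h
      funext l
      exact add_right_cancel (congrFun h l)
  haveI : Finite (R →ₗ[ZMod 2] ZMod 2) :=
    Finite.of_injective (fun f => (f : R → ZMod 2)) DFunLike.coe_injective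
  haveI : Fintype (R →ₗ[ZMod 2] ZMod 2) := Fintype.ofFinite _
  have h1 : ∑ b : R →ₗ[ZMod 2] ZMod 2, N b = 2 ^ Fintype.card I := by
    have h2 : Fintype.card (I → ZMod 2) = 2 ^ Fintype.card I := by
      rw [Fintype.card_fun, ZMod.card]
    rw [← h2, ← Finset.card_univ]
    let T : (I → ZMod 2) → (R →ₗ[ZMod 2] ZMod 2) := fun φ =>
      { toFun := fun z => ∑ l, φ l * L z l
        map_add' := fun x y => by
          rw [← sum_add_distrib]
          refine sum_congr rfl fun l _ => ?_
          rw [map_add, Pi.add_apply, mul_add]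
        map_smul' := fun c x => by
          rw [RingHom.id_apply, smul_sum]
          refine sum_congr rfl fun l _ => ?_
          rw [map_smul, Pi.smul_apply, smul_eq_mul, smul_eq_mul]
          ring }
    rw [Finset.card_eq_sum_card_fiberwise (f := T) (t := univ) (fun x _ => mem_coe.2 (mem_univ _))]
    refine sum_congr rfl fun b _ => ?_
    show (univ.filter _).card = (univ.filter _).card
    congr 1
    ext φ
    simp only [mem_filter, mem_univ, true_and]
    exact ⟨fun h => LinearMap.ext h, fun h z => LinearMap.congr_fun h z⟩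
  have h2 : ∀ b, N b = N a := fun b => le_antisymm (hN b a) (hN a b)
  rw [sum_congr rfl fun b _ => h2 b, sum_const, smul_eq_mul, Finset.card_univ] at h1
  have h3 : Fintype.card (R →ₗ[ZMod 2] ZMod 2) = 2 ^ finrank (ZMod 2) R := by
    have h4 := Module.card_eq_pow_finrank (K := ZMod 2) (V := (R →ₗ[ZMod 2] ZMod 2))
    rw [ZMod.card] at h4
    have h5 : finrank (ZMod 2) (R →ₗ[ZMod 2] ZMod 2) = finrank (ZMod 2) R :=
      Subspace.dual_finrank_eq
    rw [h5] at h4
    convert h4
  rw [h3, mul_comm] at h1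
  exact h1

end Pool.Agent.N916.MO
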