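import Pool.Agent.N916.MO.Main

/-!
# MO: the bounds from the structure of the fixed part
-/

set_option autoImplicit false
set_option linter.all false

open scoped Classical

namespace Pool.Agent.N916.MO

open Finset Module

/-- a counting lemma -/
theorem cnt {α C I : Type} [Fintype C] (T : Finset α) (A A1 : Finset I) (hA : A1 ⊆ A) (f : α → C)
    (g : α → I → ZMod 2)
    (h : ∀ a ∈ T, ∀ b ∈ T, f a = f b → (∀ k ∈ A, k ∉ A1 → g a k = g b k) → a = b) :
    T.card ≤ Fintype.card C * 2 ^ (A.card - A1.card) := by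
  have h1 : Fintype.card (C × ((A \ A1 : Finset I) → ZMod 2)) =
      Fintype.card C * 2 ^ (A.card - A1.card) := by
    rw [Fintype.card_prod, Fintype.card_fun, ZMod.card, Fintype.card_coe, card_sdiff_of_subset hA]
  rw [← h1, ← Fintype.card_coe T]
  refine Fintype.card_le_of_injective (fun a => (f a.1, fun k => g a.1 k.1)) ?_
  intro a b hab
  rw [Prod.ext_iff] at hab
  refine Subtype.ext (h a.1 a.2 b.1 b.2 hab.1 fun k hk hk1 => ?_)
  exact congrFun hab.2 ⟨k, mem_sdiff.2 ⟨hk, hk1⟩⟩

section
variable {E0 I : Type} [AddCommGroup E0] [Module (ZMod 2) E0] [Fintype E0] [Fintype I]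
  [DecidableEq I]

theorem msum {u : I → ZMod 2} {m : I → I → ZMod 2}
    (hm : ∀ k l, k ≠ l → m k l + m l k = u k * u l) (k : I) (x : I → ZMod 2) :
    ∑ l, m k l * x l + ∑ l, m l k * x l = u k * ∑ l, u l * x l + u k * x k := by
  rw [← sum_add_distrib, mul_sum]
  have h : ∀ l, m k l * x l + m l k * x l = u k * (u l * x l) + if l = k then u k * x k else 0 := by
    intro l
    by_cases hl : l = k
    · rw [hl, if_pos rfl, aa]
      rcases zz (u k) with h | h <;> rw [h]
      · ring
      · rw [one_mul, one_mul, aa]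
    · rw [if_neg hl, add_zero, ← add_mul, hm k l (Ne.symm hl)]
      ring
  rw [sum_congr rfl fun l _ => h l, sum_add_distrib, sum_ite_eq' univ k, if_pos (mem_univ k)]

/-- the bounds -/
theorem str {B : EE E0 I →ₗ[ZMod 2] EE E0 I →ₗ[ZMod 2] ZMod 2} {ν u c : I → ZMod 2}
    {lam lam' : I → E0 → ZMod 2} {m : I → I → ZMod 2}
    (h0 : ∀ k, lam k 0 = 0 ∧ lam' k 0 = 0)
    (hm : ∀ k l, k ≠ l → m k l + m l k = u k * u l)
    (hx : ∀ z k, B z (fx k) = lam k z.1 + ν k * (∑ l, ν l * z.2.1 l) + ν k * z.2.1 k +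
      ν k * (∑ l, c l * z.2.2 l) + ∑ l, m k l * z.2.2 l)
    (hy : ∀ z k, B z (fy k) = lam' k z.1 + u k * (∑ l, u l * z.2.2 l) + u k * z.2.2 k +
      (∑ l, ν l * z.2.1 l) * c k + ∑ l, m l k * z.2.1 l)
    {A : Finset I} {V : ℕ}
    (hV1 : V ≤ (A.filter fun k => ν k = 1).card) (hV2 : V ≤ (A.filter fun k => u k = 1).card)
    (hV3 : V ≤ (A.filter fun k => ν k ≠ u k).card)
    (hna : ∀ e, (∀ k ∈ A, lam k e = 0 ∧ lam' k e = 0) → e = 0) {δ : ℝ}
    (hδ : 32 * (Fintype.card E0 : ℝ) ^ 2 / 2 ^ V ≤ δ) : Bd B A δ := by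
  have hsub : ∀ (P : I → Prop) [DecidablePred P], A.filter P ⊆ A := fun P _ => filter_subset _ _
  have hE1 : (1 : ℝ) ≤ Fintype.card E0 := by
    exact_mod_cast Fintype.card_pos
  have pw : ∀ (n1 j : ℕ), V ≤ n1 → n1 ≤ A.card → (2 : ℝ) ^ (j * A.card) * 2 ^ (A.card - n1) ≤
      2 ^ ((j + 1) * A.card) / 2 ^ V := by
    intro n1 j h1 h2
    rw [le_div_iff₀ (by positivity), ← pow_add, ← pow_add]
    refine pow_le_pow_right₀ (by norm_num) ?_
    have : (j + 1) * A.card = j * A.card + A.card := by ring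
    omega
  have fin : ∀ (N C n1 j : ℕ), N ≤ C * 2 ^ (A.card - n1) → V ≤ n1 → n1 ≤ A.card →
      (C : ℝ) ≤ 32 * (Fintype.card E0 : ℝ) ^ 2 * 2 ^ (j * A.card) →
      (N : ℝ) ≤ δ * 2 ^ ((j + 1) * A.card) := by
    intro N C n1 j h1 h2 h3 h4
    have h5 : (N : ℝ) ≤ C * 2 ^ (A.card - n1) := by exact_mod_cast h1
    calc (N : ℝ) ≤ C * 2 ^ (A.card - n1) := h5
      _ ≤ 32 * (Fintype.card E0 : ℝ) ^ 2 * 2 ^ (j * A.card) * 2 ^ (A.card - n1) :=
        mul_le_mul_of_nonneg_right h4 (by positivity)
      _ = 32 * (Fintype.card E0 : ℝ) ^ 2 * (2 ^ (j * A.card) * 2 ^ (A.card - n1)) := by ring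
      _ ≤ 32 * (Fintype.card E0 : ℝ) ^ 2 * (2 ^ ((j + 1) * A.card) / 2 ^ V) :=
        mul_le_mul_of_nonneg_left (pw n1 j h2 h3) (by positivity)
      _ = 32 * (Fintype.card E0 : ℝ) ^ 2 / 2 ^ V * 2 ^ ((j + 1) * A.card) := by ring
      _ ≤ δ * 2 ^ ((j + 1) * A.card) := mul_le_mul_of_nonneg_right hδ (by positivity)
  have ad : ∀ a b c d : ZMod 2, a + b = 0 → a + c = 0 → b = c := by decide
  have z1v : ∀ {w : I → ZMod 2} {v : I → ZMod 2}, w = 0 → ∑ l, v l * w l = 0 := by
    intro w v h
    rw [h]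
    exact sum_eq_zero fun l _ => mul_zero _
  constructor
  · -- nondegeneracy
    intro z h1 h2 _ h3
    have h4 : z.1 = 0 := by
      refine hna z.1 fun k hk => ?_
      obtain ⟨h5, h6⟩ := h3 k hk
      rw [hx, z1v h1, z1v h2, z1v h2, h1] at h5
      rw [hy, z1v h1, z1v h2, z1v h1, h2] at h6
      simp only [Pi.zero_apply, mul_zero, zero_mul, add_zero] at h5 h6
      exact ⟨h5, h6⟩
    exact Prod.ext h4 (Prod.ext h1 h2)
  · -- a1
    have h := cnt (univ.filter fun z : EE E0 I => z ∈ EA A ∧ z.2.1 = 0 ∧ ∀ k ∈ A, B z (fy k) = 0)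
      A (A.filter fun k => u k = 1) (hsub _) (fun z => (z.1, ∑ l, u l * z.2.2 l)) (fun z => z.2.2)
      (by
        intro a ha b hb hab hg
        rw [mem_filter] at ha hb
        obtain ⟨-, a1, a2, a3⟩ := ha
        obtain ⟨-, b1, b2, b3⟩ := hb
        rw [Prod.ext_iff] at hab
        obtain ⟨e1, e2⟩ := hab
        simp only at e1 e2
        refine Prod.ext e1 (Prod.ext (by rw [a2, b2]) ?_)
        funext k
        by_cases hk : k ∈ A
        · by_cases hu : u k = 1
          · have h1 := a3 k hk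
            have h2 := b3 k hk
            rw [hy, z1v a2, z1v a2, hu, e2, e1] at h1
            rw [hy, z1v b2, z1v b2, hu] at h2
            simp only [zero_mul, add_zero, one_mul] at h1 h2
            exact ad _ _ _ 0 h1 h2
          · exact hg k hk (fun h => hu (mem_filter.1 h).2)
        · rw [(a1 k hk).2, (b1 k hk).2])
    have h' := fin _ _ _ 0 h hV2 (card_le_card (hsub _)) (by
      rw [Fintype.card_prod, ZMod.card]
      push_cast
      rw [zero_mul, pow_zero, mul_one]
      nlinarith)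
    simpa using h'
  · -- a2
    have h := cnt (univ.filter fun z : EE E0 I => z ∈ EA A ∧ z.2.2 = 0 ∧ ∀ k ∈ A, B z (fx k) = 0)
      A (A.filter fun k => ν k = 1) (hsub _) (fun z => (z.1, ∑ l, ν l * z.2.1 l)) (fun z => z.2.1)
      (by
        intro a ha b hb hab hg
        rw [mem_filter] at ha hb
        obtain ⟨-, a1, a2, a3⟩ := ha
        obtain ⟨-, b1, b2, b3⟩ := hb
        rw [Prod.ext_iff] at hab
        obtain ⟨e1, e2⟩ := hab
        simp only at e1 e2
        refine Prod.ext e1 (Prod.ext ?_ (by rw [a2, b2]))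
        funext k
        by_cases hk : k ∈ A
        · by_cases hu : ν k = 1
          · have h1 := a3 k hk
            have h2 := b3 k hk
            rw [hx, z1v a2, z1v a2, hu, e2, e1] at h1
            rw [hx, z1v b2, z1v b2, hu] at h2
            simp only [mul_zero, add_zero, one_mul] at h1 h2
            exact ad _ _ _ 0 h1 h2
          · exact hg k hk (fun h => hu (mem_filter.1 h).2)
        · rw [(a1 k hk).1, (b1 k hk).1])
    have h' := fin _ _ _ 0 h hV1 (card_le_card (hsub _)) (by
      rw [Fintype.card_prod, ZMod.card]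
      push_cast
      rw [zero_mul, pow_zero, mul_one]
      nlinarith)
    simpa using h'
  · -- a3
    have h := cnt (univ.filter fun z : EE E0 I => z ∈ EA A ∧ z.2.1 = z.2.2 ∧
        ∀ k ∈ A, B z (fx k) = B z (fy k))
      A (A.filter fun k => ν k = 1) (hsub _)
      (fun z => (z.1, ∑ l, ν l * z.2.1 l, ∑ l, c l * z.2.1 l)) (fun z => z.2.1)
      (by
        intro a ha b hb hab hg
        rw [mem_filter] at ha hb
        obtain ⟨-, a1, a2, a3⟩ := ha
        obtain ⟨-, b1, b2, b3⟩ := hb
        rw [Prod.ext_iff, Prod.ext_iff] at hab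
        obtain ⟨e1, e2, e3⟩ := hab
        simp only at e1 e2 e3
        have key : ∀ (z : EE E0 I) (k : I), z.2.1 = z.2.2 → ν k = 1 → B z (fx k) = B z (fy k) →
            (lam k z.1 + lam' k z.1 + (∑ l, ν l * z.2.1 l) + (∑ l, c l * z.2.1 l) +
              (∑ l, ν l * z.2.1 l) * c k) + z.2.1 k = 0 := by
          intro z k hz hn h
          rw [hx, hy, ← hz, hn] at h
          have h5 := msum hm k z.2.1
          have h6 : ∀ a b c d e f g h i : ZMod 2, a + 1 * b + 1 * c + 1 * d + e = f + g + h + b * i +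
              e → True := fun _ _ _ _ _ _ _ _ _ _ => trivial
          have h7 : ∀ l1 l2 S K C cc M1 M2 U U2 : ZMod 2, l1 + 1 * S + 1 * K + 1 * C + M1 =
              l2 + U + U2 + S * cc + M2 → M1 + M2 = U + U2 → (l1 + l2 + S + C + S * cc) + K = 0 := by
            decide
          exact h7 _ _ _ _ _ _ _ _ _ _ h h5
        have hxy : a.2.1 = b.2.1 := by
          funext k
          by_cases hk : k ∈ A
          · by_cases hu : ν k = 1
            · have h1 := key a k a2 hu (a3 k hk)
              have h2 := key b k b2 hu (b3 k hk)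
              rw [e1, e2, e3] at h1
              exact ad _ _ _ 0 h1 h2
            · exact hg k hk (fun h => hu (mem_filter.1 h).2)
          · rw [(a1 k hk).1, (b1 k hk).1]
        exact Prod.ext e1 (Prod.ext hxy (by rw [← a2, ← b2, hxy])))
    have h' := fin _ _ _ 0 h hV1 (card_le_card (hsub _)) (by
      rw [Fintype.card_prod, Fintype.card_prod, ZMod.card]
      push_cast
      rw [zero_mul, pow_zero, mul_one]
      nlinarith)
    simpa using h'
  · -- q2
    have h := cnt (univ.filter fun q : EE E0 I × EE E0 I => q.1 ∈ EA A ∧ q.2 ∈ EA A ∧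
        q.1.2.2 = q.2.2.1 ∧ q.1.2.1 + q.1.2.2 + q.2.2.2 = 0 ∧
        ∀ k ∈ A, B q.1 (fx k) = B q.2 (fy k) ∧ B q.1 (fy k) + B q.1 (fx k) + B q.2 (fx k) = 0)
      A (A.filter fun k => ν k ≠ u k) (hsub _)
      (fun q => (((q.1.1, q.2.1), ∑ l, ν l * q.1.2.1 l, ∑ l, c l * q.1.2.2 l,
        ∑ l, u l * q.2.2.2 l, ∑ l, ν l * q.1.2.2 l, ∑ l, u l * q.1.2.2 l),
        fun k : A => q.1.2.2 k)) (fun q => q.1.2.1)
      (by
        intro a ha b hb hab hg
        rw [mem_filter] at ha hb
        obtain ⟨-, a1, a1', a2, a2', a3⟩ := ha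
        obtain ⟨-, b1, b1', b2, b2', b3⟩ := hb
        simp only [Prod.mk.injEq] at hab
        obtain ⟨⟨⟨e1, e1'⟩, e2, e3, e4, e5, e6⟩, e7⟩ := hab
        have hw : a.1.2.2 = b.1.2.2 := by
          funext k
          by_cases hk : k ∈ A
          · exact congrFun e7 ⟨k, hk⟩
          · rw [(a1 k hk).2, (b1 k hk).2]
        have key : ∀ (q : EE E0 I × EE E0 I) (k : I), q.1.2.2 = q.2.2.1 →
            q.1.2.1 + q.1.2.2 + q.2.2.2 = 0 → ν k ≠ u k → B q.1 (fx k) = B q.2 (fy k) →
            (lam k q.1.1 + lam' k q.2.1 + ν k * (∑ l, ν l * q.1.2.1 l) +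
              ν k * (∑ l, c l * q.1.2.2 l) + u k * (∑ l, u l * q.2.2.2 l) +
              (∑ l, ν l * q.1.2.2 l) * c k + u k * (∑ l, u l * q.1.2.2 l)) + q.1.2.1 k = 0 := by
          intro q k hq hq' hn h
          rw [hx, hy, ← hq] at h
          have h5 := msum hm k q.1.2.2
          have h8 : q.1.2.1 k + q.1.2.2 k + q.2.2.2 k = 0 := congrFun hq' k
          have h7 : ∀ n v l1 l2 S1 x C M1 M2 U2 y W cc Uw w : ZMod 2, n ≠ v →
              l1 + n * S1 + n * x + n * C + M1 = l2 + v * U2 + v * y + W * cc + M2 →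
              M1 + M2 = v * Uw + v * w → x + w + y = 0 →
              (l1 + l2 + n * S1 + n * C + v * U2 + W * cc + v * Uw) + x = 0 := by
            intro n v l1 l2 S1 x C M1 M2 U2 y W cc Uw w hne h1 h2 h3
            have h4 : y = x + w := (e01 h3).symm
            have h5 : M1 = M2 + (v * Uw + v * w) := by
              rw [← h2]
              have : M2 + (M1 + M2) = M1 + (M2 + M2) := by ring
              rw [this, aa, add_zero]
            rw [h4, h5] at h1
            rcases zz n with hn | hn <;> rcases zz v with hv | hv <;> rw [hn, hv] at h1 hne ⊢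
            · exact absurd rfl hne
            · have h6 : l1 + 0 * S1 + 0 * x + 0 * C + (M2 + (1 * Uw + 1 * w)) +
                (l2 + 1 * U2 + 1 * (x + w) + W * cc + M2) = 0 := by rw [h1, aa]
              have h7 : l1 + 0 * S1 + 0 * x + 0 * C + (M2 + (1 * Uw + 1 * w)) +
                (l2 + 1 * U2 + 1 * (x + w) + W * cc + M2) =
                (l1 + l2 + 0 * S1 + 0 * C + 1 * U2 + W * cc + 1 * Uw) + x + (M2 + M2) + (w + w) := by
                ring
              rw [h7, aa, aa, add_zero, add_zero] at h6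
              exact h6
            · have h6 : l1 + 1 * S1 + 1 * x + 1 * C + (M2 + (0 * Uw + 0 * w)) +
                (l2 + 0 * U2 + 0 * (x + w) + W * cc + M2) = 0 := by rw [h1, aa]
              have h7 : l1 + 1 * S1 + 1 * x + 1 * C + (M2 + (0 * Uw + 0 * w)) +
                (l2 + 0 * U2 + 0 * (x + w) + W * cc + M2) =
                (l1 + l2 + 1 * S1 + 1 * C + 0 * U2 + W * cc + 0 * Uw) + x + (M2 + M2) := by
                ring
              rw [h7, aa, add_zero] at h6
              exact h6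
            · exact absurd rfl hne
          exact h7 _ _ _ _ _ _ _ _ _ _ _ _ _ _ _ hn h h5 h8
        have hxx : a.1.2.1 = b.1.2.1 := by
          funext k
          by_cases hk : k ∈ A
          · by_cases hu : ν k ≠ u k
            · have h1 := key a k a2 a2' hu (a3 k hk).1
              have h2 := key b k b2 b2' hu (b3 k hk).1
              rw [e1, e1', e2, e3, e4, e5, e6] at h1
              exact ad _ _ _ 0 h1 h2
            · exact hg k hk (fun h => hu (mem_filter.1 h).2)
          · rw [(a1 k hk).1, (b1 k hk).1]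
        have hyy : a.2.2.2 = b.2.2.2 := by
          rw [← vadd a2', ← vadd b2', hxx, hw]
        exact Prod.ext (Prod.ext e1 (Prod.ext hxx hw))
          (Prod.ext e1' (Prod.ext (by rw [← a2, ← b2, hw]) hyy)))
    have h' := fin _ _ _ 1 h hV3 (card_le_card (hsub _)) (by
      simp only [Fintype.card_prod, ZMod.card, Fintype.card_fun, Fintype.card_coe]
      push_cast
      rw [one_mul]
      apply le_of_eq
      ring)
    exact h'
  · -- q3
    have h := cnt (univ.filter fun q : EE E0 I × EE E0 I => q.1 ∈ EA A ∧ q.2 ∈ EA A ∧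
        q.1.2.2 = q.2.2.1 ∧ ∀ k ∈ A, B q.1 (fx k) = B q.2 (fy k))
      A (A.filter fun k => ν k = 1) (hsub _)
      (fun q => (((q.1.1, q.2.1), ∑ l, ν l * q.1.2.1 l, ∑ l, c l * q.1.2.2 l,
        ∑ l, u l * q.2.2.2 l, ∑ l, ν l * q.1.2.2 l, ∑ l, u l * q.1.2.2 l),
        fun k : A => (q.1.2.2 k, q.2.2.2 k))) (fun q => q.1.2.1)
      (by
        intro a ha b hb hab hg
        rw [mem_filter] at ha hb
        obtain ⟨-, a1, a1', a2, a3⟩ := ha
        obtain ⟨-, b1, b1', b2, b3⟩ := hb
        simp only [Prod.mk.injEq] at hab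
        obtain ⟨⟨⟨e1, e1'⟩, e2, e3, e4, e5, e6⟩, e7⟩ := hab
        have hw : a.1.2.2 = b.1.2.2 := by
          funext k
          by_cases hk : k ∈ A
          · exact (Prod.mk.inj (congrFun e7 ⟨k, hk⟩)).1
          · rw [(a1 k hk).2, (b1 k hk).2]
        have hy2 : a.2.2.2 = b.2.2.2 := by
          funext k
          by_cases hk : k ∈ A
          · exact (Prod.mk.inj (congrFun e7 ⟨k, hk⟩)).2
          · rw [(a1' k hk).2, (b1' k hk).2]
        have key : ∀ (q : EE E0 I × EE E0 I) (k : I), q.1.2.2 = q.2.2.1 →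
            ν k = 1 → B q.1 (fx k) = B q.2 (fy k) →
            (lam k q.1.1 + lam' k q.2.1 + (∑ l, ν l * q.1.2.1 l) +
              (∑ l, c l * q.1.2.2 l) + u k * (∑ l, u l * q.2.2.2 l) + u k * q.2.2.2 k +
              (∑ l, ν l * q.1.2.2 l) * c k + u k * (∑ l, u l * q.1.2.2 l) +
              u k * q.1.2.2 k) + q.1.2.1 k = 0 := by
          intro q k hq hn h
          rw [hx, hy, ← hq, hn] at h
          have h5 := msum hm k q.1.2.2
          have h7 : ∀ v l1 l2 S1 x C M1 M2 U2 y W cc Uw w : ZMod 2,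
              l1 + 1 * S1 + 1 * x + 1 * C + M1 = l2 + v * U2 + v * y + W * cc + M2 →
              M1 + M2 = v * Uw + v * w →
              (l1 + l2 + S1 + C + v * U2 + v * y + W * cc + v * Uw + v * w) + x = 0 := by
            intro v l1 l2 S1 x C M1 M2 U2 y W cc Uw w h1 h2
            have h5 : M1 = M2 + (v * Uw + v * w) := by
              rw [← h2]
              have : M2 + (M1 + M2) = M1 + (M2 + M2) := by ring
              rw [this, aa, add_zero]
            rw [h5] at h1
            have h6 : l1 + 1 * S1 + 1 * x + 1 * C + (M2 + (v * Uw + v * w)) +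
              (l2 + v * U2 + v * y + W * cc + M2) = 0 := by rw [h1, aa]
            have h7 : l1 + 1 * S1 + 1 * x + 1 * C + (M2 + (v * Uw + v * w)) +
              (l2 + v * U2 + v * y + W * cc + M2) =
              (l1 + l2 + S1 + C + v * U2 + v * y + W * cc + v * Uw + v * w) + x + (M2 + M2) := by
              ring
            rw [h7, aa, add_zero] at h6
            exact h6
          exact h7 _ _ _ _ _ _ _ _ _ _ _ _ _ _ h h5
        have hxx : a.1.2.1 = b.1.2.1 := by
          funext k
          by_cases hk : k ∈ A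
          · by_cases hu : ν k = 1
            · have h1 := key a k a2 hu (a3 k hk)
              have h2 := key b k b2 hu (b3 k hk)
              rw [e1, e1', e2, e3, e4, e5, e6, hw, hy2] at h1
              exact ad _ _ _ 0 h1 h2
            · exact hg k hk (fun h => hu (mem_filter.1 h).2)
          · rw [(a1 k hk).1, (b1 k hk).1]
        exact Prod.ext (Prod.ext e1 (Prod.ext hxx hw))
          (Prod.ext e1' (Prod.ext (by rw [← a2, ← b2, hw]) hy2)))
    have h' := fin _ _ _ 2 h hV1 (card_le_card (hsub _)) (by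
      simp only [Fintype.card_prod, ZMod.card, Fintype.card_fun, Fintype.card_coe]
      push_cast
      apply le_of_eq
      rw [pow_mul]
      ring)
    exact h'

end

end Pool.Agent.N916.MO
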