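import Pool.Agent.N916.MO.Str

/-!
# MO: the bounds from the structure of the fixed part, general form
-/

set_option autoImplicit false
set_option linter.all false

open scoped Classical

namespace Pool.Agent.N916.MO

open Finset Module

section
variable {E0 I : Type} [AddCommGroup E0] [Module (ZMod 2) E0] [Fintype E0] [Fintype I]
  [DecidableEq I]

/-- the bounds -/
theorem str2 {B : EE E0 I →ₗ[ZMod 2] EE E0 I →ₗ[ZMod 2] ZMod 2} {ν u : I → ZMod 2}
    {m : I → I → ZMod 2} {C C' : Type} [Fintype C] [Fintype C']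
    {F : EE E0 I → C} {G : (I → ZMod 2) → C'} {Φ Ψ : I → E0 → C → ZMod 2} {Θ : I → C' → ZMod 2}
    (hx : ∀ z k, B z (fx k) = ν k * z.2.1 k + ∑ l, m k l * z.2.2 l + Φ k z.1 (F z))
    (hy : ∀ z k, B z (fy k) = u k * z.2.2 k + ∑ l, m l k * z.2.1 l + Ψ k z.1 (F z))
    (hm : ∀ (x : I → ZMod 2) k, ∑ l, m k l * x l + ∑ l, m l k * x l = u k * x k + Θ k (G x))
    {A : Finset I} {V : ℕ}
    (hV1 : V ≤ (A.filter fun k => ν k = 1).card) (hV2 : V ≤ (A.filter fun k => u k = 1).card)
    (hV3 : V ≤ (A.filter fun k => ν k ≠ u k).card)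
    (hna : ∀ e : E0, (∀ k ∈ A, B (e, 0, 0) (fx k) = 0 ∧ B (e, 0, 0) (fy k) = 0) → e = 0) {δ : ℝ}
    (hδ : (Fintype.card E0 * Fintype.card C : ℝ) ^ 2 * Fintype.card C' / 2 ^ V ≤ δ) :
    Bd B A δ := by
  have hsub : ∀ (P : I → Prop) [DecidablePred P], A.filter P ⊆ A := fun P _ => filter_subset _ _
  have hE1 : (1 : ℝ) ≤ Fintype.card E0 := by
    exact_mod_cast Fintype.card_pos
  have hC1 : (1 : ℝ) ≤ Fintype.card C := by
    haveI : Nonempty C := ⟨F 0⟩
    exact_mod_cast Fintype.card_pos
  have hC2 : (1 : ℝ) ≤ Fintype.card C' := by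
    haveI : Nonempty C' := ⟨G 0⟩
    exact_mod_cast Fintype.card_pos
  set c1 : ℝ := (Fintype.card E0 : ℝ) * Fintype.card C with hc1
  set c3 : ℝ := (Fintype.card C' : ℝ) with hc3
  have hc11 : 1 ≤ c1 := by nlinarith
  have pw : ∀ (n1 j : ℕ), V ≤ n1 → n1 ≤ A.card → (2 : ℝ) ^ (j * A.card) * 2 ^ (A.card - n1) ≤
      2 ^ ((j + 1) * A.card) / 2 ^ V := by
    intro n1 j h1 h2
    rw [le_div_iff₀ (by positivity), ← pow_add, ← pow_add]
    refine pow_le_pow_right₀ (by norm_num) ?_
    have : (j + 1) * A.card = j * A.card + A.card := by ring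
    omega
  have fin : ∀ (N D n1 j : ℕ), N ≤ D * 2 ^ (A.card - n1) → V ≤ n1 → n1 ≤ A.card →
      (D : ℝ) ≤ c1 ^ 2 * c3 * 2 ^ (j * A.card) →
      (N : ℝ) ≤ δ * 2 ^ ((j + 1) * A.card) := by
    intro N D n1 j h1 h2 h3 h4
    have h5 : (N : ℝ) ≤ D * 2 ^ (A.card - n1) := by exact_mod_cast h1
    calc (N : ℝ) ≤ D * 2 ^ (A.card - n1) := h5
      _ ≤ c1 ^ 2 * c3 * 2 ^ (j * A.card) * 2 ^ (A.card - n1) :=
        mul_le_mul_of_nonneg_right h4 (by positivity)
      _ = c1 ^ 2 * c3 * (2 ^ (j * A.card) * 2 ^ (A.card - n1)) := by ring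
      _ ≤ c1 ^ 2 * c3 * (2 ^ ((j + 1) * A.card) / 2 ^ V) :=
        mul_le_mul_of_nonneg_left (pw n1 j h2 h3) (by positivity)
      _ = c1 ^ 2 * c3 / 2 ^ V * 2 ^ ((j + 1) * A.card) := by ring
      _ ≤ δ * 2 ^ ((j + 1) * A.card) := mul_le_mul_of_nonneg_right hδ (by positivity)
  have ad : ∀ a b c : ZMod 2, a + b = 0 → a + c = 0 → b = c := by decide
  have z1v : ∀ {w : I → ZMod 2} {v : I → ZMod 2}, w = 0 → ∑ l, v l * w l = 0 := by
    intro w v h
    rw [h]
    exact sum_eq_zero fun l _ => mul_zero _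
  have b1 : c1 ≤ c1 ^ 2 * c3 := by
    have : c1 ≤ c1 ^ 2 := by nlinarith
    nlinarith [mul_le_mul this hC2 (by norm_num) (by positivity)]
  have b2 : c1 * c3 ≤ c1 ^ 2 * c3 := by
    have : c1 ≤ c1 ^ 2 := by nlinarith
    exact mul_le_mul_of_nonneg_right this (by linarith)
  have b3 : c1 ^ 2 ≤ c1 ^ 2 * c3 := by
    nlinarith [sq_nonneg c1]
  constructor
  · -- nondegeneracy
    intro z h1 h2 _ h3
    have hz : z = (z.1, 0, 0) := Prod.ext rfl (Prod.ext h1 h2)
    have h4 : z.1 = 0 := by
      refine hna z.1 fun k hk => ?_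
      rw [← hz]
      exact h3 k hk
    exact Prod.ext h4 (Prod.ext h1 h2)
  · -- a1
    have h := cnt (univ.filter fun z : EE E0 I => z ∈ EA A ∧ z.2.1 = 0 ∧ ∀ k ∈ A, B z (fy k) = 0)
      A (A.filter fun k => u k = 1) (hsub _) (fun z => (z.1, F z)) (fun z => z.2.2)
      (by
        intro a ha b hb hab hg
        rw [mem_filter] at ha hb
        obtain ⟨-, a1, a2, a3⟩ := ha
        obtain ⟨-, b1, b2, b3⟩ := hb
        rw [Prod.ext_iff] at hab
        obtain ⟨e1, e2⟩ := hab
        simp only at e1 e2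
        refine Prod.ext e1 (Prod.ext (by rw [a2, b2]) ?_)
        funext k
        by_cases hk : k ∈ A
        · by_cases hu : u k = 1
          · have h1 := a3 k hk
            have h2 := b3 k hk
            rw [hy, z1v a2, hu, e2, e1, one_mul, add_zero, add_comm] at h1
            rw [hy, z1v b2, hu, one_mul, add_zero, add_comm] at h2
            exact ad _ _ _ h1 h2
          · exact hg k hk (fun h => hu (mem_filter.1 h).2)
        · rw [(a1 k hk).2, (b1 k hk).2])
    have h' := fin _ _ _ 0 h hV2 (card_le_card (hsub _)) (by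
      rw [Fintype.card_prod]
      push_cast
      rw [zero_mul, pow_zero, mul_one]
      exact b1)
    simpa using h'
  · -- a2
    have h := cnt (univ.filter fun z : EE E0 I => z ∈ EA A ∧ z.2.2 = 0 ∧ ∀ k ∈ A, B z (fx k) = 0)
      A (A.filter fun k => ν k = 1) (hsub _) (fun z => (z.1, F z)) (fun z => z.2.1)
      (by
        intro a ha b hb hab hg
        rw [mem_filter] at ha hb
        obtain ⟨-, a1, a2, a3⟩ := ha
        obtain ⟨-, b1, b2, b3⟩ := hb
        rw [Prod.ext_iff] at hab
        obtain ⟨e1, e2⟩ := hab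
        simp only at e1 e2
        refine Prod.ext e1 (Prod.ext ?_ (by rw [a2, b2]))
        funext k
        by_cases hk : k ∈ A
        · by_cases hu : ν k = 1
          · have h1 := a3 k hk
            have h2 := b3 k hk
            rw [hx, z1v a2, hu, e2, e1, one_mul, add_zero, add_comm] at h1
            rw [hx, z1v b2, hu, one_mul, add_zero, add_comm] at h2
            exact ad _ _ _ h1 h2
          · exact hg k hk (fun h => hu (mem_filter.1 h).2)
        · rw [(a1 k hk).1, (b1 k hk).1])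
    have h' := fin _ _ _ 0 h hV1 (card_le_card (hsub _)) (by
      rw [Fintype.card_prod]
      push_cast
      rw [zero_mul, pow_zero, mul_one]
      exact b1)
    simpa using h'
  · -- a3
    have h := cnt (univ.filter fun z : EE E0 I => z ∈ EA A ∧ z.2.1 = z.2.2 ∧
        ∀ k ∈ A, B z (fx k) = B z (fy k))
      A (A.filter fun k => ν k = 1) (hsub _)
      (fun z => ((z.1, F z), G z.2.1)) (fun z => z.2.1)
      (by
        intro a ha b hb hab hg
        rw [mem_filter] at ha hb
        obtain ⟨-, a1, a2, a3⟩ := ha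
        obtain ⟨-, b1, b2, b3⟩ := hb
        simp only [Prod.mk.injEq] at hab
        obtain ⟨⟨e1, e2⟩, e3⟩ := hab
        have key : ∀ (z : EE E0 I) (k : I), z.2.1 = z.2.2 → ν k = 1 → B z (fx k) = B z (fy k) →
            (Φ k z.1 (F z) + Ψ k z.1 (F z) + Θ k (G z.2.1)) + z.2.1 k = 0 := by
          intro z k hz hn h
          rw [hx, hy, ← hz, hn] at h
          have h5 := hm z.2.1 k
          have h7 : ∀ K M1 M2 v f p t : ZMod 2, 1 * K + M1 + f = v * K + M2 + p →
              M1 + M2 = v * K + t → (f + p + t) + K = 0 := by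
            decide
          exact h7 _ _ _ _ _ _ _ h h5
        have hxy : a.2.1 = b.2.1 := by
          funext k
          by_cases hk : k ∈ A
          · by_cases hu : ν k = 1
            · have h1 := key a k a2 hu (a3 k hk)
              have h2 := key b k b2 hu (b3 k hk)
              rw [e1, e2, e3] at h1
              exact ad _ _ _ h1 h2
            · exact hg k hk (fun h => hu (mem_filter.1 h).2)
          · rw [(a1 k hk).1, (b1 k hk).1]
        exact Prod.ext e1 (Prod.ext hxy (by rw [← a2, ← b2, hxy])))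
    have h' := fin _ _ _ 0 h hV1 (card_le_card (hsub _)) (by
      rw [Fintype.card_prod, Fintype.card_prod]
      push_cast
      rw [zero_mul, pow_zero, mul_one]
      exact b2)
    simpa using h'
  · -- q2
    have h := cnt (univ.filter fun q : EE E0 I × EE E0 I => q.1 ∈ EA A ∧ q.2 ∈ EA A ∧
        q.1.2.2 = q.2.2.1 ∧ q.1.2.1 + q.1.2.2 + q.2.2.2 = 0 ∧
        ∀ k ∈ A, B q.1 (fx k) = B q.2 (fy k) ∧ B q.1 (fy k) + B q.1 (fx k) + B q.2 (fx k) = 0)
      A (A.filter fun k => ν k ≠ u k) (hsub _)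
      (fun q => (((q.1.1, F q.1), (q.2.1, F q.2)), fun k : A => q.1.2.2 k)) (fun q => q.1.2.1)
      (by
        intro a ha b hb hab hg
        rw [mem_filter] at ha hb
        obtain ⟨-, a1, a1', a2, a2', a3⟩ := ha
        obtain ⟨-, b1, b1', b2, b2', b3⟩ := hb
        simp only [Prod.mk.injEq] at hab
        obtain ⟨⟨⟨e1, e2⟩, e1', e2'⟩, e7⟩ := hab
        have hw : a.1.2.2 = b.1.2.2 := by
          funext k
          by_cases hk : k ∈ A
          · exact congrFun e7 ⟨k, hk⟩
          · rw [(a1 k hk).2, (b1 k hk).2]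
        have key : ∀ (q : EE E0 I × EE E0 I) (k : I), q.1.2.2 = q.2.2.1 →
            q.1.2.1 + q.1.2.2 + q.2.2.2 = 0 → ν k ≠ u k → B q.1 (fx k) = B q.2 (fy k) →
            (Φ k q.1.1 (F q.1) + Ψ k q.2.1 (F q.2) + Θ k (G q.1.2.2)) + q.1.2.1 k = 0 := by
          intro q k hq hq' hn h
          rw [hx, hy, ← hq] at h
          have h5 := hm q.1.2.2 k
          have h8 : q.1.2.1 k + q.1.2.2 k + q.2.2.2 k = 0 := congrFun hq' k
          have h7 : ∀ n v x w y M1 M2 f p t : ZMod 2, n ≠ v →
              n * x + M1 + f = v * y + M2 + p → M1 + M2 = v * w + t → x + w + y = 0 →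
              (f + p + t) + x = 0 := by
            decide
          exact h7 _ _ _ _ _ _ _ _ _ _ hn h h5 h8
        have hxx : a.1.2.1 = b.1.2.1 := by
          funext k
          by_cases hk : k ∈ A
          · by_cases hu : ν k ≠ u k
            · have h1 := key a k a2 a2' hu (a3 k hk).1
              have h2 := key b k b2 b2' hu (b3 k hk).1
              rw [e1, e1', e2, e2', hw] at h1
              exact ad _ _ _ h1 h2
            · exact hg k hk (fun h => hu (mem_filter.1 h).2)
          · rw [(a1 k hk).1, (b1 k hk).1]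
        have hyy : a.2.2.2 = b.2.2.2 := by
          rw [← vadd a2', ← vadd b2', hxx, hw]
        exact Prod.ext (Prod.ext e1 (Prod.ext hxx hw))
          (Prod.ext e1' (Prod.ext (by rw [← a2, ← b2, hw]) hyy)))
    have h' := fin _ _ _ 1 h hV3 (card_le_card (hsub _)) (by
      simp only [Fintype.card_prod, ZMod.card, Fintype.card_fun, Fintype.card_coe]
      push_cast
      rw [one_mul]
      refine mul_le_mul_of_nonneg_right ?_ (by positivity)
      refine le_trans (le_of_eq ?_) b3
      rw [hc1]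
      ring)
    exact h'
  · -- q3
    have h := cnt (univ.filter fun q : EE E0 I × EE E0 I => q.1 ∈ EA A ∧ q.2 ∈ EA A ∧
        q.1.2.2 = q.2.2.1 ∧ ∀ k ∈ A, B q.1 (fx k) = B q.2 (fy k))
      A (A.filter fun k => ν k = 1) (hsub _)
      (fun q => (((q.1.1, F q.1), (q.2.1, F q.2)),
        fun k : A => (q.1.2.2 k, q.2.2.2 k))) (fun q => q.1.2.1)
      (by
        intro a ha b hb hab hg
        rw [mem_filter] at ha hb
        obtain ⟨-, a1, a1', a2, a3⟩ := ha
        obtain ⟨-, b1, b1', b2, b3⟩ := hb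
        simp only [Prod.mk.injEq] at hab
        obtain ⟨⟨⟨e1, e2⟩, e1', e2'⟩, e7⟩ := hab
        have hw : a.1.2.2 = b.1.2.2 := by
          funext k
          by_cases hk : k ∈ A
          · exact (Prod.mk.inj (congrFun e7 ⟨k, hk⟩)).1
          · rw [(a1 k hk).2, (b1 k hk).2]
        have hy2 : a.2.2.2 = b.2.2.2 := by
          funext k
          by_cases hk : k ∈ A
          · exact (Prod.mk.inj (congrFun e7 ⟨k, hk⟩)).2
          · rw [(a1' k hk).2, (b1' k hk).2]
        have key : ∀ (q : EE E0 I × EE E0 I) (k : I), q.1.2.2 = q.2.2.1 →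
            ν k = 1 → B q.1 (fx k) = B q.2 (fy k) →
            (Φ k q.1.1 (F q.1) + Ψ k q.2.1 (F q.2) + Θ k (G q.1.2.2) + u k * q.1.2.2 k +
              u k * q.2.2.2 k) + q.1.2.1 k = 0 := by
          intro q k hq hn h
          rw [hx, hy, ← hq, hn] at h
          have h5 := hm q.1.2.2 k
          have h7 : ∀ v x w y M1 M2 f p t : ZMod 2,
              1 * x + M1 + f = v * y + M2 + p → M1 + M2 = v * w + t →
              (f + p + t + v * w + v * y) + x = 0 := by
            decide
          exact h7 _ _ _ _ _ _ _ _ _ h h5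
        have hxx : a.1.2.1 = b.1.2.1 := by
          funext k
          by_cases hk : k ∈ A
          · by_cases hu : ν k = 1
            · have h1 := key a k a2 hu (a3 k hk)
              have h2 := key b k b2 hu (b3 k hk)
              rw [e1, e1', e2, e2', hw, hy2] at h1
              exact ad _ _ _ h1 h2
            · exact hg k hk (fun h => hu (mem_filter.1 h).2)
          · rw [(a1 k hk).1, (b1 k hk).1]
        exact Prod.ext (Prod.ext e1 (Prod.ext hxx hw))
          (Prod.ext e1' (Prod.ext (by rw [← a2, ← b2, hw]) hy2)))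
    have h' := fin _ _ _ 2 h hV1 (card_le_card (hsub _)) (by
      simp only [Fintype.card_prod, ZMod.card, Fintype.card_fun, Fintype.card_coe]
      push_cast
      have e : (4 : ℝ) = 2 ^ 2 := by norm_num
      rw [e, ← pow_mul]
      refine mul_le_mul_of_nonneg_right ?_ (by positivity)
      refine le_trans (le_of_eq ?_) b3
      rw [hc1]
      ring)
    exact h'

end

end Pool.Agent.N916.MO
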